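import Pool.Agent.Lib.MP_5771ce_al.LibCoprime

/-!
# Section 4 of the chain `GROUP` (MP_5771ce_al): definitions

`Brick t p T T₀ D`: a `t`-group `T`, a subgroup `T₀` of `T` and a `p`-group `D` such that `T₀` is
normalised by `T` and `D`, `T` normalises `T₀ D`, `T/T₀` is cyclic of exponent dividing `p - 1` and
every `b ∈ T - T₀` satisfies `D ≤ T₀ [D, b]`.
-/

open Subgroup
open scoped Pointwise commutatorElement

namespace MP_5771ce_al

variable {G : Type*} [Group G]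

/-- Elementary abelian `t`-subgroups. -/
def ElemAb (t : ℕ) (B : Subgroup G) : Prop :=
  (∀ a ∈ B, ∀ b ∈ B, a * b = b * a) ∧ ∀ a ∈ B, a ^ t = 1

/-- `Ω₁(Z(T))` for a `t`-group `T`. -/
def omegaZ (t : ℕ) (T : Subgroup G) : Subgroup G where
  carrier := {z | z ∈ T ∧ z ^ t = 1 ∧ ∀ x ∈ T, x * z = z * x}
  mul_mem' := by
    rintro a b ⟨ha, ha1, ha2⟩ ⟨hb, hb1, hb2⟩
    refine ⟨mul_mem ha hb, ?_, ?_⟩
    · have hc : Commute a b := ha2 b hb |>.symm
      rw [hc.mul_pow, ha1, hb1, one_mul]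
    · intro x hx
      rw [← mul_assoc, ha2 x hx, mul_assoc, hb2 x hx, mul_assoc]
  one_mem' := ⟨one_mem _, one_pow _, by simp⟩
  inv_mem' := by
    rintro a ⟨ha, ha1, ha2⟩
    refine ⟨inv_mem ha, by rw [inv_pow, ha1, inv_one], ?_⟩
    intro x hx
    have h := ha2 x hx
    calc x * a⁻¹ = a⁻¹ * (a * x) * a⁻¹ := by group
      _ = a⁻¹ * (x * a) * a⁻¹ := by rw [h]
      _ = a⁻¹ * x := by group

/-- The Thompson subgroup: generated by the elementary abelian subgroups of maximal order. -/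
def thompson (t : ℕ) (T : Subgroup G) : Subgroup G :=
  sSup {B | B ≤ T ∧ ElemAb t B ∧ ∀ B' : Subgroup G, B' ≤ T → ElemAb t B' →
    Nat.card B' ≤ Nat.card B}

/-- `[D, b]`, the subgroup generated by the commutators `[d, b]`, `d ∈ D`. -/
def commEl (D : Subgroup G) (b : G) : Subgroup G :=
  closure {z | ∃ d ∈ D, ⁅d, b⁆ = z}

/-- See the head of the file. -/
structure Brick (t p : ℕ) (T T₀ D : Subgroup G) : Prop where
  pT : IsPGroup t T
  pD : IsPGroup p D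
  le : T₀ ≤ T
  nT : T ≤ normalizer T₀
  nD : D ≤ normalizer T₀
  nTD : T ≤ normalizer ((T₀ ⊔ D : Subgroup G) : Set G)
  cyc : ∃ c ∈ T, ∀ x ∈ T, ∃ n : ℤ, x * c ^ n ∈ T₀
  exp : ∀ b ∈ T, b ^ (p - 1) ∈ T₀
  gen : ∀ b ∈ T, b ∉ T₀ → D ≤ T₀ ⊔ commEl D b

/-- `D` centralises `N`. -/
def Centralises (D N : Subgroup G) : Prop := ∀ d ∈ D, ∀ n ∈ N, d * n = n * d

end MP_5771ce_al
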