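import Pool.Agent.Lib.MP_5771ce_al.LibDih

/-!
# Section 4.3: bricks, (B1), (B2), images and restrictions
-/

open Subgroup
open scoped Pointwise commutatorElement

namespace MP_5771ce_al

universe u

namespace Brick12Aux

variable {G : Type u} [Group G]

theorem mem_commEl {D : Subgroup G} {b d : G} (hd : d ∈ D) : ⁅d, b⁆ ∈ commEl D b :=
  subset_closure ⟨d, hd, rfl⟩

theorem commEl_le {D K : Subgroup G} {b : G} : commEl D b ≤ K ↔ ∀ d ∈ D, ⁅d, b⁆ ∈ K := by
  unfold commEl
  rw [closure_le]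
  constructor
  · intro h d hd
    exact h ⟨d, hd, rfl⟩
  · rintro h _ ⟨d, hd, rfl⟩
    exact h d hd

/-- `N_G(N)` normalises `C_G(N)`. -/
theorem normalizer_le_normalizer_centralizer (N : Subgroup G) :
    normalizer (N : Set G) ≤ normalizer ((centralizer (N : Set G) : Subgroup G) : Set G) := by
  have h : ∀ g ∈ normalizer (N : Set G), ∀ y ∈ centralizer (N : Set G),
      g * y * g⁻¹ ∈ centralizer (N : Set G) := by
    intro g hg y hy
    rw [mem_centralizer_iff]
    intro n hn
    have h1 : g⁻¹ * n * g ∈ N := mem_normalizer_conj' hg hn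
    have h2 := (mem_centralizer_iff.1 hy) _ h1
    calc n * (g * y * g⁻¹) = g * ((g⁻¹ * n * g) * y) * g⁻¹ := by group
      _ = g * (y * (g⁻¹ * n * g)) * g⁻¹ := by rw [h2]
      _ = g * y * g⁻¹ * n := by group
  intro g hg
  rw [mem_normalizer_iff]
  intro y
  refine ⟨h g hg y, fun hy => ?_⟩
  have := h g⁻¹ (inv_mem hg) _ hy
  convert this using 1
  group

theorem centralises_iff {D N : Subgroup G} : Centralises D N ↔ D ≤ centralizer (N : Set G) := by
  constructor
  · intro h d hd
    rw [mem_centralizer_iff]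
    intro n hn
    exact (h d hd n hn).symm
  · intro h d hd n hn
    exact ((mem_centralizer_iff.1 (h hd)) n hn).symm

theorem centralises_iff' {D N : Subgroup G} : Centralises D N ↔ N ≤ centralizer (D : Set G) := by
  constructor
  · intro h n hn
    rw [mem_centralizer_iff]
    intro d hd
    exact h d hd n hn
  · intro h d hd n hn
    exact (mem_centralizer_iff.1 (h hn)) d hd

theorem centralises_iff_commutator {D N : Subgroup G} : Centralises D N ↔ ⁅N, D⁆ = ⊥ := by
  rw [centralises_iff', commutator_eq_bot_iff_le_centralizer]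

/-- If `d` normalises `K` and `s ∈ K` then `(s d)^n ∈ K d^n`. -/
theorem mul_pow_mul_inv_mem {K : Subgroup G} {s d : G} (hd : d ∈ normalizer (K : Set G))
    (hs : s ∈ K) (n : ℕ) : (s * d) ^ n * (d ^ n)⁻¹ ∈ K := by
  induction n with
  | zero => simp
  | succ n ih =>
    have h1 : d ^ n * s * (d ^ n)⁻¹ ∈ K := mem_normalizer_conj (pow_mem hd n) hs
    have h2 := mul_mem ih h1
    have : (s * d) ^ (n + 1) * (d ^ (n + 1))⁻¹ =
        (s * d) ^ n * (d ^ n)⁻¹ * (d ^ n * s * (d ^ n)⁻¹) := by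
      rw [pow_succ, pow_succ]
      group
    rw [this]
    exact h2

/-- Bezout: if `d^m, d^n ∈ K` with `m`, `n` coprime then `d ∈ K`. -/
theorem mem_of_pow_mem_of_coprime {K : Subgroup G} {d : G} {m n : ℕ} (hmn : Nat.Coprime m n)
    (hm : d ^ m ∈ K) (hn : d ^ n ∈ K) : d ∈ K := by
  have h := Nat.gcd_eq_gcd_ab m n
  rw [hmn] at h
  have : d = (d ^ m) ^ (Nat.gcdA m n) * (d ^ n) ^ (Nat.gcdB m n) := by
    rw [← zpow_natCast, ← zpow_natCast, ← zpow_mul, ← zpow_mul, ← zpow_add, ← h]
    simp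
  rw [this]
  exact mul_mem (zpow_mem hm _) (zpow_mem hn _)

theorem exists_pow_eq_one {p : ℕ} {D : Subgroup G} (hD : IsPGroup p D) {d : G} (hd : d ∈ D) :
    ∃ k, d ^ (p ^ k) = 1 := by
  obtain ⟨k, hk⟩ := hD ⟨d, hd⟩
  exact ⟨k, congrArg Subtype.val hk⟩

/-- If `D` is a `p`-group contained in `S ⊔ C`, where `S` is a `t`-group normalising `C`, `t ≠ p`,
and `D` normalises `C`, then `D ≤ C`. -/
theorem le_of_le_sup_of_coprime {t p : ℕ} [Fact t.Prime] [Fact p.Prime] (htp : t ≠ p)
    {S C D : Subgroup G} (hS : IsPGroup t S) (hD : IsPGroup p D)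
    (hSC : S ≤ normalizer (C : Set G)) (h : D ≤ S ⊔ C) : D ≤ C := by
  intro d hd
  obtain ⟨s, hs, c, hc, rfl⟩ := (mem_sup_of_le_normalizer hSC).1 (by rw [sup_comm]; exact h hd)
  obtain ⟨k, hk⟩ := exists_pow_eq_one hD hd
  obtain ⟨m, hm⟩ := exists_pow_eq_one hS hs
  -- `s = (s c) c⁻¹`, so `s ^ n ∈ C (s c)^n`-like: use `s` modulo `C`
  have h1 : ∀ n : ℕ, (s * c) ^ n * (s ^ n)⁻¹ ∈ C := by
    intro n
    have hc' : s * c * s⁻¹ ∈ C := mem_normalizer_conj (hSC hs) hc
    have := mul_pow_mul_inv_mem (K := C) (d := s) (hSC hs) hc' n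
    have e : s * c * s⁻¹ * s = s * c := by group
    rw [e] at this
    exact this
  have hs1 : s ^ (p ^ k) ∈ C := by
    have := h1 (p ^ k)
    rw [hk, one_mul] at this
    exact (inv_mem_iff).1 this
  have hs2 : s ^ (t ^ m) ∈ C := by rw [hm]; exact one_mem C
  have hcop : Nat.Coprime (p ^ k) (t ^ m) :=
    Nat.Coprime.pow _ _ ((Nat.coprime_primes Fact.out Fact.out).2 (Ne.symm htp))
  exact mul_mem (mem_of_pow_mem_of_coprime hcop hs1 hs2) hc

end Brick12Aux

open Brick12Aux

section Bricks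

variable {G : Type u} [Group G] [Finite G] {t p : ℕ} [Fact t.Prime] [Fact p.Prime]
  {T T₀ D N : Subgroup G}

/-- (B1) -/
theorem Brick.centralises (hB : Brick t p T T₀ D) (htp : t ≠ p) (_hN : IsPGroup t N)
    (hTN : T ≤ normalizer (N : Set G)) (hDN : D ≤ normalizer (N : Set G)) {b : G} (hb : b ∈ T)
    (hb0 : b ∉ T₀) (hc : ∀ n ∈ N, b * n = n * b) : Centralises D N := by
  rw [centralises_iff]
  have hbC : b ∈ centralizer (N : Set G) := by
    rw [mem_centralizer_iff]
    intro n hn
    exact (hc n hn).symm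
  have hnC := normalizer_le_normalizer_centralizer N
  have h1 : commEl D b ≤ centralizer (N : Set G) := by
    rw [commEl_le]
    intro d hd
    have h2 : d * b * d⁻¹ ∈ centralizer (N : Set G) := mem_normalizer_conj (hnC (hDN hd)) hbC
    rw [commutatorElement_def]
    exact mul_mem h2 (inv_mem hbC)
  refine le_of_le_sup_of_coprime htp (hB.pT.to_le hB.le) hB.pD
    (hB.le.trans (hTN.trans hnC)) ?_
  exact (hB.gen b hb hb0).trans (sup_le_sup_left h1 _)

/-- (B2) -/
theorem Brick.centralizer_le (hB : Brick t p T T₀ D) (htp : t ≠ p) (hni : ¬ Centralises D T₀)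
    {b : G} (hb : b ∈ T) (hc : ∀ n ∈ T₀, b * n = n * b) : b ∈ T₀ := by
  by_contra hb0
  exact hni (hB.centralises htp (hB.pT.to_le hB.le) hB.nT hB.nD hb hb0 hc)

omit [Finite G] [Fact t.Prime] [Fact p.Prime] in
theorem Brick12Aux.map_commEl {H : Type u} [Group H] (f : G →* H) (D : Subgroup G) (b : G) :
    (commEl D b).map f = commEl (D.map f) (f b) := by
  apply le_antisymm
  · rw [map_le_iff_le_comap, commEl_le]
    intro d hd
    rw [mem_comap, map_commutatorElement]
    exact mem_commEl (mem_map_of_mem f hd)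
  · rw [commEl_le]
    rintro _ ⟨d, hd, rfl⟩
    rw [← map_commutatorElement]
    exact mem_map_of_mem f (mem_commEl hd)

omit [Finite G] [Fact t.Prime] [Fact p.Prime] in
theorem Brick12Aux.map_le_normalizer {H : Type u} [Group H] (f : G →* H) {K N : Subgroup G}
    (h : K ≤ normalizer (N : Set G)) : K.map f ≤ normalizer ((N.map f : Subgroup H) : Set H) := by
  rintro _ ⟨k, hk, rfl⟩
  have h1 : ∀ k ∈ K, ∀ y ∈ N.map f, f k * y * (f k)⁻¹ ∈ N.map f := by
    rintro k hk _ ⟨n, hn, rfl⟩
    rw [← map_mul, ← map_inv, ← map_mul]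
    exact mem_map_of_mem f (mem_normalizer_conj (h hk) hn)
  rw [mem_normalizer_iff]
  intro y
  refine ⟨h1 k hk y, fun hy => ?_⟩
  have := h1 k⁻¹ (inv_mem hk) _ hy
  rw [map_inv] at this
  convert this using 1
  group

set_option linter.unusedSectionVars false in
omit [Finite G] in
/-- Images of bricks under homomorphisms. -/
theorem Brick.map {H : Type u} [Group H] (hB : Brick t p T T₀ D) (f : G →* H) :
    Brick t p (T.map f) (T₀.map f) (D.map f) where
  pT := hB.pT.map f
  pD := hB.pD.map f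
  le := map_mono hB.le
  nT := map_le_normalizer f hB.nT
  nD := map_le_normalizer f hB.nD
  nTD := by
    rw [← Subgroup.map_sup]
    exact map_le_normalizer f hB.nTD
  cyc := by
    obtain ⟨c, hc, h⟩ := hB.cyc
    refine ⟨f c, mem_map_of_mem f hc, ?_⟩
    rintro _ ⟨x, hx, rfl⟩
    obtain ⟨n, hn⟩ := h x hx
    refine ⟨n, ?_⟩
    rw [← map_zpow, ← map_mul]
    exact mem_map_of_mem f hn
  exp := by
    rintro _ ⟨b, hb, rfl⟩
    rw [← map_pow]
    exact mem_map_of_mem f (hB.exp b hb)
  gen := by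
    rintro _ ⟨b, hb, rfl⟩ hfb
    have hb0 : b ∉ T₀ := fun h => hfb (mem_map_of_mem f h)
    rw [← map_commEl, ← Subgroup.map_sup]
    exact map_mono (hB.gen b hb hb0)

set_option linter.unusedSectionVars false in
omit [Finite G] in
/-- Bricks in subgroups. -/
theorem Brick.subgroupOf (hB : Brick t p T T₀ D) {H : Subgroup G} (hT : T ≤ H) (hD : D ≤ H) :
    Brick t p (T.subgroupOf H) (T₀.subgroupOf H) (D.subgroupOf H) := by
  have hT₀ : T₀ ≤ H := hB.le.trans hT
  have hnorm : ∀ {K N : Subgroup G}, K ≤ normalizer (N : Set G) →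
      K.subgroupOf H ≤ normalizer ((N.subgroupOf H : Subgroup H) : Set H) := by
    intro K N h k hk
    rw [mem_subgroupOf] at hk
    rw [mem_normalizer_iff]
    intro y
    rw [mem_subgroupOf, mem_subgroupOf]
    exact (mem_normalizer_iff.1 (h hk)) y
  have hsup : ∀ {K L : Subgroup G}, K ≤ H → L ≤ H →
      (K ⊔ L).subgroupOf H = K.subgroupOf H ⊔ L.subgroupOf H := by
    intro K L hK hL
    apply map_injective H.subtype_injective
    rw [Subgroup.map_sup, subgroupOf_map_subtype, subgroupOf_map_subtype, subgroupOf_map_subtype,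
      inf_eq_left.2 (sup_le hK hL), inf_eq_left.2 hK, inf_eq_left.2 hL]
  refine ⟨?_, ?_, ?_, hnorm hB.nT, hnorm hB.nD, ?_, ?_, ?_, ?_⟩
  · exact hB.pT.comap_of_injective H.subtype H.subtype_injective
  · exact hB.pD.comap_of_injective H.subtype H.subtype_injective
  · exact fun x hx => hB.le hx
  · rw [← hsup hT₀ hD]
    exact hnorm hB.nTD
  · obtain ⟨c, hc, h⟩ := hB.cyc
    refine ⟨⟨c, hT hc⟩, hc, fun x hx => ?_⟩
    obtain ⟨n, hn⟩ := h x hx
    exact ⟨n, hn⟩
  · intro b hb
    exact hB.exp b hb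
  · intro b hb hb0
    have h1 := hB.gen b hb hb0
    have h2 : commEl (D.subgroupOf H) b = (commEl D (b : G)).subgroupOf H := by
      apply map_injective H.subtype_injective
      rw [map_commEl, subgroupOf_map_subtype, subgroupOf_map_subtype, inf_eq_left.2 hD]
      symm
      apply inf_eq_left.2
      rw [commEl_le]
      intro d hd
      rw [commutatorElement_def]
      exact mul_mem (mul_mem (mul_mem (hD hd) b.2) (inv_mem (hD hd))) (inv_mem b.2)
    have h3 : commEl D (b : G) ≤ H := by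
      rw [commEl_le]
      intro d hd
      rw [commutatorElement_def]
      exact mul_mem (mul_mem (mul_mem (hD hd) b.2) (inv_mem (hD hd))) (inv_mem b.2)
    rw [h2, ← hsup hT₀ h3]
    exact fun x hx => h1 hx

end Bricks

end MP_5771ce_al
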