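import Pool.Agent.Lib.MP_5771ce_al.Iso
import Pool.Agent.Lib.MP_5771ce_al.S4.Defs

/-!
# Section 4 of `GROUP` (MP_5771ce_al): cores, rigid pairs, the subgroups `V_p` and `M(A, P)`
-/

open Subgroup
open scoped Pointwise commutatorElement

namespace MP_5771ce_al

universe u

variable {G : Type u} [Group G]

/-- `core_L(A)`: the largest subgroup of `A` that is a normal subgroup of `L` (for `A ≤ L`). -/
def coreIn (A L : Subgroup G) : Subgroup G := sSup {N | NormalIn N L ∧ N ≤ A}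

theorem coreIn_le (A L : Subgroup G) : coreIn A L ≤ A := sSup_le fun _ h => h.2

theorem le_coreIn {A L N : Subgroup G} (hN : NormalIn N L) (h : N ≤ A) : N ≤ coreIn A L :=
  le_sSup ⟨hN, h⟩

theorem coreIn_normalIn [Finite G] (A L : Subgroup G) : NormalIn (coreIn A L) L :=
  (sSup_mem_of_sup (P := fun N => N ≤ A) (E := L) bot_le
    fun _ _ _ _ h1 h2 => sup_le h1 h2).1

/-- `V_p = [core_{AP}(A), P]`. -/
def vsub (A P : Subgroup G) : Subgroup G := ⁅coreIn A (A ⊔ P), P⁆

/-- `M(A, P) = N_G(V_p P)`. -/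
def bigM (A P : Subgroup G) : Subgroup G := normalizer ((vsub A P ⊔ P : Subgroup G) : Set G)

/-- `(A, P)` is rigid: `P` is a Sylow `p`-subgroup of `G` permuting with `A`, `p` does not divide
`|A|` and `P` does not normalise `A`. -/
structure Rigid (p : ℕ) (A P : Subgroup G) : Prop extends SylPerm p A P where
  ndvd : ¬ p ∣ Nat.card A
  nn : ¬ P ≤ normalizer (A : Set G)

/-- The conclusion of Lemma S: `(T, T₀, D)` is a brick with `AD = AP`. -/
structure SBrick (t p : ℕ) (A P T T₀ D : Subgroup G) : Prop extends Brick t p T T₀ D where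
  ne : T₀ ≠ T
  D_le : D ≤ P
  sup_eq : A ⊔ D = A ⊔ P
  n₀ : A ⊔ P ≤ normalizer (T₀ : Set G)
  n₀D : A ⊔ P ≤ normalizer ((T₀ ⊔ D : Subgroup G) : Set G)
  dvd : t ∣ p - 1
  le_comm : D ≤ T₀ ⊔ ⁅D, T⁆

/-- The situation after (4.6.1): a minimal counterexample without isolated pairs in which `F(A)` is
a `2`-group. -/
structure NoIso2 (A : Subgroup G) : Prop where
  mc : MC A
  noIso : ∀ p : ℕ, p.Prime → ∀ D : Subgroup G, ¬ IsoPair A p D
  two : opc 2 A ≠ ⊥
  odd : ∀ s : ℕ, s.Prime → s ≠ 2 → opc s A = ⊥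

end MP_5771ce_al
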