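import Pool.Agent.Lib.MP_5771ce_al.S4.Defs
import Pool.Agent.Lib.MP_5771ce_al.LibCore

/-!
# Lemma S, part (S6) (chain `GROUP`, section 4.2)
-/

open Subgroup
open scoped Pointwise commutatorElement

namespace MP_5771ce_al

universe u

/-- In a `p`-group meeting a group of order prime to `p` the intersection is trivial. -/
theorem LemS6Aux.eq_one_of_mem {L : Type u} [Group L] [Finite L] {A P : Subgroup L} {p : ℕ}
    [Fact p.Prime] (hP : IsPGroup p P) (hpA : ¬ p ∣ Nat.card A) {y : L} (hyA : y ∈ A)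
    (hyP : y ∈ P) : y = 1 := by
  obtain ⟨k, hk⟩ := (IsPGroup.iff_orderOf.1 hP) ⟨y, hyP⟩
  rw [← Subgroup.orderOf_coe] at hk
  have hd : orderOf y ∣ Nat.card A := by
    have := orderOf_dvd_natCard (⟨y, hyA⟩ : A)
    rwa [← Subgroup.orderOf_coe] at this
  rcases Nat.eq_zero_or_pos k with h0 | h0
  · rw [h0, pow_zero] at hk
    exact orderOf_eq_one_iff.1 hk
  · exfalso
    apply hpA
    refine dvd_trans ?_ hd
    rw [show orderOf y = p ^ k from hk]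
    exact dvd_pow_self p h0.ne'

/-- A `2`-group and a `p`-group, `p` odd, have trivial intersection. -/
theorem LemS6Aux.eq_one_of_mem' {L : Type u} [Group L] [Finite L] {T P : Subgroup L} {p : ℕ}
    [Fact p.Prime] (hp2 : p ≠ 2) (hT : IsPGroup 2 T) (hP : IsPGroup p P) {y : L} (hyT : y ∈ T)
    (hyP : y ∈ P) : y = 1 := by
  have h2 : Fact (Nat.Prime 2) := ⟨Nat.prime_two⟩
  refine LemS6Aux.eq_one_of_mem hP (fun hd => ?_) hyT hyP
  obtain ⟨n, hn⟩ := IsPGroup.iff_card.1 hT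
  rw [hn] at hd
  have := (Nat.prime_dvd_prime_iff_eq (Fact.out : p.Prime) Nat.prime_two).1
    ((Fact.out : p.Prime).dvd_of_dvd_pow hd)
  exact hp2 this

/-- The computation: `β² = 1`, `υ = ζ⁻¹ β ζ β⁻¹`, then `β` inverts `υ`. -/
theorem LemS6Aux.calc_inv {Q : Type u} [Group Q] {β ζ υ : Q} (h2 : β * β = 1)
    (h : ζ⁻¹ * (β * ζ * β⁻¹) = υ) : β * υ * β⁻¹ * υ = 1 := by
  have hb : β⁻¹ = β := inv_eq_of_mul_eq_one_right h2
  rw [← h, hb]
  have h3 : ∀ x : Q, x * β * β = x := fun x => by rw [mul_assoc, h2, mul_one]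
  calc β * (ζ⁻¹ * (β * ζ * β)) * β * (ζ⁻¹ * (β * ζ * β))
      = (β * ζ⁻¹ * β * ζ) * β * β * (ζ⁻¹ * β * ζ * β) := by simp only [mul_assoc]
    _ = (β * ζ⁻¹) * β * β * (ζ * β) := by rw [h3]; simp only [mul_assoc, mul_inv_cancel_left]
    _ = β * β := by rw [h3]; simp only [mul_assoc, inv_mul_cancel_left]
    _ = 1 := h2

/-- (S6): if `p` does not divide `|A|` and `|T : T₀| = 2` then `T - T₀` inverts `D = P` modulo `T₀`,
and `P` is abelian. -/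
theorem lemmaS6 {L : Type u} [Group L] [Finite L] {A P T T₀ D : Subgroup L}
    (hAP : Permutes A P) (htop : A ⊔ P = ⊤) {p : ℕ} [Fact p.Prime] (hp2 : p ≠ 2)
    (hP : IsPGroup p P) (hpA : ¬ p ∣ Nat.card A) (hD : D ≤ P) (hB : Brick 2 p T T₀ D)
    (hAD : A ⊔ D = ⊤) (hTD : (T₀ ⊔ D).Normal) (hTA : T ≤ A)
    (h5 : ∀ y ∈ P, (∀ x ∈ T, ⁅y, x⁆ ∈ T₀) → y ∈ A) (h2 : T₀.relIndex T = 2) :
    D = P ∧ (∀ x ∈ P, ∀ y ∈ P, x * y = y * x) ∧ ∀ b ∈ T, b ∉ T₀ → ∀ y ∈ P, b * y * b⁻¹ * y ∈ T₀ := by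
  have _h1 := hAP
  have _h3 := htop
  -- elements of `A ⊓ P` are trivial
  have hAP1 : ∀ y, y ∈ A → y ∈ P → y = 1 := fun y => LemS6Aux.eq_one_of_mem hP hpA
  -- `T₀ ⊔ D` consists of the products
  have hT0D : ∀ n ∈ T₀ ⊔ D, ∃ t ∈ T₀, ∃ d ∈ D, t * d = n := fun n hn =>
    (mem_sup_of_le_normalizer' hB.nD).1 hn
  have hDP : P ≤ D := by
    intro y hy
    have hy1 : y ∈ A ⊔ (T₀ ⊔ D) := by
      have : (⊤ : Subgroup L) ≤ A ⊔ (T₀ ⊔ D) := by
        rw [← hAD]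
        exact sup_le_sup_left le_sup_right A
      exact this (mem_top y)
    have hle : A ≤ normalizer ((T₀ ⊔ D : Subgroup L) : Set L) := by
      rw [Subgroup.normalizer_eq_top_iff.2 hTD]
      exact le_top
    rw [sup_comm] at hy1
    obtain ⟨a, ha, n, hn, rfl⟩ := (mem_sup_of_le_normalizer hle).1 hy1
    obtain ⟨t, ht, d, hd, rfl⟩ := hT0D n hn
    have hat : a * t = 1 := by
      apply hAP1
      · exact mul_mem ha (hTA (hB.le ht))
      · have : a * t = (a * (t * d)) * d⁻¹ := by group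
        rw [this]
        exact mul_mem hy (inv_mem (hD hd))
    have : a * (t * d) = d := by rw [← mul_assoc, hat, one_mul]
    rw [this]
    exact hd
  have hDP' : D = P := le_antisymm hD hDP
  subst hDP'
  -- `T₀ ⊓ P = 1`
  have hTP : ∀ y, y ∈ T₀ → y ∈ D → y = 1 := fun y h =>
    LemS6Aux.eq_one_of_mem' hp2 hB.pT hP (hB.le h)
  -- products of two elements of `T - T₀`
  have hmul : ∀ x ∈ T, ∀ b ∈ T, x ∉ T₀ → b ∉ T₀ → x * b ∈ T₀ := by
    intro x hx b hb hx0 hb0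
    have hi : (T₀.subgroupOf T).index = 2 := h2
    have := (Subgroup.mul_mem_iff_of_index_two hi (a := (⟨x, hx⟩ : T)) (b := ⟨b, hb⟩)).2
      (by simp [Subgroup.mem_subgroupOf, hx0, hb0])
    exact this
  have key : ∀ b ∈ T, b ∉ T₀ → ∀ y ∈ D, ⁅y, b⁆ ∈ T₀ → y = 1 := by
    intro b hb hb0 y hy hyb
    apply hAP1 y _ hy
    apply h5 y hy
    intro x hx
    have hyn := hB.nD hy
    rw [mem_normalizer_iff] at hyn
    by_cases hx0 : x ∈ T₀
    · rw [commutatorElement_def]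
      exact mul_mem ((hyn x).1 hx0) (inv_mem hx0)
    · -- `x = t b` with `t = x b⁻¹ ∈ T₀`
      have ht : x * b⁻¹ ∈ T₀ := hmul x hx b⁻¹ (inv_mem hb) hx0 (fun h => hb0 (by simpa using h))
      have : ⁅y, x⁆ = (y * (x * b⁻¹) * y⁻¹) * ⁅y, b⁆ * (x * b⁻¹)⁻¹ := by
        rw [commutatorElement_def, commutatorElement_def]
        group
      rw [this]
      exact mul_mem (mul_mem ((hyn _).1 ht) hyb) (inv_mem ht)
  -- the quotient map
  let H := normalizer (T₀ : Set L)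
  have hN : (T₀.subgroupOf H).Normal := by
    exact Subgroup.normal_in_normalizer
  let π : H →* H ⧸ (T₀.subgroupOf H) := QuotientGroup.mk' _
  have hπ : ∀ z : H, π z = 1 ↔ (z : L) ∈ T₀ := by
    intro z
    exact (QuotientGroup.eq_one_iff z)
  have hinv : ∀ b ∈ T, b ∉ T₀ → ∀ y ∈ D, b * y * b⁻¹ * y ∈ T₀ := by
    intro b hb hb0
    -- the map `φ`
    have hex : ∀ y : D, ∃ z : D, ∃ t ∈ T₀, t * (z : L) = (y : L)⁻¹ * (b * y * b⁻¹) := by
      intro y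
      have hm : (y : L)⁻¹ * (b * y * b⁻¹) ∈ T₀ ⊔ D := by
        have hy : (y : L) ∈ T₀ ⊔ D := (le_sup_right : D ≤ T₀ ⊔ D) y.2
        exact mul_mem (inv_mem hy) (hTD.conj_mem _ hy b)
      obtain ⟨t, ht, d, hd, h⟩ := hT0D _ hm
      exact ⟨⟨d, hd⟩, t, ht, h⟩
    choose φ hφ using hex
    have hφinj : Function.Injective φ := by
      intro y z hyz
      obtain ⟨t, ht, h1⟩ := hφ y
      obtain ⟨s, hs, h3⟩ := hφ z
      rw [← hyz] at h3
      -- `(y⁻¹ b y b⁻¹) (z⁻¹ b z b⁻¹)⁻¹ ∈ T₀`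
      have h4 : ((y : L)⁻¹ * (b * y * b⁻¹)) * ((z : L)⁻¹ * (b * z * b⁻¹))⁻¹ ∈ T₀ := by
        rw [← h1, ← h3]
        have : t * (φ y : L) * (s * (φ y : L))⁻¹ = t * s⁻¹ := by group
        rw [this]
        exact mul_mem ht (inv_mem hs)
      have hzn := hB.nD z.2
      rw [mem_normalizer_iff] at hzn
      have h5' := (hzn _).1 h4
      have h6 : ⁅(z : L) * (y : L)⁻¹, b⁆ ∈ T₀ := by
        have : ⁅(z : L) * (y : L)⁻¹, b⁆ = (z : L) * (((y : L)⁻¹ * (b * y * b⁻¹)) *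
          ((z : L)⁻¹ * (b * z * b⁻¹))⁻¹) * (z : L)⁻¹ := by
          rw [commutatorElement_def]
          group
        rw [this]
        exact h5'
      have h7 := key b hb hb0 _ (mul_mem z.2 (inv_mem y.2)) h6
      apply Subtype.ext
      exact (mul_inv_eq_one.1 h7).symm
    have hφsurj : Function.Surjective φ := Finite.surjective_of_injective hφinj
    intro y hy
    obtain ⟨z, hz⟩ := hφsurj ⟨y, hy⟩
    obtain ⟨t, ht, h1⟩ := hφ z
    rw [hz] at h1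
    have hbH : b ∈ H := hB.nT hb
    have hyH : y ∈ H := hB.nD hy
    have hzH : (z : L) ∈ H := hB.nD z.2
    have htH : t ∈ H := hB.nT (hB.le ht)
    have hb2 : π ⟨b, hbH⟩ * π ⟨b, hbH⟩ = 1 := by
      rw [← map_mul, hπ]
      exact hmul b hb b hb hb0 hb0
    have h8 : (π ⟨z, hzH⟩)⁻¹ * (π ⟨b, hbH⟩ * π ⟨z, hzH⟩ * (π ⟨b, hbH⟩)⁻¹) = π ⟨y, hyH⟩ := by
      have ht1 : π ⟨t, htH⟩ = 1 := (hπ _).2 ht
      have h9 : (⟨z, hzH⟩ : H)⁻¹ * (⟨b, hbH⟩ * ⟨z, hzH⟩ * (⟨b, hbH⟩)⁻¹) = ⟨t, htH⟩ * ⟨y, hyH⟩ := by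
        apply Subtype.ext
        simpa using h1.symm
      rw [← map_inv, ← map_inv, ← map_mul, ← map_mul, ← map_mul, h9, map_mul, ht1, one_mul]
    have h9 := LemS6Aux.calc_inv hb2 h8
    rw [← map_inv, ← map_mul, ← map_mul, ← map_mul, hπ] at h9
    exact h9
  refine ⟨rfl, ?_, hinv⟩
  obtain ⟨b, hb, hb0⟩ : ∃ b ∈ T, b ∉ T₀ := by
    by_contra hcon
    push Not at hcon
    have : T₀.relIndex T = 1 := Subgroup.relIndex_eq_one.2 hcon
    omega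
  intro x hx y hy
  have hbH : b ∈ H := hB.nT hb
  have hxH : x ∈ H := hB.nD hx
  have hyH : y ∈ H := hB.nD hy
  have e1 : ∀ u (hu : u ∈ D), π ⟨b, hbH⟩ * π ⟨u, hB.nD hu⟩ * (π ⟨b, hbH⟩)⁻¹ = (π ⟨u, hB.nD hu⟩)⁻¹ := by
    intro u hu
    rw [eq_inv_iff_mul_eq_one, ← map_inv, ← map_mul, ← map_mul, ← map_mul, hπ]
    exact hinv b hb hb0 u hu
  have e2 : π ⟨x, hxH⟩ * π ⟨y, hyH⟩ = π ⟨y, hyH⟩ * π ⟨x, hxH⟩ := by
    have h1 := e1 x hx
    have h3 := e1 y hy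
    have h4 := e1 (x * y) (mul_mem hx hy)
    have h5' : π ⟨x * y, hB.nD (mul_mem hx hy)⟩ = π ⟨x, hxH⟩ * π ⟨y, hyH⟩ := by
      rw [← map_mul]; rfl
    rw [h5'] at h4
    have h6 : π ⟨b, hbH⟩ * (π ⟨x, hxH⟩ * π ⟨y, hyH⟩) * (π ⟨b, hbH⟩)⁻¹ =
        (π ⟨x, hxH⟩)⁻¹ * (π ⟨y, hyH⟩)⁻¹ := by
      rw [← h1, ← h3]; group
    rw [h6, ← mul_inv_rev] at h4
    exact (inv_injective h4).symm
  have e3 : ⁅x, y⁆ ∈ T₀ := by
    have : π ⁅(⟨x, hxH⟩ : H), (⟨y, hyH⟩ : H)⁆ = 1 := by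
      rw [map_commutatorElement, commutatorElement_eq_one_iff_mul_comm]
      exact e2
    rw [hπ] at this
    exact this
  have e4 : ⁅x, y⁆ ∈ D := by
    rw [commutatorElement_def]
    exact mul_mem (mul_mem (mul_mem hx hy) (inv_mem hx)) (inv_mem hy)
  exact commutatorElement_eq_one_iff_mul_comm.1 (hTP _ e3 e4)

end MP_5771ce_al
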