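import Pool.Agent.Lib.MP_5771ce_al.S4.LemS
import Pool.Agent.Lib.MP_5771ce_al.S4.LemS6
import Pool.Agent.Lib.MP_5771ce_al.S4.Brick12
import Pool.Agent.Lib.MP_5771ce_al.S4.Ctx

/-!
# Lemma S, relative form
-/

open Subgroup
open scoped Pointwise commutatorElement

namespace MP_5771ce_al

universe u

namespace LemSAux

theorem le_normalizer_map_subtype {G : Type*} [Group G] {E : Subgroup G} {N : Subgroup E}
    (hN : N.Normal) : E ≤ normalizer ((N.map E.subtype : Subgroup G) : Set G) := by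
  have h := le_normalizer_map (H := N) E.subtype
  rw [normalizer_eq_top_iff.2 hN, map_subtype_top] at h
  exact h

theorem relIndex_eq_two {G : Type*} [Group G] {T T₀ : Subgroup G} {c : G} (hc : c ∈ T)
    (hcyc : ∀ x ∈ T, ∃ n : ℤ, x * c ^ n ∈ T₀) (hsq : ∀ b ∈ T, b ^ 2 ∈ T₀) {b : G} (hb : b ∈ T)
    (hb0 : b ∉ T₀) : T₀.relIndex T = 2 := by
  have hc2 : ∀ m : ℤ, c ^ (2 * m) ∈ T₀ := by
    intro m
    rw [zpow_mul]
    exact T₀.zpow_mem (by exact_mod_cast hsq c hc) m
  have hc0 : c ∉ T₀ := by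
    intro h
    obtain ⟨n, hn⟩ := hcyc b hb
    apply hb0
    have := T₀.mul_mem hn (T₀.inv_mem (T₀.zpow_mem h n))
    rwa [mul_inv_cancel_right] at this
  unfold relIndex
  rw [index_eq_two_iff]
  refine ⟨⟨c, hc⟩, fun x => ?_⟩
  rw [mem_subgroupOf, mem_subgroupOf]
  change Xor (x.1 * c ∈ T₀) (x.1 ∈ T₀)
  by_cases hx : x.1 ∈ T₀
  · refine Or.inr ⟨hx, fun h => hc0 ?_⟩
    have := T₀.mul_mem (T₀.inv_mem hx) h
    rwa [inv_mul_cancel_left] at this
  · refine Or.inl ⟨?_, hx⟩
    obtain ⟨n, hn⟩ := hcyc x.1 x.2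
    rcases Int.even_or_odd' n with ⟨m, rfl | rfl⟩
    · exfalso
      apply hx
      have := T₀.mul_mem hn (T₀.inv_mem (hc2 m))
      rwa [mul_inv_cancel_right] at this
    · have h1 : x.1 * c ^ (2 * m + 1) = x.1 * c * c ^ (2 * m) := by
        rw [add_comm, zpow_add, zpow_one]
        group
      rw [h1] at hn
      have := T₀.mul_mem hn (T₀.inv_mem (hc2 m))
      rwa [mul_inv_cancel_right] at this

end LemSAux

open LemSAux

variable {G : Type u} [Group G] [Finite G] {A P : Subgroup G} {p : ℕ} [Fact p.Prime]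

/-- Lemma S. -/
theorem lemmaSrel {T : Subgroup G} {t : ℕ} [Fact t.Prime] (htp : t ≠ p) (hA : HerPermutable A)
    (hP : IsPGroup p P) (hAP : Permutes A P) (hPs : ¬ p ∣ P.relIndex (A ⊔ P))
    (hsol : Group.IsSolvable (A ⊔ P : Subgroup G)) (hTA : T ≤ A) (hTn : A ≤ normalizer (T : Set G))
    (hTt : IsPGroup t T)
    (hTmax : ∀ N : Subgroup G, N ≤ A → A ≤ normalizer (N : Set G) → IsPGroup t N → N ≤ T)
    (hn : ¬ P ≤ normalizer (T : Set G)) :
    ∃ T₀ D : Subgroup G, SBrick t p A P T T₀ D ∧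
      (∀ y ∈ P, (∀ x ∈ T, ⁅y, x⁆ ∈ T₀) → y ∈ A) ∧ (¬ p ∣ Nat.card A → D = P) ∧
      (¬ p ∣ Nat.card A → (∀ b ∈ T, b ^ 2 ∈ T₀) → (∀ x ∈ P, ∀ y ∈ P, x * y = y * x) ∧
        ∀ b ∈ T, b ∉ T₀ → ∀ y ∈ P, b * y * b⁻¹ * y ∈ T₀) := by
  obtain ⟨E, hE⟩ : ∃ E : Subgroup G, E = A ⊔ P := ⟨_, rfl⟩
  have hAE : A ≤ E := by rw [hE]; exact le_sup_left
  have hPE : P ≤ E := by rw [hE]; exact le_sup_right
  have hTE : T ≤ E := hTA.trans hAE
  rw [← hE] at hPs hsol
  have hinj := E.subtype_injective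
  have hmA : (A.subgroupOf E).map E.subtype = A := map_subtype_subgroupOf hAE
  have hmP : (P.subgroupOf E).map E.subtype = P := map_subtype_subgroupOf hPE
  have hmT : (T.subgroupOf E).map E.subtype = T := map_subtype_subgroupOf hTE
  have hA' : HerPermutable (A.subgroupOf E) := hA.subgroupOf hAE
  have hAP' : Permutes (A.subgroupOf E) (P.subgroupOf E) := by
    refine permutes_of_map hinj ?_
    rwa [hmA, hmP]
  have htop' : A.subgroupOf E ⊔ P.subgroupOf E = ⊤ := by
    apply map_injective hinj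
    rw [Subgroup.map_sup, hmA, hmP, map_subtype_top, hE]
  have hPp' : IsPGroup p (P.subgroupOf E) := hP.comap_subtype
  have hPi' : ¬ p ∣ (P.subgroupOf E).index := hPs
  have hTn' : A.subgroupOf E ≤ normalizer (T.subgroupOf E : Set E) := by
    intro a ha
    rw [mem_normalizer_iff]
    intro x
    have := (mem_normalizer_iff.1 (hTn (mem_subgroupOf.1 ha))) x
    rw [mem_subgroupOf, mem_subgroupOf]
    exact this
  have hTmax' : ∀ V : Subgroup E, V ≤ A.subgroupOf E →
      A.subgroupOf E ≤ normalizer (V : Set E) → IsPGroup t V → V ≤ T.subgroupOf E := by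
    intro V hV hVn hVt
    have h1 : V.map E.subtype ≤ T := by
      apply hTmax
      · rw [← hmA]
        exact map_mono hV
      · have h2 := (map_mono (f := E.subtype) hVn).trans (le_normalizer_map E.subtype)
        rwa [hmA] at h2
      · exact hVt.map _
    intro v hv
    exact mem_subgroupOf.2 (h1 ⟨v, hv, rfl⟩)
  have hnn' : ¬ (T.subgroupOf E).Normal := by
    intro h
    apply hn
    have h1 := le_normalizer_map_subtype h
    rw [hmT] at h1
    exact hPE.trans h1
  have hT₀n : (opc t (⊤ : Subgroup E)).Normal := normalIn_top.1 (opc_normalIn t ⊤)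
  obtain ⟨D', hD'P, hB', hTD', hT₀D', hAD', hDle', hdvd, hS5'⟩ :=
    lemmaS (L := E) (A := A.subgroupOf E) (P := P.subgroupOf E) (T := T.subgroupOf E)
      (T₀ := opc t ⊤) hA' hAP' htop' htp hPp' hPi' (comap_mono hTA) hTn' hTt.comap_subtype
      hTmax' hT₀n (opc_isPGroup t ⊤) (fun V hV hVt => le_opc (normalIn_top.2 hV) hVt) hnn'
  have hDP' : ¬ p ∣ Nat.card A → D' = P.subgroupOf E := by
    intro hpA
    apply le_antisymm hD'P
    intro y hy
    have h1 : y ∈ A.subgroupOf E ⊔ (opc t ⊤ ⊔ D') := by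
      have h2 : (⊤ : Subgroup E) ≤ A.subgroupOf E ⊔ (opc t ⊤ ⊔ D') := by
        rw [← hAD']
        exact sup_le_sup_left le_sup_right _
      exact h2 (mem_top y)
    rw [sup_comm] at h1
    obtain ⟨a, ha, z, hz, rfl⟩ := (mem_sup_of_le_normalizer (by
      rw [normalizer_eq_top_iff.2 hT₀D']; exact le_top)).1 h1
    obtain ⟨n, hn, d, hd, rfl⟩ := (mem_sup_of_le_normalizer' hB'.nD).1 hz
    have h3 : a * n ∈ A.subgroupOf E :=
      mul_mem ha ((comap_mono hTA : T.subgroupOf E ≤ A.subgroupOf E) (hB'.le hn))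
    have h4 : a * n ∈ P.subgroupOf E := by
      have := mul_mem hy (inv_mem (hD'P hd))
      rwa [← mul_assoc, mul_inv_cancel_right] at this
    have h5 : a * n = 1 := by
      apply Subtype.ext
      exact LemS6Aux.eq_one_of_mem hP hpA (mem_subgroupOf.1 h3) (mem_subgroupOf.1 h4)
    rw [← mul_assoc, h5, one_mul]
    exact hd
  have hB := hB'.map E.subtype
  rw [hmT] at hB
  refine ⟨(opc t (⊤ : Subgroup E)).map E.subtype, D'.map E.subtype, ?_, ?_, ?_, ?_⟩
  · refine { hB with ne := ?_, D_le := ?_, sup_eq := ?_, n₀ := ?_, n₀D := ?_, dvd := hdvd,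
                     le_comm := ?_ }
    · intro h
      apply hn
      have h1 := le_normalizer_map_subtype hT₀n
      rw [h] at h1
      exact hPE.trans h1
    · have := map_mono (f := E.subtype) hD'P
      rwa [hmP] at this
    · have := congrArg (Subgroup.map E.subtype) hAD'
      rw [Subgroup.map_sup, hmA, map_subtype_top] at this
      exact this.trans hE
    · rw [← hE]
      exact le_normalizer_map_subtype hT₀n
    · rw [← hE, ← Subgroup.map_sup]
      exact le_normalizer_map_subtype hT₀D'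
    · have := map_mono (f := E.subtype) hDle'
      rwa [Subgroup.map_sup, map_commutator, hmT] at this
  · intro y hy h
    refine mem_subgroupOf.1 (hS5' ⟨y, hPE hy⟩ (mem_subgroupOf.2 hy) ?_)
    intro x hx
    obtain ⟨z, hz, hze⟩ := h x (mem_subgroupOf.1 hx)
    have : z = ⁅(⟨y, hPE hy⟩ : E), x⁆ := Subtype.ext hze
    rw [← this]
    exact hz
  · intro hpA
    rw [hDP' hpA, hmP]
  · intro hpA hsq
    obtain ⟨b, hb, hb0⟩ : ∃ b ∈ T.subgroupOf E, b ∉ opc t (⊤ : Subgroup E) := by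
      refine SetLike.exists_of_lt (lt_of_le_of_ne hB'.le ?_)
      intro h
      apply hnn'
      rw [← h]
      exact hT₀n
    have hsq' : ∀ b ∈ T.subgroupOf E, b ^ 2 ∈ opc t (⊤ : Subgroup E) := by
      intro b hb
      obtain ⟨z, hz, hze⟩ := hsq b (mem_subgroupOf.1 hb)
      have : z = b ^ 2 := Subtype.ext hze
      rw [← this]
      exact hz
    have ht2 : t = 2 := by
      by_contra ht2
      have hodd : Nat.Coprime 2 t :=
        (Nat.coprime_primes Nat.prime_two Fact.out).2 (Ne.symm ht2)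
      obtain ⟨k, hk⟩ := hTt.comap_subtype (K := E) ⟨b, hb⟩
      have hk' : b ^ t ^ k = 1 := congrArg Subtype.val hk
      have hcop : IsCoprime (2 : ℤ) ((t ^ k : ℕ) : ℤ) :=
        Nat.isCoprime_iff_coprime.2 (Nat.Coprime.pow_right k hodd)
      obtain ⟨u, v, huv⟩ := hcop
      apply hb0
      have h1 : b = (b ^ 2) ^ u := by
        calc b = b ^ (u * 2 + v * ((t ^ k : ℕ) : ℤ)) := by rw [huv, zpow_one]
          _ = (b ^ 2) ^ u * (b ^ (t ^ k)) ^ v := by
            rw [zpow_add, mul_comm u, mul_comm v, zpow_mul, zpow_mul, zpow_natCast]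
            norm_cast
          _ = (b ^ 2) ^ u := by rw [hk', one_zpow, mul_one]
      rw [h1]
      exact zpow_mem (hsq' b hb) u
    subst ht2
    obtain ⟨c, hc, hcyc⟩ := hB'.cyc
    have hidx := relIndex_eq_two hc hcyc hsq' hb hb0
    obtain ⟨-, h2, h3⟩ := lemmaS6 (L := E) hAP' htop' htp.symm hPp' (by
        rwa [← card_map_of_injective hinj, hmA]) hD'P hB' hAD' hT₀D' (comap_mono hTA) hS5' hidx
    refine ⟨?_, ?_⟩
    · intro x hx y hy
      exact congrArg Subtype.val (h2 ⟨x, hPE hx⟩ (mem_subgroupOf.2 hx) ⟨y, hPE hy⟩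
        (mem_subgroupOf.2 hy))
    · intro b hb hb0 y hy
      have := h3 ⟨b, hTE hb⟩ (mem_subgroupOf.2 hb) (fun h => hb0 ⟨_, h, rfl⟩) ⟨y, hPE hy⟩
        (mem_subgroupOf.2 hy)
      exact ⟨_, this, rfl⟩

end MP_5771ce_al
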