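import Pool.Agent.Lib.MP_5771ce_al.S4.SubTwo

/-!
# (4.6.3) of the chain `GROUP`: `A` is a `2`-group
-/

open Subgroup
open scoped Pointwise commutatorElement

namespace MP_5771ce_al

universe u

variable {G : Type u} [Group G] [Finite G]

/-- (L6) relative form. -/
theorem SylPerm.le_normalizer_qgen {A P : Subgroup G} {p q : ℕ} (hA : HerPermutable A)
    (hp : p.Prime) (hq : q.Prime) (hP : SylPerm p A P) (hqp : q ≠ p) (hd : ¬ q ∣ p - 1) :
    A ⊔ P ≤ normalizer ((qgen q A : Subgroup G) : Set G) := by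
  have _ : Fact p.Prime := ⟨hp⟩
  have hidx : (A.subgroupOf (A ⊔ P)).index ∣ Nat.card P := by
    have h2 : A.relIndex (A ⊔ P) = A.relIndex P := hP.permutes.relIndex_sup
    have h3 : (A.subgroupOf (A ⊔ P)).index = A.relIndex P := h2
    rw [h3]
    exact Subgroup.relIndex_dvd_card _ _
  obtain ⟨n, hn⟩ := IsPGroup.iff_card.1 hP.isPGroup
  rw [hn] at hidx
  obtain ⟨s, -, hs⟩ := (Nat.dvd_prime_pow hp).1 hidx
  have h4 := qgen_normal_of_index (hA.subgroupOf (E := A ⊔ P) le_sup_left) hp hq hqp hd hs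
  exact (funct_qgen hq).le_normalizer le_sup_left h4

/-- The normaliser of `A` normalises `qgen q A`. -/
theorem normalizer_le_normalizer_qgen {A : Subgroup G} {q : ℕ} (hq : q.Prime) :
    normalizer (A : Set G) ≤ normalizer ((qgen q A : Subgroup G) : Set G) := by
  apply (funct_qgen hq).le_normalizer le_normalizer
  exact (funct_qgen hq).normal Subgroup.normal_in_normalizer

theorem qgen_ne_bot {A : Subgroup G} {q : ℕ} (hq : q.Prime) (hqA : q ∣ Nat.card A) :
    qgen q A ≠ ⊥ := by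
  have _ : Fact q.Prime := ⟨hq⟩
  obtain ⟨x, hx⟩ := exists_prime_orderOf_dvd_card' q hqA
  intro h
  have h1 : (x : G) ∈ qgen q A := mem_qgen x.2 (k := 1) (by rw [pow_one, Subgroup.orderOf_coe, hx])
  rw [h, Subgroup.mem_bot] at h1
  have h2 : orderOf x = 1 := by rw [← Subgroup.orderOf_coe, h1, orderOf_one]
  rw [h2] at hx
  exact hq.one_lt.ne hx

/-- A maximal overgroup of `A` is self-normalising. -/
theorem MC.mem_of_normalizes {A M : Subgroup G} (h : MC A) (hAM : A ≤ M) (hM : M ≠ ⊤)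
    (hmax : ∀ E : Subgroup G, M ≤ E → E ≠ ⊤ → E ≤ M) {g : G}
    (hg : g ∈ normalizer (M : Set G)) : g ∈ M := by
  have h1 : normalizer (M : Set G) ≠ ⊤ := by
    intro ht
    have hn : M.Normal := Subgroup.normalizer_eq_top_iff.1 ht
    have := h.eq_bot_of_normal_le hAM hM hn le_rfl
    exact h.ne_bot (le_bot_iff.1 (this ▸ hAM))
  exact hmax _ le_normalizer h1 hg

/-- `M` is the unique maximal overgroup of `A ⊔ P` and has a normal subgroup `V ⊔ P`, `V ≤ A`. -/
structure RigMax (A P M : Subgroup G) : Prop where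
  le : A ⊔ P ≤ M
  ne_top : M ≠ ⊤
  max : ∀ E : Subgroup G, A ⊔ P ≤ E → E ≠ ⊤ → E ≤ M
  exV : ∃ V : Subgroup G, V ≤ A ∧ P ≤ normalizer (V : Set G) ∧ NormalIn (V ⊔ P) M

/-- (I2). -/
theorem RigMax.mem_of_conj_le {A M P : Subgroup G} {s : ℕ} [Fact s.Prime] (h : MC A)
    (hP : SylPerm s A P) (hM : RigMax A P M) (hPn : ¬ P ≤ normalizer (A : Set G))
    (hall : ∀ P' : Subgroup G, SylPerm s A P' → P' ≤ M)
    (hex : ∀ P' : Subgroup G, SylPerm s A P' → ¬ P' ≤ normalizer (A : Set G) →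
      ∃ M', RigMax A P' M')
    {g : G} (hg : ∀ a ∈ A, g * a * g⁻¹ ∈ M) : g ∈ M := by
  set M' := conjBy M g with hM'
  have hAM' : A ≤ M' := fun a ha => mem_conjBy.2 (hg a ha)
  have hcard : Nat.card M' = Nat.card M := card_conjBy M g
  obtain ⟨P', hP', hAP'⟩ := h.her.exists_isSylowIn_permutes hAM' s
  have hMi : ¬ s ∣ M.index := fun hd =>
    hP.not_dvd (hd.trans (Subgroup.index_dvd_of_le (le_sup_right.trans hM.le)))
  have hM'i : ¬ s ∣ M'.index := by
    have h1 := Subgroup.card_mul_index M'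
    have h2 := Subgroup.card_mul_index M
    rw [hcard] at h1
    have h3 : M'.index = M.index := Nat.eq_of_mul_eq_mul_left Nat.card_pos (h1.trans h2.symm)
    rw [h3]; exact hMi
  have hSP' : SylPerm s A P' := by
    refine ⟨hP'.isPGroup, ?_, hAP'⟩
    intro hd
    rw [← Subgroup.relIndex_mul_index hP'.le] at hd
    rcases (Fact.out : s.Prime).dvd_mul.1 hd with h1 | h1
    · exact hP'.not_dvd h1
    · exact hM'i h1
  have hP'M : P' ≤ M := hall P' hSP'
  by_cases hr : P' ≤ normalizer (A : Set G)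
  · exfalso
    apply hPn
    obtain ⟨V, hVA, hPV, hVP⟩ := hM.exV
    -- `P' ≤ V ⊔ P`
    have hSylG : ∀ Q : Subgroup G, SylPerm s A Q → Q ≤ M → IsSylowIn s Q M := by
      intro Q hQ hQM
      refine ⟨hQM, hQ.isPGroup, fun hd => hQ.not_dvd (hd.trans ?_)⟩
      exact Dvd.intro _ (Subgroup.relIndex_mul_index hQM)
    have hPM : P ≤ M := le_sup_right.trans hM.le
    obtain ⟨x, hx, hxe⟩ := (hSylG P hP hPM).exists_conjBy_eq (hSylG P' hSP' hP'M)
    have hP'V : P' ≤ V ⊔ P := by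
      rw [← hxe, ← hVP.conjBy_eq hx]
      exact conjBy_mono le_sup_right x
    -- conjugate in `V ⊔ P`
    have h1 : IsSylowIn s P (V ⊔ P) := (hSylG P hP hPM).of_le le_sup_right hVP.1
    have h2 : IsSylowIn s P' (V ⊔ P) := (hSylG P' hSP' hP'M).of_le hP'V hVP.1
    obtain ⟨y, hy, hye⟩ := h1.exists_conjBy_eq h2
    obtain ⟨b, hb, n, hn, rfl⟩ := (mem_sup_of_le_normalizer hPV).1 hy
    rw [conjBy_mul, conjBy_eq_self hb] at hye
    intro z hz
    have h3 : n⁻¹ * z * n ∈ P' := by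
      rw [← hye, mem_conjBy]
      have : n * (n⁻¹ * z * n) * n⁻¹ = z := by group
      rw [this]
      exact hz
    have h4 : z = n * (n⁻¹ * z * n) * n⁻¹ := by group
    rw [h4]
    exact mul_mem (mul_mem (le_normalizer (hVA hn)) (hr h3)) (inv_mem (le_normalizer (hVA hn)))
  · obtain ⟨M'', hM''⟩ := hex P' hSP' hr
    have h1 : M ≤ M'' := hM''.max M (sup_le (le_sup_left.trans hM.le) hP'M) hM.ne_top
    have h2 : M'' ≤ M := hM.max M'' (hM.le.trans h1) hM''.ne_top
    have h3 : M' ≤ M'' := by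
      apply hM''.max M' (sup_le hAM' hP'.le)
      intro ht
      apply hM.ne_top
      rw [← Subgroup.card_eq_iff_eq_top, ← hcard, ht, Subgroup.card_top]
    have h4 : M' = M := Subgroup.eq_of_le_of_card_ge (h3.trans h2) hcard.ge
    apply h.mem_of_normalizes (le_sup_left.trans hM.le) hM.ne_top
      (fun E hE hEt => hM.max E (hM.le.trans hE) hEt)
    rw [mem_normalizer_iff]
    intro y
    rw [← mem_conjBy (B := M) (x := g), ← hM', h4]

/-- (4.6.3) `A` is a `2`-group. -/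
theorem isPGroup_two_of_rigMax {A : Subgroup G} (h : MC A)
    (hex : ∀ (p : ℕ) (P : Subgroup G), p.Prime → 5 ≤ p → ¬ p ∣ Nat.card A → SylPerm p A P →
      ¬ P ≤ normalizer (A : Set G) → ∃ M, RigMax A P M ∧
        (∀ (s : ℕ) (P' : Subgroup G), s.Prime → 5 ≤ s → (p ≠ 5 ∨ s ≠ 5) → SylPerm s A P' →
          P' ≤ M) ∧
        ∀ r : ℕ, r.Prime → ∃ s : ℕ, s.Prime ∧ s ≠ r ∧ ∀ P' : Subgroup G, SylPerm s A P' → ¬ P' ≤ M) :
    IsPGroup 2 A := by
  by_contra hA2
  have hF2 : Fact (Nat.Prime 2) := ⟨Nat.prime_two⟩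
  -- the largest prime divisor `r` of `|A|`
  obtain ⟨q, hq, hqA, hq2⟩ : ∃ q : ℕ, q.Prime ∧ q ∣ Nat.card A ∧ q ≠ 2 := by
    by_contra hcon
    push Not at hcon
    apply hA2
    apply IsPGroup.of_card (n := (Nat.card A).primeFactorsList.length)
    exact Nat.eq_prime_pow_of_unique_prime_dvd Nat.card_pos.ne' (fun hd hdA => hcon _ hd hdA)
  have hSfin : ((Nat.card A).primeFactors).Nonempty :=
    ⟨q, Nat.mem_primeFactors.2 ⟨hq, hqA, Nat.card_pos.ne'⟩⟩
  set r := (Nat.card A).primeFactors.max' hSfin with hr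
  have hrm := Finset.max'_mem _ hSfin
  rw [← hr, Nat.mem_primeFactors] at hrm
  obtain ⟨hrp, hrA, -⟩ := hrm
  have hrmax : ∀ p : ℕ, p.Prime → p ∣ Nat.card A → p ≤ r := fun p hp hpA =>
    Finset.le_max' _ _ (Nat.mem_primeFactors.2 ⟨hp, hpA, Nat.card_pos.ne'⟩)
  have hr3 : 3 ≤ r := by
    have h1 := hrmax q hq hqA
    have h2 := hq.two_le
    omega
  have _ : Fact r.Prime := ⟨hrp⟩
  set D := qgen r A with hD
  have hDne : D ≠ ⊥ := qgen_ne_bot hrp hrA
  have hAD : normalizer (A : Set G) ≤ normalizer (D : Set G) := normalizer_le_normalizer_qgen hrp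
  obtain ⟨R, hR⟩ := h.her.exists_sylPerm r
  obtain ⟨s, hs, hK⟩ := h.K (U₁ := normalizer (D : Set G)) (U₂ := A ⊔ R) hDne
    (normalIn_of_le_normalizer le_normalizer le_rfl)
    ((qgen_le r A).trans (h.le_rad le_sup_left (h.sup_ne_top_of_isPGroup hR.isPGroup hR.permutes)))
  have _ : Fact s.Prime := ⟨hs⟩
  have hsr : s ≠ r := by
    rintro rfl
    exact (hK R hR).2 le_sup_right
  obtain ⟨P, hP⟩ := h.her.exists_sylPerm s
  have hPD : ¬ P ≤ normalizer (D : Set G) := (hK P hP).1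
  have hrs : r ∣ s - 1 := by
    by_contra hd
    exact hPD (le_sup_right.trans (hP.le_normalizer_qgen h.her hs hrp hsr.symm hd))
  have hs2 := hs.two_le
  have hrs' : r ≤ s - 1 := Nat.le_of_dvd (by omega) hrs
  have hsA : ¬ s ∣ Nat.card A := fun hd => by
    have := hrmax s hs hd
    omega
  have hs4 : s ≠ 4 := by
    rintro rfl
    exact absurd hs (by norm_num)
  have hs5 : s ≠ 5 := by
    rintro rfl
    have h1 : r ∣ 2 ^ 2 := by simpa using hrs
    have h2 := (Nat.prime_dvd_prime_iff_eq hrp Nat.prime_two).1 (hrp.dvd_of_dvd_pow h1)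
    omega
  have hPn : ¬ P ≤ normalizer (A : Set G) := fun hle => hPD (hle.trans hAD)
  obtain ⟨M, hM, hall, hstar⟩ := hex s P hs (by omega) hsA hP hPn
  have hI : ∀ g : G, (∀ a ∈ A, g * a * g⁻¹ ∈ M) → g ∈ M := by
    intro g hg
    refine hM.mem_of_conj_le h hP hPn
      (fun P' hP' => hall s P' hs (by omega) (Or.inl hs5) hP') ?_ hg
    intro P' hP' hP'n
    obtain ⟨M', hM', -⟩ := hex s P' hs (by omega) hsA hP' hP'n
    exact ⟨M', hM'⟩
  obtain ⟨l, hl, hl3, hlM⟩ := hstar 3 Nat.prime_three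
  have _ : Fact l.Prime := ⟨hl⟩
  obtain ⟨L, hL⟩ := h.her.exists_sylPerm l
  apply hlM L hL
  have hl2 := hl.two_le
  rcases Nat.lt_or_ge l 5 with h1 | h1
  · have hl4 : l ≠ 4 := by
      rintro rfl
      exact absurd hl (by norm_num)
    have : l = 2 := by omega
    subst this
    exact h.her.le_of_two hL.isPGroup hL.permutes (le_sup_left.trans hM.le) hI
  · exact hall l L hl h1 (Or.inl hs5) hL

end MP_5771ce_al
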