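import Pool.Agent.Lib.MP_5771ce_al.S4.NotCyc

/-!
# Section 4.4: Lemma Y

Two non-isolated bricks `(T, T₁, D₁)`, `(T, T₂, D₂)` for the same `2`-group `T`, with primes
`p₁, p₂ ≥ 5`, not both equal to `5`. If `D₁` does not centralise `V₀ = Ω₁Z(T)` and `J(T)` is not
contained in `T₂`, then `D₂` centralises `⟨V₀^{X₁}⟩`, `X₁ = T D₁`.
-/

open Subgroup
open scoped Pointwise commutatorElement

namespace MP_5771ce_al

universe u

namespace LemYAux

variable {G : Type u} [Group G]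

theorem le_normalizer_of_conj {H K : Subgroup G} (h : ∀ g ∈ H, ∀ y ∈ K, g * y * g⁻¹ ∈ K) :
    H ≤ normalizer (K : Set G) := by
  intro g hg
  rw [mem_normalizer_iff]
  intro y
  refine ⟨h g hg y, fun hy => ?_⟩
  have := h g⁻¹ (inv_mem hg) _ hy
  convert this using 1
  group

/-- A set of commuting involutions generates an elementary abelian `2`-group. -/
theorem elemAb_closure {t : ℕ} {s : Set G} (h1 : ∀ a ∈ s, ∀ b ∈ s, a * b = b * a)
    (h2 : ∀ a ∈ s, a ^ t = 1) : ElemAb t (closure s) := by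
  have h3 : closure s ≤ centralizer s := by
    rw [closure_le]
    intro a ha
    rw [SetLike.mem_coe, mem_centralizer_iff]
    intro b hb
    exact h1 b hb a ha
  have h4 : closure s ≤ centralizer (closure s : Set G) := by
    rw [closure_le]
    intro a ha
    rw [SetLike.mem_coe, mem_centralizer_iff]
    intro b hb
    exact ((mem_centralizer_iff.1 (h3 hb)) a ha).symm
  have h5 : ∀ a ∈ closure s, ∀ b ∈ closure s, a * b = b * a := by
    intro a ha b hb
    exact ((mem_centralizer_iff.1 (h4 ha)) b hb).symm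
  refine ⟨h5, fun a ha => ?_⟩
  induction ha using closure_induction with
  | mem a ha => exact h2 a ha
  | one => exact one_pow _
  | mul a b ha hb iha ihb =>
    have hc : Commute a b := h5 a ha b hb
    rw [hc.mul_pow, iha, ihb, one_mul]
  | inv a _ iha => rw [inv_pow, iha, inv_one]

/-- In a cyclic group `⟨c⟩` modulo a subgroup: two elements of order `2` have product one. -/
theorem zpow_add_eq_one {Q : Type*} [Group Q] {c : Q} {i j : ℤ} (hi : c ^ (2 * i) = 1)
    (hj : c ^ (2 * j) = 1) (hi' : c ^ i ≠ 1) (hj' : c ^ j ≠ 1) : c ^ (i + j) = 1 := by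
  rw [← orderOf_dvd_iff_zpow_eq_one] at hi hj ⊢
  rw [Ne, ← orderOf_dvd_iff_zpow_eq_one] at hi' hj'
  obtain ⟨u, hu⟩ := hi
  obtain ⟨v, hv⟩ := hj
  have h2 : (orderOf c : ℤ) * (u + v) = 2 * (i + j) := by rw [mul_add, ← hu, ← hv]; ring
  have hu2 : u % 2 = 1 := by
    rcases Int.emod_two_eq_zero_or_one u with h | h
    · exfalso
      apply hi'
      obtain ⟨w, hw⟩ := Int.dvd_of_emod_eq_zero h
      refine ⟨w, ?_⟩
      rw [hw] at hu
      have : 2 * i = 2 * ((orderOf c : ℤ) * w) := by rw [hu]; ring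
      exact mul_left_cancel₀ (by norm_num) this
    · exact h
  have hv2 : v % 2 = 1 := by
    rcases Int.emod_two_eq_zero_or_one v with h | h
    · exfalso
      apply hj'
      obtain ⟨w, hw⟩ := Int.dvd_of_emod_eq_zero h
      refine ⟨w, ?_⟩
      rw [hw] at hv
      have : 2 * j = 2 * ((orderOf c : ℤ) * w) := by rw [hv]; ring
      exact mul_left_cancel₀ (by norm_num) this
    · exact h
  have h3 : (u + v) % 2 = 0 := by omega
  obtain ⟨w, hw⟩ := Int.dvd_of_emod_eq_zero h3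
  refine ⟨w, ?_⟩
  rw [hw] at h2
  have : 2 * (i + j) = 2 * ((orderOf c : ℤ) * w) := by rw [← h2]; ring
  exact mul_left_cancel₀ (by norm_num) this

end LemYAux

open LemYAux

section Bricks

variable {G : Type u} [Group G] {p : ℕ} {t : ℕ} {T T₀ D : Subgroup G}

/-- The quotient map `T → T/T₀` of a brick. -/
theorem Brick.normal_subgroupOf (hB : Brick t p T T₀ D) : (T₀.subgroupOf T).Normal := by
  constructor
  intro n hn g
  rw [mem_subgroupOf] at hn ⊢
  exact mem_normalizer_conj (hB.nT g.2) hn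

/-- A subgroup of a cyclic group is cyclic: for `S ≤ T` the group `S T₀/T₀` is generated by the image
of an element of `S`. -/
theorem Brick.cyc_of_le (hB : Brick t p T T₀ D) {S : Subgroup G} (hS : S ≤ T) :
    ∃ c ∈ S, ∀ x ∈ S, ∃ n : ℤ, x * c ^ n ∈ T₀ := by
  have := hB.normal_subgroupOf
  let π := QuotientGroup.mk' (T₀.subgroupOf T)
  obtain ⟨c, hc, h⟩ := hB.cyc
  have hcy : IsCyclic (T ⧸ T₀.subgroupOf T) := by
    refine ⟨⟨π ⟨c, hc⟩, fun x => ?_⟩⟩
    obtain ⟨y, rfl⟩ := QuotientGroup.mk'_surjective _ x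
    obtain ⟨n, hn⟩ := h y y.2
    refine ⟨-n, ?_⟩
    have h1 : π (y * ⟨c, hc⟩ ^ n) = 1 := by
      rw [← MonoidHom.mem_ker, QuotientGroup.ker_mk', mem_subgroupOf]
      exact hn
    rw [map_mul, map_zpow] at h1
    show π ⟨c, hc⟩ ^ (-n) = π y
    rw [zpow_neg]
    exact (eq_inv_of_mul_eq_one_left h1).symm
  have hcy2 : IsCyclic ((S.subgroupOf T).map π) := inferInstance
  obtain ⟨⟨g, hg⟩, hgen⟩ := hcy2
  obtain ⟨s, hs, rfl⟩ := hg
  refine ⟨s, hs, fun x hx => ?_⟩
  obtain ⟨n, hn⟩ := mem_zpowers_iff.1 (hgen ⟨π ⟨x, hS hx⟩, mem_map_of_mem π hx⟩)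
  refine ⟨-n, ?_⟩
  have h1 : π s ^ n = π ⟨x, hS hx⟩ := congrArg Subtype.val hn
  have h2 : π (⟨x, hS hx⟩ * s ^ (-n)) = 1 := by
    rw [map_mul, map_zpow, ← h1, ← zpow_add]
    simp
  rw [← MonoidHom.mem_ker, QuotientGroup.ker_mk', mem_subgroupOf] at h2
  exact h2

/-- Two elements of `T` outside `T₀` whose squares are in `T₀` have product in `T₀`. -/
theorem Brick.mul_mem (hB : Brick t p T T₀ D) {a b : G} (ha : a ∈ T) (hb : b ∈ T) (ha0 : a ∉ T₀)
    (hb0 : b ∉ T₀) (ha2 : a ^ 2 ∈ T₀) (hb2 : b ^ 2 ∈ T₀) : a * b ∈ T₀ := by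
  have := hB.normal_subgroupOf
  let π := QuotientGroup.mk' (T₀.subgroupOf T)
  have hπ : ∀ x : T, π x = 1 ↔ (x : G) ∈ T₀ := by
    intro x
    rw [← MonoidHom.mem_ker, QuotientGroup.ker_mk', mem_subgroupOf]
  obtain ⟨c, hc, h⟩ := hB.cyc
  have key : ∀ x : T, ∃ n : ℤ, π x = π ⟨c, hc⟩ ^ n := by
    intro x
    obtain ⟨n, hn⟩ := h x x.2
    refine ⟨-n, ?_⟩
    have h1 : π (x * ⟨c, hc⟩ ^ n) = 1 := (hπ _).2 hn
    rw [map_mul, map_zpow] at h1
    rw [zpow_neg]
    exact eq_inv_of_mul_eq_one_left h1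
  obtain ⟨i, hi⟩ := key ⟨a, ha⟩
  obtain ⟨j, hj⟩ := key ⟨b, hb⟩
  have h1 : π (⟨a, ha⟩ * ⟨b, hb⟩) = 1 := by
    rw [map_mul, hi, hj, ← zpow_add]
    apply zpow_add_eq_one
    · rw [mul_comm, zpow_mul, ← hi]
      have : π (⟨a, ha⟩ ^ 2) = 1 := (hπ _).2 ha2
      rw [map_pow] at this
      exact_mod_cast this
    · rw [mul_comm, zpow_mul, ← hj]
      have : π (⟨b, hb⟩ ^ 2) = 1 := (hπ _).2 hb2
      rw [map_pow] at this
      exact_mod_cast this
    · rw [← hi]
      intro h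
      exact ha0 ((hπ _).1 h)
    · rw [← hj]
      intro h
      exact hb0 ((hπ _).1 h)
  exact (hπ _).1 h1

end Bricks

namespace LemYAux

variable {G : Type u} [Group G]

/-- `g Y g⁻¹`. -/
def cn (g : G) (Y : Subgroup G) : Subgroup G := Y.map (MulAut.conj g).toMonoidHom

theorem mem_cn {g y : G} {Y : Subgroup G} : y ∈ cn g Y ↔ g⁻¹ * y * g ∈ Y := by
  constructor
  · rintro ⟨x, hx, rfl⟩
    have : g⁻¹ * (MulAut.conj g).toMonoidHom x * g = x := by
      change g⁻¹ * (g * x * g⁻¹) * g = x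
      group
    rw [this]
    exact hx
  · intro h
    refine ⟨_, h, ?_⟩
    change g * (g⁻¹ * y * g) * g⁻¹ = y
    group

theorem mem_centralizer_cn {g x : G} {Y : Subgroup G} :
    x ∈ centralizer (cn g Y : Set G) ↔ g⁻¹ * x * g ∈ centralizer (Y : Set G) := by
  rw [mem_centralizer_iff, mem_centralizer_iff]
  constructor
  · intro h y hy
    have h1 : g * y * g⁻¹ ∈ (cn g Y : Set G) := by
      rw [SetLike.mem_coe, mem_cn]
      have : g⁻¹ * (g * y * g⁻¹) * g = y := by group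
      rw [this]
      exact hy
    have h2 := h _ h1
    calc y * (g⁻¹ * x * g) = g⁻¹ * (g * y * g⁻¹ * x) * g := by group
      _ = g⁻¹ * (x * (g * y * g⁻¹)) * g := by rw [h2]
      _ = g⁻¹ * x * g * y := by group
  · intro h y hy
    have h2 := h _ (mem_cn.1 hy)
    calc y * x = g * (g⁻¹ * y * g * (g⁻¹ * x * g)) * g⁻¹ := by group
      _ = g * (g⁻¹ * x * g * (g⁻¹ * y * g)) * g⁻¹ := by rw [h2]
      _ = x * y := by group

theorem centralizer_singleton_cn (g s : G) :
    centralizer {s} = cn g (centralizer {g⁻¹ * s * g}) := by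
  ext x
  rw [mem_cn, mem_centralizer_singleton_iff, mem_centralizer_singleton_iff]
  constructor
  · intro h
    calc g⁻¹ * x * g * (g⁻¹ * s * g) = g⁻¹ * (x * s) * g := by group
      _ = g⁻¹ * (s * x) * g := by rw [h]
      _ = g⁻¹ * s * g * (g⁻¹ * x * g) := by group
  · intro h
    calc x * s = g * (g⁻¹ * x * g * (g⁻¹ * s * g)) * g⁻¹ := by group
      _ = g * (g⁻¹ * s * g * (g⁻¹ * x * g)) * g⁻¹ := by rw [h]
      _ = s * x := by group

theorem relIndex_cn (g s : G) (Y : Subgroup G) :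
    (centralizer {s}).relIndex (cn g Y) = (centralizer {g⁻¹ * s * g}).relIndex Y := by
  rw [centralizer_singleton_cn g s]
  exact relIndex_map_map_of_injective _ _ (MulAut.conj g).injective

/-- The properties of the subgroup `Y₁` (and of its conjugates) used in the counting argument. -/
structure Good (T₂ : Subgroup G) (m : ℕ) (Y : Subgroup G) : Prop where
  le : Y ≤ T₂
  el : ElemAb 2 Y
  two : ∀ a ∈ T₂, ∀ b ∈ T₂, a ^ 2 = 1 → b ^ 2 = 1 → a ∉ centralizer (Y : Set G) →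
    b ∉ centralizer (Y : Set G) → a * b ∈ centralizer (Y : Set G)
  big : ∀ s ∈ T₂, s ^ 2 = 1 → s ∉ centralizer (Y : Set G) → m ≤ (centralizer {s}).relIndex Y

theorem conj_sq {g a : G} (h : a ^ 2 = 1) : (g⁻¹ * a * g) ^ 2 = 1 := by
  have : (g⁻¹ * a * g) ^ 2 = g⁻¹ * a ^ 2 * g := by rw [pow_two, pow_two]; group
  rw [this, h]
  group

theorem Good.cn {T₂ Y : Subgroup G} {m : ℕ} (h : Good T₂ m Y) {g : G}
    (hg : g ∈ normalizer (T₂ : Set G)) : Good T₂ m (cn g Y) where
  le := by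
    intro y hy
    exact (mem_normalizer_iff''.1 hg y).2 (h.le (mem_cn.1 hy))
  el := h.el.map _
  two := by
    intro a ha b hb ha2 hb2 hac hbc
    rw [mem_centralizer_cn] at hac hbc ⊢
    have := h.two _ ((mem_normalizer_iff''.1 hg a).1 ha) _ ((mem_normalizer_iff''.1 hg b).1 hb)
      (conj_sq ha2) (conj_sq hb2) hac hbc
    convert this using 1
    group
  big := by
    intro s hs hs2 hsc
    rw [mem_centralizer_cn] at hsc
    rw [relIndex_cn]
    exact h.big _ ((mem_normalizer_iff''.1 hg s).1 hs) (conj_sq hs2) hsc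

/-- The subgroup `C_S(Y)` has index at most two in `S`. -/
theorem Good.relIndex_le_two {T₂ Y S : Subgroup G} {m : ℕ} (h : Good T₂ m Y) (hS : S ≤ T₂)
    (hS2 : ∀ a ∈ S, a ^ 2 = 1) : (centralizer (Y : Set G)).relIndex S ≤ 2 := by
  apply Nat.le_of_dvd (by norm_num)
  rw [relIndex_dvd_two_iff]
  by_cases hc : S ≤ centralizer (Y : Set G)
  · exact ⟨1, one_mem _, fun b hb => Or.inr (hc hb)⟩
  · obtain ⟨s, hs, hsc⟩ := Set.not_subset.1 hc
    refine ⟨s, hs, fun b hb => ?_⟩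
    by_cases hb' : b ∈ centralizer (Y : Set G)
    · exact Or.inr hb'
    · exact Or.inl (h.two b (hS hb) s (hS hs) (hS2 b hb) (hS2 s hs) hb' hsc)

theorem Good.le_relIndex [Finite G] {T₂ Y S : Subgroup G} {m : ℕ} (h : Good T₂ m Y)
    (hS : S ≤ T₂) (hS2 : ∀ a ∈ S, a ^ 2 = 1) (hc : ¬ S ≤ centralizer (Y : Set G)) :
    m ≤ (centralizer (S : Set G)).relIndex Y := by
  obtain ⟨s, hs, hsc⟩ := Set.not_subset.1 hc
  refine (h.big s (hS hs) (hS2 s hs) hsc).trans ?_
  refine relIndex_le_of_le_left ?_ index_ne_zero_of_finite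
  intro x hx
  rw [mem_centralizer_singleton_iff]
  exact (mem_centralizer_iff.1 hx s hs).symm

/-- The counting induction of (e). -/
theorem core_ineq [Finite G] {e : ℕ} {Yh T₂ : Subgroup G} {F : Set (Subgroup G)}
    (hF : ∀ Y ∈ F, Good T₂ (2 ^ e) Y) (hle : ∀ Y ∈ F, Y ≤ Yh)
    (hgen : ∀ s, (∀ Y ∈ F, s ∈ centralizer (Y : Set G)) → s ∈ centralizer (Yh : Set G)) :
    ∀ n : ℕ, ∀ S : Subgroup G, S ≤ T₂ → (∀ a ∈ S, a ^ 2 = 1) → Nat.card S ≤ n →
      ((centralizer (Yh : Set G)).relIndex S) ^ e ≤ (centralizer (S : Set G)).relIndex Yh := by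
  intro n
  induction n with
  | zero =>
    intro S _ _ h
    have : 0 < Nat.card S := Nat.card_pos
    omega
  | succ n ih =>
    intro S hS hS2 hcard
    by_cases hc : S ≤ centralizer (Yh : Set G)
    · rw [relIndex_eq_one.2 hc, one_pow]
      exact Nat.one_le_iff_ne_zero.2 index_ne_zero_of_finite
    · obtain ⟨s, hs, hsc⟩ := Set.not_subset.1 hc
      have hex : ∃ Y ∈ F, s ∉ centralizer (Y : Set G) := by
        by_contra hcon
        push Not at hcon
        exact hsc (hgen s hcon)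
      obtain ⟨Y, hY, hsY⟩ := hex
      have hG := hF Y hY
      set S' : Subgroup G := S ⊓ centralizer (Y : Set G) with hS'
      have hS'S : S' ≤ S := inf_le_left
      have hYhY : centralizer (Yh : Set G) ≤ centralizer (Y : Set G) :=
        centralizer_le (hle Y hY)
      have hlt : Nat.card S' < Nat.card S := by
        apply lt_of_le_of_ne (card_le_of_le hS'S)
        intro heq
        have h1 : S' = S := eq_of_le_of_card_ge hS'S heq.ge
        have h2 : s ∈ S' := by rw [h1]; exact hs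
        exact hsY h2.2
      have h1 := ih S' (hS'S.trans hS) (fun a ha => hS2 a (hS'S ha)) (by omega)
      have h2 : (centralizer (Yh : Set G)).relIndex S ≤
          2 * (centralizer (Yh : Set G)).relIndex S' := by
        have e1 := relIndex_mul_relIndex (centralizer (Yh : Set G) ⊓ S) S' S
          (le_inf inf_le_right (inf_le_left.trans hYhY)) hS'S
        rw [inf_relIndex_right] at e1
        have e2 : (centralizer (Yh : Set G) ⊓ S).relIndex S' =
            (centralizer (Yh : Set G)).relIndex S' := by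
          rw [← inf_relIndex_right (centralizer (Yh : Set G) ⊓ S), inf_assoc, inf_eq_right.2 hS'S,
            inf_relIndex_right]
        have e3 : S'.relIndex S ≤ 2 := by
          rw [hS', inf_relIndex_left]
          exact hG.relIndex_le_two hS hS2
        rw [← e1, e2, mul_comm 2]
        exact Nat.mul_le_mul_left _ e3
      have h3 : 2 ^ e * (centralizer (S' : Set G)).relIndex Yh ≤
          (centralizer (S : Set G)).relIndex Yh := by
        have hcS : centralizer (S : Set G) ≤ centralizer (S' : Set G) := centralizer_le hS'S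
        have e1 := relIndex_mul_relIndex (centralizer (S : Set G) ⊓ Yh)
          (centralizer (S' : Set G) ⊓ Yh) Yh (inf_le_inf_right _ hcS) inf_le_right
        rw [inf_relIndex_right, inf_relIndex_right] at e1
        have e2 : 2 ^ e ≤ (centralizer (S : Set G) ⊓ Yh).relIndex (centralizer (S' : Set G) ⊓ Yh) := by
          have f1 : Y ≤ centralizer (S' : Set G) ⊓ Yh := by
            refine le_inf ?_ (hle Y hY)
            intro y hy
            rw [mem_centralizer_iff]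
            intro x hx
            exact ((mem_centralizer_iff.1 hx.2) y hy).symm
          have f2 : (centralizer (S : Set G) ⊓ Yh).relIndex Y = (centralizer (S : Set G)).relIndex Y := by
            rw [← inf_relIndex_right (centralizer (S : Set G) ⊓ Yh), inf_assoc,
              inf_eq_right.2 (hle Y hY), inf_relIndex_right]
          have f3 : 2 ^ e ≤ (centralizer (S : Set G)).relIndex Y :=
            hG.le_relIndex hS hS2 (fun h => hsY (h hs))
          rw [← f2] at f3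
          exact f3.trans (relIndex_le_of_le_right f1 index_ne_zero_of_finite)
        rw [← e1]
        exact Nat.mul_le_mul_right _ e2
      calc ((centralizer (Yh : Set G)).relIndex S) ^ e
          ≤ (2 * (centralizer (Yh : Set G)).relIndex S') ^ e := Nat.pow_le_pow_left h2 e
        _ = 2 ^ e * ((centralizer (Yh : Set G)).relIndex S') ^ e := mul_pow _ _ _
        _ ≤ 2 ^ e * (centralizer (S' : Set G)).relIndex Yh := Nat.mul_le_mul_left _ h1
        _ ≤ _ := h3

end LemYAux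

section Main

variable {G : Type u} [Group G] [Finite G]

/-- (B3) in one statement: `e = 2` for `p = 5` and `e = 3` for `p ≥ 7`. -/
theorem Brick.pow_le {p : ℕ} [Fact p.Prime] (hp : 5 ≤ p) :
    ∃ e : ℕ, (e = 2 ∧ p = 5 ∨ e = 3) ∧ ∀ {T T₀ D N : Subgroup G}, Brick 2 p T T₀ D →
      ElemAb 2 N → T ≤ normalizer (N : Set G) → D ≤ normalizer (N : Set G) → ¬ Centralises D N →
      ∀ b ∈ T, b ∉ T₀ → b ^ 2 = 1 → 2 ^ e ≤ (centralizer {b}).relIndex N := by
  by_cases h5 : p = 5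
  · refine ⟨2, Or.inl ⟨rfl, h5⟩, ?_⟩
    intro T T₀ D N hB hN hTN hDN hnc b hb hb0 _
    exact hB.four_le hp hN hTN hDN hnc hb hb0
  · have h6 : p ≠ 6 := by
      rintro rfl
      exact absurd (Fact.out : (6 : ℕ).Prime) (by norm_num)
    refine ⟨3, Or.inr rfl, ?_⟩
    intro T T₀ D N hB hN hTN hDN hnc b hb hb0 hb2
    exact hB.eight_le (by omega) hN hTN hDN hnc hb hb0 hb2

/-- Lemma Y. -/
theorem lemmaY {p₁ p₂ : ℕ} [Fact p₁.Prime] [Fact p₂.Prime]
    (h₁ : 5 ≤ p₁) (h₂ : 5 ≤ p₂) (h₁₂ : p₁ ≠ 5 ∨ p₂ ≠ 5) {T T₁ D₁ T₂ D₂ : Subgroup G}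
    (hB₁ : Brick 2 p₁ T T₁ D₁) (hB₂ : Brick 2 p₂ T T₂ D₂) (hn₁ : ¬ Centralises D₁ T₁)
    (hn₂ : ¬ Centralises D₂ T₂) (hI : ¬ Centralises D₁ (omegaZ 2 T)) (hII : ¬ thompson 2 T ≤ T₂) :
    ∀ d ∈ D₂, ∀ z ∈ omegaZ 2 T, ∀ x ∈ T ⊔ D₁, d * (x * z * x⁻¹) = x * z * x⁻¹ * d := by
  have hp₁ : 2 ≠ p₁ := by omega
  have hp₂ : 2 ≠ p₂ := by omega
  obtain ⟨e₁, he₁, hpow₁⟩ := Brick.pow_le (G := G) h₁
  obtain ⟨e₂, he₂, hpow₂⟩ := Brick.pow_le (G := G) h₂
  -- (a)
  have hX₁ : T ⊔ D₁ ≤ normalizer (T₁ : Set G) := sup_le hB₁.nT hB₁.nD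
  have hX₂ : T ⊔ D₂ ≤ normalizer (T₂ : Set G) := sup_le hB₂.nT hB₂.nD
  have hV₁ : omegaZ 2 T ≤ T₁ := fun z hz =>
    hB₁.centralizer_le hp₁ hn₁ hz.1 (fun n hn => (hz.2.2 n (hB₁.le hn)).symm)
  have hV₁' : omegaZ 2 T ≤ omegaZ 2 T₁ := fun z hz =>
    ⟨hV₁ hz, hz.2.1, fun n hn => hz.2.2 n (hB₁.le hn)⟩
  set Y₁ : Subgroup G := closure {g | ∃ x ∈ T ⊔ D₁, ∃ z ∈ omegaZ 2 T, x * z * x⁻¹ = g} with hY₁
  have hVY : omegaZ 2 T ≤ Y₁ := fun z hz =>
    subset_closure ⟨1, one_mem _, z, hz, by group⟩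
  have hY₁Z : Y₁ ≤ omegaZ 2 T₁ := by
    rw [hY₁, closure_le]
    rintro _ ⟨x, hx, z, hz, rfl⟩
    exact mem_normalizer_conj (normalizer_le_omegaZ (hX₁ hx)) (hV₁' hz)
  have hY₁el : ElemAb 2 Y₁ := (elemAb_omegaZ 2 T₁).mono hY₁Z
  have hY₁n : T ⊔ D₁ ≤ normalizer (Y₁ : Set G) := by
    apply le_normalizer_of_conj
    intro g hg y hy
    induction hy using closure_induction with
    | mem y hy =>
      obtain ⟨x, hx, z, hz, rfl⟩ := hy
      exact subset_closure ⟨g * x, mul_mem hg hx, z, hz, by group⟩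
    | one => simp
    | mul a b _ _ iha ihb =>
      have : g * (a * b) * g⁻¹ = g * a * g⁻¹ * (g * b * g⁻¹) := by group
      rw [this]
      exact mul_mem iha ihb
    | inv a _ iha =>
      have : g * a⁻¹ * g⁻¹ = (g * a * g⁻¹)⁻¹ := by group
      rw [this]
      exact inv_mem iha
  have hD₁Y : ¬ Centralises D₁ Y₁ := fun h => hI (fun d hd z hz => h d hd z (hVY hz))
  -- elements of `T` centralising `Y₁` are in `T₁`
  have hCT : ∀ x ∈ T, x ∈ centralizer (Y₁ : Set G) → x ∈ T₁ := by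
    intro x hx hxc
    by_contra hx0
    exact hD₁Y (hB₁.centralises hp₁ hY₁el.isPGroup (le_sup_left.trans hY₁n)
      (le_sup_right.trans hY₁n) hx hx0 (fun n hn => ((mem_centralizer_iff.1 hxc) n hn).symm))
  have hCT' : T₁ ≤ centralizer (Y₁ : Set G) := by
    intro x hx
    rw [mem_centralizer_iff]
    intro y hy
    exact ((hY₁Z hy).2.2 x hx).symm
  -- (b)
  have hY₁T : Y₁ ≤ T₂ := by
    intro y hy
    by_contra hy0
    refine hB₂.not_cyclic h₂ hn₂ (hB₁.le (hY₁Z hy).1) hy0 (C := T₁ ⊓ T₂) inf_le_right ?_ ?_ ?_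
    · apply le_normalizer_of_conj
      intro g hg x hx
      exact ⟨mem_normalizer_conj (hB₁.nT (hB₂.le hg)) hx.1,
        mem_normalizer_conj (hB₂.nT (hB₂.le hg)) hx.2⟩
    · obtain ⟨c, hc, h⟩ := hB₁.cyc_of_le hB₂.le
      refine ⟨c, hc, fun x hx => ?_⟩
      obtain ⟨n, hn⟩ := h x hx
      exact ⟨n, hn, mul_mem hx (zpow_mem hc n)⟩
    · intro z hz
      exact ((hY₁Z hy).2.2 z hz.1).symm
  -- (c)
  have hGood : Good T₂ (2 ^ e₁) Y₁ := by
    refine ⟨hY₁T, hY₁el, ?_, ?_⟩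
    · intro a ha b hb ha2 hb2 hac hbc
      apply hCT'
      exact hB₁.mul_mem (hB₂.le ha) (hB₂.le hb) (fun h => hac (hCT' h)) (fun h => hbc (hCT' h))
        (by rw [ha2]; exact one_mem _) (by rw [hb2]; exact one_mem _)
    · intro s hs hs2 hsc
      exact hpow₁ hB₁ hY₁el (le_sup_left.trans hY₁n) (le_sup_right.trans hY₁n) hD₁Y s
        (hB₂.le hs) (fun h => hsc (hCT' h)) hs2
  -- (d)
  have hGood' : ∀ d ∈ T ⊔ D₂, Good T₂ (2 ^ e₁) (cn d Y₁) := fun d hd => hGood.cn (hX₂ hd)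
  have h4 : 4 ≤ 2 ^ e₁ := by
    rcases he₁ with ⟨rfl, _⟩ | rfl <;> norm_num
  have hcomm : ∀ d ∈ T ⊔ D₂, cn d Y₁ ≤ centralizer (Y₁ : Set G) := by
    intro d hd
    by_contra hcon
    have g1 := hGood.le_relIndex (hGood' d hd).le (hGood' d hd).el.2 hcon
    have g2 := (hGood' d hd).relIndex_le_two hY₁T hY₁el.2
    omega
  set F : Set (Subgroup G) := {Y | ∃ d ∈ T ⊔ D₂, cn d Y₁ = Y} with hF
  set Yh : Subgroup G := closure {g | ∃ d ∈ T ⊔ D₂, ∃ y ∈ Y₁, d * y * d⁻¹ = g} with hYh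
  have hYhel : ElemAb 2 Yh := by
    apply elemAb_closure
    · rintro _ ⟨d, hd, y, hy, rfl⟩ _ ⟨d', hd', y', hy', rfl⟩
      have g1 : d⁻¹ * d' * y' * d'⁻¹ * d ∈ cn (d⁻¹ * d') Y₁ := by
        rw [mem_cn]
        convert hy' using 1
        group
      have g2 := mem_centralizer_iff.1 (hcomm _ (mul_mem (inv_mem hd) hd') g1) y hy
      calc d * y * d⁻¹ * (d' * y' * d'⁻¹) = d * (y * (d⁻¹ * d' * y' * d'⁻¹ * d)) * d⁻¹ := by group
        _ = d * (d⁻¹ * d' * y' * d'⁻¹ * d * y) * d⁻¹ := by rw [g2]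
        _ = d' * y' * d'⁻¹ * (d * y * d⁻¹) := by group
    · rintro _ ⟨d, hd, y, hy, rfl⟩
      rw [conj_pow, hY₁el.2 y hy]
      group
  have hYhT : Yh ≤ T₂ := by
    rw [hYh, closure_le]
    rintro _ ⟨d, hd, y, hy, rfl⟩
    exact mem_normalizer_conj (hX₂ hd) (hY₁T hy)
  have hYhn : T ⊔ D₂ ≤ normalizer (Yh : Set G) := by
    apply le_normalizer_of_conj
    intro g hg y hy
    induction hy using closure_induction with
    | mem y hy =>
      obtain ⟨x, hx, z, hz, rfl⟩ := hy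
      exact subset_closure ⟨g * x, mul_mem hg hx, z, hz, by group⟩
    | one => simp
    | mul a b _ _ iha ihb =>
      have : g * (a * b) * g⁻¹ = g * a * g⁻¹ * (g * b * g⁻¹) := by group
      rw [this]
      exact mul_mem iha ihb
    | inv a _ iha =>
      have : g * a⁻¹ * g⁻¹ = (g * a * g⁻¹)⁻¹ := by group
      rw [this]
      exact inv_mem iha
  have hYYh : Y₁ ≤ Yh := fun y hy => subset_closure ⟨1, one_mem _, y, hy, by group⟩
  -- (e)
  by_contra hcon
  have hncY : ¬ Centralises D₂ Yh := by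
    intro h
    apply hcon
    intro d hd z hz x hx
    exact h d hd _ (hYYh (subset_closure ⟨x, hx, z, hz, rfl⟩))
  obtain ⟨B, hB, hBT₂⟩ := exists_not_le_of_thompson hII
  obtain ⟨b, hb, hb0⟩ := Set.not_subset.1 hBT₂
  set B₀ : Subgroup G := B ⊓ T₂ with hB₀
  set k := (centralizer (Yh : Set G)).relIndex B₀ with hk
  have i1 : k ^ e₁ ≤ (centralizer (B₀ : Set G)).relIndex Yh := by
    refine core_ineq (F := F) ?_ ?_ ?_ _ B₀ inf_le_right (fun a ha => hB.2.1.2 a ha.1) le_rfl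
    · rintro _ ⟨d, hd, rfl⟩
      exact hGood' d hd
    · rintro _ ⟨d, hd, rfl⟩ y hy
      exact subset_closure ⟨d, hd, _, mem_cn.1 hy, by group⟩
    · intro s hs
      rw [mem_centralizer_iff]
      have : Yh ≤ centralizer {s} := by
        rw [hYh, closure_le]
        rintro _ ⟨d, hd, y, hy, rfl⟩
        rw [SetLike.mem_coe, mem_centralizer_singleton_iff]
        refine mem_centralizer_iff.1 (hs (cn d Y₁) ⟨d, hd, rfl⟩) _ ?_
        rw [SetLike.mem_coe, mem_cn]
        convert hy using 1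
        group
      intro y hy
      exact mem_centralizer_singleton_iff.1 (this hy)
  have i2 : (centralizer (B₀ : Set G)).relIndex Yh ≤ (centralizer (B : Set G)).relIndex Yh :=
    relIndex_le_of_le_left (centralizer_le inf_le_left) index_ne_zero_of_finite
  have i3 : (centralizer (B : Set G)).relIndex Yh ≤ (centralizer (Yh : Set G)).relIndex B :=
    maxElem_index_le hB (hYhT.trans hB₂.le) hYhel
  have i4 : (centralizer (Yh : Set G)).relIndex B ≤ 2 * k := by
    have j1 : centralizer (Yh : Set G) ⊓ B ≤ B₀ := by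
      refine le_inf inf_le_right ?_
      rintro x ⟨hx, hxB⟩
      by_contra hx0
      exact hncY (hB₂.centralises hp₂ hYhel.isPGroup (le_sup_left.trans hYhn)
        (le_sup_right.trans hYhn) (hB.1 hxB) hx0
        (fun n hn => ((mem_centralizer_iff.1 hx) n hn).symm))
    have e1 := relIndex_mul_relIndex (centralizer (Yh : Set G) ⊓ B) B₀ B j1 inf_le_left
    rw [inf_relIndex_right] at e1
    have e2 : (centralizer (Yh : Set G) ⊓ B).relIndex B₀ = k := by
      rw [hk, ← inf_relIndex_right (centralizer (Yh : Set G) ⊓ B), inf_assoc,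
        inf_eq_right.2 (inf_le_left : B₀ ≤ B), inf_relIndex_right]
    have e3 : B₀.relIndex B ≤ 2 := by
      rw [hB₀, inf_relIndex_left]
      apply Nat.le_of_dvd (by norm_num)
      rw [relIndex_dvd_two_iff]
      refine ⟨b, hb, fun x hx => ?_⟩
      by_cases hx0 : x ∈ T₂
      · exact Or.inr hx0
      · refine Or.inl (hB₂.mul_mem (hB.1 hx) (hB.1 hb) hx0 hb0 ?_ ?_)
        · rw [hB.2.1.2 x hx]; exact one_mem _
        · rw [hB.2.1.2 b hb]; exact one_mem _
    rw [← e1, e2, mul_comm 2]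
    exact Nat.mul_le_mul_left _ e3
  have i5 : 2 ^ e₂ ≤ (centralizer (B : Set G)).relIndex Yh := by
    refine (hpow₂ hB₂ hYhel (le_sup_left.trans hYhn) (le_sup_right.trans hYhn) hncY b (hB.1 hb)
      hb0 (hB.2.1.2 b hb)).trans ?_
    refine relIndex_le_of_le_left ?_ index_ne_zero_of_finite
    intro x hx
    rw [mem_centralizer_singleton_iff]
    exact (mem_centralizer_iff.1 hx b hb).symm
  have i6 : k ^ e₁ ≤ 2 * k := i1.trans (i2.trans (i3.trans i4))
  have i7 : 2 ^ e₂ ≤ 2 * k := i5.trans (i3.trans i4)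
  rcases he₁ with ⟨rfl, hp5⟩ | rfl
  · have hk2 : k ≤ 2 := by
      by_contra hk3
      push Not at hk3
      nlinarith
    rcases he₂ with ⟨rfl, hp5'⟩ | rfl
    · rcases h₁₂ with h | h
      · exact h hp5
      · exact h hp5'
    · norm_num at i7
      omega
  · have hk2 : 2 ≤ k := by
      rcases he₂ with ⟨rfl, _⟩ | rfl <;> norm_num at i7 <;> omega
    have : 4 * k ≤ k ^ 3 := by
      have : 4 ≤ k ^ 2 := by nlinarith
      calc 4 * k ≤ k ^ 2 * k := Nat.mul_le_mul_right _ this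
        _ = k ^ 3 := by ring
    omega

end Main

end MP_5771ce_al
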