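import Pool.Agent.Lib.MP_5771ce_al.S4.Brick3

/-!
# Section 4.3: (B4), types of bricks
-/

open Subgroup
open scoped Pointwise commutatorElement

namespace MP_5771ce_al

universe u

namespace TypesAux

variable {G : Type u} [Group G] [Finite G]

/-- If `T/T₀` is cyclic then an elementary abelian `B ≤ T` has `|B : B ∩ T₀| ≤ t`. -/
theorem relIndex_le_of_cyclic {t : ℕ} (ht : 0 < t) {T T₀ B : Subgroup G} (hle : T₀ ≤ T)
    (hn : T ≤ normalizer (T₀ : Set G)) (hcyc : ∃ c ∈ T, ∀ x ∈ T, ∃ n : ℤ, x * c ^ n ∈ T₀)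
    (hBT : B ≤ T) (hB : ∀ b ∈ B, b ^ t ∈ T₀) : T₀.relIndex B ≤ t := by
  have hnor : (T₀.subgroupOf T).Normal := (normal_subgroupOf_iff_le_normalizer hle).2 hn
  let π : T →* T ⧸ T₀.subgroupOf T := QuotientGroup.mk' _
  obtain ⟨c, hc, hcx⟩ := hcyc
  have hcycl : IsCyclic (T ⧸ T₀.subgroupOf T) := by
    refine ⟨⟨π ⟨c, hc⟩, fun y => ?_⟩⟩
    obtain ⟨x, rfl⟩ := QuotientGroup.mk'_surjective _ y
    obtain ⟨n, hn⟩ := hcx x x.2
    refine mem_zpowers_iff.2 ⟨-n, ?_⟩
    have h1 : π (x * ⟨c, hc⟩ ^ n) = 1 := by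
      apply (QuotientGroup.eq_one_iff _).2
      rw [mem_subgroupOf]
      exact hn
    rw [map_mul, map_zpow] at h1
    rw [zpow_neg]
    exact (eq_inv_of_mul_eq_one_left h1).symm
  let S : Subgroup (T ⧸ T₀.subgroupOf T) := (B.subgroupOf T).map π
  have hS : Nat.card S = T₀.relIndex B := by
    have h1 := relIndex_ker (K := B.subgroupOf T) π
    have h2 : π.ker = T₀.subgroupOf T := QuotientGroup.ker_mk' _
    rw [h2, relIndex_subgroupOf hBT] at h1
    exact h1.symm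
  rw [← hS]
  have hpow : ∀ s ∈ S, s ^ t = 1 := by
    rintro _ ⟨b, hb, rfl⟩
    rw [← map_pow]
    apply (QuotientGroup.eq_one_iff _).2
    rw [mem_subgroupOf]
    exact hB b hb
  have := Fintype.ofFinite (T ⧸ T₀.subgroupOf T)
  classical
  have hle2 := IsCyclic.card_pow_eq_one_le (α := T ⧸ T₀.subgroupOf T) ht
  refine le_trans ?_ hle2
  rw [← Set.ncard_coe_finset]
  change (S : Set (T ⧸ T₀.subgroupOf T)).ncard ≤ _
  apply Set.ncard_le_ncard
  · intro a ha
    simp only [Finset.coe_filter, Finset.mem_univ, true_and, Set.mem_ofPred_eq]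
    exact hpow a ha
  · exact Set.toFinite _

end TypesAux

open Brick12Aux Brick3Aux TypesAux

section Bricks

variable {G : Type u} [Group G] [Finite G] {t p : ℕ} [Fact t.Prime] [Fact p.Prime]
  {T T₀ D N : Subgroup G}

/-- (B4) types. -/
theorem Brick.types (hB : Brick 2 p T T₀ D) (hp : 5 ≤ p) (hni : ¬ Centralises D T₀) :
    Centralises D (omegaZ 2 T) ∨ thompson 2 T ≤ T₀ := by
  by_contra hcon
  push Not at hcon
  obtain ⟨h1, h2⟩ := hcon
  obtain ⟨B, hBmax, hB0⟩ := exists_not_le_of_thompson h2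
  have hp2 : (2 : ℕ) ≠ p := by omega
  have hZ0 : omegaZ 2 T ≤ T₀ := by
    intro z hz
    exact hB.centralizer_le hp2 hni hz.1 (fun n hn => (hz.2.2 n (hB.le hn)).symm)
  have hZW : omegaZ 2 T ≤ omegaZ 2 T₀ := by
    intro z hz
    exact ⟨hZ0 hz, hz.2.1, fun x hx => hz.2.2 x (hB.le hx)⟩
  have hncW : ¬ Centralises D (omegaZ 2 T₀) := fun h => h1 (fun d hd n hn => h d hd n (hZW hn))
  obtain ⟨b, hb, hb0⟩ := SetLike.not_le_iff_exists.1 hB0
  have h4 := hB.four_le hp (elemAb_omegaZ 2 T₀) (hB.nT.trans normalizer_le_omegaZ)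
    (hB.nD.trans normalizer_le_omegaZ) hncW (hBmax.1 hb) hb0
  have h5 := maxElem_index_le hBmax ((omegaZ_le 2 T₀).trans hB.le) (elemAb_omegaZ 2 T₀)
  have h6 : (centralizer (omegaZ 2 T₀ : Set G)).relIndex B ≤ 2 := by
    have h7 : T₀.relIndex B ≤ 2 := relIndex_le_of_cyclic (by norm_num) hB.le hB.nT hB.cyc
      hBmax.1 (fun b hb => by rw [hBmax.2.1.2 b hb]; exact one_mem _)
    refine le_trans (relIndex_le_of_le_left ?_ index_ne_zero_of_finite) h7
    intro x hx
    rw [mem_centralizer_iff]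
    intro w hw
    exact (hw.2.2 x hx).symm
  have h8 : (centralizer {b}).relIndex (omegaZ 2 T₀) ≤
      (centralizer (B : Set G)).relIndex (omegaZ 2 T₀) := by
    apply relIndex_le_of_le_left _ index_ne_zero_of_finite
    exact Subgroup.centralizer_le (Set.singleton_subset_iff.2 hb)
  omega

end Bricks

end MP_5771ce_al
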