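import Pool.Agent.Lib.MP_5771ce_al.S4.UA3

/-!
# Section 4.5 of `GROUP` (MP_5771ce_al): rigid pairs in a minimal counterexample
-/

open Subgroup
open scoped Pointwise commutatorElement

namespace MP_5771ce_al

universe u

variable {G : Type u} [Group G] {A P : Subgroup G} {p : ℕ}

theorem permutes_subgroupOf {L : Subgroup G} (h : Permutes A P) (hA : A ≤ L) (hP : P ≤ L) :
    Permutes (A.subgroupOf L) (P.subgroupOf L) := by
  apply permutes_of_map L.subtype_injective
  rwa [map_subtype_subgroupOf hA, map_subtype_subgroupOf hP]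

theorem card_subgroupOf {L : Subgroup G} (h : A ≤ L) :
    Nat.card (A.subgroupOf L) = Nat.card A :=
  Nat.card_congr (subgroupOfEquivOfLe h).toEquiv

theorem map_commutator_subgroupOf {L : Subgroup G} (hA : A ≤ L) (hP : P ≤ L) :
    (⁅A.subgroupOf L, P.subgroupOf L⁆).map L.subtype = ⁅A, P⁆ := by
  rw [map_commutator, map_subtype_subgroupOf hA, map_subtype_subgroupOf hP]

theorem map_sup_subgroupOf {L : Subgroup G} (hA : A ≤ L) (hP : P ≤ L) :
    (A.subgroupOf L ⊔ P.subgroupOf L).map L.subtype = A ⊔ P := by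
  rw [Subgroup.map_sup, map_subtype_subgroupOf hA, map_subtype_subgroupOf hP]

/-- `core_{AP}(A) = O_{p'}(AP)`. -/
theorem Rigid.coreIn_eq [Finite G] [hp : Fact p.Prime] (hR : Rigid p A P) :
    coreIn A (A ⊔ P) = opp p (A ⊔ P) := by
  apply le_antisymm
  · exact le_opp (coreIn_normalIn A _)
      fun h => hR.ndvd (h.trans (Subgroup.card_dvd_of_le (coreIn_le A _)))
  · exact le_coreIn (opp_normalIn hp.out _) (opp_sup_le hR.isPGroup hR.permutes)

theorem Rigid.ne_bot (hR : Rigid p A P) : P ≠ ⊥ := by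
  rintro rfl
  exact hR.nn bot_le

/-- (U0) -/
theorem Rigid.U0 [Finite G] [hp : Fact p.Prime] (h : MC A) (hR : Rigid p A P) :
    P ≤ ⁅P, A⁆ ⊔ coreIn A (A ⊔ P) ∧ (∀ x ∈ P, ∀ y ∈ P, x * y = y * x) ∧
      ∀ Y : Subgroup G, coreIn A (A ⊔ P) ≤ Y → Y ≤ coreIn A (A ⊔ P) ⊔ P →
        A ≤ normalizer (Y : Set G) := by
  rw [hR.coreIn_eq]
  set L := A ⊔ P with hL
  have hAL : A ≤ L := le_sup_left
  have hPL : P ≤ L := le_sup_right
  have hLs : Group.IsSolvable L := h.isSolvable_sup_of_isPGroup hR.isPGroup hR.permutes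
  have hKL : opp p (⊤ : Subgroup L) = (opp p L).subgroupOf L := by
    apply map_injective L.subtype_injective
    rw [← opp_eq_map_top hp.out, map_subtype_subgroupOf (opp_le p L)]
  obtain ⟨h1, h2, h3⟩ := u0_abs (A := A.subgroupOf L) (P := P.subgroupOf L) (p := p)
    (rad_eq_self_iff.2 (isSolvable_of_map_injective L.subtype_injective (by
      rwa [map_subtype_top])))
    (h.her.subgroupOf hAL) hR.isPGroup.comap_subtype (by
      intro hd
      apply hR.not_dvd
      rw [← relIndex_mul_index hPL]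
      exact Dvd.dvd.mul_right hd _)
    (permutes_subgroupOf hR.permutes hAL hPL) (by
      apply map_injective L.subtype_injective
      rw [map_sup_subgroupOf hAL hPL, map_subtype_top])
    (by rw [card_subgroupOf hAL]; exact hR.ndvd) (by
      intro hn
      exact hR.nn (hPL.trans ((normal_subgroupOf_iff_le_normalizer hAL).1 hn)))
  rw [hKL] at h1 h3
  refine ⟨?_, ?_, ?_⟩
  · have h4 := map_mono (f := L.subtype) h1
    rwa [Subgroup.map_sup, map_subtype_subgroupOf hPL, map_commutator_subgroupOf hPL hAL,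
      map_subtype_subgroupOf (opp_le p L)] at h4
  · intro x hx y hy
    exact congrArg Subtype.val (h2 ⟨x, hPL hx⟩ hx ⟨y, hPL hy⟩ hy)
  · intro Y hY1 hY2
    have hYL : Y ≤ L := hY2.trans (sup_le (opp_le p L) hPL)
    have h4 := h3 (Y.subgroupOf L) (comap_mono hY1) (by
      rw [← map_le_map_iff_of_injective L.subtype_injective, Subgroup.map_sup,
        map_subtype_subgroupOf hPL, map_subtype_subgroupOf (opp_le p L),
        map_subtype_subgroupOf hYL]
      exact hY2)
    refine mem_normalizer_of_forall fun a ha y hy => ?_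
    exact mem_normalizer_conj (x := ⟨a, hAL ha⟩) (n := ⟨y, hYL hy⟩) (h4 ha) hy

/-- (U1) -/
theorem MC.U1 [Finite G] [hp : Fact p.Prime] (h : MC A) (hR : Rigid p A P) {E : Subgroup G}
    (hE : A ⊔ P ≤ E) (hne : E ≠ ⊤) :
    NormalIn (vsub A P) E ∧ NormalIn (vsub A P ⊔ P) E := by
  have hAE : A ≤ E := le_sup_left.trans hE
  have hPE : P ≤ E := le_sup_right.trans hE
  have hLE : (A.subgroupOf E ⊔ P.subgroupOf E).map E.subtype = A ⊔ P :=
    map_sup_subgroupOf hAE hPE
  have hK : (opp p (A.subgroupOf E ⊔ P.subgroupOf E)).map E.subtype = coreIn A (A ⊔ P) := by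
    rw [← opp_map_subtype hp.out, hLE, hR.coreIn_eq]
  have h0 := (hR.U0 h).1
  obtain ⟨h1, h2⟩ := thmU (A := A.subgroupOf E) (P := P.subgroupOf E) (p := p)
    (h.her.subgroupOf hAE) ((le_rad_iff_subgroupOf hAE).1 (h.le_rad hAE hne))
    hR.isPGroup.comap_subtype (by
      intro hd
      apply hR.not_dvd
      rw [← relIndex_mul_index hPE]
      exact Dvd.dvd.mul_right hd _)
    (permutes_subgroupOf hR.permutes hAE hPE) (by rw [card_subgroupOf hAE]; exact hR.ndvd) (by
      rw [← map_le_map_iff_of_injective E.subtype_injective, Subgroup.map_sup, hK,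
        map_commutator_subgroupOf hPE hAE, map_subtype_subgroupOf hPE]
      exact h0)
  have hV : (⁅opp p (A.subgroupOf E ⊔ P.subgroupOf E), P.subgroupOf E⁆).map E.subtype =
      vsub A P := by
    rw [map_commutator, hK, map_subtype_subgroupOf hPE]; rfl
  constructor
  · have h3 := (normalIn_top.2 h1).map E.subtype
    rwa [hV, map_subtype_top] at h3
  · have h3 := (normalIn_top.2 h2).map E.subtype
    rwa [Subgroup.map_sup, hV, map_subtype_subgroupOf hPE, map_subtype_top] at h3

/-- (U0) -/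
theorem MC.rigid_le [Finite G] [hp : Fact p.Prime] (h : MC A) (hR : Rigid p A P) :
    P ≤ ⁅P, A⁆ ⊔ coreIn A (A ⊔ P) := (hR.U0 h).1

/-- (U0) -/
theorem MC.rigid_comm [Finite G] [hp : Fact p.Prime] (h : MC A) (hR : Rigid p A P) :
    ∀ x ∈ P, ∀ y ∈ P, x * y = y * x := (hR.U0 h).2.1

/-- (U0): every subgroup between `core` and `core P` is normalised by `A`. -/
theorem MC.rigid_inv [Finite G] [hp : Fact p.Prime] (h : MC A) (hR : Rigid p A P)
    {Y : Subgroup G} (hY : coreIn A (A ⊔ P) ≤ Y) (hY' : Y ≤ coreIn A (A ⊔ P) ⊔ P) :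
    A ≤ normalizer (Y : Set G) := (hR.U0 h).2.2 Y hY hY'

/-- (U0): `core P` is normal in `AP`. -/
theorem MC.rigid_normal [Finite G] [hp : Fact p.Prime] (h : MC A) (hR : Rigid p A P) :
    NormalIn (coreIn A (A ⊔ P) ⊔ P) (A ⊔ P) := by
  refine normalIn_of_le_normalizer (sup_le ((coreIn_le A _).trans le_sup_left) le_sup_right) ?_
  exact sup_le (h.rigid_inv hR le_sup_left le_rfl) (le_sup_right.trans le_normalizer)

/-- (U1) -/
theorem MC.vsub_normalIn [Finite G] [hp : Fact p.Prime] (h : MC A) (hR : Rigid p A P)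
    {E : Subgroup G} (hE : A ⊔ P ≤ E) (hE' : E ≠ ⊤) :
    NormalIn (vsub A P) E ∧ NormalIn (vsub A P ⊔ P) E := h.U1 hR hE hE'

end MP_5771ce_al
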