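import Pool.Agent.Lib.MP_5771ce_al.S4.Ctx
import Pool.Agent.Lib.MP_5771ce_al.S4.U01

/-!
# Section 4 of `GROUP` (MP_5771ce_al): module U2, the subgroup `M(A, P)`
-/

open Subgroup
open scoped Pointwise commutatorElement

namespace MP_5771ce_al

universe u

variable {G : Type u} [Group G] [Finite G] {A P : Subgroup G} {p : ℕ} [Fact p.Prime]

namespace U2Aux

omit [Finite G] [Fact p.Prime] in
theorem rigid_ne_bot (hR : Rigid p A P) : P ≠ ⊥ := by
  rintro rfl
  exact hR.nn bot_le

omit [Fact p.Prime] in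
theorem le_normalizer_core (A P : Subgroup G) :
    P ≤ normalizer (coreIn A (A ⊔ P) : Set G) :=
  le_sup_right.trans (coreIn_normalIn A (A ⊔ P)).le_normalizer

end U2Aux

open U2Aux

omit [Fact p.Prime] in
theorem vsub_le (hR : Rigid p A P) : vsub A P ≤ A := by
  have _ := hR
  exact (le_normalizer_iff_commutator_le_left.1 (le_normalizer_core A P)).trans (coreIn_le _ _)

/-- (U2) -/
theorem MC.sup_le_bigM (h : MC A) (hR : Rigid p A P) : A ⊔ P ≤ bigM A P :=
  (h.vsub_normalIn hR le_rfl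
    (h.sup_ne_top_of_isPGroup hR.isPGroup hR.permutes)).2.le_normalizer

theorem MC.bigM_ne_top (h : MC A) (hR : Rigid p A P) : bigM A P ≠ ⊤ := by
  apply h.normalizer_ne_top
  · intro hb
    apply rigid_ne_bot hR
    rw [eq_bot_iff, ← hb]
    exact le_sup_right
  · exact isSolvable_of_le (h.isSolvable_sup_of_isPGroup hR.isPGroup hR.permutes)
      (sup_le ((vsub_le hR).trans le_sup_left) le_sup_right)

theorem MC.le_bigM (h : MC A) (hR : Rigid p A P) {E : Subgroup G} (hE : A ⊔ P ≤ E)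
    (hE' : E ≠ ⊤) : E ≤ bigM A P :=
  (h.vsub_normalIn hR hE hE').2.le_normalizer

theorem MC.bigM_le_normalizer_vsub (h : MC A) (hR : Rigid p A P) :
    bigM A P ≤ normalizer (vsub A P : Set G) :=
  (h.vsub_normalIn hR (h.sup_le_bigM hR) (h.bigM_ne_top hR)).1.le_normalizer

theorem MC.normalizer_bigM (h : MC A) (hR : Rigid p A P) :
    normalizer (bigM A P : Set G) = bigM A P := by
  have hAM : A ≤ bigM A P := le_sup_left.trans (h.sup_le_bigM hR)
  apply le_antisymm
  · by_cases ht : normalizer (bigM A P : Set G) = ⊤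
    · exfalso
      have h1 := h.eq_bot_of_normal_le hAM (h.bigM_ne_top hR)
        (Subgroup.normalizer_eq_top_iff.1 ht) le_rfl
      rw [h1] at hAM
      exact h.ne_bot (le_bot_iff.1 hAM)
    · exact h.le_bigM hR ((h.sup_le_bigM hR).trans le_normalizer) ht
  · exact le_normalizer

/-- A proper subgroup `M₁` of `G` with `x M₁ x⁻¹ ≤ M₁`.. : conjugates of `bigM`. -/
theorem MC.mem_bigM_of_conj (h : MC A) (hR : Rigid p A P) {x : G}
    (hx : ∀ g ∈ A ⊔ P, x * g * x⁻¹ ∈ bigM A P) : x ∈ bigM A P := by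
  have h1 : A ⊔ P ≤ conjBy (bigM A P) x := fun g hg => mem_conjBy.2 (hx g hg)
  have h2 : conjBy (bigM A P) x ≠ ⊤ := by
    intro ht
    apply h.bigM_ne_top hR
    apply Subgroup.eq_top_of_card_eq
    rw [← card_conjBy (bigM A P) x, ht, Subgroup.card_top]
  have h3 : conjBy (bigM A P) x ≤ bigM A P := h.le_bigM hR h1 h2
  have h4 : conjBy (bigM A P) x = bigM A P :=
    Subgroup.eq_of_le_of_card_ge h3 (card_conjBy (bigM A P) x).ge
  have h5 : x ∈ normalizer (bigM A P : Set G) := by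
    rw [Subgroup.mem_normalizer_iff]
    intro g
    have h6 : g ∈ conjBy (bigM A P) x ↔ g ∈ bigM A P := by rw [h4]
    rw [← h6, mem_conjBy]
  rwa [h.normalizer_bigM hR] at h5

/-- `(*)` -/
theorem MC.bigM_star (h : MC A) (hR : Rigid p A P) (hV : vsub A P ≠ ⊥) (r : ℕ) [Fact r.Prime] :
    ∃ s : ℕ, s.Prime ∧ s ≠ r ∧ s ∣ (bigM A P).index := by
  obtain ⟨Q, hQ⟩ := h.her.exists_sylPerm r
  have h1 : NormalIn (vsub A P) (bigM A P) :=
    normalIn_of_le_normalizer ((vsub_le hR).trans (le_sup_left.trans (h.sup_le_bigM hR)))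
      (h.bigM_le_normalizer_vsub hR)
  have h2 : vsub A P ≤ rad (A ⊔ Q) := (vsub_le hR).trans
    (h.le_rad le_sup_left (h.sup_ne_top_of_isPGroup hQ.isPGroup hQ.permutes))
  obtain ⟨s, hs, hs1, hs2⟩ := h.exists_prime hV h1 h2
  refine ⟨s, hs, ?_, hs1⟩
  rintro rfl
  exact hQ.not_dvd (hs2.trans (Subgroup.index_dvd_of_le le_sup_right))

/-- (U3) -/
theorem MC.isoPair_of_vsub (h : MC A) (hR : Rigid p A P) (hV : vsub A P = ⊥) : IsoPair A p P := by
  have hne := h.sup_ne_top_of_isPGroup hR.isPGroup hR.permutes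
  have hPn : NormalIn P (A ⊔ P) := by
    have h1 := (h.vsub_normalIn hR le_rfl hne).2
    rwa [hV, bot_sup_eq] at h1
  have hKP := commute_of_commutator_eq_bot (X := coreIn A (A ⊔ P)) (Y := P) hV
  have hAP : ⁅P, A⁆ ≤ P :=
    le_normalizer_iff_commutator_le_left.1 (le_sup_left.trans hPn.le_normalizer)
  have hpow : ∀ x : G, x ∈ P → x ∈ A → x = 1 := by
    intro x hxP hxA
    obtain ⟨n, hn⟩ := hR.isPGroup ⟨x, hxP⟩
    have hn' : x ^ p ^ n = 1 := congrArg Subtype.val hn
    have h2 : orderOf x ∣ p ^ n := orderOf_dvd_of_pow_eq_one hn'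
    have h3 : orderOf x ∣ Nat.card A := by
      have := orderOf_dvd_natCard (⟨x, hxA⟩ : A)
      rwa [Subgroup.orderOf_mk] at this
    have h4 : Nat.Coprime (p ^ n) (Nat.card A) :=
      Nat.Coprime.pow_left n ((Nat.Prime.coprime_iff_not_dvd Fact.out).2 hR.ndvd)
    exact orderOf_eq_one_iff.1 (Nat.eq_one_of_dvd_coprimes h4 h2 h3)
  refine ⟨?_, hR.isPGroup, rigid_ne_bot hR, fun a ha => hPn.2 a (mem_sup_left ha),
    fun Y hY => hR.toSylPerm.permutes_of_le h.her hY, ?_⟩
  · rw [eq_bot_iff]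
    intro x hx
    rw [mem_bot]
    obtain ⟨n, hn⟩ := opc_isPGroup p A ⟨x, hx⟩
    have hn' : x ^ p ^ n = 1 := congrArg Subtype.val hn
    have h2 : orderOf x ∣ p ^ n := orderOf_dvd_of_pow_eq_one hn'
    have h3 : orderOf x ∣ Nat.card A := by
      have := orderOf_dvd_natCard (⟨x, opc_le p A hx⟩ : A)
      rwa [Subgroup.orderOf_mk] at this
    have h4 : Nat.Coprime (p ^ n) (Nat.card A) :=
      Nat.Coprime.pow_left n ((Nat.Prime.coprime_iff_not_dvd Fact.out).2 hR.ndvd)
    exact orderOf_eq_one_iff.1 (Nat.eq_one_of_dvd_coprimes h4 h2 h3)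
  · intro x hx
    have hle : coreIn A (A ⊔ P) ≤ normalizer ((⁅P, A⁆ : Subgroup G) : Set G) := by
      intro k hk
      rw [mem_normalizer_iff]
      intro g
      have hcomm : ∀ y ∈ P, k * y * k⁻¹ = y := fun y hy => by
        rw [hKP k hk y hy, mul_inv_cancel_right]
      constructor
      · intro hg
        rw [hcomm g (hAP hg)]
        exact hg
      · intro hg
        have h5 := hAP hg
        have h6 : k * (k * g * k⁻¹) * k⁻¹ = k * g * k⁻¹ := hcomm _ h5
        have h7 : k * g * k⁻¹ = g := by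
          have := congrArg (fun z => k⁻¹ * z * k) h6
          simpa [mul_assoc] using this
        rwa [h7] at hg
    obtain ⟨c, hc, k, hk, e⟩ := (mem_sup_of_le_normalizer' hle).1 (h.rigid_le hR hx)
    have hk1 : k = 1 := by
      apply hpow k _ (coreIn_le _ _ hk)
      have : k = c⁻¹ * x := by rw [← e]; group
      rw [this]
      exact P.mul_mem (P.inv_mem (hAP hc)) hx
    rw [hk1, mul_one] at e
    rwa [← e]

theorem MC.commutator_vsub (h : MC A) (hR : Rigid p A P) : ⁅vsub A P, P⁆ = vsub A P := by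
  have _ := h
  exact commutator_commutator_eq hR.isPGroup (le_normalizer_core A P)
    fun hd => hR.ndvd (hd.trans (card_dvd_of_le (coreIn_le _ _)))

end MP_5771ce_al
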