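import Pool.Agent.Lib.MP_5771ce_al.S4.S460
import Pool.Agent.Lib.MP_5771ce_al.S4.Types
import Pool.Agent.Lib.MP_5771ce_al.S4.LemY
import Pool.Agent.Lib.MP_5771ce_al.LibJ
import Pool.Agent.Lib.MP_5771ce_al.S4.U2

/-!
# (4.6.2): one maximal subgroup `M(A, P)` contains `N_G(T)` and all `P_s`
-/

open Subgroup
open scoped Pointwise commutatorElement

namespace MP_5771ce_al

universe u

variable {G : Type u} [Group G] [Finite G] {A P : Subgroup G} {p : ℕ} [Fact p.Prime]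

namespace S462Aux

omit [Finite G] in
theorem le_normalizer_of_conj' {X Y : Subgroup G} (h : ∀ x ∈ X, ∀ y ∈ Y, x * y * x⁻¹ ∈ Y) :
    X ≤ normalizer (Y : Set G) := by
  intro x hx
  rw [mem_normalizer_iff]
  intro y
  refine ⟨h x hx y, fun hy => ?_⟩
  have := h x⁻¹ (inv_mem hx) _ hy
  simpa [mul_assoc] using this

theorem alpha (h : MC A) (hR : Rigid p A P) {Y : Subgroup G} (hY : Y ≠ ⊥)
    (hYs : Group.IsSolvable Y) (hAY : A ≤ normalizer (Y : Set G))
    (hPY : P ≤ normalizer (Y : Set G)) : normalizer (Y : Set G) ≤ bigM A P :=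
  h.le_bigM hR (sup_le hAY hPY) (h.normalizer_ne_top hY hYs)

theorem le_norm_opc (A : Subgroup G) (t : ℕ) : A ≤ normalizer (opc t A : Set G) :=
  (opc_normalIn t A).le_normalizer

theorem brick (h : NoIso2 A) {s : ℕ} [Fact s.Prime] (hs : 5 ≤ s) {Q : Subgroup G}
    (hQ : SylPerm s A Q) (hn : ¬ Q ≤ normalizer (opc 2 A : Set G)) :
    ∃ T₀ D : Subgroup G, SBrick 2 s A Q (opc 2 A) T₀ D ∧ ¬ Centralises D T₀ ∧
      (Centralises D (omegaZ 2 (opc 2 A)) ∨ thompson 2 (opc 2 A) ≤ T₀) := by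
  obtain ⟨T₀, D, hB, hni⟩ := h.mc.exists_sbrick h.noIso (t := 2)
    (fun s hs' h2 => h.odd s hs' (by omega)) (by omega) hQ hn
  exact ⟨T₀, D, hB, hni, hB.toBrick.types hs hni⟩

/-- type II: `Q` normalises `Ω₁Z(T)`. -/
theorem typeII {s : ℕ} {Q T T₀ D : Subgroup G} (hB : SBrick 2 s A Q T T₀ D)
    (hAT : A ≤ normalizer (T : Set G)) (hc : Centralises D (omegaZ 2 T)) :
    A ⊔ Q ≤ normalizer (omegaZ 2 T : Set G) := by
  rw [← hB.sup_eq]
  refine sup_le (hAT.trans normalizer_le_omegaZ) (le_normalizer_of_conj' ?_)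
  intro d hd z hz
  rw [hc d hd z hz, mul_inv_cancel_right]
  exact hz

/-- type I: `Q` normalises `J(T)`. -/
theorem typeI {s : ℕ} {Q T T₀ D : Subgroup G} (hB : SBrick 2 s A Q T T₀ D)
    (hJ : thompson 2 T ≤ T₀) :
    A ⊔ Q ≤ normalizer (thompson 2 T : Set G) := by
  rw [← thompson_eq hB.le hJ]
  exact hB.n₀.trans normalizer_le_thompson

/-- the subgroup `Y₁`. -/
def Y1 (T D : Subgroup G) : Subgroup G :=
  closure {y | ∃ z ∈ omegaZ 2 T, ∃ x ∈ T ⊔ D, x * z * x⁻¹ = y}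

omit [Finite G] in
theorem omega_le_Y1 (T D : Subgroup G) : omegaZ 2 T ≤ Y1 T D := fun z hz =>
  subset_closure ⟨z, hz, 1, one_mem _, by group⟩

omit [Finite G] in
theorem conj_Y1 {T D : Subgroup G} {g : G}
    (hV : ∀ z ∈ omegaZ 2 T, g * z * g⁻¹ ∈ omegaZ 2 T)
    (hX : ∀ x ∈ T ⊔ D, g * x * g⁻¹ ∈ T ⊔ D) : ∀ y ∈ Y1 T D, g * y * g⁻¹ ∈ Y1 T D := by
  intro y hy
  induction hy using closure_induction with
  | mem y hy =>
    obtain ⟨z, hz, x, hx, rfl⟩ := hy
    exact subset_closure ⟨_, hV z hz, _, hX x hx, by group⟩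
  | one => simp
  | mul a b _ _ iha ihb =>
    have : g * (a * b) * g⁻¹ = g * a * g⁻¹ * (g * b * g⁻¹) := by group
    rw [this]
    exact mul_mem iha ihb
  | inv a _ iha =>
    have : g * a⁻¹ * g⁻¹ = (g * a * g⁻¹)⁻¹ := by group
    rw [this]
    exact inv_mem iha

omit [Finite G] in
theorem conj_Y1' {T D : Subgroup G} {g : G} (hg : g ∈ T ⊔ D) :
    ∀ y ∈ Y1 T D, g * y * g⁻¹ ∈ Y1 T D := by
  intro y hy
  induction hy using closure_induction with
  | mem y hy =>
    obtain ⟨z, hz, x, hx, rfl⟩ := hy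
    exact subset_closure ⟨z, hz, g * x, mul_mem hg hx, by group⟩
  | one => simp
  | mul a b _ _ iha ihb =>
    have : g * (a * b) * g⁻¹ = g * a * g⁻¹ * (g * b * g⁻¹) := by group
    rw [this]
    exact mul_mem iha ihb
  | inv a _ iha =>
    have : g * a⁻¹ * g⁻¹ = (g * a * g⁻¹)⁻¹ := by group
    rw [this]
    exact inv_mem iha

/-- `A` and `D` normalise `Y₁`. -/
theorem normalise_Y1 {s : ℕ} {Q T T₀ D : Subgroup G} (hB : SBrick 2 s A Q T T₀ D)
    (hAT : A ≤ normalizer (T : Set G)) :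
    A ⊔ D ≤ normalizer (Y1 T D : Set G) := by
  refine sup_le (le_normalizer_of_conj' fun a ha => ?_)
    (le_normalizer_of_conj' fun d hd => conj_Y1' (mem_sup_right hd))
  refine conj_Y1 (fun z hz => mem_normalizer_conj (normalizer_le_omegaZ (hAT ha)) hz) ?_
  have h1 : T ⊔ D = T ⊔ (T₀ ⊔ D) := by
    rw [← sup_assoc, sup_eq_left.2 hB.le]
  have h2 : ∀ x ∈ T, a * x * a⁻¹ ∈ T ⊔ D := fun x hx =>
    mem_sup_left (mem_normalizer_conj (hAT ha) hx)
  have h3 : ∀ x ∈ T₀ ⊔ D, a * x * a⁻¹ ∈ T ⊔ D := fun x hx => by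
    rw [h1]
    exact mem_sup_right (mem_normalizer_conj (hB.n₀D (mem_sup_left ha)) hx)
  have h4 : T ⊔ D ≤ (T ⊔ D).comap (MulAut.conj a).toMonoidHom := by
    refine sup_le (fun x hx => h2 x hx) (fun x hx => h3 x (mem_sup_right hx))
  intro x hx
  exact h4 hx

theorem Y1_solvable (h : MC A) {s : ℕ} [Fact s.Prime] {Q T T₀ D : Subgroup G}
    (hQ : SylPerm s A Q)
    (hB : SBrick 2 s A Q T T₀ D) (hTA : T ≤ A) : Group.IsSolvable (Y1 T D) := by
  refine isSolvable_of_le (h.isSolvable_sup_of_isPGroup hQ.isPGroup hQ.permutes) ?_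
  rw [Y1, closure_le]
  rintro _ ⟨z, hz, x, hx, rfl⟩
  have hx' : x ∈ A ⊔ Q :=
    (sup_le (hTA.trans le_sup_left) (hB.D_le.trans le_sup_right) : T ⊔ D ≤ A ⊔ Q) hx
  exact mul_mem (mul_mem hx' (mem_sup_left (hTA hz.1))) (inv_mem hx')

/-- If `D₂` centralises the generators of `Y₁` then `D₂` normalises `Y₁`. -/
theorem le_normalizer_Y1 {T D₁ D₂ : Subgroup G}
    (hc : ∀ d ∈ D₂, ∀ z ∈ omegaZ 2 T, ∀ x ∈ T ⊔ D₁, d * (x * z * x⁻¹) = x * z * x⁻¹ * d) :
    D₂ ≤ normalizer (Y1 T D₁ : Set G) := by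
  have h1 : D₂ ≤ centralizer (Y1 T D₁ : Set G) := by
    intro d hd
    have h2 : Y1 T D₁ ≤ centralizer {d} := by
      rw [Y1, closure_le]
      rintro _ ⟨z, hz, x, hx, rfl⟩
      rw [SetLike.mem_coe, mem_centralizer_iff]
      rintro _ rfl
      exact hc _ hd z hz x hx
    rw [mem_centralizer_iff]
    intro y hy
    exact ((mem_centralizer_iff.1 (h2 hy)) d rfl).symm
  exact h1.trans (centralizer_le_normalizer (Y1 T D₁ : Set G))

end S462Aux

open S462Aux

/-- (4.6.2), first part -/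
theorem NoIso2.normalizer_opc_le (h : NoIso2 A) (hR : Rigid p A P) (hp : 5 ≤ p) :
    normalizer (opc 2 A : Set G) ≤ bigM A P := by
  have hT2 : IsPGroup 2 (opc 2 A) := opc_isPGroup 2 A
  have hAT := le_norm_opc A 2
  by_cases hn : P ≤ normalizer (opc 2 A : Set G)
  · exact alpha h.mc hR h.two (isSolvable_of_isPGroup hT2) hAT hn
  · obtain ⟨T₀, D, hB, hni, h1 | h1⟩ := brick h hp hR.toSylPerm hn
    · have h2 := typeII hB hAT h1
      exact normalizer_le_omegaZ.trans (alpha h.mc hR (omegaZ_ne_bot hT2 h.two)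
        (isSolvable_of_isPGroup (hT2.to_le (omegaZ_le 2 _))) (le_sup_left.trans h2)
        (le_sup_right.trans h2))
    · have h2 := typeI hB h1
      exact normalizer_le_thompson.trans (alpha h.mc hR (thompson_ne_bot hT2 h.two)
        (isSolvable_of_isPGroup (hT2.to_le (thompson_le 2 _))) (le_sup_left.trans h2)
        (le_sup_right.trans h2))

/-- (4.6.2), second part -/
theorem NoIso2.sylPerm_le (h : NoIso2 A) (hR : Rigid p A P) (hp : 5 ≤ p) {s : ℕ} [Fact s.Prime]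
    (hs : 5 ≤ s) (hps : p ≠ 5 ∨ s ≠ 5) {Q : Subgroup G} (hQ : SylPerm s A Q) :
    Q ≤ bigM A P := by
  have hT2 : IsPGroup 2 (opc 2 A) := opc_isPGroup 2 A
  have hTA : opc 2 A ≤ A := opc_le 2 A
  have hAT := le_norm_opc A 2
  have hNT := h.normalizer_opc_le hR hp
  by_cases hnQ : Q ≤ normalizer (opc 2 A : Set G)
  · exact hnQ.trans hNT
  have hVne := omegaZ_ne_bot hT2 h.two
  have hJne := thompson_ne_bot hT2 h.two
  have hVs : Group.IsSolvable (omegaZ 2 (opc 2 A) : Subgroup G) :=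
    isSolvable_of_isPGroup (hT2.to_le (omegaZ_le 2 _))
  have hJs : Group.IsSolvable (thompson 2 (opc 2 A) : Subgroup G) :=
    isSolvable_of_isPGroup (hT2.to_le (thompson_le 2 _))
  obtain ⟨T₁, D₁, hB₁, hni₁, hty₁⟩ := brick h hs hQ hnQ
  by_cases hnP : P ≤ normalizer (opc 2 A : Set G)
  · rcases hty₁ with h1 | h1
    · exact (le_sup_right.trans (typeII hB₁ hAT h1)).trans (alpha h.mc hR hVne hVs
        (hAT.trans normalizer_le_omegaZ) (hnP.trans normalizer_le_omegaZ))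
    · exact (le_sup_right.trans (typeI hB₁ h1)).trans (alpha h.mc hR hJne hJs
        (hAT.trans normalizer_le_thompson) (hnP.trans normalizer_le_thompson))
  obtain ⟨T₂, D₂, hB₂, hni₂, hty₂⟩ := brick h hp hR.toSylPerm hnP
  -- `normalizer V₀ ≤ M` if `P` is of type II, `normalizer J ≤ M` if `P` is of type I
  have hV : Centralises D₂ (omegaZ 2 (opc 2 A)) →
      normalizer (omegaZ 2 (opc 2 A) : Set G) ≤ bigM A P := fun h1 =>
    alpha h.mc hR hVne hVs (le_sup_left.trans (typeII hB₂ hAT h1))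
      (le_sup_right.trans (typeII hB₂ hAT h1))
  have hJ : thompson 2 (opc 2 A) ≤ T₂ →
      normalizer (thompson 2 (opc 2 A) : Set G) ≤ bigM A P := fun h1 =>
    alpha h.mc hR hJne hJs (le_sup_left.trans (typeI hB₂ h1))
      (le_sup_right.trans (typeI hB₂ h1))
  by_cases ha : Centralises D₂ (omegaZ 2 (opc 2 A))
  · by_cases ha' : Centralises D₁ (omegaZ 2 (opc 2 A))
    · exact (le_sup_right.trans (typeII hB₁ hAT ha')).trans (hV ha)
    · have hb' := hty₁.resolve_left ha'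
      by_cases hb : thompson 2 (opc 2 A) ≤ T₂
      · exact (le_sup_right.trans (typeI hB₁ hb')).trans (hJ hb)
      · -- Lemma Y with `(T₁, D₁)`, `(T₂, D₂)`
        have hY := lemmaY hs hp hps.symm hB₁.toBrick hB₂.toBrick hni₁ hni₂ ha' hb
        have h1 : A ⊔ D₁ ≤ normalizer (Y1 (opc 2 A) D₁ : Set G) := normalise_Y1 hB₁ hAT
        have h2 : D₂ ≤ normalizer (Y1 (opc 2 A) D₁ : Set G) := le_normalizer_Y1 hY
        have h3 : A ⊔ P ≤ normalizer (Y1 (opc 2 A) D₁ : Set G) := by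
          rw [← hB₂.sup_eq]
          exact sup_le (le_sup_left.trans h1) h2
        have hne : Y1 (opc 2 A) D₁ ≠ ⊥ := fun he => hVne (by
          rw [eq_bot_iff, ← he]; exact omega_le_Y1 _ _)
        have h4 := alpha h.mc hR hne (Y1_solvable h.mc hQ hB₁ hTA)
          (le_sup_left.trans h3) (le_sup_right.trans h3)
        rw [hB₁.sup_eq] at h1
        exact (le_sup_right.trans h1).trans h4
  · have hb := hty₂.resolve_left ha
    by_cases hb' : thompson 2 (opc 2 A) ≤ T₁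
    · exact (le_sup_right.trans (typeI hB₁ hb')).trans (hJ hb)
    · have ha' := hty₁.resolve_right hb'
      have hY := lemmaY hp hs hps hB₂.toBrick hB₁.toBrick hni₂ hni₁ ha hb'
      have h1 : A ⊔ D₂ ≤ normalizer (Y1 (opc 2 A) D₂ : Set G) := normalise_Y1 hB₂ hAT
      have h2 : D₁ ≤ normalizer (Y1 (opc 2 A) D₂ : Set G) := le_normalizer_Y1 hY
      have h3 : A ⊔ Q ≤ normalizer (Y1 (opc 2 A) D₂ : Set G) := by
        rw [← hB₁.sup_eq]
        exact sup_le (le_sup_left.trans h1) h2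
      have hne : Y1 (opc 2 A) D₂ ≠ ⊥ := fun he => hVne (by
        rw [eq_bot_iff, ← he]; exact omega_le_Y1 _ _)
      rw [hB₂.sup_eq] at h1
      have h4 := alpha h.mc hR hne (Y1_solvable h.mc hR.toSylPerm hB₂ hTA)
        (le_sup_left.trans h1) (le_sup_right.trans h1)
      exact (le_sup_right.trans h3).trans h4

end MP_5771ce_al
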