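import Pool.Agent.Lib.MP_5771ce_al.S4.Ctx
import Pool.Agent.Lib.MP_5771ce_al.S4.NotTwo
import Pool.Agent.Lib.MP_5771ce_al.S4.U2
import Pool.Agent.Lib.MP_5771ce_al.S4.S462

/-!
# (4.6.3) of the chain `GROUP`: `A` is a `2`-group
-/

open Subgroup
open scoped Pointwise commutatorElement

namespace MP_5771ce_al

universe u

variable {G : Type u} [Group G] [Finite G] {A P : Subgroup G} {p : ℕ} [Fact p.Prime]

theorem MC.rigMax (h : MC A) (hR : Rigid p A P) : RigMax A P (bigM A P) where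
  le := h.sup_le_bigM hR
  ne_top := h.bigM_ne_top hR
  max := fun E hE hEt => h.le_bigM hR hE hEt
  exV := by
    refine ⟨vsub A P, vsub_le hR, ?_, ?_⟩
    · exact (le_sup_right.trans (h.sup_le_bigM hR)).trans (h.bigM_le_normalizer_vsub hR)
    · exact normalIn_of_le_normalizer le_normalizer le_rfl

/-- (4.6.3) -/
theorem NoIso2.isPGroup (h : NoIso2 A) : IsPGroup 2 A := by
  apply isPGroup_two_of_rigMax h.mc
  intro p P hp hp5 hpA hP hPn
  have _ : Fact p.Prime := ⟨hp⟩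
  have hR : Rigid p A P := { hP with ndvd := hpA, nn := hPn }
  refine ⟨bigM A P, h.mc.rigMax hR, ?_, ?_⟩
  · intro s P' hs hs5 hps hP'
    have _ : Fact s.Prime := ⟨hs⟩
    exact h.sylPerm_le hR hp5 hs5 hps hP'
  · intro r hr
    have _ : Fact r.Prime := ⟨hr⟩
    have hV : vsub A P ≠ ⊥ := fun hV => h.noIso p hp P (h.mc.isoPair_of_vsub hR hV)
    obtain ⟨s, hs, hsr, hd⟩ := h.mc.bigM_star hR hV r
    exact ⟨s, hs, hsr, fun P' hP' hle => hP'.not_dvd (hd.trans (Subgroup.index_dvd_of_le hle))⟩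

end MP_5771ce_al
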