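import Pool.Agent.Lib.MP_5771ce_al.S4.AbsBrick
import Pool.Agent.Lib.MP_5771ce_al.S4.Types
import Pool.Agent.Lib.MP_5771ce_al.LibSylow
import Pool.Agent.Lib.MP_5771ce_al.S4.U01
import Pool.Agent.Lib.MP_5771ce_al.S4.U2
import Pool.Agent.Lib.MP_5771ce_al.S4.S462

/-!
# Section (4.6.4): no rigid pair `(A, P)` with `p ≥ 5` if `A` is a `2`-group
-/

open Subgroup
open scoped Pointwise commutatorElement

namespace MP_5771ce_al

universe u

namespace S464Aux

variable {G : Type u} [Group G]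

/-- Commutators of `V P` are in `V` if `P` is abelian and normalises `V`. -/
theorem commutator_mem {V P : Subgroup G} (hPV : P ≤ normalizer (V : Set G))
    (hab : ∀ x ∈ P, ∀ y ∈ P, x * y = y * x) {x y : G} (hx : x ∈ V ⊔ P) (hy : y ∈ V ⊔ P) :
    ⁅x, y⁆ ∈ V := by
  obtain ⟨v, hv, a, ha, rfl⟩ := (mem_sup_of_le_normalizer' hPV).1 hx
  obtain ⟨w, hw, b, hb, rfl⟩ := (mem_sup_of_le_normalizer' hPV).1 hy
  have h1 : a * w * a⁻¹ ∈ V := mem_normalizer_conj (hPV ha) hw
  have h2 : b * v⁻¹ * b⁻¹ ∈ V := mem_normalizer_conj (hPV hb) (inv_mem hv)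
  have h3 := mul_mem (mul_mem (mul_mem hv h1) h2) (inv_mem hw)
  have h4 : ⁅v * a, w * b⁆ = v * (a * w * a⁻¹) * (b * v⁻¹ * b⁻¹) * w⁻¹ := by
    rw [commutatorElement_def]
    have e : a * b = b * a := hab a ha b hb
    calc v * a * (w * b) * (v * a)⁻¹ * (w * b)⁻¹
        = v * (a * w * a⁻¹) * (a * b) * a⁻¹ * v⁻¹ * b⁻¹ * w⁻¹ := by group
      _ = v * (a * w * a⁻¹) * (b * a) * a⁻¹ * v⁻¹ * b⁻¹ * w⁻¹ := by rw [e]
      _ = v * (a * w * a⁻¹) * (b * v⁻¹ * b⁻¹) * w⁻¹ := by group
  rw [h4]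
  exact h3

theorem permutes_of_le {A E : Subgroup G} (h : A ≤ E) : Permutes A E := by
  rw [permutes_iff]
  intro a ha b hb
  exact ⟨a * b, mul_mem (h ha) hb, 1, A.one_mem, by simp⟩

/-- The subgroup generated by the conjugates of `A` contained in `S`. -/
def wcl (A S : Subgroup G) : Subgroup G := sSup {B | ∃ x, B = conjBy A x ∧ B ≤ S}

theorem wcl_le (A S : Subgroup G) : wcl A S ≤ S := by
  refine sSup_le ?_
  rintro _ ⟨x, rfl, h⟩
  exact h

theorem le_wcl {A S : Subgroup G} (h : A ≤ S) : A ≤ wcl A S :=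
  le_sSup ⟨1, (conjBy_one A).symm, h⟩

/-- `N_G(S)` normalises `wcl A S`. -/
theorem normalizer_le_wcl (A S : Subgroup G) :
    normalizer (S : Set G) ≤ normalizer (wcl A S : Set G) := by
  apply AbsBrickAux.le_normalizer_of_conj
  intro g hg y hy
  have h : wcl A S ≤ (wcl A S).comap (MulAut.conj g).toMonoidHom := by
    refine sSup_le ?_
    rintro _ ⟨x, rfl, hx⟩
    intro z hz
    have h1 : conjBy A (x * g⁻¹) ≤ S := by
      intro u hu
      rw [mem_conjBy] at hu
      have h2 : g⁻¹ * u * g ∈ S := hx (mem_conjBy.2 (by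
        convert hu using 1
        group))
      exact (mem_normalizer_iff''.1 hg u).2 h2
    have h2 : conjBy A (x * g⁻¹) ≤ wcl A S := le_sSup ⟨_, rfl, h1⟩
    apply h2
    rw [mem_conjBy]
    rw [mem_conjBy] at hz
    change x * g⁻¹ * (g * z * g⁻¹) * (x * g⁻¹)⁻¹ ∈ A
    convert hz using 1
    group
  exact h hy

theorem map_conj_surj (x : G) : Function.Surjective (MulAut.conj x).toMonoidHom :=
  (MulAut.conj x).surjective

end S464Aux

open S464Aux AbsBrickAux

variable {G : Type u} [Group G] [Finite G] {A P : Subgroup G} {p : ℕ} [Fact p.Prime]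

/-- (4.6.4), (PU2) -/
theorem NoIso2.not_two_dvd (h : NoIso2 A) (hA : IsPGroup 2 A) (hR : Rigid p A P) (hp : 5 ≤ p) :
    ¬ 2 ∣ (bigM A P).index := by
  intro hdvd
  have hmc := h.mc
  have : Fact (Nat.Prime 2) := ⟨Nat.prime_two⟩
  set V : Subgroup G := vsub A P with hVdef
  set M : Subgroup G := bigM A P with hMdef
  set N : Subgroup G := V ⊔ P with hNdef
  have hAPM : A ⊔ P ≤ M := hmc.sup_le_bigM hR
  have hMt : M ≠ ⊤ := hmc.bigM_ne_top hR
  have hMV : M ≤ normalizer (V : Set G) := hmc.bigM_le_normalizer_vsub hR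
  have hMN : M = normalizer (N : Set G) := rfl
  have hVA : V ≤ A := vsub_le hR
  have hVne : V ≠ ⊥ := fun hV => h.noIso p Fact.out P (hmc.isoPair_of_vsub hR hV)
  have hcomm : ⁅V, P⁆ = V := hmc.commutator_vsub hR
  have hab := hmc.rigid_comm hR
  have hPV : P ≤ normalizer (V : Set G) := (le_sup_right.trans hAPM).trans hMV
  have hNM : N ≤ M := sup_le (hVA.trans (le_sup_left.trans hAPM)) (le_sup_right.trans hAPM)
  obtain ⟨S, hS, hAS⟩ := exists_isSylowIn_ge (p := 2) hA (le_sup_left.trans hAPM)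
  set w : Subgroup G := wcl A S with hw
  have hwS : w ≤ S := wcl_le A S
  have hAw : A ≤ w := le_wcl hAS
  have hw2 : IsPGroup 2 w := hS.isPGroup.to_le hwS
  -- `w` normalises all subgroups between `V` and `N`
  have hn : ∀ Y : Subgroup G, V ≤ Y → Y ≤ V ⊔ P → w ≤ normalizer (Y : Set G) := by
    intro Y hVY hYN
    refine sSup_le ?_
    rintro _ ⟨x, rfl, hx⟩
    have hB : HerPermutable (conjBy A x) := hmc.her.map (map_conj_surj x⁻¹)
    have hBM : conjBy A x ≤ M := hx.trans hS.le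
    have hBN : ∀ a ∈ conjBy A x, ∀ n ∈ N, a * n * a⁻¹ ∈ N := by
      intro a ha n hn
      have : a ∈ normalizer (N : Set G) := by rw [← hMN]; exact hBM ha
      exact mem_normalizer_conj this hn
    have p1 : Permutes (conjBy A x) N := hB.permutes_of_normal (permutes_of_le hBM) hNM (by
      intro b hb n hn
      have : b ∈ normalizer (N : Set G) := by rw [← hMN]; exact hb
      exact mem_normalizer_conj this hn)
    have p2 : Permutes (conjBy A x) Y := hB.permutes_of_normal p1 hYN (by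
      intro b hb n hn
      have h1 := hVY (commutator_mem hPV hab hb (hYN hn))
      have h2 := mul_mem h1 hn
      rw [commutatorElement_def] at h2
      simpa using h2)
    have hBV : conjBy A x ⊓ N ≤ Y := by
      refine le_trans ?_ hVY
      refine Brick12Aux.le_of_le_sup_of_coprime (t := p) (p := 2) (by omega) (S := P) (C := V)
        hR.isPGroup ((hS.isPGroup.to_le hx).to_le inf_le_left) hPV ?_
      rw [sup_comm]
      exact inf_le_right
    exact le_normalizer_of_conj (conj_mem_of_permutes p2 hYN hBV hBN)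
  obtain ⟨w₀, hVw₀, hBr⟩ := exists_brick (t := 2) (p := p) (by omega) hw2 hR.isPGroup
    (hVA.trans hAw) ((hwS.trans hS.le).trans hMV) hPV hab hn
  have hni : ¬ Centralises P w₀ := by
    intro hc
    apply hVne
    rw [← hcomm, commutator_eq_bot_iff_le_centralizer]
    intro v hv
    rw [mem_centralizer_iff]
    intro y hy
    exact hc y hy v (hVw₀ hv)
  have hAne : A ≠ ⊥ := hmc.ne_bot
  have hwne : w ≠ ⊥ := fun hwb => hAne (le_bot_iff.1 (hAw.trans hwb.le))
  -- a nontrivial subgroup `Y ≤ w` normalised by `N_G(w)` and `P`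
  obtain ⟨Y, hYw, hYne, hY1, hY2⟩ : ∃ Y ≤ w, Y ≠ ⊥ ∧
      normalizer (w : Set G) ≤ normalizer (Y : Set G) ∧ P ≤ normalizer (Y : Set G) := by
    rcases hBr.types hp hni with hty | hty
    · refine ⟨omegaZ 2 w, omegaZ_le 2 w, omegaZ_ne_bot hw2 hwne, normalizer_le_omegaZ, ?_⟩
      exact le_normalizer_of_commute hty
    · refine ⟨thompson 2 w, thompson_le 2 w, thompson_ne_bot hw2 hwne, normalizer_le_thompson, ?_⟩
      rw [← thompson_eq hBr.le hty]
      exact hBr.nD.trans normalizer_le_thompson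
  have hYs : Group.IsSolvable Y := isSolvable_of_isPGroup (p := 2) (hw2.to_le hYw)
  have hYt : normalizer (Y : Set G) ≠ ⊤ := hmc.normalizer_ne_top hYne hYs
  have hYM : normalizer (Y : Set G) ≤ M :=
    hmc.le_bigM hR (sup_le (hAw.trans (le_normalizer.trans hY1)) hY2) hYt
  have hSM : normalizer (S : Set G) ≤ M := (normalizer_le_wcl A S).trans (hY1.trans hYM)
  -- so `S` is a Sylow subgroup of `G`
  obtain ⟨S₁, hS₁, hSS₁⟩ := exists_isSylowIn_ge (p := 2) hS.isPGroup (le_top : S ≤ ⊤)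
  have hne : S ≠ S₁ := by
    rintro rfl
    apply hS₁.not_dvd
    rw [relIndex_top_right]
    exact hdvd.trans (index_dvd_of_le hS.le)
  have hlt := lt_inf_normalizer_of_lt hS₁.isPGroup (lt_of_le_of_ne hSS₁ hne)
  exact hlt.ne (hS.eq_of_le (hS₁.isPGroup.to_le inf_le_left) hlt.le (inf_le_right.trans hSM))

/-- (4.6.4) -/
theorem NoIso2.not_rigid (h : NoIso2 A) (hA : IsPGroup 2 A) (hR : Rigid p A P) (hp : 5 ≤ p) :
    False := by
  have hV : vsub A P ≠ ⊥ := fun hV => h.noIso p Fact.out P (h.mc.isoPair_of_vsub hR hV)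
  have : Fact (Nat.Prime 3) := ⟨Nat.prime_three⟩
  obtain ⟨s, hs, hs3, hd⟩ := h.mc.bigM_star hR hV 3
  have hs' : Fact s.Prime := ⟨hs⟩
  have hs2 : s ≠ 2 := by
    rintro rfl
    exact h.not_two_dvd hA hR hp hd
  have hs5 : 5 ≤ s := by
    have h2 := hs.two_le
    by_contra hlt
    have : s = 4 := by omega
    rw [this] at hs
    exact absurd hs (by norm_num)
  by_cases hsp : s = p
  · subst hsp
    exact hR.not_dvd (hd.trans (index_dvd_of_le (le_sup_right.trans (h.mc.sup_le_bigM hR))))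
  · obtain ⟨Q, hQ⟩ := h.mc.her.exists_sylPerm s
    have h1 := h.sylPerm_le hR hp hs5 (by
      by_contra hcon
      push Not at hcon
      exact hsp (hcon.2.trans hcon.1.symm)) hQ
    exact hQ.not_dvd (hd.trans (index_dvd_of_le h1))

end MP_5771ce_al
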