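import Pool.Agent.Lib.MP_5771ce_al.S4.S461
import Pool.Agent.Lib.MP_5771ce_al.S4.S463
import Pool.Agent.Lib.MP_5771ce_al.S4.S464
import Pool.Agent.Lib.MP_5771ce_al.S4.LemSRel
import Pool.Agent.Lib.MP_5771ce_al.S4.U2
import Pool.Agent.Lib.MP_5771ce_al.EStar

/-!
# (4.6.5): the end of section 4
-/

open Subgroup
open scoped Pointwise commutatorElement

namespace MP_5771ce_al

universe u

variable {G : Type u} [Group G] [Finite G] {A P : Subgroup G}

namespace S465Aux

/-- If `A` is a `2`-group, every Sylow `p`-subgroup permuting with `A` that does not normalise `A`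
is rigid, for odd `p`. -/
theorem rigid_of_not_le {p : ℕ} [Fact p.Prime] (hA : IsPGroup 2 A) (hp : p ≠ 2)
    (hP : SylPerm p A P) (hn : ¬ P ≤ normalizer (A : Set G)) : Rigid p A P :=
  { hP with
    ndvd := by
      intro hd
      obtain ⟨n, hn⟩ := (IsPGroup.iff_card).1 hA
      rw [hn] at hd
      have := (Nat.prime_dvd_prime_iff_eq Fact.out Nat.prime_two).1
        ((Fact.out : p.Prime).dvd_of_dvd_pow hd)
      exact hp this
    nn := hn }

end S465Aux

open S465Aux

/-- (4.6.5) -/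
theorem NoIso2.false (h : NoIso2 A) : False := by
  have h2 : Fact (Nat.Prime 2) := ⟨Nat.prime_two⟩
  have h3 : Fact (Nat.Prime 3) := ⟨Nat.prime_three⟩
  have hA : IsPGroup 2 A := h.isPGroup
  have hopc : opc 2 A = A := opc_eq_self_iff.2 hA
  have hAs : Group.IsSolvable A := h.mc.sol
  -- Sylow subgroups for `s ≥ 5` normalise `A`
  have h5 : ∀ s : ℕ, s.Prime → 5 ≤ s → ∀ Q : Subgroup G, SylPerm s A Q →
      Q ≤ normalizer (A : Set G) := by
    intro s hs hs5 Q hQ
    by_contra hn
    have _ : Fact s.Prime := ⟨hs⟩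
    exact h.not_rigid hA (rigid_of_not_le hA (by omega) hQ hn) hs5
  have hN : normalizer (A : Set G) ≠ ⊤ := h.mc.normalizer_ne_top h.mc.ne_bot hAs
  -- `P₃`
  obtain ⟨P, hP⟩ := h.mc.her.exists_sylPerm (A := A) 3
  have hPn : ¬ P ≤ normalizer (A : Set G) := by
    intro hle
    obtain ⟨Q, hQ⟩ := h.mc.her.exists_sylPerm (A := A) 2
    obtain ⟨q, hq, hq'⟩ := h.mc.exists_prime (U := normalizer (A : Set G)) (M := A ⊔ Q)
      (W := A) h.mc.ne_bot ⟨le_normalizer, fun e he n hn => (mem_normalizer_iff.1 he n).1 hn⟩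
      (h.mc.le_rad le_sup_left (h.mc.sup_ne_top_of_isPGroup hQ.isPGroup hQ.permutes))
    by_cases hq2 : q = 2
    · subst hq2
      exact hQ.not_dvd (hq'.2.trans (index_dvd_of_le le_sup_right))
    by_cases hq3 : q = 3
    · subst hq3
      exact hP.not_dvd (hq'.1.trans (index_dvd_of_le hle))
    · have hq5 : 5 ≤ q := by
        have h1 := hq.two_le
        by_contra hlt
        have : q = 4 := by omega
        rw [this] at hq
        exact absurd hq (by decide)
      have _ : Fact q.Prime := ⟨hq⟩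
      obtain ⟨R, hR⟩ := h.mc.her.exists_sylPerm (A := A) q
      exact hR.not_dvd (hq'.1.trans (index_dvd_of_le (h5 q hq hq5 R hR)))
  have hR : Rigid 3 A P := rigid_of_not_le hA (by norm_num) hP hPn
  set M := bigM A P with hM
  have hV : vsub A P ≠ ⊥ := fun h0 => h.noIso 3 Nat.prime_three P (h.mc.isoPair_of_vsub hR h0)
  -- the brick
  obtain ⟨T₀, D, hB, -, hDP, hS6⟩ := lemmaSrel (A := A) (P := P) (T := A) (t := 2) (p := 3)
    (by norm_num) h.mc.her hP.isPGroup hP.permutes
    (fun hd => hP.not_dvd (hd.trans (by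
      rw [← relIndex_mul_index (H := P) (K := A ⊔ P) le_sup_right]
      exact dvd_mul_right _ _)))
    (h.mc.isSolvable_sup_of_isPGroup hP.isPGroup hP.permutes) le_rfl le_normalizer hA
    (fun N hN _ _ => hN) hPn
  have hDP' : D = P := hDP hR.ndvd
  subst hDP'
  have hexp : ∀ b ∈ A, b ^ 2 ∈ T₀ := fun b hb => hB.exp b hb
  obtain ⟨hab, hinv⟩ := hS6 hR.ndvd hexp
  have hT₀n : NormalIn T₀ (A ⊔ D) :=
    ⟨hB.le.trans le_sup_left, fun g hg n hn => (mem_normalizer_iff.1 (hB.n₀ hg) n).1 hn⟩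
  -- `|A : T₀| = 2`
  have hidx : T₀.relIndex A = 2 := by
    obtain ⟨c, hc, hcyc⟩ := hB.cyc
    have hcT : c ∉ T₀ := by
      intro hcT
      apply hB.ne
      apply le_antisymm hB.le
      intro x hx
      obtain ⟨n, hn⟩ := hcyc x hx
      have := mul_mem hn (inv_mem (zpow_mem hcT n))
      simpa using this
    rw [relIndex_eq_two_iff]
    refine ⟨c, hc, fun b hb => ?_⟩
    obtain ⟨n, hn⟩ := hcyc b hb
    have hc2 : c ^ (2 : ℤ) ∈ T₀ := by exact_mod_cast hexp c hc
    rcases Int.even_or_odd' n with ⟨m, hm | hm⟩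
    · right
      have h1 : c ^ n ∈ T₀ := by rw [hm, zpow_mul]; exact zpow_mem hc2 m
      have h2 : b ∈ T₀ := by
        have := mul_mem hn (inv_mem h1)
        simpa using this
      refine ⟨h2, fun h3 => hcT ?_⟩
      have := mul_mem (inv_mem h2) h3
      simpa using this
    · left
      have h1 : c ^ (2 * m) ∈ T₀ := by rw [zpow_mul]; exact zpow_mem hc2 m
      have h2 : b * c ∈ T₀ := by
        have h4 : b * c = b * c ^ n * (c ^ (2 * m))⁻¹ := by
          rw [hm, add_comm, zpow_add, zpow_one]; group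
        rw [h4]
        exact mul_mem hn (inv_mem h1)
      refine ⟨h2, fun h3 => hcT ?_⟩
      have := mul_mem (inv_mem h3) h2
      simpa using this
  -- the core of `A` lies in `T₀`
  have hcore : coreIn A (A ⊔ D) ≤ T₀ := by
    intro b hb
    by_contra hbT
    have hK := coreIn_normalIn A (A ⊔ D)
    have h1 := hB.gen b (coreIn_le _ _ hb) hbT
    have h4 : commEl D b ≤ coreIn A (A ⊔ D) := by
      rw [commEl, closure_le]
      rintro _ ⟨d, hd, rfl⟩
      have h5 : d * b * d⁻¹ ∈ coreIn A (A ⊔ D) := hK.2 d (mem_sup_right hd) b hb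
      have h6 := mul_mem h5 (inv_mem hb)
      simpa [commutatorElement_def] using h6
    have h5 : D ≤ A := h1.trans (sup_le hB.le (h4.trans (coreIn_le _ _)))
    exact hR.nn (h5.trans le_normalizer)
  have hni : ∃ n ∈ T₀, ∃ y ∈ D, n * y ≠ y * n := by
    by_contra hcon
    push Not at hcon
    apply hV
    rw [vsub, commutator_eq_bot_iff_le_centralizer]
    intro n hn
    rw [mem_centralizer_iff]
    intro y hy
    exact (hcon n (hcore hn) y hy).symm
  -- the element `x`
  obtain ⟨s, hs, hs2, hsM⟩ := h.mc.bigM_star hR hV 2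
  have hs3 : s ≠ 3 := by
    rintro rfl
    exact hP.not_dvd (hsM.trans (index_dvd_of_le (le_sup_right.trans (h.mc.sup_le_bigM hR))))
  have hs5 : 5 ≤ s := by
    have h1 := hs.two_le
    by_contra hlt
    have : s = 4 := by omega
    rw [this] at hs
    exact absurd hs (by decide)
  have _ : Fact s.Prime := ⟨hs⟩
  obtain ⟨Q, hQ⟩ := h.mc.her.exists_sylPerm (A := A) s
  have hQA := h5 s hs hs5 Q hQ
  have hQM : ¬ Q ≤ M := fun hle => hQ.not_dvd (hsM.trans (index_dvd_of_le hle))
  obtain ⟨x, hxQ, hxM⟩ := SetLike.not_le_iff_exists.1 hQM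
  obtain ⟨k, hk⟩ := hQ.isPGroup ⟨x, hxQ⟩
  have hxk : x ^ (s ^ k) = 1 := congrArg Subtype.val hk
  refine eStar hA (le_sup_left : A ≤ A ⊔ D) hT₀n.2 hB.le hidx hP.isPGroup le_sup_right hab ?_
    hinv hni (fun a => mem_normalizer_iff.1 (hQA hxQ) a) hs hs5 hxk ?_
  · intro g hg
    obtain ⟨a, ha, y, hy, e⟩ := hP.permutes.mem_sup.1 hg
    exact ⟨a, ha, y, hy, e.symm⟩
  · intro Y hY h1 h2
    by_contra hYne
    have h3' : normalizer (Y : Set G) ≠ ⊤ := h.mc.normalizer_ne_top hYne (isSolvable_of_le hAs hY)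
    have h4 : A ⊔ D ≤ normalizer (Y : Set G) := le_normalizer_iff.2 h1
    have h5' : normalizer (Y : Set G) ≤ M := h.mc.le_bigM hR h4 h3'
    apply hxM
    apply h.mc.mem_bigM_of_conj hR
    intro g hg
    apply h5'
    rw [mem_normalizer_iff]
    intro y
    refine ⟨fun hy => h2 g hg y hy, fun hy => ?_⟩
    have := h2 g⁻¹ (inv_mem hg) _ hy
    simpa [mul_assoc] using this

/-- Theorem 4: a minimal counterexample has an isolated pair. -/
theorem MC.exists_isoPair (h : MC A) : ∃ q : ℕ, q.Prime ∧ ∃ D : Subgroup G, IsoPair A q D := by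
  by_contra hno
  push Not at hno
  exact (h.exists_noIso2 hno).false

end MP_5771ce_al
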