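import Pool.Agent.Lib.MP_5771ce_al.S4.Defs
import Pool.Agent.Lib.MP_5771ce_al.Basic

/-!
# Section 4: small facts (scalar action, chains, normalisation)
-/

set_option autoImplicit false

open Subgroup
open scoped Pointwise commutatorElement

namespace MP_5771ce_al

universe u

namespace SmallAux

theorem mem_zpowers_of_zpow {Q : Type u} [Group Q] {r : ℕ} (hr : r.Prime) {q : Q}
    (hq : q ^ r = 1) {P : Subgroup Q} {j : ℤ} (hj : q ^ j ∈ P) : q ^ j = 1 ∨ q ∈ P := by
  by_cases h : (r : ℤ) ∣ j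
  · left
    obtain ⟨t, rfl⟩ := h
    rw [zpow_mul, zpow_natCast, hq, one_zpow]
  · right
    have h1 : IsCoprime (r : ℤ) j := (Nat.prime_iff_prime_int.1 hr).coprime_iff_not_dvd.2 h
    obtain ⟨u, v, huv⟩ := h1
    have h2 : q = (q ^ j) ^ v := by
      calc q = q ^ (u * r + v * j) := by rw [huv, zpow_one]
        _ = (q ^ j) ^ v := by
          rw [zpow_add, mul_comm u, zpow_mul, zpow_natCast, hq, one_zpow, one_mul, mul_comm v,
            zpow_mul]
    rw [h2]
    exact P.zpow_mem hj v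

theorem scal_quot {Q : Type u} [Group Q] (hc : ∀ x y : Q, x * y = y * x) {r : ℕ} (hr : r.Prime)
    (he : ∀ q : Q, q ^ r = 1) (f : Q →* Q) (hf : ∀ q, f q ∈ zpowers q) :
    ∃ k : ℤ, ∀ q, f q = q ^ k := by
  by_cases h1 : ∀ q : Q, q = 1
  · refine ⟨1, fun q => ?_⟩
    rw [h1 q, map_one, one_zpow]
  · push Not at h1
    obtain ⟨q0, hq0⟩ := h1
    obtain ⟨k, hk⟩ := mem_zpowers_iff.1 (hf q0)
    refine ⟨k, fun q => ?_⟩
    by_cases hq : q ∈ zpowers q0
    · obtain ⟨n, rfl⟩ := mem_zpowers_iff.1 hq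
      rw [map_zpow, ← hk, ← zpow_mul, ← zpow_mul, mul_comm]
    · obtain ⟨l, hl⟩ := mem_zpowers_iff.1 (hf q)
      obtain ⟨n, hn⟩ := mem_zpowers_iff.1 (hf (q0 * q))
      have hcomm : Commute q0 q := hc q0 q
      rw [map_mul, ← hk, ← hl, hcomm.mul_zpow] at hn
      -- q0^n q^n = q0^k q^l
      have h2 : q ^ (n - l) = q0 ^ (k - n) := by
        rw [zpow_sub, zpow_sub]
        have h3 : q0 ^ n * q ^ n * (q ^ l)⁻¹ = q0 ^ k := by
          rw [hn]
          group
        have h4 : q ^ n * (q ^ l)⁻¹ = (q0 ^ n)⁻¹ * q0 ^ k := by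
          rw [← h3]
          group
        rw [h4, hc]
      have h5 : q ^ (n - l) ∈ zpowers q0 := by
        rw [h2]
        exact zpow_mem (mem_zpowers q0) _
      have h6 : q ^ (n - l) = 1 := (mem_zpowers_of_zpow hr (he q) h5).resolve_right hq
      have h7 : q0 ^ (k - n) = 1 := h2.symm.trans h6
      have h8 : (r : ℤ) ∣ k - n := by
        have h9 : orderOf q0 = r := by
          rcases (Nat.dvd_prime hr).1 (orderOf_dvd_of_pow_eq_one (he q0)) with h | h
          · exact absurd (orderOf_eq_one_iff.1 h) hq0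
          · exact h
        rw [← h9]
        exact orderOf_dvd_iff_zpow_eq_one.2 h7
      obtain ⟨t, ht⟩ := h8
      have h10 : q ^ (k - l) = 1 := by
        have h11 : k - l = (k - n) + (n - l) := by ring
        rw [h11, zpow_add, h6, ht, zpow_mul, zpow_natCast, he, one_zpow, one_mul]
      rw [← hl]
      rw [zpow_sub, mul_inv_eq_one] at h10
      exact h10.symm

theorem zpow_chain {G : Type u} [Group G] {p k : ℕ} (hp : p.Prime) {g : G}
    (hg : g ^ (p ^ k) = 1) (m n : ℤ) : g ^ n ∈ zpowers (g ^ m) ∨ g ^ m ∈ zpowers (g ^ n) := by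
  have key : ∀ m n : ℤ, (Int.gcd m (p ^ k : ℕ)) ∣ (Int.gcd n (p ^ k : ℕ)) →
      g ^ n ∈ zpowers (g ^ m) := by
    intro m n h
    have h1 : ((Int.gcd m (p ^ k : ℕ) : ℕ) : ℤ) ∣ n :=
      (Int.natCast_dvd_natCast.2 h).trans (Int.gcd_dvd_left ..)
    obtain ⟨t, ht⟩ := h1
    have h2 := Int.gcd_eq_gcd_ab m (p ^ k : ℕ)
    rw [mem_zpowers_iff]
    refine ⟨Int.gcdA m (p ^ k : ℕ) * t, ?_⟩
    rw [ht, h2, add_mul, zpow_add, ← zpow_mul, mul_assoc, mul_assoc ((p ^ k : ℕ) : ℤ), zpow_mul g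
      ((p ^ k : ℕ) : ℤ), zpow_natCast, hg, one_zpow, mul_one]
  obtain ⟨i, _, hi⟩ := (Nat.dvd_prime_pow hp).1
    (Int.natCast_dvd_natCast.1 (Int.gcd_dvd_right m ((p ^ k : ℕ) : ℤ)))
  obtain ⟨j, _, hj⟩ := (Nat.dvd_prime_pow hp).1
    (Int.natCast_dvd_natCast.1 (Int.gcd_dvd_right n ((p ^ k : ℕ) : ℤ)))
  rcases le_total i j with h | h
  · left
    refine key m n ?_
    rw [hi, hj]
    exact pow_dvd_pow p h
  · right
    refine key n m ?_
    rw [hi, hj]
    exact pow_dvd_pow p h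

theorem permutes_of_le {G : Type u} [Group G] {A E : Subgroup G} (h : A ≤ E) : Permutes A E := by
  rw [permutes_iff]
  intro a ha b hb
  exact ⟨a * b, mul_mem (h ha) hb, 1, A.one_mem, by simp⟩

/-- a hereditarily permutable subgroup permutes with the subgroups of an `r`-group with which it
permutes -/
theorem permutes_pgroup {G : Type u} [Group G] [Finite G] {A : Subgroup G} (hA : HerPermutable A)
    {r : ℕ} [Fact r.Prime] (n : ℕ) : ∀ B : Subgroup G, Nat.card B ≤ n → IsPGroup r B →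
      Permutes A B → ∀ Y : Subgroup G, Y ≤ B → Permutes A Y := by
  induction n with
  | zero =>
    intro B hB
    have : 0 < Nat.card B := Nat.card_pos
    omega
  | succ n ih =>
    intro B hB hp hAB Y hY
    by_cases hYB : Y = B
    · rw [hYB]
      exact hAB
    have h1 : Y.subgroupOf B ≠ ⊤ := by
      intro h
      exact hYB (le_antisymm hY (subgroupOf_eq_top.1 h))
    obtain ⟨K, hK, hYK⟩ := (eq_top_or_exists_le_coatom (Y.subgroupOf B)).resolve_left h1
    have hnil : Group.IsNilpotent B := hp.isNilpotent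
    have hKn : K.Normal := NormalizerCondition.normal_of_coatom _ (Group.normalizerCondition_of_isNilpotent) hK
    have hle : K.map B.subtype ≤ B := map_subtype_le K
    have hcard : Nat.card (K.map B.subtype) ≤ n := by
      have h2 : Nat.card (K.map B.subtype) = Nat.card K :=
        Nat.card_congr (K.equivMapOfInjective _ B.subtype_injective).symm.toEquiv
      have h3 : Nat.card K < Nat.card B := by
        refine lt_of_le_of_ne (Subgroup.card_le_card_group K) fun h => hK.1 ?_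
        exact Subgroup.eq_top_of_card_eq K h
      omega
    refine ih _ hcard (hp.to_le hle) ?_ Y ?_
    · refine hA.permutes_of_normal hAB hle ?_
      rintro b hb _ ⟨c, hc, rfl⟩
      exact ⟨⟨b, hb⟩ * c * ⟨b, hb⟩⁻¹, hKn.conj_mem c hc ⟨b, hb⟩, rfl⟩
    · intro y hy
      exact ⟨⟨y, hY hy⟩, hYK (mem_subgroupOf.2 hy), rfl⟩

end SmallAux

open SmallAux

/-- (0.2) SCAL: if `a` normalises every subgroup between `M` and `N` and `N/M` is elementary abelian
then `a` acts on `N/M` as a scalar. -/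
theorem scal {G : Type u} [Group G] [Finite G] {r : ℕ} [Fact r.Prime] {M N : Subgroup G} (hMN : M ≤ N)
    (hab : ∀ x ∈ N, ∀ y ∈ N, ⁅x, y⁆ ∈ M) (hexp : ∀ x ∈ N, x ^ r ∈ M) {a : G}
    (ha : ∀ Y : Subgroup G, M ≤ Y → Y ≤ N → a ∈ normalizer (Y : Set G)) :
    ∃ k : ℤ, ∀ x ∈ N, a * x * a⁻¹ * (x ^ k)⁻¹ ∈ M := by
  have haN := ha N hMN le_rfl
  have haM := ha M le_rfl hMN
  have hKn : (M.subgroupOf N).Normal := by
    refine ⟨fun n hn g => ?_⟩
    rw [mem_subgroupOf] at hn ⊢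
    have h1 := mul_mem (hab g g.2 n n.2) hn
    have h2 : ⁅(g : G), (n : G)⁆ * (n : G) = ((g * n * g⁻¹ : N) : G) := by
      simp [commutatorElement_def]
    rwa [h2] at h1
  have hN1 : ∀ x ∈ N, a * x * a⁻¹ ∈ N := fun x hx => (mem_normalizer_iff.1 haN x).1 hx
  let α : N →* N :=
    { toFun := fun x => ⟨a * x * a⁻¹, hN1 x x.2⟩
      map_one' := by
        apply Subtype.ext
        simp
      map_mul' := fun x y => by
        apply Subtype.ext
        simp [mul_assoc] }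
  let f : N ⧸ M.subgroupOf N →* N ⧸ M.subgroupOf N :=
    QuotientGroup.map (M.subgroupOf N) (M.subgroupOf N) α (by
      intro x hx
      rw [mem_comap, mem_subgroupOf]
      exact (mem_normalizer_iff.1 haM x).1 (mem_subgroupOf.1 hx))
  have hfmk : ∀ x : N, f (QuotientGroup.mk x) = QuotientGroup.mk (α x) := fun x => rfl
  obtain ⟨k, hk⟩ := scal_quot (Q := N ⧸ M.subgroupOf N) (r := r) (by
      intro x y
      induction x using QuotientGroup.induction_on with
      | H x =>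
      induction y using QuotientGroup.induction_on with
      | H y =>
      rw [← QuotientGroup.mk_mul, ← QuotientGroup.mk_mul, QuotientGroup.eq, mem_subgroupOf]
      have h := hab y⁻¹ (inv_mem y.2) x⁻¹ (inv_mem x.2)
      have h2 : ⁅(y : G)⁻¹, (x : G)⁻¹⁆ = (((x * y)⁻¹ * (y * x) : N) : G) := by
        simp [commutatorElement_def, mul_assoc]
      rwa [h2] at h) Fact.out (by
      intro x
      induction x using QuotientGroup.induction_on with
      | H x =>
      rw [← QuotientGroup.mk_pow, QuotientGroup.eq_one_iff, mem_subgroupOf]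
      exact hexp x x.2) f (by
      intro q
      induction q using QuotientGroup.induction_on with
      | H x =>
      let Y : Subgroup G := ((zpowers (QuotientGroup.mk x : N ⧸ M.subgroupOf N)).comap
        (QuotientGroup.mk' (M.subgroupOf N))).map N.subtype
      have hY1 : M ≤ Y := by
        intro m hm
        refine ⟨⟨m, hMN hm⟩, ?_, rfl⟩
        change QuotientGroup.mk' (M.subgroupOf N) ⟨m, hMN hm⟩ ∈ zpowers _
        have h0 : QuotientGroup.mk' (M.subgroupOf N) ⟨m, hMN hm⟩ = 1 :=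
          (QuotientGroup.eq_one_iff _).2 (mem_subgroupOf.2 hm)
        rw [h0]
        exact one_mem _
      have hY2 : Y ≤ N := map_subtype_le _
      have hx : (x : G) ∈ Y := ⟨x, mem_zpowers _, rfl⟩
      obtain ⟨y, hy, hy'⟩ := (mem_normalizer_iff.1 (ha Y hY1 hY2) x).1 hx
      have h3 : y = α x := Subtype.ext hy'
      rw [hfmk, ← h3]
      exact hy)
  refine ⟨k, fun x hx => ?_⟩
  have h1 := hk (QuotientGroup.mk ⟨x, hx⟩)
  rw [hfmk, ← QuotientGroup.mk_zpow] at h1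
  have h2 : (QuotientGroup.mk (α ⟨x, hx⟩ * (⟨x, hx⟩ ^ k)⁻¹) : N ⧸ M.subgroupOf N) = 1 := by
    rw [QuotientGroup.mk_mul, QuotientGroup.mk_inv, h1, mul_inv_cancel]
  rw [QuotientGroup.eq_one_iff, mem_subgroupOf] at h2
  exact h2

/-- (0.2) so commutators of such elements with elements normalising `M` and `N` are trivial on `N/M`. -/
theorem scal_comm {G : Type u} [Group G] [Finite G] {r : ℕ} [Fact r.Prime] {M N : Subgroup G}
    (hMN : M ≤ N) (hab : ∀ x ∈ N, ∀ y ∈ N, ⁅x, y⁆ ∈ M) (hexp : ∀ x ∈ N, x ^ r ∈ M) {a s : G}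
    (ha : ∀ Y : Subgroup G, M ≤ Y → Y ≤ N → a ∈ normalizer (Y : Set G))
    (hs : s ∈ normalizer (N : Set G)) (hs' : s ∈ normalizer (M : Set G)) :
    ∀ x ∈ N, ⁅⁅a, s⁆, x⁆ ∈ M := by
  obtain ⟨k, hk⟩ := scal (a := a⁻¹) hMN hab hexp fun Y h1 h2 => inv_mem (ha Y h1 h2)
  have haM := ha M le_rfl hMN
  intro x hx
  have hy : s⁻¹ * x * s ∈ N := by
    have := (mem_normalizer_iff.1 (inv_mem hs) x).1 hx
    simpa using this
  have m1 := hk _ hy
  have m2 := (mem_normalizer_iff.1 hs' _).1 m1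
  have m3 := (mem_normalizer_iff.1 haM _).1 m2
  have m4 := hk _ hx
  have m5 := (mem_normalizer_iff.1 haM _).1 m4
  have h6 := mul_mem m3 (inv_mem m5)
  have e1 : (s⁻¹ * x * s) ^ k = s⁻¹ * x ^ k * s := by
    have h := conj_zpow (a := s⁻¹) (b := x) (i := k)
    rw [inv_inv] at h
    exact h
  have e2 : a * (s * (a⁻¹ * (s⁻¹ * x * s) * a⁻¹⁻¹ * ((s⁻¹ * x * s) ^ k)⁻¹) * s⁻¹) * a⁻¹ *
      (a * (a⁻¹ * x * a⁻¹⁻¹ * (x ^ k)⁻¹) * a⁻¹)⁻¹ = ⁅⁅a, s⁆, x⁆ := by
    rw [e1]
    simp only [commutatorElement_def]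
    group
  rwa [e2] at h6

/-- (0.4) CHAIN. -/
theorem chain {G : Type u} [Group G] [Finite G] {p : ℕ} [Fact p.Prime] {A C₁ C₂ : Subgroup G} {g : G}
    (hg : ∃ k, orderOf g = p ^ k) (hAg : Permutes A (zpowers g)) (h1 : A ≤ C₁) (h1' : C₁ ≤ A ⊔ zpowers g)
    (h2 : A ≤ C₂) (h2' : C₂ ≤ A ⊔ zpowers g) : C₁ ≤ C₂ ∨ C₂ ≤ C₁ := by
  obtain ⟨k, hk⟩ := hg
  have hgk : g ^ (p ^ k) = 1 := by rw [← hk, pow_orderOf_eq_one]
  have key : ∀ C C' : Subgroup G, A ≤ C → C ≤ A ⊔ zpowers g → A ≤ C' → ¬ C ≤ C' →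
      ∃ m : ℤ, g ^ m ∈ C ∧ g ^ m ∉ C' := by
    intro C C' hA hC hA' hn
    obtain ⟨c, hc, hc'⟩ := SetLike.not_le_iff_exists.1 hn
    obtain ⟨x, hx, b, hb, rfl⟩ := hAg.mem_sup.1 (hC hc)
    obtain ⟨m, rfl⟩ := mem_zpowers_iff.1 hb
    refine ⟨m, ?_, fun h => hc' (mul_mem (hA' hx) h)⟩
    have := mul_mem (inv_mem (hA hx)) hc
    simpa using this
  by_contra hcon
  push Not at hcon
  obtain ⟨m, hm, hm'⟩ := key C₁ C₂ h1 h1' h2 hcon.1
  obtain ⟨n, hn, hn'⟩ := key C₂ C₁ h2 h2' h1 hcon.2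
  rcases zpow_chain (Fact.out : p.Prime) hgk m n with h | h
  · exact hn' ((zpowers_le.2 hm) h)
  · exact hm' ((zpowers_le.2 hn) h)

/-- (0.1): `A` permutes with every subgroup between `A ∩ N` and `N`. -/
theorem normalizes_of_between {G : Type u} [Group G] [Finite G] {A E N Y : Subgroup G}
    (hA : HerPermutable A) {r : ℕ} [Fact r.Prime] (hAE : A ≤ E) (hN : IsPGroup r N) (hNE : N ≤ E)
    (hn : E ≤ normalizer (N : Set G)) (hY1 : A ⊓ N ≤ Y) (hY2 : Y ≤ N) : A ≤ normalizer (Y : Set G) := by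
  have hAN : Permutes A N := hA.permutes_of_normal (permutes_of_le hAE) hNE
    fun b hb n hn' => (mem_normalizer_iff.1 (hn hb) n).1 hn'
  have hAY : Permutes A Y := permutes_pgroup hA _ N le_rfl hN hAN Y hY2
  have hconj : ∀ a ∈ A, ∀ y ∈ Y, a * y * a⁻¹ ∈ Y := by
    intro a ha y hy
    have h1 : a * y * a⁻¹ ∈ N := (mem_normalizer_iff.1 (hn (hAE ha)) y).1 (hY2 hy)
    have h2 : a * y * a⁻¹ ∈ A ⊔ Y := mul_mem (mul_mem (mem_sup_left ha) (mem_sup_right hy))
      (inv_mem (mem_sup_left ha))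
    obtain ⟨b, hb, z, hz, hbz⟩ := hAY.mem_sup.1 h2
    rw [← hbz] at h1 ⊢
    have h3 : b ∈ N := by
      have := mul_mem h1 (inv_mem (hY2 hz))
      simpa using this
    exact mul_mem (hY1 ⟨hb, h3⟩) hz
  intro a ha
  rw [mem_normalizer_iff]
  intro y
  refine ⟨hconj a ha y, fun h => ?_⟩
  have := hconj a⁻¹ (inv_mem ha) _ h
  simpa [mul_assoc] using this

/-- (0.3) -/
theorem le_of_coprime_index {G : Type u} [Group G] [Finite G] {A E N : Subgroup G} {p k : ℕ}
    (hp : p.Prime) (hAE : A ≤ E) (hi : A.relIndex E ∣ p ^ k) (hNE : N ≤ E)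
    (hn : E ≤ normalizer (N : Set G)) (hpN : ¬ p ∣ Nat.card N) : N ≤ A := by
  have hAN : Permutes A N := by
    rw [permutes_iff]
    intro a ha n hn'
    exact ⟨a * n * a⁻¹, (mem_normalizer_iff.1 (hn (hAE ha)) n).1 hn', a, ha, by group⟩
  have h1 : A.relIndex N ∣ p ^ k := by
    rw [← hAN.relIndex_sup]
    exact (Dvd.intro _ (relIndex_mul_relIndex A (A ⊔ N) E le_sup_left (sup_le hAE hNE))).trans hi
  have h2 : A.relIndex N ∣ Nat.card N := relIndex_dvd_card A N
  have h3 : Nat.Coprime (p ^ k) (Nat.card N) :=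
    Nat.Coprime.pow_left _ ((Nat.Prime.coprime_iff_not_dvd hp).2 hpN)
  have h4 : A.relIndex N = 1 := Nat.eq_one_of_dvd_coprimes h3 h1 h2
  exact relIndex_eq_one.1 h4

end MP_5771ce_al
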