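import Pool.Agent.Lib.MP_5771ce_al.S4.Brick12
import Pool.Agent.Lib.MP_5771ce_al.S4.Small
import Pool.Agent.Lib.MP_5771ce_al.LibFrat

/-!
# Bricks from a `t`-group normalising all subgroups of an abelian `p`-group

If the `t`-group `w` normalises all subgroups between `V ≤ w` and `V P`, where the `p`-group `P` is
abelian modulo `V`, then `(w, w₀, P)` is a brick for a subgroup `w₀ ≥ V`.
-/

open Subgroup
open scoped Pointwise commutatorElement

namespace MP_5771ce_al

universe u

namespace AbsBrickAux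

variable {G : Type u} [Group G]

theorem le_normalizer_of_conj {H K : Subgroup G} (h : ∀ g ∈ H, ∀ y ∈ K, g * y * g⁻¹ ∈ K) :
    H ≤ normalizer (K : Set G) := by
  intro g hg
  rw [mem_normalizer_iff]
  intro y
  refine ⟨h g hg y, fun hy => ?_⟩
  have := h g⁻¹ (inv_mem hg) _ hy
  convert this using 1
  group

theorem le_normalizer_sup {H K L : Subgroup G} (h1 : H ≤ normalizer (K : Set G))
    (h2 : H ≤ normalizer (L : Set G)) : H ≤ normalizer ((K ⊔ L : Subgroup G) : Set G) := by
  apply le_normalizer_of_conj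
  intro g hg y hy
  have h : K ⊔ L ≤ (K ⊔ L).comap (MulAut.conj g).toMonoidHom := by
    apply sup_le
    · intro x hx
      exact mem_sup_left (mem_normalizer_conj (h1 hg) hx)
    · intro x hx
      exact mem_sup_right (mem_normalizer_conj (h2 hg) hx)
  exact h hy

/-- Bezout with integer exponents. -/
theorem mem_of_zpow_mem {K : Subgroup G} {p : ℕ} (hp : p.Prime) {x : G} {m : ℤ}
    (hm : ¬ (p : ℤ) ∣ m) (h1 : x ^ p ∈ K) (h2 : x ^ m ∈ K) : x ∈ K := by
  have hc : IsCoprime (p : ℤ) m := (Nat.prime_iff_prime_int.1 hp).irreducible.coprime_iff_not_dvd.2 hm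
  obtain ⟨u, v, huv⟩ := hc
  have h3 : x = (x ^ p) ^ u * (x ^ m) ^ v := by
    rw [← zpow_natCast, ← zpow_mul, ← zpow_mul, ← zpow_add]
    have : (p : ℤ) * u + m * v = 1 := by rw [← huv]; ring
    rw [this, zpow_one]
  rw [h3]
  exact mul_mem (zpow_mem h1 u) (zpow_mem h2 v)

end AbsBrickAux

open AbsBrickAux

variable {G : Type u} [Group G]

/-- A `t`-group normalising all subgroups of an abelian `p`-group. -/
theorem brick_of_abelian [Finite G] {t p : ℕ} [Fact t.Prime] [Fact p.Prime] (htp : t ≠ p)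
    {W P : Subgroup G} (hW : IsPGroup t W) (hP : IsPGroup p P)
    (hab : ∀ x ∈ P, ∀ y ∈ P, x * y = y * x)
    (hn : ∀ Y : Subgroup G, Y ≤ P → W ≤ normalizer (Y : Set G)) :
    Brick t p W (W ⊓ centralizer (P : Set G)) P := by
  have hWP : W ≤ normalizer (P : Set G) := hn P le_rfl
  have hWC : W ≤ normalizer ((W ⊓ centralizer (P : Set G) : Subgroup G) : Set G) := by
    apply le_normalizer_of_conj
    intro g hg y hy
    exact mem_inf.2 ⟨W.mul_mem (W.mul_mem hg hy.1) (W.inv_mem hg), mem_normalizer_conj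
      (Brick12Aux.normalizer_le_normalizer_centralizer P (hWP hg)) hy.2⟩
  have hPC : P ≤ normalizer ((W ⊓ centralizer (P : Set G) : Subgroup G) : Set G) := by
    apply le_normalizer_of_conj
    intro g hg y hy
    have : g * y * g⁻¹ = y := by
      rw [(mem_centralizer_iff.1 hy.2) g hg]
      group
    rw [this]
    exact hy
  have hn' : W ≤ normalizer (((W ⊓ centralizer (P : Set G)) ⊔ P : Subgroup G) : Set G) :=
    le_normalizer_sup hWC hWP
  by_cases hPb : P = ⊥
  · have hCt : ∀ b ∈ W, b ∈ W ⊓ centralizer (P : Set G) := by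
      intro b hb
      refine mem_inf.2 ⟨hb, ?_⟩
      rw [mem_centralizer_iff]
      intro y hy
      rw [SetLike.mem_coe, hPb, mem_bot] at hy
      rw [hy]
      simp
    refine ⟨hW, hP, inf_le_left, hWC, hPC, hn', ⟨1, one_mem _, fun x hx => ⟨0, ?_⟩⟩,
      fun b hb => hCt _ (pow_mem hb _), fun b hb hb0 => absurd (hCt b hb) hb0⟩
    simpa using hCt x hx
  set E : Subgroup G := closure {z | ∃ y ∈ P, y ^ p = z} with hE
  have hEf : E ≤ frat P := by
    rw [hE, closure_le]
    rintro _ ⟨y, hy, rfl⟩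
    exact pow_mem_frat hP hy
  have hEP : E ≤ P := hEf.trans (frat_le P)
  have hpE : ∀ y ∈ P, y ^ p ∈ E := fun y hy => subset_closure ⟨y, hy, rfl⟩
  have hnE : W ≤ normalizer (E : Set G) := hn E hEP
  obtain ⟨x₀, hx₀, hx₀E⟩ : ∃ x ∈ P, x ∉ E := by
    by_contra hcon
    push Not at hcon
    apply hPb
    have := eq_of_le_frat_sup (V := P) (K := ⊥) bot_le
      ((show P ≤ E from hcon).trans (hEf.trans le_sup_left))
    exact this.symm
  have hdiv : ∀ m : ℤ, x₀ ^ m ∈ E → (p : ℤ) ∣ m := by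
    intro m hm
    by_contra hcon
    exact hx₀E (mem_of_zpow_mem Fact.out hcon (hpE _ hx₀) hm)
  have hdvdE : ∀ m : ℤ, (p : ℤ) ∣ m → ∀ y ∈ P, y ^ m ∈ E := by
    rintro m ⟨n, rfl⟩ y hy
    rw [zpow_mul, zpow_natCast]
    exact zpow_mem (hpE y hy) n
  have hsc : ∀ a : W, ∃ k : ℤ, ∀ x ∈ P, (a : G) * x * (a : G)⁻¹ * (x ^ k)⁻¹ ∈ E := by
    intro a
    refine scal hEP ?_ hpE (fun Y _ hY => hn Y hY a.2)
    intro x hx y hy
    rw [commutatorElement_def, hab x hx y hy]
    simp
  choose k hk using hsc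
  have hcast : ∀ m n : ℤ, (p : ℤ) ∣ m - n → (m : ZMod p) = (n : ZMod p) := by
    intro m n hmn
    rw [← sub_eq_zero, ← Int.cast_sub, ZMod.intCast_zmod_eq_zero_iff_dvd]
    exact hmn
  let φ : W →* ZMod p :=
    { toFun := fun a => (k a : ZMod p)
      map_one' := by
        have h1 := hk 1 x₀ hx₀
        have h2 := hcast (k 1) 1 (by
          have : (p : ℤ) ∣ 1 - k 1 := by
            apply hdiv
            rw [zpow_sub, zpow_one]
            simpa using h1
          rw [← dvd_neg, neg_sub]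
          exact this)
        rw [h2]
        simp
      map_mul' := by
        intro a b
        rw [← Int.cast_mul]
        apply hcast
        have h1 := hk (a * b) x₀ hx₀
        have h2 := hk b x₀ hx₀
        have h3 := hk a (x₀ ^ k b) (zpow_mem hx₀ _)
        have h4 := mem_normalizer_conj (hnE a.2) h2
        have h5 := mul_mem (mul_mem (inv_mem h1) h4) h3
        have : (p : ℤ) ∣ k (a * b) - k a * k b := by
          apply hdiv
          rw [zpow_sub, mul_comm (k a), zpow_mul]
          convert h5 using 1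
          push_cast
          group
        exact this }
  have hφ : ∀ a : W, φ a = (k a : ZMod p) := fun a => rfl
  -- the kernel
  have hker : ∀ a : W, φ a = 1 → (a : G) ∈ W ⊓ centralizer (P : Set G) := by
    intro a ha
    refine mem_inf.2 ⟨a.2, ?_⟩
    have h1 : ⁅P, zpowers (a : G)⁆ ≤ frat P := by
      refine le_trans ?_ hEf
      rw [commutator_le]
      intro x hx b hb
      obtain ⟨n, rfl⟩ := mem_zpowers_iff.1 hb
      have h2 : φ (a ^ n) = 1 := by rw [map_zpow, ha, one_zpow]
      have h3 := hk (a ^ n) x hx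
      have h4 : (p : ℤ) ∣ k (a ^ n) - 1 := by
        rw [← ZMod.intCast_zmod_eq_zero_iff_dvd, Int.cast_sub, ← hφ, h2]
        simp
      have h5 := hdvdE _ h4 x hx
      have h6 := inv_mem (mul_mem h3 h5)
      rw [commutatorElement_def]
      convert h6 using 1
      rw [zpow_sub, zpow_one]
      push_cast
      group
    have h2 : ¬ t ∣ Nat.card P := by
      intro hd
      obtain ⟨n, hn⟩ := (IsPGroup.iff_card).1 hP
      rw [hn] at hd
      exact htp ((Nat.prime_dvd_prime_iff_eq Fact.out Fact.out).1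
        ((Fact.out : t.Prime).dvd_of_dvd_pow hd))
    have h3 := commutator_eq_bot_of_frat (hW.to_le (zpowers_le.2 a.2))
      (zpowers_le.2 (hWP a.2)) h2 h1
    rw [commutator_eq_bot_iff_le_centralizer] at h3
    rw [mem_centralizer_iff]
    intro y hy
    exact ((mem_centralizer_iff.1 (h3 hy)) a (mem_zpowers _)).symm
  let ψ : W →* (ZMod p)ˣ := φ.toHomUnits
  have hψ : ∀ a : W, ((ψ a : (ZMod p)ˣ) : ZMod p) = φ a := fun a => rfl
  have hcyc : IsCyclic ψ.range := inferInstance
  obtain ⟨⟨_, c, rfl⟩, hgen⟩ := hcyc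
  refine ⟨hW, hP, inf_le_left, hWC, hPC, hn', ⟨c, c.2, fun x hx => ?_⟩, fun b hb => ?_,
    fun b hb hb0 => ?_⟩
  · obtain ⟨n, hn⟩ := mem_zpowers_iff.1 (hgen ⟨ψ ⟨x, hx⟩, ⟨_, rfl⟩⟩)
    have h1 : ψ c ^ n = ψ ⟨x, hx⟩ := congrArg Subtype.val hn
    refine ⟨-n, ?_⟩
    have h2 : ψ (⟨x, hx⟩ * c ^ (-n)) = 1 := by
      rw [map_mul, map_zpow, ← h1, ← zpow_add]
      simp
    have h3 := hker (⟨x, hx⟩ * c ^ (-n)) (by rw [← hψ, h2]; rfl)
    simpa using h3
  · have h1 : ψ (⟨b, hb⟩ ^ (p - 1)) = 1 := by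
      rw [map_pow]
      exact ZMod.units_pow_card_sub_one_eq_one p _
    have h3 := hker (⟨b, hb⟩ ^ (p - 1)) (by rw [← hψ, h1]; rfl)
    simpa using h3
  · have hkb : ¬ (p : ℤ) ∣ 1 - k ⟨b, hb⟩ := by
      intro hd
      apply hb0
      refine hker ⟨b, hb⟩ ?_
      rw [hφ, ← hcast _ _ hd]
      simp
    refine le_trans ?_ le_sup_right
    have h1 : commEl P b ≤ P := by
      rw [Brick12Aux.commEl_le]
      intro y hy
      rw [commutatorElement_def]
      have := mul_mem hy (mem_normalizer_conj (hWP hb) (inv_mem hy))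
      convert this using 1
      group
    refine (eq_of_le_frat_sup h1 ?_).symm.le
    intro y hy
    refine mem_of_zpow_mem Fact.out hkb (mem_sup_left (hEf (hpE y hy))) ?_
    have h2 := hk ⟨b, hb⟩ y hy
    have h3 : ⁅y, b⁆ ∈ commEl P b := Brick12Aux.mem_commEl hy
    have h4 : y ^ (1 - k ⟨b, hb⟩) = ⁅y, b⁆ * (b * y * b⁻¹ * (y ^ k ⟨b, hb⟩)⁻¹) := by
      rw [zpow_sub, commutatorElement_def]
      group
    rw [h4]
    exact mul_mem (mem_sup_right h3) (mem_sup_left (hEf h2))

/-- Bricks are inherited by preimages. -/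
theorem Brick.of_map {Q : Type u} [Group Q] {t p : ℕ} {f : G →* Q} {T D : Subgroup G}
    {S₀ : Subgroup Q} (hT : IsPGroup t T) (hD : IsPGroup p D) (hker : f.ker ≤ T)
    (hB : Brick t p (T.map f) S₀ (D.map f)) : Brick t p T (S₀.comap f) D := by
  have hcn : ∀ {K : Subgroup G} {L : Subgroup Q}, K.map f ≤ normalizer (L : Set Q) →
      K ≤ normalizer ((L.comap f : Subgroup G) : Set G) := by
    intro K L h
    apply le_normalizer_of_conj
    intro g hg y hy
    rw [mem_comap, map_mul, map_mul, map_inv]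
    exact mem_normalizer_conj (h (mem_map_of_mem f hg)) hy
  have hr : S₀ ≤ f.range := hB.le.trans (map_le_range f T)
  have hsup : ∀ K : Subgroup G, (S₀ ⊔ K.map f).comap f = S₀.comap f ⊔ K := by
    intro K
    have h1 : S₀ ⊔ K.map f = (S₀.comap f ⊔ K).map f := by
      rw [Subgroup.map_sup, map_comap_eq_self hr]
    rw [h1, comap_map_eq_self]
    exact (ker_le_comap f S₀).trans le_sup_left
  have hle : S₀.comap f ≤ T := by
    intro x hx
    obtain ⟨t', ht', e⟩ := hB.le (mem_comap.1 hx)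
    have h1 : x * t'⁻¹ ∈ f.ker := by
      rw [MonoidHom.mem_ker, map_mul, map_inv, e, mul_inv_cancel]
    have h2 := mul_mem (hker h1) ht'
    simpa using h2
  refine ⟨hT, hD, hle, hcn hB.nT, hcn hB.nD, ?_, ?_, ?_, ?_⟩
  · rw [← hsup]
    exact hcn hB.nTD
  · obtain ⟨_, ⟨c, hc, rfl⟩, h⟩ := hB.cyc
    refine ⟨c, hc, fun x hx => ?_⟩
    obtain ⟨n, hn⟩ := h (f x) (mem_map_of_mem f hx)
    refine ⟨n, ?_⟩
    rw [mem_comap, map_mul, map_zpow]
    exact hn
  · intro b hb
    rw [mem_comap, map_pow]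
    exact hB.exp _ (mem_map_of_mem f hb)
  · intro b hb hb0
    rw [← hsup, ← map_le_iff_le_comap, Brick12Aux.map_commEl]
    exact hB.gen (f b) (mem_map_of_mem f hb) hb0

/-- If the `t`-group `w ≥ V` normalises all subgroups between `V` and `V P` and the `p`-group `P`
normalises `V` and is abelian then `(w, w₀, P)` is a brick for some `w₀ ≥ V`. -/
theorem exists_brick [Finite G] {t p : ℕ} [Fact t.Prime] [Fact p.Prime] (htp : t ≠ p)
    {w V P : Subgroup G} (hw : IsPGroup t w) (hP : IsPGroup p P) (hVw : V ≤ w)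
    (hwV : w ≤ normalizer (V : Set G)) (hPV : P ≤ normalizer (V : Set G))
    (hab : ∀ x ∈ P, ∀ y ∈ P, x * y = y * x)
    (hn : ∀ Y : Subgroup G, V ≤ Y → Y ≤ V ⊔ P → w ≤ normalizer (Y : Set G)) :
    ∃ w₀ : Subgroup G, V ≤ w₀ ∧ Brick t p w w₀ P := by
  set H : Subgroup G := normalizer (V : Set G) with hH
  have hVH : V ≤ H := le_normalizer
  have hVn : (V.subgroupOf H).Normal := by
    constructor
    intro n hn g
    rw [mem_subgroupOf] at hn ⊢
    exact mem_normalizer_conj g.2 hn
  let π : H →* H ⧸ V.subgroupOf H := QuotientGroup.mk' (V.subgroupOf H)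
  have hπ : π.ker = V.subgroupOf H := QuotientGroup.ker_mk' _
  have hπs : Function.Surjective π := QuotientGroup.mk'_surjective _
  have hB₁ : Brick t p ((w.subgroupOf H).map π)
      ((w.subgroupOf H).map π ⊓ centralizer (((P.subgroupOf H).map π : Subgroup _) : Set _))
      ((P.subgroupOf H).map π) := by
    refine brick_of_abelian htp ?_ ?_ ?_ ?_
    · exact (hw.comap_of_injective H.subtype H.subtype_injective).map π
    · exact (hP.comap_of_injective H.subtype H.subtype_injective).map π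
    · rintro _ ⟨x, hx, rfl⟩ _ ⟨y, hy, rfl⟩
      rw [← map_mul, ← map_mul]
      congr 1
      exact Subtype.ext (hab x hx y hy)
    · intro Y hY
      set B : Subgroup G := (Y.comap π).map H.subtype with hB
      have hVB : V ≤ B := by
        intro v hv
        refine ⟨⟨v, hVH hv⟩, ?_, rfl⟩
        rw [SetLike.mem_coe, mem_comap]
        have : (⟨v, hVH hv⟩ : H) ∈ π.ker := by rw [hπ]; exact hv
        rw [MonoidHom.mem_ker] at this
        rw [this]
        exact one_mem _
      have hBP : B ≤ V ⊔ P := by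
        rintro _ ⟨x, hx, rfl⟩
        obtain ⟨y, hy, e⟩ := hY hx
        have h1 : x * y⁻¹ ∈ π.ker := by
          rw [MonoidHom.mem_ker, map_mul, map_inv, e, mul_inv_cancel]
        rw [hπ, mem_subgroupOf] at h1
        have h2 := mul_mem (mem_sup_left h1 : _ ∈ V ⊔ P) (mem_sup_right hy : (y : G) ∈ V ⊔ P)
        convert h2 using 1
        push_cast
        rw [inv_mul_cancel_right]
        rfl
      have h1 := hn B hVB hBP
      apply le_normalizer_of_conj
      rintro _ ⟨g, hg, rfl⟩ y hy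
      obtain ⟨y, rfl⟩ := hπs y
      have h2 : (y : G) ∈ B := ⟨y, hy, rfl⟩
      have h3 := mem_normalizer_conj (h1 hg) h2
      obtain ⟨z, hz, e⟩ := h3
      have h4 : z = g * y * g⁻¹ := Subtype.ext e
      rw [h4] at hz
      rw [SetLike.mem_coe, mem_comap] at hz
      simpa using hz
  have hB₂ := Brick.of_map (hw.comap_of_injective H.subtype H.subtype_injective)
    (hP.comap_of_injective H.subtype H.subtype_injective) (by
      rw [hπ]
      intro x hx
      exact hVw hx) hB₁
  have hB₃ := hB₂.map H.subtype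
  have e1 : (w.comap H.subtype).map H.subtype = w := map_subtype_subgroupOf hwV
  have e2 : (P.comap H.subtype).map H.subtype = P := map_subtype_subgroupOf hPV
  rw [e1, e2] at hB₃
  refine ⟨_, ?_, hB₃⟩
  intro v hv
  refine ⟨⟨v, hVH hv⟩, ?_, rfl⟩
  rw [SetLike.mem_coe, mem_comap]
  have : (⟨v, hVH hv⟩ : H) ∈ π.ker := by rw [hπ]; exact hv
  rw [MonoidHom.mem_ker] at this
  change π ⟨v, hVH hv⟩ ∈ _
  rw [this]
  exact one_mem _

end MP_5771ce_al
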