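import Pool.Agent.Lib.MP_5771ce_al.S4.Brick12

/-!
# Section 4.3: (B3), the indices of centralisers in elementary abelian 2-groups
-/

open Subgroup
open scoped Pointwise commutatorElement

namespace MP_5771ce_al

universe u

namespace Brick3Aux

open Brick12Aux

variable {G : Type u} [Group G] [Finite G]

omit [Finite G] in
theorem isPGroup_zpowers_of_pow {p k : ℕ} [Fact p.Prime] {z : G} (h : z ^ (p ^ k) = 1) :
    IsPGroup p (zpowers z) := by
  rintro ⟨x, hx⟩
  obtain ⟨n, rfl⟩ := mem_zpowers_iff.1 hx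
  refine ⟨k, Subtype.ext ?_⟩
  change (z ^ n) ^ (p ^ k) = 1
  rw [← zpow_natCast, ← zpow_mul, mul_comm, zpow_mul, zpow_natCast, h, one_zpow]

/-- A `p`-element of `⟨[d,b]⟩` that does not centralise `N`. -/
theorem exists_element {t p : ℕ} [Fact t.Prime] [Fact p.Prime] {T T₀ D N : Subgroup G}
    (hB : Brick t p T T₀ D) (htp : t ≠ p)
    (hTN : T ≤ normalizer (N : Set G)) (hDN : D ≤ normalizer (N : Set G))
    (hnc : ¬ Centralises D N) {b : G} (hb : b ∈ T) (hb0 : b ∉ T₀) :
    ∃ d ∈ D, ∃ z ∈ zpowers ⁅d, b⁆, IsPGroup p (zpowers z) ∧ z ∉ centralizer (N : Set G) := by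
  by_contra hcon
  push Not at hcon
  apply hnc
  rw [centralises_iff]
  have hnC := normalizer_le_normalizer_centralizer N
  have hT₀C : T₀ ≤ normalizer ((centralizer (N : Set G) : Subgroup G) : Set G) :=
    hB.le.trans (hTN.trans hnC)
  refine le_of_le_sup_of_coprime htp (hB.pT.to_le hB.le) hB.pD hT₀C ?_
  have hDK : D ≤ normalizer ((T₀ ⊔ centralizer (N : Set G) : Subgroup G) : Set G) := by
    have h : ∀ d ∈ D, ∀ y ∈ T₀ ⊔ centralizer (N : Set G),
        d * y * d⁻¹ ∈ T₀ ⊔ centralizer (N : Set G) := by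
      intro d hd y hy
      rw [sup_comm] at hy
      obtain ⟨s, hs, c, hc, rfl⟩ := (mem_sup_of_le_normalizer hT₀C).1 hy
      have h1 : d * s * d⁻¹ ∈ T₀ := mem_normalizer_conj (hB.nD hd) hs
      have h2 : d * c * d⁻¹ ∈ centralizer (N : Set G) := mem_normalizer_conj (hnC (hDN hd)) hc
      have : d * (s * c) * d⁻¹ = (d * s * d⁻¹) * (d * c * d⁻¹) := by group
      rw [this]
      exact mul_mem (mem_sup_left h1) (mem_sup_right h2)
    intro d hd
    rw [mem_normalizer_iff]
    intro y
    refine ⟨h d hd y, fun hy => ?_⟩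
    have := h d⁻¹ (inv_mem hd) _ hy
    convert this using 1
    group
  refine (hB.gen b hb hb0).trans (sup_le le_sup_left ?_)
  rw [commEl_le]
  intro d hd
  -- `c = [d,b] ∈ T₀ ⊔ D`
  have hc : ⁅d, b⁆ ∈ T₀ ⊔ D := by
    rw [commutatorElement_def]
    have h1 : b * d⁻¹ * b⁻¹ ∈ T₀ ⊔ D :=
      mem_normalizer_conj (hB.nTD hb) (mem_sup_right (inv_mem hd))
    have := mul_mem (mem_sup_right hd : d ∈ T₀ ⊔ D) h1
    convert this using 1
    group
  obtain ⟨x, hx⟩ := (IsPGroup.iff_card).1 (hB.pT.to_le hB.le)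
  obtain ⟨y, hy⟩ := (IsPGroup.iff_card).1 hB.pD
  have hord : ⁅d, b⁆ ^ (t ^ x * p ^ y) = 1 := by
    rw [← hx, ← hy]
    have h1 : ⁅d, b⁆ ^ Nat.card (T₀ ⊔ D : Subgroup G) = 1 := by
      have := pow_card_eq_one' (x := (⟨⁅d, b⁆, hc⟩ : (T₀ ⊔ D : Subgroup G)))
      exact congrArg Subtype.val this
    obtain ⟨k, hk⟩ := (permutes_of_le_normalizer hB.nD).card_sup_dvd
    rw [hk, pow_mul, h1, one_pow]
  have hz : ⁅d, b⁆ ^ (t ^ x) ∈ centralizer (N : Set G) := by
    refine hcon d hd _ (pow_mem (mem_zpowers _) _) ?_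
    exact isPGroup_zpowers_of_pow (k := y) (by rw [← pow_mul]; exact hord)
  obtain ⟨s, hs, d', hd', e⟩ := (mem_sup_of_le_normalizer' hB.nD).1 hc
  rw [← e] at hz ⊢
  have h1 := mul_pow_mul_inv_mem (hDK hd') (mem_sup_left hs : s ∈ T₀ ⊔ centralizer (N : Set G))
    (t ^ x)
  have h2 : d' ^ (t ^ x) ∈ T₀ ⊔ centralizer (N : Set G) := by
    have h3 := mul_mem (inv_mem h1) (mem_sup_right hz : _ ∈ T₀ ⊔ centralizer (N : Set G))
    convert h3 using 1
    group
  have h3 : d' ^ (p ^ y) ∈ T₀ ⊔ centralizer (N : Set G) := by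
    have : d' ^ (p ^ y) = 1 := by
      rw [← hy]
      have := pow_card_eq_one' (x := (⟨d', hd'⟩ : D))
      exact congrArg Subtype.val this
    rw [this]
    exact one_mem _
  have hcop : Nat.Coprime (t ^ x) (p ^ y) :=
    Nat.Coprime.pow _ _ ((Nat.coprime_primes Fact.out Fact.out).2 htp)
  exact mul_mem (mem_sup_left hs) (mem_of_pow_mem_of_coprime hcop h2 h3)

omit [Finite G] in
theorem relIndex_centralizer_conj {N : Subgroup G} {b d : G} (hd : d ∈ normalizer (N : Set G)) :
    (centralizer {d * b * d⁻¹}).relIndex N = (centralizer {b}).relIndex N := by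
  have h1 : (centralizer {b}).map (MulAut.conj d).toMonoidHom = centralizer {d * b * d⁻¹} := by
    ext y
    constructor
    · rintro ⟨c, hc, rfl⟩
      rw [mem_centralizer_iff]
      rintro _ rfl
      have := (mem_centralizer_iff.1 hc) b rfl
      change d * b * d⁻¹ * (d * c * d⁻¹) = d * c * d⁻¹ * (d * b * d⁻¹)
      calc d * b * d⁻¹ * (d * c * d⁻¹) = d * (b * c) * d⁻¹ := by group
        _ = d * (c * b) * d⁻¹ := by rw [this]
        _ = d * c * d⁻¹ * (d * b * d⁻¹) := by group
    · intro hy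
      refine ⟨d⁻¹ * y * d, ?_, ?_⟩
      · rw [SetLike.mem_coe, mem_centralizer_iff]
        intro b' hb'
        rw [Set.mem_singleton_iff.1 hb']
        have := (mem_centralizer_iff.1 hy) _ rfl
        calc b * (d⁻¹ * y * d) = d⁻¹ * ((d * b * d⁻¹) * y) * d := by group
          _ = d⁻¹ * (y * (d * b * d⁻¹)) * d := by rw [this]
          _ = d⁻¹ * y * d * b := by group
      · change d * (d⁻¹ * y * d) * d⁻¹ = y
        group
  have h2 : N.map (MulAut.conj d).toMonoidHom = N := by
    ext y
    constructor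
    · rintro ⟨c, hc, rfl⟩
      exact mem_normalizer_conj hd hc
    · intro hy
      refine ⟨d⁻¹ * y * d, mem_normalizer_conj' hd hy, ?_⟩
      change d * (d⁻¹ * y * d) * d⁻¹ = y
      group
  have := relIndex_map_map_of_injective (centralizer {b}) N
    (f := (MulAut.conj d).toMonoidHom) (MulAut.conj d).injective
  rw [h1, h2] at this
  exact this

end Brick3Aux

open Brick12Aux Brick3Aux

section Bricks

variable {G : Type u} [Group G] [Finite G] {t p : ℕ} [Fact t.Prime] [Fact p.Prime]
  {T T₀ D N : Subgroup G}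

theorem Brick3Aux.not_dvd_two {p : ℕ} (hp : 5 ≤ p) [Fact p.Prime] (hN : IsPGroup 2 N) :
    ¬ p ∣ Nat.card N := by
  intro h
  obtain ⟨n, hn⟩ := (IsPGroup.iff_card).1 hN
  rw [hn] at h
  have := (Nat.prime_dvd_prime_iff_eq Fact.out Nat.prime_two).1
    ((Fact.out : p.Prime).dvd_of_dvd_pow h)
  omega

/-- (B3), first part, for arbitrary `2`-groups `N`. -/
theorem Brick.four_le' (hB : Brick 2 p T T₀ D) (hp : 5 ≤ p) (hN : IsPGroup 2 N)
    (hTN : T ≤ normalizer (N : Set G)) (hDN : D ≤ normalizer (N : Set G))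
    (hnc : ¬ Centralises D N) {b : G} (hb : b ∈ T) (hb0 : b ∉ T₀) :
    4 ≤ (centralizer {b}).relIndex N := by
  by_contra hlt
  obtain ⟨d, hd, z, hz, hzp, hzN⟩ := exists_element hB (by omega) hTN hDN hnc hb hb0
  obtain ⟨n, hn⟩ := (IsPGroup.iff_card).1 hN
  have hdvd : (centralizer {b}).relIndex N ∣ 2 ^ n := by
    rw [← hn]
    exact relIndex_dvd_card _ _
  obtain ⟨k, -, hk⟩ := (Nat.dvd_prime_pow Nat.prime_two).1 hdvd
  have hk1 : k ≤ 1 := by
    by_contra h
    have : 2 ^ 2 ≤ 2 ^ k := Nat.pow_le_pow_right (by norm_num) (by omega)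
    rw [hk] at hlt
    omega
  have hb2 : (centralizer {b}).relIndex N ≤ 2 := by
    rw [hk]
    calc 2 ^ k ≤ 2 ^ 1 := Nat.pow_le_pow_right (by norm_num) hk1
      _ = 2 := by norm_num
  have hX : zpowers z ≤ closure {b, d * b * d⁻¹} := by
    rw [zpowers_le]
    have h1 : ⁅d, b⁆ ∈ closure {b, d * b * d⁻¹} := by
      rw [commutatorElement_def]
      exact mul_mem (subset_closure (by simp)) (inv_mem (subset_closure (by simp)))
    exact (zpowers_le.2 h1) hz
  have h := dihedral_centralizes hp (V := N) (not_dvd_two hp hN) (hTN hb)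
    (mul_mem (mul_mem (hDN hd) (hTN hb)) (inv_mem (hDN hd))) hb2
    (by rw [relIndex_centralizer_conj (hDN hd)]; exact hb2) hzp hX
  apply hzN
  rw [mem_centralizer_iff]
  intro n hn
  exact ((mem_centralizer_iff.1 (h hn)) z (mem_zpowers z)).symm

/-- (B3), first part. -/
theorem Brick.four_le (hB : Brick 2 p T T₀ D) (hp : 5 ≤ p) (hN : ElemAb 2 N)
    (hTN : T ≤ normalizer (N : Set G)) (hDN : D ≤ normalizer (N : Set G))
    (hnc : ¬ Centralises D N) {b : G} (hb : b ∈ T) (hb0 : b ∉ T₀) :
    4 ≤ (centralizer {b}).relIndex N :=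
  hB.four_le' hp hN.isPGroup hTN hDN hnc hb hb0

/-- A `p`-group acting on `W` with only the trivial fixed point: `|W| ≡ 1 mod p`. -/
theorem Brick3Aux.card_modEq_one {p : ℕ} [Fact p.Prime] {W X : Subgroup G} (hX : IsPGroup p X)
    (hXW : X ≤ normalizer (W : Set G)) (h : W ⊓ centralizer (X : Set G) = ⊥) :
    Nat.card W ≡ 1 [MOD p] := by
  let act : MulAction X W :=
    { smul := fun x w => ⟨(x : G) * w * (x : G)⁻¹, mem_normalizer_conj (hXW x.2) w.2⟩
      one_smul := by
        intro w
        apply Subtype.ext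
        change ((1 : X) : G) * w * ((1 : X) : G)⁻¹ = w
        simp
      mul_smul := by
        intro x y w
        apply Subtype.ext
        change ((x * y : X) : G) * w * ((x * y : X) : G)⁻¹ =
          (x : G) * ((y : G) * w * (y : G)⁻¹) * (x : G)⁻¹
        push_cast
        group }
  have hmod := hX.card_modEq_card_fixedPoints W
  have hone : Nat.card (MulAction.fixedPoints X W) = 1 := by
    rw [Nat.card_eq_one_iff_unique]
    refine ⟨⟨?_⟩, ⟨⟨1, ?_⟩⟩⟩
    · have key : ∀ w : W, w ∈ MulAction.fixedPoints X W → w = 1 := by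
        intro w hw
        have : (w : G) ∈ W ⊓ centralizer (X : Set G) := by
          refine mem_inf.2 ⟨w.2, mem_centralizer_iff.2 ?_⟩
          intro x hx
          have h1 : x * (w : G) * x⁻¹ = w := congrArg Subtype.val (hw ⟨x, hx⟩)
          calc x * (w : G) = x * (w : G) * x⁻¹ * x := by group
            _ = w * x := by rw [h1]
        rw [h, mem_bot] at this
        exact Subtype.ext this
      rintro ⟨a, ha⟩ ⟨b, hb⟩
      exact Subtype.ext ((key a ha).trans (key b hb).symm)
    · intro x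
      apply Subtype.ext
      change (x : G) * ((1 : W) : G) * (x : G)⁻¹ = ((1 : W) : G)
      simp
  rw [hone] at hmod
  exact hmod

/-- An involution `b` inverting `z`, both acting on an elementary abelian `2`-group `N`, `z` a
`p`-element, `p ≥ 7`, of index `≤ 7`: then `z` centralises `N`. -/
theorem Brick3Aux.eight_aux {p : ℕ} [Fact p.Prime] (hp : 7 ≤ p) (hN : ElemAb 2 N) {b z : G}
    (hbN : b ∈ normalizer (N : Set G)) (hzN : z ∈ normalizer (N : Set G)) (hb2 : b ^ 2 = 1)
    (hbz : b * z * b⁻¹ = z⁻¹) (hz : IsPGroup p (zpowers z))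
    (hidx : (centralizer {b}).relIndex N ≤ 4) : z ∈ centralizer (N : Set G) := by
  have hbb : b * b = 1 := by rw [← pow_two]; exact hb2
  have hbinv : b⁻¹ = b := inv_eq_of_mul_eq_one_left hbb
  have hpN : ¬ p ∣ Nat.card N := not_dvd_two (by omega) hN.isPGroup
  have hZN : zpowers z ≤ normalizer (N : Set G) := by rw [zpowers_le]; exact hzN
  set W : Subgroup G := ⁅N, zpowers z⁆ with hW
  have hWN : W ≤ N := le_normalizer_iff_commutator_le_left.1 hZN
  have hZW : zpowers z ≤ normalizer (W : Set G) := normalizer_commutator_ge_right _ _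
  have hWel : ElemAb 2 W := hN.mono hWN
  have hWC : W ⊓ centralizer (zpowers z : Set G) = ⊥ :=
    inf_centralizer_eq_bot hz hZN hpN hN.1
  have hbW : b ∈ normalizer (W : Set G) := by
    have h1 : zpowers b ≤ normalizer (W : Set G) := by
      apply le_normalizer_commutator
      · rw [zpowers_le]; exact hbN
      · rw [zpowers_le, mem_normalizer_iff]
        have key : ∀ y ∈ zpowers z, b * y * b⁻¹ ∈ zpowers z := by
          intro y hy
          obtain ⟨n, rfl⟩ := mem_zpowers_iff.1 hy
          rw [← conj_zpow, hbz]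
          exact zpow_mem (inv_mem (mem_zpowers z)) n
        intro y
        refine ⟨key y, fun hy => ?_⟩
        have := key _ hy
        rw [hbinv] at this
        have e : b * (b * y * b) * b = y := by
          calc b * (b * y * b) * b = (b * b) * y * (b * b) := by group
            _ = y := by rw [hbb]; group
        rwa [e] at this
    exact h1 (mem_zpowers b)
  -- fixed points of b and of its conjugate
  set C1 : Subgroup G := W ⊓ centralizer {b} with hC1
  set C2 : Subgroup G := C1.map (MulAut.conj z).toMonoidHom with hC2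
  have hC2W : C2 ≤ W := by
    rintro _ ⟨c, hc, rfl⟩
    exact mem_normalizer_conj (hZW (mem_zpowers z)) hc.1
  have hcard : Nat.card C2 = Nat.card C1 := card_map_conj C1 z
  have hodd : ∀ c ∈ W, (z ^ 2) * c = c * z ^ 2 → c = 1 := by
    intro c hcW hc
    have h1 : c ∈ W ⊓ centralizer (zpowers z : Set G) := by
      refine mem_inf.2 ⟨hcW, mem_centralizer_iff.2 ?_⟩
      obtain ⟨k, hk⟩ := hz ⟨z, mem_zpowers z⟩
      have hk' : z ^ (p ^ k) = 1 := congrArg Subtype.val hk
      have hcop : Nat.Coprime 2 (p ^ k) := by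
        apply Nat.Coprime.pow_right
        rw [Nat.coprime_primes Nat.prime_two Fact.out]
        omega
      have h2 : z ∈ centralizer {c} := by
        apply mem_of_pow_mem_of_coprime hcop
        · rw [mem_centralizer_iff]
          intro c' hc'
          rw [Set.mem_singleton_iff.1 hc']
          exact hc.symm
        · rw [hk']
          exact one_mem _
      have h3 : zpowers z ≤ centralizer {c} := by rw [zpowers_le]; exact h2
      intro y hy
      exact ((mem_centralizer_iff.1 (h3 hy)) c rfl).symm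
    rw [hWC, mem_bot] at h1
    exact h1
  have hdis : C1 ⊓ C2 = ⊥ := by
    rw [eq_bot_iff]
    rintro c ⟨hc1, c', hc', hcc'⟩
    rw [mem_bot]
    apply hodd c hc1.1
    have e1 : b * c = c * b := (mem_centralizer_iff.1 hc1.2) b rfl
    have e2 : b * c' = c' * b := (mem_centralizer_iff.1 hc'.2) b rfl
    have e3 : z * c' * z⁻¹ = c := hcc'
    -- z b z⁻¹ centralises c
    have e4 : (z * b * z⁻¹) * c = c * (z * b * z⁻¹) := by
      rw [← e3]
      calc z * b * z⁻¹ * (z * c' * z⁻¹) = z * (b * c') * z⁻¹ := by group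
        _ = z * (c' * b) * z⁻¹ := by rw [e2]
        _ = z * c' * z⁻¹ * (z * b * z⁻¹) := by group
    -- z b z⁻¹ b = z²
    have e5 : (z * b * z⁻¹) * b = z ^ 2 := by
      have h1 : b * z⁻¹ * b = z := by
        have := congrArg (fun t => t⁻¹) hbz
        simp only [mul_inv_rev, inv_inv] at this
        rw [hbinv] at this
        rw [mul_assoc]
        exact this
      calc (z * b * z⁻¹) * b = z * (b * z⁻¹ * b) := by group
        _ = z * z := by rw [h1]
        _ = z ^ 2 := (pow_two z).symm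
    rw [← e5]
    calc z * b * z⁻¹ * b * c = z * b * z⁻¹ * (b * c) := by group
      _ = z * b * z⁻¹ * (c * b) := by rw [e1]
      _ = (z * b * z⁻¹ * c) * b := by group
      _ = c * (z * b * z⁻¹) * b := by rw [e4]
      _ = c * (z * b * z⁻¹ * b) := by group
  have hperm : Permutes C1 C2 := by
    apply permutes_of_le_normalizer
    apply le_normalizer_of_commute
    intro x hx y hy
    exact hWel.1 x (hC2W hx) y hy.1
  have hsq1 : Nat.card C1 * Nat.card C1 ≤ Nat.card W := by
    have h1 := hperm.card_sup_mul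
    rw [hdis, card_bot, mul_one, hcard] at h1
    rw [← h1]
    exact card_le_of_le (sup_le inf_le_left hC2W)
  -- the homomorphism n ↦ n * (b n b⁻¹)
  let φ : W →* W :=
    { toFun := fun n => n * ⟨b * n * b⁻¹, mem_normalizer_conj hbW n.2⟩
      map_one' := by
        apply Subtype.ext
        simp
      map_mul' := by
        intro x y
        apply Subtype.ext
        change (x : G) * y * (b * (x * y) * b⁻¹) = x * (b * x * b⁻¹) * (y * (b * y * b⁻¹))
        have h1 := hWel.1 _ y.2 _ (mem_normalizer_conj hbW x.2)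
        calc (x : G) * y * (b * (x * y) * b⁻¹) = x * ((y : G) * (b * x * b⁻¹)) * (b * y * b⁻¹) := by
              group
          _ = x * ((b * x * b⁻¹) * y) * (b * y * b⁻¹) := by rw [h1]
          _ = x * (b * x * b⁻¹) * (y * (b * y * b⁻¹)) := by group }
  have hφ : ∀ n : W, ((φ n : W) : G) = n * (b * n * b⁻¹) := fun n => rfl
  have hWinv : ∀ n ∈ W, n * n = 1 := fun n hn => by rw [← pow_two]; exact hWel.2 n hn
  have hker : φ.ker.map W.subtype ≤ C1 := by
    rintro _ ⟨n, hn, rfl⟩
    refine mem_inf.2 ⟨n.2, mem_centralizer_iff.2 ?_⟩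
    have h1 : (n : G) * (b * n * b⁻¹) = 1 := by
      rw [← hφ]
      exact congrArg Subtype.val (MonoidHom.mem_ker.1 hn)
    have h2 : b * n * b⁻¹ = n := by
      calc b * n * b⁻¹ = (n * n) * (b * n * b⁻¹) := by rw [hWinv n n.2, one_mul]
        _ = n * (n * (b * n * b⁻¹)) := by group
        _ = n := by rw [h1, mul_one]
    intro b' hb'
    rw [Set.mem_singleton_iff.1 hb']
    calc b * (W.subtype n) = b * n * b⁻¹ * b := by simp
      _ = (W.subtype n) * b := by rw [h2]; rfl
  have hrange : φ.range.map W.subtype ≤ C1 := by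
    rintro _ ⟨m, ⟨n, rfl⟩, rfl⟩
    refine mem_inf.2 ⟨(φ n).2, mem_centralizer_iff.2 ?_⟩
    intro b' hb'
    rw [Set.mem_singleton_iff.1 hb']
    change b * (n * (b * n * b⁻¹)) = n * (b * n * b⁻¹) * b
    have h1 := hWel.1 _ n.2 _ (mem_normalizer_conj hbW n.2)
    rw [h1, hbinv]
    calc b * (b * (n : G) * b * n) = (b * b) * n * b * n := by group
      _ = n * b * n := by rw [hbb, one_mul]
      _ = (n * (b * n * b)) * b := by
        calc (n : G) * b * n = n * b * n * (b * b) := by rw [hbb, mul_one]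
          _ = (n * (b * n * b)) * b := by group
      _ = b * n * b * n * b := by rw [hbinv] at h1; rw [h1]
  have hsq2 : Nat.card W ≤ Nat.card C1 * Nat.card C1 := by
    have h1 : Nat.card φ.ker * Nat.card φ.range = Nat.card W := by
      rw [← Subgroup.index_ker, card_mul_index]
    rw [← h1]
    apply Nat.mul_le_mul
    · rw [Nat.card_congr (φ.ker.equivMapOfInjective W.subtype W.subtype_injective).toEquiv]
      exact card_le_of_le hker
    · rw [Nat.card_congr (φ.range.equivMapOfInjective W.subtype W.subtype_injective).toEquiv]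
      exact card_le_of_le hrange
  have hidxW : (centralizer {b}).relIndex W ≤ 4 :=
    (relIndex_le_of_le_right hWN index_ne_zero_of_finite).trans hidx
  have hcW : Nat.card C1 * (centralizer {b}).relIndex W = Nat.card W := by
    rw [← card_mul_relIndex (inf_le_left : C1 ≤ W), hC1, inf_relIndex_left]
  have hpos : 0 < Nat.card C1 := Nat.card_pos
  have hC14 : Nat.card C1 ≤ 4 := by
    have h1 : Nat.card C1 * Nat.card C1 ≤ Nat.card C1 * 4 :=
      hsq1.trans (by rw [← hcW]; exact Nat.mul_le_mul_left _ hidxW)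
    exact Nat.le_of_mul_le_mul_left h1 hpos
  have hWcard : Nat.card W = Nat.card C1 * Nat.card C1 := le_antisymm hsq2 hsq1
  have hmod := card_modEq_one hz hZW hWC
  have hW1 : Nat.card W = 1 := by
    have hpr : p.Prime := Fact.out
    have hdvd : p ∣ Nat.card W - 1 := by
      have := (Nat.modEq_iff_dvd' (Nat.card_pos : 1 ≤ Nat.card W)).1 hmod.symm
      exact this
    rw [hWcard] at hdvd ⊢
    have hle := hC14
    generalize Nat.card C1 = c at hdvd hle hpos ⊢
    interval_cases c
    · rfl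
    · exfalso
      have := Nat.le_of_dvd (by norm_num) hdvd
      omega
    · exfalso
      have h8 : p ∣ 2 ^ 3 := hdvd
      have := (Nat.prime_dvd_prime_iff_eq hpr Nat.prime_two).1 (hpr.dvd_of_dvd_pow h8)
      omega
    · exfalso
      have h15 : p ∣ 3 * 5 := hdvd
      rcases (Nat.Prime.dvd_mul hpr).1 h15 with h | h
      · have := Nat.le_of_dvd (by norm_num) h
        omega
      · have := Nat.le_of_dvd (by norm_num) h
        omega
  have hWbot : W = ⊥ := eq_bot_of_card_eq W hW1
  rw [hW, commutator_eq_bot_iff_le_centralizer] at hWbot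
  rw [mem_centralizer_iff]
  intro n hn
  exact ((mem_centralizer_iff.1 (hWbot hn)) z (mem_zpowers z)).symm

/-- (B3), second part. -/
theorem Brick.eight_le (hB : Brick 2 p T T₀ D) (hp : 7 ≤ p) (hN : ElemAb 2 N)
    (hTN : T ≤ normalizer (N : Set G)) (hDN : D ≤ normalizer (N : Set G))
    (hnc : ¬ Centralises D N) {b : G} (hb : b ∈ T) (hb0 : b ∉ T₀) (hb2 : b ^ 2 = 1) :
    8 ≤ (centralizer {b}).relIndex N := by
  by_contra hlt
  obtain ⟨d, hd, z, hz, hzp, hzN⟩ := exists_element hB (by omega) hTN hDN hnc hb hb0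
  obtain ⟨n, hn⟩ := (IsPGroup.iff_card).1 hN.isPGroup
  have hdvd : (centralizer {b}).relIndex N ∣ 2 ^ n := by
    rw [← hn]
    exact relIndex_dvd_card _ _
  obtain ⟨k, -, hk⟩ := (Nat.dvd_prime_pow Nat.prime_two).1 hdvd
  have hk1 : k ≤ 2 := by
    by_contra h
    have : 2 ^ 3 ≤ 2 ^ k := Nat.pow_le_pow_right (by norm_num) (by omega)
    rw [hk] at hlt
    omega
  have hb4 : (centralizer {b}).relIndex N ≤ 4 := by
    rw [hk]
    calc 2 ^ k ≤ 2 ^ 2 := Nat.pow_le_pow_right (by norm_num) hk1
      _ = 4 := by norm_num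
  have hbb : b * b = 1 := by rw [← pow_two]; exact hb2
  have hbinv : b⁻¹ = b := inv_eq_of_mul_eq_one_left hbb
  have hbc : b * ⁅d, b⁆ * b⁻¹ = ⁅d, b⁆⁻¹ := by
    rw [commutatorElement_def, hbinv]
    simp only [mul_inv_rev, inv_inv, hbinv]
    calc b * (d * b * d⁻¹ * b) * b = b * d * b * d⁻¹ * (b * b) := by group
      _ = b * (d * (b * d⁻¹)) := by rw [hbb]; group
  obtain ⟨m, rfl⟩ := mem_zpowers_iff.1 hz
  apply hzN
  have hyN : ⁅d, b⁆ ∈ normalizer (N : Set G) := by
    rw [commutatorElement_def]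
    exact mul_mem (mul_mem (mul_mem (hDN hd) (hTN hb)) (inv_mem (hDN hd))) (inv_mem (hTN hb))
  refine eight_aux hp hN (hTN hb) (zpow_mem hyN m) hb2 ?_ hzp hb4
  rw [← conj_zpow, hbc, inv_zpow]

end Bricks

end MP_5771ce_al
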