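import Pool.Agent.Lib.MP_5771ce_al.S4.Quad

/-!
# Section 4 of the chain `GROUP` (MP_5771ce_al): the Glauberman-Solomon functor

For an odd prime `t` and a nontrivial `t`-subgroup `T` the largest member `W` of the set of abelian
normal subgroups `V` of `T` such that every `x ∈ T` acting quadratically on `V` centralises `V` is
normalised by the normaliser of `T` and by `D` for every non-isolated brick `(T, T₀, D)`.
-/

open Subgroup
open scoped Pointwise commutatorElement

namespace MP_5771ce_al

universe u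

namespace DStarAux

variable {G : Type u} [Group G]

/-- Members of the functor. -/
structure Good (T V : Subgroup G) : Prop where
  le : V ≤ T
  nT : T ≤ normalizer (V : Set G)
  ab : ∀ a ∈ V, ∀ b ∈ V, a * b = b * a
  q : ∀ x ∈ T, (∀ v ∈ V, ⁅⁅v, x⁆, x⁆ = 1) → ∀ v ∈ V, v * x = x * v

/-- Conjugate of a subgroup. -/
def cj (g : G) (V : Subgroup G) : Subgroup G := V.map (MulAut.conj g).toMonoidHom

theorem mem_cj {g y : G} {V : Subgroup G} : y ∈ cj g V ↔ g⁻¹ * y * g ∈ V := by
  constructor
  · rintro ⟨v, hv, rfl⟩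
    have : g⁻¹ * ((MulAut.conj g).toMonoidHom v) * g = v := by
      simp [MulAut.conj_apply, mul_assoc]
    rw [this]; exact hv
  · intro h
    refine ⟨g⁻¹ * y * g, h, ?_⟩
    simp [MulAut.conj_apply, mul_assoc]

theorem conj_mem_cj {g v : G} {V : Subgroup G} (hv : v ∈ V) : g * v * g⁻¹ ∈ cj g V := by
  rw [mem_cj]
  have : g⁻¹ * (g * v * g⁻¹) * g = v := by group
  rw [this]; exact hv

theorem cj_le_of_mem [Finite G] {g : G} {V : Subgroup G} (hg : g ∈ normalizer (V : Set G)) :
    cj g V = V := by
  ext y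
  rw [mem_cj]
  exact ((mem_normalizer_iff'' (G := G)).1 hg y).symm

theorem mem_norm_of_cj_le [Finite G] {g : G} {V : Subgroup G} (h : cj g V ≤ V) :
    g ∈ normalizer (V : Set G) :=
  mem_normalizer_fintype fun _ hn => h (conj_mem_cj hn)

theorem norm_sup [Finite G] {T V₁ V₂ : Subgroup G} (h₁ : T ≤ normalizer (V₁ : Set G))
    (h₂ : T ≤ normalizer (V₂ : Set G)) : T ≤ normalizer ((V₁ ⊔ V₂ : Subgroup G) : Set G) := by
  intro g hg
  apply mem_norm_of_cj_le
  rw [cj, Subgroup.map_sup]
  change cj g V₁ ⊔ cj g V₂ ≤ _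
  rw [cj_le_of_mem (h₁ hg), cj_le_of_mem (h₂ hg)]

theorem conj_comm (g x y : G) : ⁅g * x * g⁻¹, g * y * g⁻¹⁆ = g * ⁅x, y⁆ * g⁻¹ := by
  simp only [commutatorElement_def]; group

theorem good_sup [Finite G] {T V₁ V₂ : Subgroup G} (h₁ : Good T V₁) (h₂ : Good T V₂) :
    Good T (V₁ ⊔ V₂) := by
  have hc : ∀ v ∈ V₁, ∀ w ∈ V₂, v * w = w * v := by
    intro v hv w hw
    refine h₁.q w (h₂.le hw) ?_ v hv
    intro v' hv'
    have h3 : ⁅v', w⁆ ∈ V₂ := by
      rw [commutatorElement_def]
      exact mul_mem ((mem_normalizer_iff.1 (h₂.nT (h₁.le hv')) w).1 hw) (inv_mem hw)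
    rw [commutatorElement_eq_one_iff_mul_comm]
    exact h₂.ab _ h3 _ hw
  have c1 : V₁ ≤ centralizer (V₁ : Set G) := by
    intro v hv; rw [mem_centralizer_iff]; intro w hw; exact h₁.ab w hw v hv
  have c2 : V₂ ≤ centralizer (V₂ : Set G) := by
    intro v hv; rw [mem_centralizer_iff]; intro w hw; exact h₂.ab w hw v hv
  have c3 : V₁ ≤ centralizer (V₂ : Set G) := by
    intro v hv; rw [mem_centralizer_iff]; intro w hw; exact (hc v hv w hw).symm
  have c4 : V₂ ≤ centralizer (V₁ : Set G) := by
    intro v hv; rw [mem_centralizer_iff]; intro w hw; exact hc w hw v hv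
  have d1 : V₁ ⊔ V₂ ≤ centralizer ((V₁ ⊔ V₂ : Subgroup G) : Set G) := by
    refine sup_le ?_ ?_
    · rw [le_centralizer_iff]; exact sup_le c1 c4
    · rw [le_centralizer_iff]; exact sup_le c3 c2
  refine ⟨sup_le h₁.le h₂.le, norm_sup h₁.nT h₂.nT, ?_, ?_⟩
  · intro a ha b hb
    exact (mem_centralizer_iff.1 (d1 hb)) a ha
  · intro x hx hq
    have e1 := h₁.q x hx fun v hv => hq v (le_sup_left (b := V₂) hv)
    have e2 := h₂.q x hx fun v hv => hq v (le_sup_right (a := V₁) hv)
    have e3 : V₁ ⊔ V₂ ≤ centralizer ({x} : Set G) := by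
      refine sup_le ?_ ?_
      · intro v hv; rw [mem_centralizer_singleton_iff]; exact e1 v hv
      · intro v hv; rw [mem_centralizer_singleton_iff]; exact e2 v hv
    intro v hv
    have := e3 hv
    rw [mem_centralizer_singleton_iff] at this
    exact this

theorem good_center {T : Subgroup G} : Good T (T ⊓ centralizer (T : Set G)) := by
  refine ⟨inf_le_left, ?_, ?_, ?_⟩
  · intro g hg
    rw [mem_normalizer_iff]
    intro h
    constructor
    · rintro ⟨h1, h2⟩
      have h3 : g * h * g⁻¹ = h := by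
        rw [(mem_centralizer_iff.1 h2 g hg)]; group
      rw [h3]; exact ⟨h1, h2⟩
    · rintro ⟨h1, h2⟩
      have h3 := mem_centralizer_iff.1 h2 g hg
      have h4 : h = g * h * g⁻¹ := by
        have : g * (g * h * g⁻¹) = g * h := by rw [h3]; group
        exact (mul_left_cancel this).symm
      rw [h4]; exact ⟨h1, h2⟩
  · rintro a ⟨ha, -⟩ b ⟨-, hb⟩
    exact mem_centralizer_iff.1 hb a ha
  · rintro x hx - v ⟨-, hv⟩
    exact (mem_centralizer_iff.1 hv x hx).symm

theorem good_cj {T V : Subgroup G} (h : Good T V) (g : G) : Good (cj g T) (cj g V) := by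
  refine ⟨Subgroup.map_mono h.le, ?_, ?_, ?_⟩
  · intro x hx
    rw [mem_cj] at hx
    have hx' := h.nT hx
    rw [mem_normalizer_iff] at hx' ⊢
    intro y
    rw [mem_cj, mem_cj, hx' (g⁻¹ * y * g)]
    have e : g⁻¹ * x * g * (g⁻¹ * y * g) * (g⁻¹ * x * g)⁻¹ = g⁻¹ * (x * y * x⁻¹) * g := by group
    rw [e]
  · intro a ha b hb
    rw [mem_cj] at ha hb
    have := h.ab _ ha _ hb
    have e1 : g⁻¹ * a * g * (g⁻¹ * b * g) = g⁻¹ * (a * b) * g := by group
    have e2 : g⁻¹ * b * g * (g⁻¹ * a * g) = g⁻¹ * (b * a) * g := by group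
    rw [e1, e2] at this
    exact mul_left_cancel (mul_right_cancel this)
  · intro x hx hq v hv
    rw [mem_cj] at hx hv
    have := h.q _ hx ?_ _ hv
    · have e1 : g⁻¹ * v * g * (g⁻¹ * x * g) = g⁻¹ * (v * x) * g := by group
      have e2 : g⁻¹ * x * g * (g⁻¹ * v * g) = g⁻¹ * (x * v) * g := by group
      rw [e1, e2] at this
      exact mul_left_cancel (mul_right_cancel this)
    · intro w hw
      have h1 := hq _ (conj_mem_cj hw)
      have e3 : x = g * (g⁻¹ * x * g) * g⁻¹ := by group
      rw [e3, conj_comm, conj_comm] at h1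
      exact conj_eq_one_iff.1 h1

theorem exists_largest [Finite G] (T : Subgroup G) :
    ∃ W : Subgroup G, Good T W ∧ ∀ V : Subgroup G, Good T V → V ≤ W := by
  obtain ⟨W, hW⟩ := (Set.toFinite {V : Subgroup G | Good T V}).exists_maximal
    ⟨_, good_center (T := T)⟩
  refine ⟨W, hW.1, fun V hV => ?_⟩
  have h1 : W ⊔ V ≤ W := hW.2 (good_sup hW.1 hV) le_sup_left
  exact le_sup_right.trans h1

end DStarAux

open DStarAux

theorem dstar {G : Type u} [Group G] [Finite G] {t : ℕ} [Fact t.Prime] (ht : t ≠ 2)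
    {T : Subgroup G} (hT : IsPGroup t T) (hne : T ≠ ⊥) :
    ∃ W ≤ T, W ≠ ⊥ ∧ normalizer (T : Set G) ≤ normalizer (W : Set G) ∧
      ∀ (p : ℕ) (T₀ D : Subgroup G), p.Prime → t ≠ p → Brick t p T T₀ D → ¬ Centralises D T₀ →
        D ≤ normalizer (W : Set G) := by
  obtain ⟨W, hW, hmax⟩ := exists_largest T
  refine ⟨W, hW.le, ?_, ?_, ?_⟩
  · -- W is not trivial
    intro h0
    have h1 : T ⊓ centralizer (T : Set G) = ⊥ := by
      rw [eq_bot_iff, ← h0]; exact hmax _ good_center
    have hnt : Nontrivial T := (Subgroup.nontrivial_iff_ne_bot T).2 hne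
    have hc := IsPGroup.center_nontrivial hT
    obtain ⟨z, hz⟩ := exists_ne (1 : center T)
    apply hz
    have h2 : ((z : T) : G) ∈ T ⊓ centralizer (T : Set G) := by
      refine ⟨(z : T).2, mem_centralizer_iff.2 ?_⟩
      intro x hx
      have := (mem_center_iff.1 z.2) ⟨x, hx⟩
      exact congrArg Subtype.val this
    rw [h1, mem_bot] at h2
    ext
    exact h2
  · intro g hg
    apply mem_norm_of_cj_le
    apply hmax
    have := good_cj hW g
    rwa [cj_le_of_mem hg] at this
  · intro p T₀ D hp htp hB hnc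
    have hpf : Fact p.Prime := ⟨hp⟩
    set X : Subgroup G := T ⊔ D with hX
    have hXT₀ : X ≤ normalizer (T₀ : Set G) := sup_le hB.nT hB.nD
    have hTX : T ≤ X := le_sup_left
    have hDX : D ≤ X := le_sup_right
    have hT₀ : IsPGroup t T₀ := hT.to_le hB.le
    -- (i)
    have hi : W ≤ T₀ := by
      intro b hb
      by_contra hb0
      apply hnc
      refine hB.quad htp ht hT₀ hB.nT hB.nD (hW.le hb) hb0 ?_
      intro n hn
      have h3 : ⁅n, b⁆ ∈ W := by
        rw [commutatorElement_def]
        exact mul_mem ((mem_normalizer_iff.1 (hW.nT (hB.le hn)) b).1 hb) (inv_mem hb)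
      rw [commutatorElement_eq_one_iff_mul_comm]
      exact hW.ab _ h3 _ hb
    have hWd : ∀ d ∈ X, cj d W ≤ T₀ := by
      intro d hd
      refine (Subgroup.map_mono hi).trans ?_
      exact (cj_le_of_mem (hXT₀ hd)).le
    -- (ii)
    have hcomm : ∀ d ∈ X, ∀ v ∈ W, ∀ y ∈ cj d W, v * y = y * v := by
      intro d hd v hv y hy
      have hg := good_cj hW d
      refine hW.q y (hB.le (hWd d hd hy)) ?_ v hv
      intro v' hv'
      have hn1 : v' ∈ normalizer (cj d W : Set G) := by
        apply hg.nT
        rw [mem_cj]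
        apply hB.le
        exact ((mem_normalizer_iff''.1 (hXT₀ hd)) v').1 (hi hv')
      have h3 : ⁅v', y⁆ ∈ cj d W := by
        rw [commutatorElement_def]
        exact mul_mem ((mem_normalizer_iff.1 hn1 y).1 hy) (inv_mem hy)
      rw [commutatorElement_eq_one_iff_mul_comm]
      exact hg.ab _ h3 _ hy
    have hcomm2 : ∀ d ∈ X, ∀ e ∈ X, ∀ x ∈ cj d W, ∀ y ∈ cj e W, x * y = y * x := by
      intro d hd e he x hx y hy
      have hx' := mem_cj.1 hx
      have hy' : d⁻¹ * y * d ∈ cj (d⁻¹ * e) W := by
        rw [mem_cj]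
        have e1 : (d⁻¹ * e)⁻¹ * (d⁻¹ * y * d) * (d⁻¹ * e) = e⁻¹ * y * e := by group
        rw [e1]; exact mem_cj.1 hy
      have := hcomm _ (mul_mem (inv_mem hd) he) _ hx' _ hy'
      have e1 : d⁻¹ * x * d * (d⁻¹ * y * d) = d⁻¹ * (x * y) * d := by group
      have e2 : d⁻¹ * y * d * (d⁻¹ * x * d) = d⁻¹ * (y * x) * d := by group
      rw [e1, e2] at this
      exact mul_left_cancel (mul_right_cancel this)
    set Y : Subgroup G := ⨆ d : X, cj (d : G) W with hY
    have hle : ∀ d ∈ X, cj d W ≤ Y := fun d hd => le_iSup (fun d : X => cj (d : G) W) ⟨d, hd⟩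
    have hYT₀ : Y ≤ T₀ := iSup_le fun d => hWd d d.2
    have hcc : Y ≤ centralizer (Y : Set G) := by
      refine iSup_le fun d => ?_
      rw [le_centralizer_iff]
      refine iSup_le fun e => ?_
      intro y hy
      rw [mem_centralizer_iff]
      intro x hx
      exact hcomm2 d d.2 e e.2 x hx y hy
    have hXY : X ≤ normalizer (Y : Set G) := by
      intro x hx
      apply mem_norm_of_cj_le
      rw [hY, cj, Subgroup.map_iSup]
      refine iSup_le fun d => ?_
      refine le_trans ?_ (hle (x * d) (mul_mem hx d.2))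
      intro y hy
      change y ∈ cj x (cj (d : G) W) at hy
      rw [mem_cj, mem_cj] at hy
      rw [mem_cj]
      have e1 : (x * (d : G))⁻¹ * y * (x * d) = (d : G)⁻¹ * (x⁻¹ * y * x) * d := by group
      rw [e1]; exact hy
    have hWY : W ≤ Y := by
      have h1 : cj (1 : G) W = W := cj_le_of_mem (one_mem _)
      rw [← h1]; exact hle 1 (one_mem _)
    -- (iii)
    have hgY : Good T Y := by
      refine ⟨hYT₀.trans hB.le, hTX.trans hXY, ?_, ?_⟩
      · intro a ha b hb
        exact mem_centralizer_iff.1 (hcc hb) a ha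
      · intro x hx hq
        by_cases hx0 : x ∈ T₀
        · have h1 : Y ≤ centralizer ({x} : Set G) := by
            refine iSup_le fun d => ?_
            intro v hv
            rw [mem_centralizer_singleton_iff]
            have hg := good_cj hW (d : G)
            refine hg.q x ?_ ?_ v hv
            · rw [mem_cj]
              apply hB.le
              exact ((mem_normalizer_iff''.1 (hXT₀ d.2)) x).1 hx0
            · intro w hw
              exact hq w (hle d d.2 hw)
          intro v hv
          have := h1 hv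
          rw [mem_centralizer_singleton_iff] at this
          exact this
        · have hcen : Centralises D Y :=
            hB.quad htp ht (hT₀.to_le hYT₀) (hTX.trans hXY) (hDX.trans hXY) hx hx0 hq
          have hDW : D ≤ normalizer (W : Set G) := by
            intro d hd
            rw [mem_normalizer_iff]
            have hfix : ∀ y ∈ Y, d * y * d⁻¹ = y := by
              intro y hy
              rw [hcen d hd y hy]; group
            intro h
            constructor
            · intro hh
              rw [hfix h (hWY hh)]; exact hh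
            · intro hh
              have h5 : d⁻¹ ∈ X := inv_mem (hDX hd)
              have h6 : h ∈ Y := by
                have h7 := hWY hh
                exact ((mem_normalizer_iff.1 (hXY (hDX hd))) h).2 h7
              rw [hfix h h6] at hh
              exact hh
          have hXW : X ≤ normalizer (W : Set G) := sup_le hW.nT hDW
          have hYW : Y ≤ W := by
            refine iSup_le fun d => ?_
            exact (cj_le_of_mem (hXW d.2)).le
          intro v hv
          exact hW.q x hx (fun w hw => hq w (hWY hw)) v (hYW hv)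
    have hYW : Y = W := le_antisymm (hmax _ hgY) hWY
    rw [← hYW]
    exact hDX.trans hXY

end MP_5771ce_al
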