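import Pool.Agent.Lib.MP_5771ce_al.S4.Defs
import Pool.Agent.Lib.MP_5771ce_al.LibFrat

/-!
# Section 4 of the chain `GROUP` (MP_5771ce_al): the eigenvector lemma
-/

open Subgroup
open scoped Pointwise commutatorElement

namespace MP_5771ce_al

universe u

namespace EigAux

open Polynomial in
/-- A linear map `f ≠ 1` with `f ^ p = f` over `F_p` has an eigenvector with eigenvalue `≠ 1`. -/
theorem lin {p : ℕ} [Fact p.Prime] {U : Type*} [AddCommGroup U] [Module (ZMod p) U]
    (f : Module.End (ZMod p) U) (hf : f ^ p = f) (hne : ∃ u, f u ≠ u) :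
    ∃ k : ZMod p, k ≠ 1 ∧ ∃ u : U, u ≠ 0 ∧ f u = k • u := by
  classical
  by_contra hcon
  have h0 : ∀ k : ZMod p, k ≠ 1 → ∀ u : U, f u = k • u → u = 0 := by
    intro k hk u hu
    by_contra hu0
    exact hcon ⟨k, hk, u, hu0, hu⟩
  have hprod : ∏ a : ZMod p, (X - C a) = X ^ p - X := by
    have hr := FiniteField.roots_X_pow_card_sub_X (ZMod p)
    rw [ZMod.card] at hr
    have hp1 : 1 < p := (Fact.out : p.Prime).one_lt
    have hm : (X ^ p - X : (ZMod p)[X]).Monic := monic_X_pow_sub (by
      rw [degree_X]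
      exact_mod_cast hp1)
    have h1 := prod_multiset_X_sub_C_of_monic_of_roots_card_eq hm (by
      rw [hr, FiniteField.X_pow_card_sub_X_natDegree_eq (ZMod p) hp1]
      simp [ZMod.card])
    rw [hr] at h1
    exact h1
  have hinj : ∀ s : Finset (ZMod p), (1 : ZMod p) ∉ s → ∀ u : U,
      (aeval f (∏ a ∈ s, (X - C a))) u = 0 → u = 0 := by
    intro s
    induction s using Finset.induction_on with
    | empty =>
      intro _ u hu
      simpa using hu
    | insert a s ha ih =>
      intro h1 u hu
      rw [Finset.mem_insert, not_or] at h1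
      rw [Finset.prod_insert ha, mul_comm, map_mul, Module.End.mul_apply] at hu
      have h2 := ih h1.2 _ hu
      rw [map_sub, aeval_X, aeval_C, LinearMap.sub_apply, Module.algebraMap_end_apply,
        sub_eq_zero] at h2
      exact h0 a (Ne.symm h1.1) u h2
  obtain ⟨u, hu⟩ := hne
  apply hu
  have h3 : (aeval f (∏ a ∈ (Finset.univ.erase (1 : ZMod p)), (X - C a))) (f u - u) = 0 := by
    have h4 : (∏ a ∈ (Finset.univ.erase (1 : ZMod p)), (X - C a)) * (X - C (1 : ZMod p)) =
        X ^ p - X := by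
      rw [← hprod]
      exact Finset.prod_erase_mul _ _ (Finset.mem_univ _)
    have h5 := congrArg (fun P => (aeval f P) u) h4
    simp only [map_mul, Module.End.mul_apply, map_sub, map_pow, aeval_X, hf,
      LinearMap.sub_apply, sub_self, LinearMap.zero_apply, map_one, Module.End.one_apply] at h5
    rw [← h5]
    simp only [map_sub]
  have h6 := hinj _ (Finset.notMem_erase _ _) _ h3
  exact sub_eq_zero.1 h6

/-- additive form -/
theorem mlin1 {p : ℕ} [Fact p.Prime] {A : Type*} [AddCommGroup A] [Module (ZMod p) A]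
    (f : A →+ A) (hf : ∀ x, f^[p] x = f x) (hne : ∃ x, f x ≠ x) :
    ∃ k : ℕ, (k : ZMod p) ≠ 1 ∧ ∃ x : A, x ≠ 0 ∧ f x = k • x := by
  obtain ⟨g, hg⟩ : ∃ g : Module.End (ZMod p) A, ∀ x, g x = f x :=
    ⟨f.toZModLinearMap p, fun x => rfl⟩
  have hgn : ∀ (n : ℕ) (x : A), (g ^ n) x = f^[n] x := by
    intro n
    induction n with
    | zero => intro x; rfl
    | succ n ih =>
      intro x
      rw [pow_succ, Module.End.mul_apply, ih, hg, Function.iterate_succ_apply]
  obtain ⟨k, hk, u, hu, hku⟩ := lin g (by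
    ext x
    rw [hgn, hf, hg]) (by
    obtain ⟨x, hx⟩ := hne
    exact ⟨x, by rwa [hg]⟩)
  refine ⟨k.val, ?_, u, hu, ?_⟩
  · rw [ZMod.natCast_zmod_val]
    exact hk
  · have h1 : k • u = k.val • u := by
      conv_lhs => rw [← ZMod.natCast_zmod_val k]
      rw [Nat.cast_smul_eq_nsmul]
    rw [hg, h1] at hku
    exact hku

/-- multiplicative form -/
theorem mlin {p : ℕ} [Fact p.Prime] {A : Type*} [CommGroup A] (hA : ∀ x : A, x ^ p = 1)
    (f : A →* A) (hf : ∀ x, f^[p] x = f x) (hne : ∃ x, f x ≠ x) :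
    ∃ k : ℕ, (k : ZMod p) ≠ 1 ∧ ∃ x : A, x ≠ 1 ∧ f x = x ^ k := by
  let i1 : Module (ZMod p) (Additive A) := AddCommGroup.zmodModule fun x => by
    have := hA x.toMul
    exact congrArg Additive.ofMul this
  have hit : ∀ (n : ℕ) (x : Additive A),
      (MonoidHom.toAdditive f)^[n] x = Additive.ofMul (f^[n] x.toMul) := by
    intro n
    induction n with
    | zero => intro x; rfl
    | succ n ih =>
      intro x
      rw [Function.iterate_succ_apply, ih, Function.iterate_succ_apply]
      rfl
  obtain ⟨k, hk, u, hu, hku⟩ := mlin1 (p := p) (MonoidHom.toAdditive f) (by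
    intro x
    rw [hit, hf]
    rfl) (by
    obtain ⟨x, hx⟩ := hne
    exact ⟨Additive.ofMul x, fun h => hx (Additive.ofMul.injective h)⟩)
  refine ⟨k, hk, u.toMul, ?_, ?_⟩
  · intro h
    exact hu (Additive.toMul.injective h)
  · exact congrArg Additive.toMul hku

/-- the same for a group in which all elements commute -/
theorem mlin' {p : ℕ} [Fact p.Prime] {A : Type*} [Group A] (hc : ∀ x y : A, x * y = y * x)
    (hA : ∀ x : A, x ^ p = 1)
    (f : A →* A) (hf : ∀ x, f^[p] x = f x) (hne : ∃ x, f x ≠ x) :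
    ∃ k : ℕ, (k : ZMod p) ≠ 1 ∧ ∃ x : A, x ≠ 1 ∧ f x = x ^ k := by
  let i1 : CommGroup A := { (inferInstance : Group A) with mul_comm := hc }
  exact mlin hA f hf hne

end EigAux

/-- (0.5) EIG, relative form: `b` normalises the `p`-group `D`, `b ^ (p-1)` centralises `D`, `b` does
not centralise `D`. Then `b d b⁻¹ = d ^ k` for some `d ∈ D`, `d ≠ 1`, `k ≢ 1 mod p`. -/
theorem eig {G : Type u} [Group G] [Finite G] {p : ℕ} [Fact p.Prime] {D : Subgroup G}
    (hD : IsPGroup p D) {b : G} (hb : b ∈ normalizer (D : Set G))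
    (hb1 : ∀ d ∈ D, b ^ (p - 1) * d = d * b ^ (p - 1)) (hb2 : ¬ ∀ d ∈ D, b * d = d * b) :
    ∃ d ∈ D, d ≠ 1 ∧ ∃ k : ℤ, b * d * b⁻¹ = d ^ k ∧ ¬ (p : ℤ) ∣ k - 1 := by
  classical
  have hp1 : 1 < p := (Fact.out : p.Prime).one_lt
  induction hn : Nat.card D using Nat.strong_induction_on generalizing D with
  | _ n ih =>
  by_cases hcase : ∃ D' : Subgroup G, D' < D ∧ b ∈ normalizer (D' : Set G) ∧
      ¬ ∀ d ∈ D', b * d = d * b
  · obtain ⟨D', hlt, hb', hc'⟩ := hcase
    have hcard : Nat.card D' < n := by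
      rw [← hn]
      refine lt_of_le_of_ne (Subgroup.card_le_of_le hlt.le) fun he => ?_
      exact hlt.ne (Subgroup.eq_of_le_of_card_ge hlt.le he.ge)
    obtain ⟨d, hd, h1, h2⟩ := ih _ hcard (D := D') (hD.to_le hlt.le) hb'
      (fun d hd => hb1 d (hlt.le hd)) hc' rfl
    exact ⟨d, hlt.le hd, h1, h2⟩
  · have hmin : ∀ D' : Subgroup G, D' < D → b ∈ normalizer (D' : Set G) →
        ∀ d ∈ D', b * d = d * b := by
      intro D' h1 h2
      by_contra h3
      exact hcase ⟨D', h1, h2, h3⟩
    have hDne : D ≠ ⊥ := by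
      rintro rfl
      exact hb2 fun d hd => by rw [mem_bot.1 hd]; simp
    have hF : b ∈ normalizer (frat D : Set G) := le_normalizer_frat hb
    have hFc := hmin (frat D) (frat_lt hDne) hF
    -- conjugation by `b` on `D`
    let φ : MulAut D := normalizerMonoidHom D ⟨b, hb⟩
    have hφ : ∀ x : D, ((φ x : D) : G) = b * x * b⁻¹ := fun x => rfl
    have hφn : ∀ (m : ℕ) (x : D), (((φ : D → D)^[m] x : D) : G) = b ^ m * x * (b ^ m)⁻¹ := by
      intro m
      induction m with
      | zero => intro x; simp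
      | succ m ihm =>
        intro x
        rw [Function.iterate_succ_apply', hφ, ihm]
        group
    have hφp : ∀ x : D, (φ : D → D)^[p - 1] x = x := by
      intro x
      refine Subtype.ext ?_
      rw [hφn, hb1 x x.2]
      group
    have hφp' : ∀ x : D, (φ : D → D)^[p] x = φ x := by
      intro x
      have h1 : p = (p - 1) + 1 := by omega
      rw [h1, Function.iterate_succ_apply, hφp]
    have hchar : (frattini D).map φ.toMonoidHom ≤ frattini D :=
      (characteristic_iff_map_le.1 (inferInstance : (frattini D).Characteristic)) φ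
    have hle : frattini D ≤ (frattini D).comap φ.toMonoidHom := by
      rw [← map_le_iff_le_comap]
      exact hchar
    let f : D ⧸ frattini D →* D ⧸ frattini D := QuotientGroup.map _ _ φ.toMonoidHom hle
    have hf : ∀ x : D, f (x : D ⧸ frattini D) = ((φ x : D) : D ⧸ frattini D) := fun x => rfl
    have hfn : ∀ (m : ℕ) (x : D), f^[m] (x : D ⧸ frattini D) =
        (((φ : D → D)^[m] x : D) : D ⧸ frattini D) := by
      intro m
      induction m with
      | zero => intro x; rfl
      | succ m ihm =>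
        intro x
        rw [Function.iterate_succ_apply, hf, ihm, Function.iterate_succ_apply]
    have hmem : ∀ {x : G} (hx : x ∈ D), x ∈ frat D ↔ ((⟨x, hx⟩ : D) : D ⧸ frattini D) = 1 := by
      intro x hx
      rw [mem_frat hx, QuotientGroup.eq_one_iff]
    have hcomm : ∀ x y : D ⧸ frattini D, x * y = y * x := by
      intro x y
      obtain ⟨x, rfl⟩ := QuotientGroup.mk'_surjective _ x
      obtain ⟨y, rfl⟩ := QuotientGroup.mk'_surjective _ y
      rw [← commutatorElement_eq_one_iff_mul_comm, ← map_commutatorElement]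
      have h1 := commutator_le_frat hD (commutator_mem_commutator x.2 y.2)
      exact (hmem (⁅x, y⁆ : D).2).1 h1
    have hexp : ∀ x : D ⧸ frattini D, x ^ p = 1 := by
      intro x
      obtain ⟨x, rfl⟩ := QuotientGroup.mk'_surjective _ x
      rw [← map_pow]
      exact (hmem (x ^ p : D).2).1 (pow_mem_frat hD x.2)
    -- the action on the quotient is not trivial
    have hne : ∃ x, f x ≠ x := by
      by_contra hcon
      have hcon' : ∀ x, f x = x := by
        intro x
        by_contra h
        exact hcon ⟨x, h⟩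
      apply hb2
      intro d hd
      have h1 : d⁻¹ * (b * d * b⁻¹) ∈ frat D := by
        have h2 : d⁻¹ * (b * d * b⁻¹) ∈ D :=
          mul_mem (inv_mem hd) ((mem_normalizer_iff.1 hb d).1 hd)
        rw [hmem h2]
        have h3 := hcon' ((⟨d, hd⟩ : D) : D ⧸ frattini D)
        rw [hf] at h3
        have h4 : ((⟨d⁻¹ * (b * d * b⁻¹), h2⟩ : D) : D ⧸ frattini D) =
            (((⟨d, hd⟩ : D) : D ⧸ frattini D))⁻¹ * ((φ ⟨d, hd⟩ : D) : D ⧸ frattini D) := rfl
        rw [h4, h3, inv_mul_cancel]
      set x : G := d⁻¹ * (b * d * b⁻¹) with hx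
      have hbx : b * x = x * b := hFc x h1
      have hconj : b * d * b⁻¹ = d * x := by rw [hx]; group
      have hm : ∀ m : ℕ, b ^ m * d * (b ^ m)⁻¹ = d * x ^ m := by
        intro m
        induction m with
        | zero => simp
        | succ m ihm =>
          have h5 : b ^ (m + 1) * d * (b ^ (m + 1))⁻¹ = b * (b ^ m * d * (b ^ m)⁻¹) * b⁻¹ := by
            group
          have h6 : b * x ^ m * b⁻¹ = x ^ m := by
            have h7 : Commute b (x ^ m) := Commute.pow_right hbx m
            rw [h7.eq]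
            group
          calc b ^ (m + 1) * d * (b ^ (m + 1))⁻¹ = b * (b ^ m * d * (b ^ m)⁻¹) * b⁻¹ := h5
            _ = b * (d * x ^ m) * b⁻¹ := by rw [ihm]
            _ = (b * d * b⁻¹) * (b * x ^ m * b⁻¹) := by group
            _ = d * x * x ^ m := by rw [hconj, h6]
            _ = d * x ^ (m + 1) := by rw [pow_succ', mul_assoc]
      have h8 := hm (p - 1)
      rw [hb1 d hd] at h8
      have h9 : x ^ (p - 1) = 1 := by
        have h10 : d * x ^ (p - 1) = d * 1 := by
          rw [← h8]
          group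
        exact mul_left_cancel h10
      have hxD : x ∈ D := frat_le D h1
      obtain ⟨j, hj⟩ := (IsPGroup.iff_orderOf.1 hD) ⟨x, hxD⟩
      have h11 : orderOf x = p ^ j := by
        rw [← hj]
        exact (Subgroup.orderOf_mk x hxD).symm
      have h12 : p ^ j ∣ p - 1 := by
        rw [← h11]
        exact orderOf_dvd_of_pow_eq_one h9
      have h13 : j = 0 := by
        by_contra hj0
        have h14 : p ∣ p - 1 := dvd_trans (dvd_pow_self p hj0) h12
        have h15 := Nat.le_of_dvd (by omega) h14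
        omega
      rw [h13, pow_zero, orderOf_eq_one_iff] at h11
      rw [h11, mul_one] at hconj
      calc b * d = b * d * b⁻¹ * b := by group
        _ = d * b := by rw [hconj]
    obtain ⟨k, hk, y, hy1, hy⟩ := EigAux.mlin' hcomm hexp f (by
      intro x
      obtain ⟨x, rfl⟩ := QuotientGroup.mk'_surjective _ x
      change f^[p] (x : D ⧸ frattini D) = f (x : D ⧸ frattini D)
      rw [hfn, hφp', hf]) hne
    obtain ⟨⟨d, hd⟩, rfl⟩ := QuotientGroup.mk'_surjective _ y
    have hdF : d ∉ frat D := by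
      intro h
      exact hy1 ((hmem hd).1 h)
    -- if `d ^ m ∈ Φ(D)` then `p ∣ m`
    have hdiv : ∀ m : ℤ, d ^ m ∈ frat D → (p : ℤ) ∣ m := by
      intro m hm
      by_contra hpm
      apply hdF
      have hcop : IsCoprime (p : ℤ) m :=
        (Nat.prime_iff_prime_int.1 (Fact.out : p.Prime)).coprime_iff_not_dvd.2 hpm
      obtain ⟨a, c, hac⟩ := hcop
      have h1 : d = (d ^ p) ^ a * (d ^ m) ^ c := by
        rw [← zpow_natCast, ← zpow_mul, ← zpow_mul, ← zpow_add, mul_comm (p : ℤ) a,
          mul_comm m c, hac, zpow_one]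
      rw [h1]
      exact mul_mem (zpow_mem (pow_mem_frat hD hd) _) (zpow_mem hm _)
    -- `b d b⁻¹ ∈ d ^ k Φ(D)`
    have hbd : b * d * b⁻¹ * (d ^ k)⁻¹ ∈ frat D := by
      have h2 : b * d * b⁻¹ * (d ^ k)⁻¹ ∈ D :=
        mul_mem ((mem_normalizer_iff.1 hb d).1 hd) (inv_mem (pow_mem hd k))
      rw [hmem h2]
      have h4 : ((⟨b * d * b⁻¹ * (d ^ k)⁻¹, h2⟩ : D) : D ⧸ frattini D) =
          f (QuotientGroup.mk' (frattini D) ⟨d, hd⟩) *
            ((QuotientGroup.mk' (frattini D) ⟨d, hd⟩) ^ k)⁻¹ := rfl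
      rw [h4, hy, mul_inv_cancel]
    have hk1 : ∀ m : ℤ, b * d * b⁻¹ = d ^ m → ¬ (p : ℤ) ∣ m - 1 := by
      intro m hm hdvd
      have h1 : d ^ (m - k) ∈ frat D := by
        rw [zpow_sub, zpow_natCast, ← hm]
        exact hbd
      have h2 := hdiv _ h1
      have h3 : (p : ℤ) ∣ k - 1 := by
        have : (k : ℤ) - 1 = (m - 1) - (m - k) := by ring
        rw [this]
        exact dvd_sub hdvd h2
      apply hk
      have h4 := (ZMod.intCast_zmod_eq_zero_iff_dvd ((k : ℤ) - 1) p).2 h3
      push_cast at h4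
      exact sub_eq_zero.1 h4
    -- the subgroup generated by `d` and `Φ(D)` is everything
    have hEle : zpowers d ⊔ frat D ≤ D := sup_le (zpowers_le.2 hd) (frat_le D)
    have hEn : b ∈ normalizer ((zpowers d ⊔ frat D : Subgroup G) : Set G) := by
      have hmap : ∀ g : G, g ∈ zpowers d ⊔ frat D → b * g * b⁻¹ ∈ zpowers d ⊔ frat D := by
        intro g hg
        have h1 : zpowers d ⊔ frat D ≤
            (zpowers d ⊔ frat D).comap (MulAut.conj b).toMonoidHom := by
          refine sup_le ?_ ?_
          · rw [zpowers_le, mem_comap]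
            change b * d * b⁻¹ ∈ zpowers d ⊔ frat D
            have h2 : b * d * b⁻¹ = (b * d * b⁻¹ * (d ^ k)⁻¹) * d ^ k := by group
            rw [h2]
            exact mul_mem (mem_sup_right hbd) (mem_sup_left (pow_mem (mem_zpowers d) k))
          · intro z hz
            rw [mem_comap]
            change b * z * b⁻¹ ∈ zpowers d ⊔ frat D
            exact mem_sup_right ((mem_normalizer_iff.1 hF z).1 hz)
        exact h1 hg
      have hfin : (zpowers d ⊔ frat D).map (MulAut.conj b).toMonoidHom =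
          zpowers d ⊔ frat D := by
        refine Subgroup.eq_of_le_of_card_ge ?_ ?_
        · rw [map_le_iff_le_comap]
          exact hmap
        · exact (Nat.card_congr ((zpowers d ⊔ frat D).equivMapOfInjective _
            (MulAut.conj b).injective).toEquiv).le
      rw [mem_normalizer_iff]
      intro g
      refine ⟨hmap g, fun hg => ?_⟩
      rw [← hfin] at hg
      obtain ⟨z, hz, hzg⟩ := hg
      have h3 : b * z * b⁻¹ = b * g * b⁻¹ := hzg
      have h4 : z = g := by
        have := mul_right_cancel h3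
        exact mul_left_cancel this
      rw [← h4]
      exact hz
    have hE : zpowers d ⊔ frat D = D := by
      by_contra hne'
      have h1 := hmin _ (lt_of_le_of_ne hEle hne') hEn d (mem_sup_left (mem_zpowers d))
      have h2 : b * d * b⁻¹ = d ^ (1 : ℤ) := by
        rw [h1, zpow_one]
        group
      exact hk1 1 h2 (by simp)
    have hDz : zpowers d = D := eq_of_le_frat_sup (zpowers_le.2 hd) (by
      rw [sup_comm, hE])
    have h1 : b * d * b⁻¹ ∈ zpowers d := by
      rw [hDz]
      exact (mem_normalizer_iff.1 hb d).1 hd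
    obtain ⟨m, hm⟩ := h1
    refine ⟨d, hd, ?_, m, hm.symm, hk1 m hm.symm⟩
    rintro rfl
    exact hdF (one_mem _)

end MP_5771ce_al
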