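import Pool.Agent.Lib.MP_5771ce_al.S4.Defs

/-!
# Lemma F (quadratic action)
-/

open Subgroup
open scoped Pointwise commutatorElement

namespace MP_5771ce_al

universe u

namespace LemFAux

/-- Conjugating `β` by a power of `δ`. -/
theorem conj_pow {M : Type*} [Group M] {β δ : M} {k : ℤ} (hk : β * δ * β⁻¹ = δ ^ k) (i : ℤ) :
    δ ^ i * β * δ ^ (-i) = δ ^ (i * (1 - k)) * β := by
  have h1 : β * δ ^ (-i) * β⁻¹ = δ ^ (k * -i) := by
    rw [zpow_mul, ← hk, conj_zpow]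
  have h2 : β * δ ^ (-i) = δ ^ (k * -i) * β := by
    rw [← h1]; group
  rw [mul_assoc, h2, ← mul_assoc, ← zpow_add]
  congr 2
  ring

/-- Every `δ ^ j * β` is a conjugate of `β`. -/
theorem exists_conj {M : Type*} [Group M] {β δ : M} {q : ℕ} (hδ : δ ^ q = 1) {k : ℤ}
    (hk : β * δ * β⁻¹ = δ ^ k) (hk1 : IsCoprime (1 - k) (q : ℤ)) (j : ℤ) :
    ∃ y : M, y * β * y⁻¹ = δ ^ j * β := by
  obtain ⟨a, c, hac⟩ := hk1
  refine ⟨δ ^ (j * a), ?_⟩
  rw [← zpow_neg, conj_pow hk]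
  have h1 : j * a * (1 - k) = j + (q : ℤ) * (-(j * c)) := by
    linear_combination j * hac
  rw [h1, zpow_add, zpow_mul, zpow_natCast, hδ, one_zpow, mul_one]

theorem quad_conj {N : Type*} [CommGroup N] {β : MulAut N} (hq : ∀ n, β (β n) * n = β n * β n)
    (y : MulAut N) (n : N) :
    (y * β * y⁻¹) ((y * β * y⁻¹) n) * n = (y * β * y⁻¹) n * (y * β * y⁻¹) n := by
  have h1 := congrArg y (hq (y⁻¹ n))
  simp only [map_mul, MulAut.mul_apply, MulAut.inv_apply, MulEquiv.apply_symm_apply,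
    MulEquiv.symm_apply_apply] at h1 ⊢
  exact h1

theorem quad_inv {N : Type*} [CommGroup N] {X : MulAut N} (hq : ∀ n, X (X n) * n = X n * X n)
    (n : N) : X n * X⁻¹ n = n * n := by
  have h1 := hq (X⁻¹ n)
  simp only [MulAut.inv_apply, MulEquiv.apply_symm_apply] at h1 ⊢
  exact h1

theorem core {N : Type*} [CommGroup N] {t q : ℕ} (ht : Odd t) (htq : Nat.Coprime t q)
    (hexp : ∀ n : N, n ^ t = 1) {β δ : MulAut N} (hq : ∀ n, β (β n) * n = β n * β n)
    (hδ : δ ^ q = 1) {k : ℤ} (hk : β * δ * β⁻¹ = δ ^ k) (hk1 : IsCoprime (1 - k) (q : ℤ)) :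
    ∀ n, δ n = n := by
  have hX : ∀ (j : ℤ) (n : N), (δ ^ j * β) n * (δ ^ j * β)⁻¹ n = n * n := by
    intro j n
    obtain ⟨y, hy⟩ := exists_conj hδ hk hk1 j
    rw [← hy]
    exact quad_inv (quad_conj hq y) n
  have h0 : ∀ n, β n * β⁻¹ n = n * n := fun n => by simpa using hX 0 n
  have h1 : ∀ n, δ (β n) * β⁻¹ (δ⁻¹ n) = n * n := fun n => by simpa using hX 1 n
  have h2 : ∀ n, δ (δ (β n)) * β⁻¹ (δ⁻¹ (δ⁻¹ n)) = n * n := fun n => by
    have := hX 2 n
    rw [zpow_ofNat, sq, mul_inv_rev, mul_inv_rev] at this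
    simpa using this
  -- `δ` is quadratic
  have hsq : ∀ n, (δ (δ n) * n) ^ 2 = (δ n * δ n) ^ 2 := by
    intro n
    have a0 : δ (β n) * δ (β⁻¹ n) = δ n * δ n := by rw [← map_mul, h0, map_mul]
    have a1 := h1 n
    have b1 : δ (δ (β (δ n))) * δ (β⁻¹ (δ⁻¹ (δ n))) = δ (δ n) * δ (δ n) := by
      rw [← map_mul, h1, map_mul]
    have b2 := h2 (δ n)
    have e1 : δ⁻¹ (δ n) = n := by simp
    rw [e1] at b1 b2
    -- `u = δ β⁻¹ n`, `v = β⁻¹ δ⁻¹ n`
    have c1 : δ (β⁻¹ n) * (n * n) = β⁻¹ (δ⁻¹ n) * (δ n * δ n) := by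
      rw [← a0, ← a1]
      exact mul_left_comm _ _ _ |>.trans (by rw [mul_left_comm (β⁻¹ (δ⁻¹ n)), mul_comm (δ (β⁻¹ n))])
    have c2 : δ (β⁻¹ n) * (δ n * δ n) = β⁻¹ (δ⁻¹ n) * (δ (δ n) * δ (δ n)) := by
      rw [← b1, ← b2]
      exact mul_left_comm _ _ _ |>.trans (by rw [mul_left_comm (β⁻¹ (δ⁻¹ n)), mul_comm (δ (β⁻¹ n))])
    have c3 : (δ (β⁻¹ n) * β⁻¹ (δ⁻¹ n)) * (n * n * (δ (δ n) * δ (δ n))) =
        (δ (β⁻¹ n) * β⁻¹ (δ⁻¹ n)) * (δ n * δ n * (δ n * δ n)) := by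
      calc _ = (δ (β⁻¹ n) * (n * n)) * (β⁻¹ (δ⁻¹ n) * (δ (δ n) * δ (δ n))) := by
            simp only [mul_assoc, mul_left_comm, mul_comm]
        _ = (β⁻¹ (δ⁻¹ n) * (δ n * δ n)) * (δ (β⁻¹ n) * (δ n * δ n)) := by rw [c1, c2]
        _ = _ := by simp only [mul_left_comm, mul_comm]
    have c4 := mul_left_cancel c3
    rw [sq, sq]
    rw [mul_mul_mul_comm, mul_comm (δ (δ n) * δ (δ n))]
    exact c4
  have hinj : ∀ a b : N, a ^ 2 = b ^ 2 → a = b := by
    intro a b hab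
    obtain ⟨r, hr⟩ := ht
    have ha : a ^ t = 1 := hexp a
    have hb : b ^ t = 1 := hexp b
    have h3 : a ^ (2 * r) = b ^ (2 * r) := by rw [pow_mul, pow_mul, hab]
    rw [hr, pow_succ] at ha hb
    rw [h3] at ha
    exact mul_left_cancel (ha.trans hb.symm)
  have hquad : ∀ n, δ (δ n) * n = δ n * δ n := fun n => hinj _ _ (hsq n)
  intro n
  have hc : δ (δ n * n⁻¹) = δ n * n⁻¹ := by
    rw [map_mul, map_inv, ← div_eq_mul_inv, ← div_eq_mul_inv, div_eq_div_iff_mul_eq_mul]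
    exact hquad n
  have hpow : ∀ r : ℕ, (δ ^ r) n = n * (δ n * n⁻¹) ^ r := by
    intro r
    induction r with
    | zero => simp
    | succ r ih =>
      have h3 : δ n = n * (δ n * n⁻¹) := by
        rw [mul_comm (δ n), mul_inv_cancel_left]
      rw [pow_succ', MulAut.mul_apply, ih, map_mul, map_pow, hc, pow_succ', ← mul_assoc, ← h3]
  have hcq : (δ n * n⁻¹) ^ q = 1 := by
    have h3 := hpow q
    rw [hδ, MulAut.one_apply] at h3
    exact left_eq_mul.1 h3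
  have hct : (δ n * n⁻¹) ^ t = 1 := hexp _
  have h4 : δ n * n⁻¹ = 1 := by
    have h5 : orderOf (δ n * n⁻¹) ∣ Nat.gcd t q :=
      Nat.dvd_gcd (orderOf_dvd_of_pow_eq_one hct) (orderOf_dvd_of_pow_eq_one hcq)
    rw [htq] at h5
    exact orderOf_eq_one_iff.1 (Nat.dvd_one.1 h5)
  exact mul_inv_eq_one.1 h4

/-- The automorphism of `N` induced by an element of the normalizer. -/
theorem smul_def {G : Type u} [Group G] {N : Subgroup G} (b : normalizer (N : Set G)) (n : N) :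
    ((N.normalizerMonoidHom b n : N) : G) = (b : G) * n * (b : G)⁻¹ := rfl

end LemFAux

open LemFAux in
/-- (0.6) Lemma F: `N` an elementary abelian `t`-group (written multiplicatively inside `G`),
`t` odd, `b` acts quadratically, `d ^ (p ^ m)` centralises `N`, `b⁻¹ d b = d ^ k` modulo the
centraliser of `N`, `k ≢ 1 mod p`. Then `d` centralises `N`. -/
theorem lemmaF {G : Type u} [Group G] [Finite G] {t p : ℕ} [Fact t.Prime] [Fact p.Prime]
    (ht : t ≠ 2) (htp : t ≠ p) {N : Subgroup G} (hN : ElemAb t N) {b d : G}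
    (hb : b ∈ normalizer (N : Set G)) (hd : d ∈ normalizer (N : Set G))
    (hq : ∀ n ∈ N, ⁅⁅n, b⁆, b⁆ = 1) {m : ℕ} (hdp : d ^ (p ^ m) ∈ centralizer (N : Set G)) {k : ℤ}
    (hk : b * d * b⁻¹ * (d ^ k)⁻¹ ∈ centralizer (N : Set G)) (hk1 : ¬ (p : ℤ) ∣ k - 1) :
    ∀ n ∈ N, d * n = n * d := by
  let _ : CommGroup N := { (inferInstance : Group N) with
    mul_comm := fun x y => Subtype.ext (hN.1 x x.2 y y.2) }
  have hp : p.Prime := Fact.out
  have htp' : t.Prime := Fact.out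
  set φ : normalizer (N : Set G) →* MulAut N := N.normalizerMonoidHom with hφ
  set β : MulAut N := φ ⟨b, hb⟩ with hβ
  set δ : MulAut N := φ ⟨d, hd⟩ with hδ
  have hker : ∀ x : normalizer (N : Set G), (x : G) ∈ centralizer (N : Set G) → φ x = 1 := by
    intro x hx
    ext n
    change (x : G) * n * (x : G)⁻¹ = n
    rw [mem_centralizer_iff] at hx
    rw [← hx n n.2, mul_inv_cancel_right]
  have hcore := core (N := N) (t := t) (q := p ^ m) (β := β) (δ := δ) (k := k)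
    (htp'.odd_of_ne_two ht) (Nat.Coprime.pow_right m ((Nat.coprime_primes htp' hp).2 htp)) ?_ ?_ ?_
    ?_ ?_
  · intro n hn
    have h1 := congrArg (fun z : N => (z : G)) (hcore ⟨n, hn⟩)
    change d * n * d⁻¹ = n at h1
    rw [mul_inv_eq_iff_eq_mul] at h1
    exact h1
  · intro n
    exact Subtype.ext (hN.2 n n.2)
  · intro n
    refine Subtype.ext ?_
    change b * (b * n * b⁻¹) * b⁻¹ * (n : G) = b * n * b⁻¹ * (b * n * b⁻¹)
    have h1 := hq n n.2
    have h2 : (n : G) * (b * (n : G) * b⁻¹) = (b * (n : G) * b⁻¹) * (n : G) :=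
      hN.1 n n.2 _ ((mem_normalizer_iff.1 hb n).1 n.2)
    generalize hx : b * (n : G) * b⁻¹ = x at h2 ⊢
    have h3 : (n : G) * x⁻¹ * (b * x * b⁻¹) * x⁻¹ = 1 := by
      rw [← h1, commutatorElement_def, commutatorElement_def, ← hx]
      group
    have h4 : b * x * b⁻¹ = x * (n : G)⁻¹ * x := by
      have h5 : (n : G) * x⁻¹ * (b * x * b⁻¹) = x := by
        rw [mul_inv_eq_one] at h3
        exact h3
      calc b * x * b⁻¹ = x * (n : G)⁻¹ * ((n : G) * x⁻¹ * (b * x * b⁻¹)) := by group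
        _ = x * (n : G)⁻¹ * x := by rw [h5]
    rw [h4, mul_assoc, ← h2]
    group
  · rw [hδ, ← map_pow]
    exact hker _ hdp
  · rw [← mul_inv_eq_one, hβ, hδ, ← map_zpow, ← map_inv, ← map_inv, ← map_mul, ← map_mul, ← map_mul]
    exact hker _ hk
  · rw [Nat.cast_pow]
    refine IsCoprime.pow_right ?_
    have h1 : Irreducible (p : ℤ) := (Nat.prime_iff_prime_int.1 hp).irreducible
    refine (h1.coprime_iff_not_dvd.2 ?_).symm
    intro h2
    refine hk1 ?_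
    have h3 : k - 1 = -(1 - k) := by ring
    rw [h3]
    exact (dvd_neg).2 h2

end MP_5771ce_al
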