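import Pool.Agent.Lib.MP_5771ce_al.S4.LemS4

/-!
# Lemma S
-/

open Subgroup
open scoped Pointwise commutatorElement

namespace MP_5771ce_al

universe u

namespace LemSAux

variable {L : Type u} [Group L]

theorem commEl_le_sup {N D : Subgroup L} (h : (N ⊔ D : Subgroup L).Normal) (b : L) :
    commEl D b ≤ N ⊔ D := by
  unfold commEl
  rw [closure_le]
  rintro _ ⟨d, hd, rfl⟩
  have hd' : d ∈ N ⊔ D := mem_sup_right hd
  have h1 := h.conj_mem _ (inv_mem hd') b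
  have : ⁅d, b⁆ = d * (b * d⁻¹ * b⁻¹) := by
    rw [commutatorElement_def]
    group
  rw [SetLike.mem_coe, this]
  exact mul_mem hd' h1

theorem commEl_le_map {H : Type*} [Group H] (D : Subgroup L) (b : L) (f : L →* H) :
    commEl (D.map f) (f b) ≤ (commEl D b).map f := by
  unfold commEl
  rw [closure_le]
  rintro _ ⟨_, ⟨d, hd, rfl⟩, rfl⟩
  exact ⟨⁅d, b⁆, subset_closure ⟨d, hd, rfl⟩, map_commutatorElement f d b⟩

theorem commEl_le_commutator {D T : Subgroup L} {b : L} (hb : b ∈ T) : commEl D b ≤ ⁅D, T⁆ := by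
  unfold commEl
  rw [closure_le]
  rintro _ ⟨d, hd, rfl⟩
  exact commutator_mem_commutator hd hb

end LemSAux

open LemSAux

/-- **Lemma S**, absolute form. -/
theorem lemmaS {L : Type u} [Group L] [Finite L] [Group.IsSolvable L] {A P T T₀ : Subgroup L}
    (hA : HerPermutable A) (hAP : Permutes A P) (htop : A ⊔ P = ⊤) {t p : ℕ} [Fact t.Prime]
    [Fact p.Prime] (htp : t ≠ p) (hP : IsPGroup p P) (hPi : ¬ p ∣ P.index)
    (hTA : T ≤ A) (hTn : A ≤ normalizer (T : Set L)) (hTt : IsPGroup t T)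
    (hTmax : ∀ V : Subgroup L, V ≤ A → A ≤ normalizer (V : Set L) → IsPGroup t V → V ≤ T)
    (hT₀n : T₀.Normal) (hT₀t : IsPGroup t T₀)
    (hT₀max : ∀ V : Subgroup L, V.Normal → IsPGroup t V → V ≤ T₀)
    (hnn : ¬ T.Normal) :
    ∃ D ≤ P, Brick t p T T₀ D ∧ (T ⊔ D).Normal ∧ (T₀ ⊔ D).Normal ∧ A ⊔ D = ⊤ ∧
      D ≤ T₀ ⊔ ⁅D, T⁆ ∧ t ∣ p - 1 ∧
      (∀ y ∈ P, (∀ x ∈ T, ⁅y, x⁆ ∈ T₀) → y ∈ A) := by
  obtain ⟨k, hk⟩ := (IsPGroup.iff_card).1 hP
  have hp : p.Prime := Fact.out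
  have ht : t.Prime := Fact.out
  have hi : A.index ∣ p ^ k := by
    rw [← relIndex_top_right, ← htop, hAP.relIndex_sup, ← hk]
    exact relIndex_dvd_card A P
  obtain ⟨B, hB⟩ : ∃ B : Subgroup L, B = opp p (⊤ : Subgroup L) := ⟨_, rfl⟩
  have hBn : B.Normal := by rw [hB]; exact opp_top_normal hp
  have hBp : ¬ p ∣ Nat.card B := by rw [hB]; exact not_dvd_card_opp hp _
  have hnor : ∀ {N : Subgroup L}, N.Normal → ∀ E : Subgroup L, E ≤ normalizer (N : Set L) :=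
    fun hN E => by rw [normalizer_eq_top_iff.2 hN]; exact le_top
  have hBA : B ≤ A := le_of_coprime_index hp le_top (by rwa [relIndex_top_right]) le_top
    (hnor hBn ⊤) hBp
  have hT₀B : T₀ ≤ B := by
    rw [hB]
    exact le_opp (normalIn_top.2 hT₀n) (not_dvd_card_of_isPGroup hp ht htp hT₀t)
  have hT₀T : T₀ ≤ T := hTmax T₀ (hT₀B.trans hBA) (hnor hT₀n A) hT₀t
  have hTB : T ⊓ B ≤ T₀ := by
    have h1 : NormalIn (opc t B) ⊤ := (normalIn_top.2 hBn).opc t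
    refine le_trans ?_ (hT₀max _ (normalIn_top.1 h1) (opc_isPGroup t B))
    refine le_opc (normalIn_of_le_normalizer inf_le_right ?_) hTt.to_inf_left
    exact (le_inf (hBA.trans hTn) (hnor hBn B)).trans inf_normalizer_le_normalizer_inf
  have hne : T₀ ≠ T := by
    rintro rfl
    exact hnn hT₀n
  -- `[⁅T, L⁆, B] ≤ T₀`
  have hE₁B : ∀ e ∈ ⁅T, (⊤ : Subgroup L)⁆, ∀ x ∈ B, ⁅e, x⁆ ∈ T₀ := by
    have hKn : (trivOn T₀ B).Normal := by
      refine ⟨fun w hw g => ?_⟩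
      refine ⟨hnor hT₀n ⊤ (mem_top _), fun x hx => ?_⟩
      have h1 := hw.2 (g⁻¹ * x * g) (by
        have := hBn.conj_mem x hx g⁻¹
        rwa [inv_inv] at this)
      have h2 := hT₀n.conj_mem _ h1 g
      have : ⁅g * w * g⁻¹, x⁆ = g * ⁅w, g⁻¹ * x * g⁆ * g⁻¹ := by
        simp only [commutatorElement_def]
        group
      rw [this]
      exact h2
    have hTK : T ≤ trivOn T₀ B := by
      intro τ hτ
      refine ⟨hnor hT₀n ⊤ (mem_top _), fun x hx => hTB ?_⟩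
      constructor
      · have h1 := mem_normalizer_conj (hTn (hBA hx)) (T.inv_mem hτ)
        have : ⁅τ, x⁆ = τ * (x * τ⁻¹ * x⁻¹) := by
          rw [commutatorElement_def]
          group
        rw [this]
        exact T.mul_mem hτ h1
      · rw [commutatorElement_def]
        exact B.mul_mem (hBn.conj_mem _ hx τ) (B.inv_mem hx)
    have hle : ⁅T, (⊤ : Subgroup L)⁆ ≤ trivOn T₀ B := by
      rw [commutator_le]
      intro τ hτ g _
      have h1 := hKn.conj_mem _ (inv_mem (hTK hτ)) g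
      have : ⁅τ, g⁆ = τ * (g * τ⁻¹ * g⁻¹) := by
        rw [commutatorElement_def]
        group
      rw [this]
      exact mul_mem (hTK hτ) h1
    intro e he x hx
    exact (hle he).2 x hx
  -- the quotient by `B`
  obtain ⟨f, hfdef⟩ : ∃ f : L →* L ⧸ B, f = QuotientGroup.mk' B := ⟨_, rfl⟩
  have hf : Function.Surjective f := by rw [hfdef]; exact QuotientGroup.mk'_surjective B
  have hker : f.ker = B := by rw [hfdef]; exact QuotientGroup.ker_mk' B
  have hker' : ∀ x : L, f x = 1 ↔ x ∈ B := by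
    intro x
    rw [← MonoidHom.mem_ker, hker]
  have hO : opp p (⊤ : Subgroup (L ⧸ B)) = ⊥ := by
    rw [← map_mk'_top, opp_map_mk' hp le_top hBp, ← hB, map_mk'_self]
  have hT1 : T.map f ≠ ⊥ := by
    intro h
    rw [Subgroup.map_eq_bot_iff, hker] at h
    apply hne
    exact le_antisymm hT₀T ((le_inf le_rfl h).trans hTB)
  obtain ⟨D₁, hD₁, hD₁p, ⟨c₁, hc₁, hcyc⟩, hexp, hgen, hAD₁, hdvd, hS5⟩ :=
    stepI (L := L ⧸ B) (A := A.map f) (P := P.map f) (T := T.map f) htp (hA.map hf)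
      (permutes_map hAP f) (by rw [← Subgroup.map_sup, htop, map_top_of_surjective f hf])
      (hP.map f) (fun h => hPi (h.trans (index_map_dvd P hf))) (map_mono hTA)
      ((map_mono hTn).trans (le_normalizer_map f)) (hTt.map f) hT1 hO
  have hE₁n : (⁅T, (⊤ : Subgroup L)⁆ : Subgroup L).Normal := normal_comm_top T
  have hE₁map : (⁅T, (⊤ : Subgroup L)⁆ : Subgroup L).map f = D₁ := by
    rw [map_commutator, map_top_of_surjective f hf, hD₁]
  have hPs : IsSylowIn p P ⊤ := ⟨le_top, hP, by rwa [relIndex_top_right]⟩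
  obtain ⟨D, hD⟩ : ∃ D : Subgroup L, D = P ⊓ ⁅T, (⊤ : Subgroup L)⁆ := ⟨_, rfl⟩
  have hDs : IsSylowIn p D ⁅T, (⊤ : Subgroup L)⁆ := by
    rw [hD]
    exact hPs.inf_normal (normalIn_top.2 hE₁n)
  have hDP : D ≤ P := by rw [hD]; exact inf_le_left
  have hDmap : D.map f = D₁ := by
    have h1 := hDs.map f
    rw [hE₁map] at h1
    exact h1.eq_of_le hD₁p h1.le le_rfl
  have hE₁le : ⁅T, (⊤ : Subgroup L)⁆ ≤ D ⊔ B := by
    rw [← hker]
    exact le_sylow_sup_ker hDs f (by rw [hE₁map]; exact hD₁p)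
  -- `T₀ D` is normal
  have hTD : (T₀ ⊔ D : Subgroup L).Normal := by
    have h1 : ∀ g : L, ∀ d ∈ D, g * d * g⁻¹ ∈ T₀ ⊔ D := by
      intro g d hd
      have h2 := hDs.conjBy g⁻¹
      rw [(normalIn_top.2 hE₁n).conjBy_eq (mem_top _)] at h2
      obtain ⟨x, hx, hxe⟩ := hDs.exists_conjBy_eq h2
      have h3 : x ∈ B ⊔ D := by
        rw [sup_comm]
        exact hE₁le hx
      obtain ⟨d₀, hd₀, y, hy, rfl⟩ := (mem_sup_of_le_normalizer (hnor hBn D)).1 h3
      rw [conjBy_mul, conjBy_eq_self hd₀] at hxe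
      have h4 : g * d * g⁻¹ ∈ conjBy D y := by
        rw [hxe, mem_conjBy]
        have : g⁻¹ * (g * d * g⁻¹) * g⁻¹⁻¹ = d := by group
        rwa [this]
      rw [mem_conjBy] at h4
      have h5 : ⁅(y * (g * d * g⁻¹) * y⁻¹)⁻¹, y⁻¹⁆ ∈ T₀ :=
        hE₁B _ (inv_mem (hDs.le h4)) _ (inv_mem hy)
      have h6 : g * d * g⁻¹ = (y * (g * d * g⁻¹) * y⁻¹) *
          ⁅(y * (g * d * g⁻¹) * y⁻¹)⁻¹, y⁻¹⁆ := by
        simp only [commutatorElement_def]
        group
      rw [h6]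
      exact mul_mem (mem_sup_right h4) (mem_sup_left h5)
    refine ⟨fun z hz g => ?_⟩
    obtain ⟨n, hn, d, hd, rfl⟩ := (mem_sup_of_le_normalizer' (hnor hT₀n D)).1 hz
    have h2 : g * (n * d) * g⁻¹ = (g * n * g⁻¹) * (g * d * g⁻¹) := by group
    rw [h2]
    exact mul_mem (mem_sup_left (hT₀n.conj_mem n hn g)) (h1 g d hd)
  -- `A D = L`
  have hAD : A ⊔ D = ⊤ := by
    rw [eq_top_iff]
    intro g _
    have h1 : f g ∈ (A ⊔ D).map f := by
      rw [Subgroup.map_sup, hDmap, hAD₁]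
      exact mem_top _
    obtain ⟨z, hz, hzg⟩ := h1
    have h2 : z⁻¹ * g ∈ B := by
      rw [← hker', map_mul, map_inv, hzg, inv_mul_cancel]
    have h3 : g = z * (z⁻¹ * g) := by group
    rw [h3]
    exact mul_mem hz (mem_sup_left (hBA h2))
  have hDB : ∀ z ∈ D, z ∈ B → z = 1 := by
    intro z hz hzB
    obtain ⟨m, hm⟩ := (IsPGroup.iff_orderOf.1 hDs.isPGroup) ⟨z, hz⟩
    rw [Subgroup.orderOf_mk] at hm
    have h1 : orderOf z ∣ Nat.card B := Subgroup.orderOf_dvd_natCard B hzB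
    rw [hm] at h1
    have hm0 : m = 0 := by
      by_contra h
      exact hBp ((dvd_pow_self p h).trans h1)
    rw [hm0, pow_zero, orderOf_eq_one_iff] at hm
    exact hm
  have hTDB : ∀ z ∈ T₀ ⊔ D, z ∈ B → z ∈ T₀ := by
    intro z hz hzB
    obtain ⟨n, hn, d, hd, rfl⟩ := (mem_sup_of_le_normalizer' (hnor hT₀n D)).1 hz
    have h1 : d ∈ B := by
      have := B.mul_mem (B.inv_mem (hT₀B hn)) hzB
      rwa [inv_mul_cancel_left] at this
    rw [hDB d hd h1, mul_one]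
    exact hn
  have hgen' : ∀ b ∈ T, b ∉ T₀ → D ≤ T₀ ⊔ commEl D b := by
    intro b hb hb0 x hx
    have h1 : f b ≠ 1 := by
      intro h
      rw [hker'] at h
      exact hb0 (hTB ⟨hb, h⟩)
    have h2 := hgen (f b) ⟨b, hb, rfl⟩ h1
    rw [← hDmap] at h2
    obtain ⟨w, hw, hwx⟩ := commEl_le_map D b f (h2 ⟨x, hx, rfl⟩)
    have h3 : w⁻¹ * x ∈ T₀ := by
      apply hTDB
      · exact mul_mem (inv_mem (commEl_le_sup hTD b hw)) (mem_sup_right hx)
      · rw [← hker', map_mul, map_inv, hwx, inv_mul_cancel]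
    have h4 : x = w * (w⁻¹ * x) := by group
    rw [h4]
    exact mul_mem (mem_sup_right hw) (mem_sup_left h3)
  refine ⟨D, hDP, ?_, ?_, hTD, hAD, ?_, hdvd, ?_⟩
  · refine ⟨hTt, hDs.isPGroup, hT₀T, hnor hT₀n T, hnor hT₀n D, hnor hTD T, ?_, ?_, hgen'⟩
    · obtain ⟨c, hc, rfl⟩ := hc₁
      refine ⟨c, hc, fun x hx => ?_⟩
      obtain ⟨n, hn⟩ := hcyc (f x) ⟨x, hx, rfl⟩
      refine ⟨n, hTB ⟨T.mul_mem hx (T.zpow_mem hc n), (hker' _).1 ?_⟩⟩
      rw [map_mul, map_zpow]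
      exact hn
    · intro b hb
      refine hTB ⟨T.pow_mem hb _, (hker' _).1 ?_⟩
      rw [map_pow]
      exact hexp (f b) ⟨b, hb, rfl⟩
  · rw [← normalizer_eq_top_iff, eq_top_iff, ← hAD]
    have h1 : T ⊔ D = T ⊔ (T₀ ⊔ D) := by
      rw [← sup_assoc, sup_eq_left.2 hT₀T]
    refine sup_le ?_ (le_sup_right.trans le_normalizer)
    rw [h1]
    exact (le_inf hTn (hnor hTD A)).trans (normalizer_inf_normalizer_le_normalizer_sup _ _)
  · obtain ⟨b, hb, hb0⟩ : ∃ b ∈ T, b ∉ T₀ :=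
      SetLike.exists_of_lt (lt_of_le_of_ne hT₀T hne)
    exact (hgen' b hb hb0).trans (sup_le_sup_left (commEl_le_commutator hb) T₀)
  · intro y hy h
    have h1 : f y ∈ A.map f := by
      apply hS5 (f y) ⟨y, hy, rfl⟩
      rintro _ ⟨x, hx, rfl⟩
      rw [← commutatorElement_eq_one_iff_mul_comm, ← map_commutatorElement, hker']
      exact hT₀B (h x hx)
    obtain ⟨a, ha, hay⟩ := h1
    have h2 : a⁻¹ * y ∈ B := by
      rw [← hker', map_mul, map_inv, hay, inv_mul_cancel]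
    have h3 : y = a * (a⁻¹ * y) := by group
    rw [h3]
    exact A.mul_mem ha (hBA h2)

end MP_5771ce_al
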