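import Pool.Agent.Lib.MP_5771ce_al.LibAxB

/-!
# Lemma S, part 1: permutability with subgroups of `p`-groups, the chain trick
-/

open Subgroup
open scoped Pointwise commutatorElement

namespace MP_5771ce_al

variable {G : Type*} [Group G]

/-- In a `p`-group the normaliser of a proper subgroup is bigger. -/
theorem ls_exists_normalizer [Finite G] {p : ℕ} [Fact p.Prime] {P Q : Subgroup G}
    (hP : IsPGroup p P) (hQ : Q < P) : ∃ x ∈ P, x ∉ Q ∧ x ∈ normalizer (Q : Set G) := by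
  have hnil : Group.IsNilpotent P := hP.isNilpotent
  have hlt : Q.subgroupOf P < ⊤ := by
    rw [lt_top_iff_ne_top]
    intro h
    rw [subgroupOf_eq_top] at h
    exact hQ.not_ge h
  have h1 := Group.normalizerCondition_of_isNilpotent (G := P) _ hlt
  obtain ⟨x, hx, hxQ⟩ := SetLike.exists_of_lt h1
  refine ⟨x, x.2, fun h => hxQ (mem_subgroupOf.2 h), ?_⟩
  rw [mem_normalizer_iff] at hx ⊢
  intro y
  constructor
  · intro hy
    have := (hx ⟨y, hQ.le hy⟩).1 (mem_subgroupOf.2 hy)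
    exact mem_subgroupOf.1 this
  · intro hy
    have hyP : y ∈ P := by
      have h2 := P.mul_mem (P.mul_mem (P.inv_mem x.2) (hQ.le hy)) x.2
      have : (x : G)⁻¹ * ((x : G) * y * (x : G)⁻¹) * (x : G) = y := by group
      rwa [this] at h2
    have := (hx ⟨y, hyP⟩).2 (mem_subgroupOf.2 hy)
    exact mem_subgroupOf.1 this

/-- `A` permutes with all subgroups of a `p`-group with which it permutes. -/
theorem ls_permutes_sub [Finite G] {p : ℕ} [Fact p.Prime] {A P : Subgroup G}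
    (hA : HerPermutable A) (hP : IsPGroup p P) (hAP : Permutes A P) {Q : Subgroup G} (hQ : Q ≤ P) :
    Permutes A Q := by
  induction hn : Nat.card P - Nat.card Q using Nat.strong_induction_on generalizing Q with
  | _ n ih =>
    rcases hQ.eq_or_lt with rfl | hlt
    · exact hAP
    · obtain ⟨x, hx, hxQ, hxn⟩ := ls_exists_normalizer hP hlt
      set Q1 : Subgroup G := normalizer (Q : Set G) ⊓ P with hQ1
      have h1 : Q ≤ Q1 := le_inf le_normalizer hQ
      have h2 : Q < Q1 := lt_of_le_of_ne h1 fun h => hxQ (h ▸ ⟨hxn, hx⟩)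
      have h3 := card_lt_of_lt h2
      have h4 : Nat.card Q1 ≤ Nat.card P := Subgroup.card_le_of_le inf_le_right
      have h5 := card_lt_of_lt hlt
      have hp : Permutes A Q1 := ih (Nat.card P - Nat.card Q1) (by omega) inf_le_right rfl
      refine hA.permutes_of_normal hp h1 ?_
      intro b hb n hn
      exact mem_normalizer_conj hb.1 hn

theorem permutes_top (A : Subgroup G) : Permutes A ⊤ := by
  rw [permutes_iff]
  intro a _ b _
  exact ⟨a * b, mem_top _, 1, A.one_mem, by simp⟩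

/-- `N` a normal `r`-subgroup, `A ∩ N ≤ Y ≤ N`: then `A` normalises `Y`. -/
theorem ls_normalizes [Finite G] {r : ℕ} [Fact r.Prime] {A N Y : Subgroup G}
    (hA : HerPermutable A) (hN : N.Normal) (hNr : IsPGroup r N) (h1 : A ⊓ N ≤ Y) (h2 : Y ≤ N) :
    A ≤ normalizer (Y : Set G) := by
  have hAN : Permutes A N := hA.permutes_of_normal (permutes_top A) le_top
    (fun b _ n hn => hN.conj_mem n hn b)
  have hAY := ls_permutes_sub hA hNr hAN h2
  rw [le_normalizer_iff]
  intro a ha y hy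
  obtain ⟨y', hy', a', ha', e⟩ := permutes_iff.1 hAY a ha y hy
  have h3 : a * y * a⁻¹ ∈ N := hN.conj_mem y (h2 hy) a
  have h4 : y'⁻¹ * (a * y * a⁻¹) = a' * a⁻¹ := by rw [e]; group
  have h5 : y'⁻¹ * (a * y * a⁻¹) ∈ A ⊓ N :=
    ⟨by rw [h4]; exact A.mul_mem ha' (A.inv_mem ha), N.mul_mem (N.inv_mem (h2 hy')) h3⟩
  have h6 := Y.mul_mem hy' (h1 h5)
  simpa using h6

/-- generators of a cyclic `p`-group -/
theorem ls_mem_zpowers_zpow [Finite G] {p : ℕ} [Fact p.Prime] {g : G} (hg : IsPGroup p (zpowers g))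
    {i : ℤ} (hi : ¬ (p : ℤ) ∣ i) : g ∈ zpowers (g ^ i) := by
  obtain ⟨n, hn⟩ := (IsPGroup.iff_card).1 hg
  rw [Nat.card_zpowers] at hn
  have hcop : IsCoprime i (orderOf g : ℤ) := by
    rw [hn]
    push_cast
    apply IsCoprime.pow_right
    have hp : Prime (p : ℤ) := Nat.prime_iff_prime_int.1 Fact.out
    exact ((Prime.coprime_iff_not_dvd hp).2 hi).symm
  obtain ⟨u, v, huv⟩ := hcop
  refine ⟨u, ?_⟩
  change (g ^ i) ^ u = g
  have : g ^ (i * u + orderOf g * v) = g := by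
    have h1 : i * u + (orderOf g : ℤ) * v = 1 := by rw [← huv]; ring
    rw [h1, zpow_one]
  rw [zpow_add, zpow_mul, zpow_mul, zpow_natCast, pow_orderOf_eq_one, one_zpow, mul_one] at this
  exact this

/-- elements of prime order -/
theorem ls_mem_zpowers_of_ne_one {p : ℕ} [Fact p.Prime] {d e : G} (hd : orderOf d = p)
    (he : e ∈ zpowers d) (hne : e ≠ 1) : d ∈ zpowers e := by
  have hcard : Nat.card (zpowers d) = p := by rw [Nat.card_zpowers, hd]
  have h1 := mem_zpowers_of_prime_card (G := zpowers d) (p := p) hcard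
    (g := ⟨e, he⟩) (g' := ⟨d, mem_zpowers d⟩) (by
      intro h
      exact hne (congrArg Subtype.val h))
  obtain ⟨k, hk⟩ := h1
  exact ⟨k, congrArg Subtype.val hk⟩

/-- **The chain trick.** -/
theorem ls_chain [Finite G] {p : ℕ} [Fact p.Prime] {A P T : Subgroup G}
    (hA : HerPermutable A) (hP : IsPGroup p P) (hAP : Permutes A P) (hTA : T ≤ A)
    (hTn : A ≤ normalizer (T : Set G)) (hTP : T ⊓ P = ⊥) {b d z : G} (hb : b ∈ T) (hd : d ∈ P)
    (hdp : orderOf d = p) (hbd : b * d * b⁻¹ ∈ zpowers d) (hne : b * d * b⁻¹ ≠ d) (hz : z ∈ P)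
    (hzT : ∀ τ ∈ T, z * τ = τ * z) : z ∈ A := by
  have hzd : zpowers d ≤ P := zpowers_le.2 hd
  have hd1 : d ≠ 1 := by
    rintro rfl
    rw [orderOf_one] at hdp
    exact (Fact.out : p.Prime).one_lt.ne hdp
  -- `g = z d`
  set g := z * d with hg
  have hgP : g ∈ P := P.mul_mem hz hd
  have hgp : IsPGroup p (zpowers g) := hP.to_le (zpowers_le.2 hgP)
  have hAg : Permutes A (zpowers g) := ls_permutes_sub hA hP hAP (zpowers_le.2 hgP)
  have hbA : b ∈ A := hTA hb
  have hM1 : g⁻¹ * (b * g * b⁻¹) ∈ A ⊔ zpowers g := by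
    refine mul_mem (inv_mem (mem_sup_right (mem_zpowers g))) ?_
    exact mul_mem (mul_mem (mem_sup_left hbA) (mem_sup_right (mem_zpowers g)))
      (mem_sup_left (inv_mem hbA))
  have hcomm : b * z * b⁻¹ = z := by rw [← hzT b hb]; group
  have hM2 : g⁻¹ * (b * g * b⁻¹) = d⁻¹ * (b * d * b⁻¹) := by
    have : b * g * b⁻¹ = (b * z * b⁻¹) * (b * d * b⁻¹) := by rw [hg]; group
    rw [this, hcomm, hg]
    group
  rw [hM2] at hM1
  have he1 : d⁻¹ * (b * d * b⁻¹) ≠ 1 := by
    intro h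
    rw [inv_mul_eq_one] at h
    exact hne h.symm
  have hez : d⁻¹ * (b * d * b⁻¹) ∈ zpowers d := mul_mem (inv_mem (mem_zpowers d)) hbd
  have hdM : d ∈ A ⊔ zpowers g :=
    (zpowers_le.2 hM1) (ls_mem_zpowers_of_ne_one hdp hez he1)
  have hzM : z ∈ A ⊔ zpowers g := by
    have : z = g * d⁻¹ := by rw [hg]; group
    rw [this]
    exact mul_mem (mem_sup_right (mem_zpowers g)) (inv_mem hdM)
  obtain ⟨a, ha, _, ⟨i, rfl⟩, hz'⟩ := hAg.mem_sup.1 hzM
  obtain ⟨a2, ha2, _, ⟨j, rfl⟩, hd'⟩ := hAg.mem_sup.1 hdM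
  change a * g ^ i = z at hz'
  change a2 * g ^ j = d at hd'
  -- the case `z ∈ A ⟨d⟩`
  have key : z ∈ A ⊔ zpowers d → z ∈ A := by
    intro h
    have hAd : Permutes A (zpowers d) := ls_permutes_sub hA hP hAP hzd
    obtain ⟨a3, ha3, _, ⟨m, rfl⟩, h3⟩ := hAd.mem_sup.1 h
    change a3 * d ^ m = z at h3
    have h4 : b * a3 * b⁻¹ * (b * d ^ m * b⁻¹) = a3 * d ^ m := by
      rw [h3, ← hcomm, ← h3]
      group
    have h5 : a3⁻¹ * b * a3 * b⁻¹ = d ^ m * (b * d ^ m * b⁻¹)⁻¹ := by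
      rw [eq_mul_inv_iff_mul_eq]
      calc a3⁻¹ * b * a3 * b⁻¹ * (b * d ^ m * b⁻¹)
          = a3⁻¹ * (b * a3 * b⁻¹ * (b * d ^ m * b⁻¹)) := by group
        _ = d ^ m := by rw [h4]; group
    have h6 : a3⁻¹ * b * a3 * b⁻¹ ∈ T := by
      refine T.mul_mem ?_ (T.inv_mem hb)
      exact mem_normalizer_conj' (hTn ha3) hb
    have h7 : b * d ^ m * b⁻¹ ∈ P := by
      have : b * d ^ m * b⁻¹ = (b * d * b⁻¹) ^ m := by rw [conj_zpow]
      rw [this]
      exact zpow_mem (hzd hbd) m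
    have h8 : a3⁻¹ * b * a3 * b⁻¹ ∈ P := by
      rw [h5]
      exact mul_mem (zpow_mem hd m) (inv_mem h7)
    have h9 : a3⁻¹ * b * a3 * b⁻¹ = 1 := by
      have : a3⁻¹ * b * a3 * b⁻¹ ∈ T ⊓ P := ⟨h6, h8⟩
      rwa [hTP, mem_bot] at this
    rw [h9] at h5
    have h10 : b * d ^ m * b⁻¹ = d ^ m := by
      have := mul_inv_eq_one.1 h5.symm
      exact this.symm
    by_cases hdm : d ^ m = 1
    · rw [hdm, mul_one] at h3
      rw [← h3]
      exact ha3
    · exfalso
      obtain ⟨k, hk⟩ := ls_mem_zpowers_of_ne_one hdp ⟨m, rfl⟩ hdm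
      change (d ^ m) ^ k = d at hk
      apply hne
      calc b * d * b⁻¹ = b * ((d ^ m) ^ k) * b⁻¹ := by rw [hk]
        _ = (b * d ^ m * b⁻¹) ^ k := by rw [conj_zpow]
        _ = (d ^ m) ^ k := by rw [h10]
        _ = d := hk
  by_cases hi : (p : ℤ) ∣ i
  · by_cases hj : (p : ℤ) ∣ j
    · -- `g ∈ A`
      have hgp' : Permutes A (zpowers (g ^ (p : ℤ))) := by
        refine ls_permutes_sub hA hP hAP (zpowers_le.2 (zpow_mem hgP _))
      have h1 : ∀ k : ℤ, (p : ℤ) ∣ k → g ^ k ∈ zpowers (g ^ (p : ℤ)) := by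
        rintro k ⟨l, rfl⟩
        exact ⟨l, by change (g ^ (p : ℤ)) ^ l = _; rw [← zpow_mul]⟩
      have hg2 : g ∈ A ⊔ zpowers (g ^ (p : ℤ)) := by
        have e : (a * g ^ i) * (a2 * g ^ j) = g := by rw [hz', hd']
        have hmem : (a * g ^ i) * (a2 * g ^ j) ∈ A ⊔ zpowers (g ^ (p : ℤ)) :=
          mul_mem (mul_mem (mem_sup_left ha) (mem_sup_right (h1 i hi)))
            (mul_mem (mem_sup_left ha2) (mem_sup_right (h1 j hj)))
        rwa [e] at hmem
      obtain ⟨a3, ha3, _, ⟨m, rfl⟩, h3⟩ := hgp'.mem_sup.1 hg2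
      change a3 * (g ^ (p : ℤ)) ^ m = g at h3
      have h4 : g ^ (1 - (p : ℤ) * m) ∈ A := by
        have : a3 = g ^ (1 - (p : ℤ) * m) := by
          rw [zpow_sub, zpow_one, zpow_mul]
          exact eq_mul_inv_of_mul_eq h3
        rw [← this]
        exact ha3
      have h5 : g ∈ A := by
        refine (zpowers_le.2 h4) (ls_mem_zpowers_zpow hgp ?_)
        intro h
        have h6 : (p : ℤ) ∣ 1 := by
          have := dvd_add h (Dvd.intro m rfl : (p : ℤ) ∣ (p : ℤ) * m)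
          simpa using this
        have h7 : p ∣ 1 := by exact_mod_cast h6
        exact (Fact.out : p.Prime).one_lt.ne' (Nat.dvd_one.1 h7)
      rw [← hz']
      exact A.mul_mem ha (zpow_mem h5 i)
    · -- `g ∈ A ⟨d⟩`
      apply key
      have h1 : g ^ j ∈ A ⊔ zpowers d := by
        have : g ^ j = a2⁻¹ * d := by rw [← hd']; group
        rw [this]
        exact mul_mem (mem_sup_left (inv_mem ha2)) (mem_sup_right (mem_zpowers d))
      have h2 : g ∈ A ⊔ zpowers d := (zpowers_le.2 h1) (ls_mem_zpowers_zpow hgp hj)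
      have : z = g * d⁻¹ := by rw [hg]; group
      rw [this]
      exact mul_mem h2 (inv_mem (mem_sup_right (mem_zpowers d)))
  · -- `g ∈ A ⟨z⟩ ≤ N(T)`
    exfalso
    have h1 : g ^ i ∈ A ⊔ zpowers z := by
      have : g ^ i = a⁻¹ * z := by rw [← hz']; group
      rw [this]
      exact mul_mem (mem_sup_left (inv_mem ha)) (mem_sup_right (mem_zpowers z))
    have h2 : g ∈ A ⊔ zpowers z := (zpowers_le.2 h1) (ls_mem_zpowers_zpow hgp hi)
    have h3 : d ∈ A ⊔ zpowers z := by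
      have : d = z⁻¹ * g := by rw [hg]; group
      rw [this]
      exact mul_mem (inv_mem (mem_sup_right (mem_zpowers z))) h2
    have h4 : A ⊔ zpowers z ≤ normalizer (T : Set G) := by
      refine sup_le hTn (zpowers_le.2 ?_)
      have : z ∈ centralizer (T : Set G) := by
        rw [mem_centralizer_iff]
        intro τ hτ
        exact (hzT τ hτ).symm
      exact centralizer_le_normalizer _ this
    have h5 := mem_normalizer_conj (h4 h3) (T.inv_mem hb)
    have h6 : b * d * b⁻¹ * d⁻¹ ∈ T ⊓ P := by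
      refine ⟨?_, P.mul_mem (hzd hbd) (P.inv_mem hd)⟩
      have : b * d * b⁻¹ * d⁻¹ = b * (d * b⁻¹ * d⁻¹) := by group
      rw [this]
      exact T.mul_mem hb h5
    rw [hTP, mem_bot] at h6
    exact hne (mul_inv_eq_one.1 h6)

end MP_5771ce_al
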