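import Pool.Agent.Lib.MP_5771ce_al.S4.Small
import Pool.Agent.Lib.MP_5771ce_al.S4.LemS1
import Pool.Agent.Lib.MP_5771ce_al.LibSylow

/-!
# Lemma S, part 2: the commutator `[T, L]` and the normal `p`-subgroups
-/

open Subgroup
open scoped Pointwise commutatorElement

namespace MP_5771ce_al

universe u

namespace LemSAux

section
variable {L : Type u} [Group L]

/-- The elements normalising `M` and acting trivially on `N/M`. -/
def trivOn (M N : Subgroup L) : Subgroup L where
  carrier := {w | w ∈ normalizer (M : Set L) ∧ ∀ x ∈ N, ⁅w, x⁆ ∈ M}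
  one_mem' := ⟨one_mem _, fun x _ => by simp⟩
  mul_mem' := by
    rintro a b ⟨ha, ha'⟩ ⟨hb, hb'⟩
    refine ⟨mul_mem ha hb, fun x hx => ?_⟩
    have h1 := mem_normalizer_conj ha (hb' x hx)
    have h2 := M.mul_mem h1 (ha' x hx)
    have : ⁅a * b, x⁆ = a * ⁅b, x⁆ * a⁻¹ * ⁅a, x⁆ := by
      simp only [commutatorElement_def]
      group
    rw [this]
    exact h2
  inv_mem' := by
    rintro a ⟨ha, ha'⟩
    refine ⟨inv_mem ha, fun x hx => ?_⟩
    have h1 := mem_normalizer_conj' ha (M.inv_mem (ha' x hx))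
    have : ⁅a⁻¹, x⁆ = a⁻¹ * (⁅a, x⁆)⁻¹ * a := by
      simp only [commutatorElement_def]
      group
    rw [this]
    exact h1

theorem mem_trivOn {M N : Subgroup L} {w : L} :
    w ∈ trivOn M N ↔ w ∈ normalizer (M : Set L) ∧ ∀ x ∈ N, ⁅w, x⁆ ∈ M := Iff.rfl

theorem commutator_le_of_trivOn {M N V : Subgroup L} (h : V ≤ trivOn M N) : ⁅N, V⁆ ≤ M := by
  rw [commutator_le]
  intro n hn v hv
  have := M.inv_mem ((h hv).2 n hn)
  rwa [commutatorElement_inv] at this

theorem not_dvd_pgroup [Finite L] {p r : ℕ} (hp : p.Prime) (hr : r.Prime) (h : r ≠ p)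
    {N : Subgroup L} (hN : IsPGroup p N) : ¬ r ∣ Nat.card N :=
  not_dvd_card_of_isPGroup hr hp h.symm hN

/-- `[T, A]` centralises elementary abelian normal `p`-subgroups. -/
theorem comm_centralizes [Finite L] {A N T : Subgroup L} {t p : ℕ} [Fact t.Prime]
    [Fact p.Prime] (htp : t ≠ p) (hA : HerPermutable A) (hN : N.Normal)
    (hNp : IsPGroup p N) (hab : ∀ x ∈ N, ∀ y ∈ N, x * y = y * x) (hexp : ∀ x ∈ N, x ^ p = 1)
    (hTA : T ≤ A) (hTn : A ≤ normalizer (T : Set L)) (hTt : IsPGroup t T) {τ a : L} (hτ : τ ∈ T)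
    (ha : a ∈ A) : ⁅τ, a⁆ ∈ centralizer (N : Set L) := by
  have hTN : T ⊓ N = ⊥ := (IsPGroup.disjoint_of_ne t p htp T N hTt hNp).eq_bot
  have hMn : A ≤ normalizer ((A ⊓ N : Subgroup L) : Set L) := by
    have := (NormalIn.inf_of_le (normalIn_top.2 hN) (le_top : A ≤ ⊤)).le_normalizer
    rwa [inf_comm] at this
  have hv : ⁅τ, a⁆ ∈ T := by
    rw [commutatorElement_def]
    have h1 := mem_normalizer_conj (hTn ha) (T.inv_mem hτ)
    have : τ * a * τ⁻¹ * a⁻¹ = τ * (a * τ⁻¹ * a⁻¹) := by group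
    rw [this]
    exact T.mul_mem hτ h1
  have h1 : ∀ x ∈ N, ⁅⁅τ, a⁆, x⁆ ∈ A ⊓ N := by
    refine scal_comm (r := p) (M := A ⊓ N) (N := N) inf_le_right ?_ ?_ ?_ ?_ (hMn ha)
    · intro x hx y hy
      rw [commutatorElement_eq_one_iff_mul_comm.2 (hab x hx y hy)]
      exact one_mem _
    · intro x hx
      rw [hexp x hx]
      exact one_mem _
    · intro Y h1 h2
      exact ls_normalizes hA hN hNp h1 h2 (hTA hτ)
    · rw [normalizer_eq_top_iff.2 hN]
      exact mem_top _
  have hVT : zpowers ⁅τ, a⁆ ≤ T := zpowers_le.2 hv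
  have h2 : zpowers ⁅τ, a⁆ ≤ trivOn (A ⊓ N) N :=
    zpowers_le.2 ⟨hMn (hTA hv), h1⟩
  have h3 : ⁅A ⊓ N, zpowers ⁅τ, a⁆⁆ = ⊥ := by
    rw [eq_bot_iff, ← hTN, commutator_le]
    intro m hm w hw
    rw [commutatorElement_def]
    constructor
    · have h4 := mem_normalizer_conj (hTn hm.1) (hVT hw)
      exact T.mul_mem h4 (T.inv_mem (hVT hw))
    · have h4 := hN.conj_mem _ (N.inv_mem hm.2) w
      have : m * w * m⁻¹ * w⁻¹ = m * (w * m⁻¹ * w⁻¹) := by group
      rw [this]
      exact N.mul_mem hm.2 h4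
  have h5 := commutator_eq_bot_of_series (V := N) (hTt.to_le hVT)
    (by rw [normalizer_eq_top_iff.2 hN]; exact le_top)
    (not_dvd_pgroup Fact.out Fact.out htp hNp) (commutator_le_of_trivOn h2) h3
  rw [commutator_comm, commutator_eq_bot_iff_le_centralizer] at h5
  exact h5 (mem_zpowers _)

/-- `E` is generated by a Sylow subgroup and the kernel of a homomorphism to a `p`-group. -/
theorem le_sylow_sup_ker {H : Type*} [Group H] [Finite L] [Finite H] {p : ℕ} [Fact p.Prime]
    {P E : Subgroup L}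
    (hP : IsSylowIn p P E) (f : L →* H) (h : IsPGroup p (E.map f)) : E ≤ P ⊔ f.ker := by
  have h1 := (hP.map f).eq_of_le h (map_mono hP.le) le_rfl
  intro e he
  have h2 : f e ∈ P.map f := by
    rw [h1]
    exact ⟨e, he, rfl⟩
  obtain ⟨x, hx, hxe⟩ := h2
  have h3 : x⁻¹ * e ∈ f.ker := by
    rw [MonoidHom.mem_ker, map_mul, map_inv, hxe]
    group
  have : e = x * (x⁻¹ * e) := by group
  rw [this]
  exact mul_mem (mem_sup_left hx) (mem_sup_right h3)

theorem minimal_elementary [Finite L] {p : ℕ} [Fact p.Prime] {N : Subgroup L} (hN : N.Normal)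
    (hNp : IsPGroup p N) (hmin : ∀ M : Subgroup L, M.Normal → M ≤ N → M = ⊥ ∨ M = N) :
    (∀ x ∈ N, ∀ y ∈ N, x * y = y * x) ∧ ∀ x ∈ N, x ^ p = 1 := by
  by_cases hbot : N = ⊥
  · subst hbot
    constructor
    · intro x hx y hy
      rw [mem_bot] at hx hy
      rw [hx, hy]
    · intro x hx
      rw [mem_bot] at hx
      rw [hx, one_pow]
  · obtain ⟨q, hq, V, hVN, hVn, hV1, hVq, hab, hexp⟩ :=
      exists_elementary_abelian (normalIn_top.2 hN) (isSolvable_of_isPGroup hNp) hbot
    have hVN' : V = N := (hmin V (normalIn_top.1 hVn) hVN).resolve_left hV1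
    subst hVN'
    have : Fact q.Prime := ⟨hq⟩
    have hqp : q = p := by
      by_contra h
      exact hV1 (by
        have := (IsPGroup.disjoint_of_ne q p h V V hVq hNp).eq_bot
        rwa [inf_idem] at this)
    subst hqp
    exact ⟨hab, hexp⟩

end

section
variable {L : Type u} [Group L] [Finite L]

/-- CAP, in the case where `|L : A|` is a power of `p`. -/
theorem capS [Group.IsSolvable L] {A N T : Subgroup L} {t p k : ℕ} [Fact t.Prime]
    [Fact p.Prime] (htp : t ≠ p) (hA : HerPermutable A) (hi : A.index ∣ p ^ k) (hN : N.Normal)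
    (hNp : IsPGroup p N) (hmin : ∀ M : Subgroup L, M.Normal → M ≤ N → M = ⊥ ∨ M = N)
    (hTA : T ≤ A) (hTn : A ≤ normalizer (T : Set L)) (hTt : IsPGroup t T) (hAN : A ⊓ N ≠ ⊥) :
    T ≤ centralizer (N : Set L) := by
  have hN1 : N ≠ ⊥ := by
    rintro rfl
    exact hAN (inf_bot_eq A)
  obtain ⟨hab, hexp⟩ := minimal_elementary hN hNp hmin
  have hNC : N ≤ centralizer (N : Set L) := by
    intro x hx
    rw [mem_centralizer_iff]
    intro y hy
    exact hab y hy x hx
  have hcomm : ∀ τ ∈ T, ∀ a ∈ A, ⁅τ, a⁆ ∈ centralizer (N : Set L) := fun τ hτ a ha =>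
    comm_centralizes htp hA hN hNp hab hexp hTA hTn hTt hτ ha
  obtain ⟨C, hC⟩ : ∃ C : Subgroup L, C = centralizer (N : Set L) := ⟨_, rfl⟩
  rw [← hC] at hNC hcomm ⊢
  have hCn : C.Normal := by rw [hC]; infer_instance
  obtain ⟨f, hfdef⟩ : ∃ f : L →* L ⧸ C, f = QuotientGroup.mk' C := ⟨_, rfl⟩
  have hf : Function.Surjective f := by rw [hfdef]; exact QuotientGroup.mk'_surjective C
  have hker : f.ker = C := by rw [hfdef]; exact QuotientGroup.ker_mk' C
  have hNnor : ∀ E : Subgroup L, E ≤ normalizer (N : Set L) := fun E => by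
    rw [normalizer_eq_top_iff.2 hN]; exact le_top
  -- `O_p(L/C) = 1`
  have hbot : opc p (⊤ : Subgroup (L ⧸ C)) = ⊥ := by
    obtain ⟨K, hK⟩ : ∃ K : Subgroup L, K = (opc p (⊤ : Subgroup (L ⧸ C))).comap f := ⟨_, rfl⟩
    have hKn : K.Normal := by
      rw [hK]
      have := normalIn_top.1 (opc_normalIn p (⊤ : Subgroup (L ⧸ C)))
      infer_instance
    have hKmap : K.map f = opc p (⊤ : Subgroup (L ⧸ C)) := by
      rw [hK, map_comap_eq_self_of_surjective hf]
    obtain ⟨Q, hQ⟩ := exists_isSylowIn (p := p) K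
    have h1 : K ≤ Q ⊔ C := by
      rw [← hker]
      exact le_sylow_sup_ker hQ f (by rw [hKmap]; exact opc_isPGroup p _)
    have h2 : ⁅N, Q⁆ < N := commutator_lt_of_pgroup hNp hQ.isPGroup (hNnor Q) hN1
    have h3 : Q ⊔ C ≤ trivOn ⁅N, Q⁆ N := by
      refine sup_le ?_ ?_
      · intro q hq
        refine ⟨normalizer_commutator_ge_right N Q hq, fun x hx => ?_⟩
        rw [← commutatorElement_inv]
        exact inv_mem (commutator_mem_commutator hx hq)
      · intro c hc
        have hc' : ∀ x ∈ N, c * x = x * c := by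
          rw [hC] at hc
          exact fun x hx => ((mem_centralizer_iff.1 hc) x hx).symm
        refine ⟨?_, fun x hx => ?_⟩
        · apply centralizer_le_normalizer
          rw [mem_centralizer_iff]
          intro y hy
          exact (hc' y (h2.le hy)).symm
        · rw [commutatorElement_eq_one_iff_mul_comm.2 (hc' x hx)]
          exact one_mem _
    have h4 : ⁅N, K⁆ ≤ ⁅N, Q⁆ := commutator_le_of_trivOn (h1.trans h3)
    have h5 : ⁅N, K⁆ = ⊥ := by
      have h6 : (⁅N, K⁆ : Subgroup L).Normal := inferInstance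
      rcases hmin _ h6 (h4.trans h2.le) with h7 | h7
      · exact h7
      · exact absurd (h7.ge.trans h4) h2.not_ge
    have h6 : K ≤ C := by
      rw [hC]
      rw [commutator_comm, commutator_eq_bot_iff_le_centralizer] at h5
      exact h5
    rw [← hKmap, eq_bot_iff]
    rintro _ ⟨x, hx, rfl⟩
    have := h6 hx
    rw [← hker] at this
    exact mem_bot.2 this
  -- the image of `T`
  have hidx : (A.map f).relIndex ⊤ ∣ p ^ k := by
    rw [relIndex_top_right]
    exact (index_map_dvd A hf).trans hi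
  have hTq : T.map f ≤ opc t (⊤ : Subgroup (L ⧸ C)) := by
    refine le_opc_of_centralizes inferInstance le_top (hTt.map f) ?_
    intro r hr
    by_cases hrp : r = p
    · subst hrp
      rw [hbot]
      intro x _
      rw [mem_centralizer_iff]
      intro y hy
      rw [SetLike.mem_coe, mem_bot] at hy
      rw [hy]
      simp
    · have : Fact r.Prime := ⟨hr⟩
      have h1 : opc r (⊤ : Subgroup (L ⧸ C)) ≤ A.map f :=
        le_of_coprime_index (Fact.out : p.Prime) le_top hidx le_top
          (opc_normalIn r _).le_normalizer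
          (not_dvd_card_of_isPGroup Fact.out hr hrp (opc_isPGroup r _))
      rintro _ ⟨τ, hτ, rfl⟩
      rw [mem_centralizer_iff]
      intro y hy
      obtain ⟨a, ha, rfl⟩ := h1 hy
      have h2 := hcomm τ hτ a ha
      rw [← hker, MonoidHom.mem_ker, commutatorElement_def, map_mul, map_mul, map_mul, map_inv,
        map_inv] at h2
      have h3 : f τ * f a = f a * f τ := by
        rw [← mul_inv_eq_one, mul_inv_rev, ← mul_assoc]
        exact h2
      exact h3.symm
  obtain ⟨F, hF⟩ : ∃ F : Subgroup L, F = (opc t (⊤ : Subgroup (L ⧸ C))).comap f := ⟨_, rfl⟩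
  have hFn : F.Normal := by
    rw [hF]
    have := normalIn_top.1 (opc_normalIn t (⊤ : Subgroup (L ⧸ C)))
    infer_instance
  have hFmap : F.map f = opc t (⊤ : Subgroup (L ⧸ C)) := by
    rw [hF, map_comap_eq_self_of_surjective hf]
  have hTF : T ≤ F := by
    rw [hF]
    exact map_le_iff_le_comap.1 hTq
  obtain ⟨S₀, hS₀⟩ := exists_isSylowIn (p := t) F
  obtain ⟨x, hx⟩ := hA.exists_permutes (normalizer (S₀ : Set L))
  obtain ⟨S, hSdef⟩ : ∃ S : Subgroup L, S = conjBy S₀ x := ⟨_, rfl⟩
  have hS : IsSylowIn t S F := by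
    have := hS₀.conjBy x
    rwa [(normalIn_top.2 hFn).conjBy_eq (mem_top x), ← hSdef] at this
  have hB : conjBy (normalizer (S₀ : Set L)) x = normalizer (S : Set L) := by
    ext y
    rw [mem_conjBy, mem_normalizer_iff_conjBy, mem_normalizer_iff_conjBy, hSdef]
    constructor
    · intro h
      have h1 : conjBy S₀ (x * y) = conjBy S₀ x := by
        have h2 := congrArg (fun B => conjBy B x) h
        simp only [← conjBy_mul] at h2
        rw [← h2]
        congr 1
        group
      rw [← conjBy_mul, h1]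
    · intro h
      rw [← conjBy_mul] at h
      have h2 := congrArg (fun B => conjBy B x⁻¹) h
      simp only [← conjBy_mul] at h2
      rw [h2]
      simp
  rw [hB] at hx
  have hAS : Permutes A S := hA.permutes_of_normal hx le_normalizer
    fun b hb n hn => mem_normalizer_conj hb hn
  have hSA : S ≤ A := by
    rw [← relIndex_eq_one]
    have h1 : A.relIndex S ∣ p ^ k := by
      rw [← hAS.relIndex_sup]
      exact (Dvd.intro _ (relIndex_mul_index (le_sup_left : A ≤ A ⊔ S))).trans hi
    have h2 : A.relIndex S ∣ Nat.card S := relIndex_dvd_card A S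
    have h3 : Nat.Coprime (p ^ k) (Nat.card S) :=
      Nat.Coprime.pow_left _ ((Nat.Prime.coprime_iff_not_dvd Fact.out).2
        (not_dvd_card_of_isPGroup Fact.out Fact.out htp hS.isPGroup))
    exact Nat.eq_one_of_dvd_coprimes h3 h1 h2
  have hTS : T ≤ S := by
    have h1 : IsPGroup t (S ⊔ T : Subgroup L) :=
      IsPGroup.to_sup_of_normal_right' hS.isPGroup hTt (hSA.trans hTn)
    have h2 := hS.eq_of_le h1 le_sup_left (sup_le hS.le hTF)
    rw [h2]
    exact le_sup_right
  have htop : C ⊔ normalizer (S : Set L) = ⊤ := by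
    have h1 := hS.frattini_sup (normalIn_top.2 hFn)
    rw [top_inf_eq] at h1
    have h2 : F ≤ S ⊔ C := by
      rw [← hker]
      exact le_sylow_sup_ker hS f (by rw [hFmap]; exact opc_isPGroup t _)
    rw [eq_top_iff, ← h1]
    refine sup_le (h2.trans (sup_le ?_ le_sup_left)) le_sup_right
    exact le_normalizer.trans le_sup_right
  -- `N ≤ A N(S)`
  have hNle : N ≤ A ⊔ normalizer (S : Set L) := by
    have h1 : (N ⊓ (A ⊔ normalizer (S : Set L)) : Subgroup L).Normal := by
      rw [← normalizer_eq_top_iff, eq_top_iff, ← htop]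
      refine sup_le ?_ ?_
      · intro c hc
        apply centralizer_le_normalizer
        rw [mem_centralizer_iff]
        rw [hC, mem_centralizer_iff] at hc
        exact fun y hy => hc y hy.1
      · intro b hb
        have hb' : b ∈ A ⊔ normalizer (S : Set L) := mem_sup_right hb
        rw [mem_normalizer_iff]
        intro y
        constructor
        · rintro ⟨hy1, hy2⟩
          exact ⟨hN.conj_mem _ hy1 b, Subgroup.mul_mem _ (Subgroup.mul_mem _ hb' hy2)
            (Subgroup.inv_mem _ hb')⟩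
        · rintro ⟨hy1, hy2⟩
          have h2 := hN.conj_mem _ hy1 b⁻¹
          have h3 := mul_mem (mul_mem (inv_mem hb') hy2) hb'
          have e : b⁻¹ * (b * y * b⁻¹) * b⁻¹⁻¹ = y := by group
          have e' : b⁻¹ * (b * y * b⁻¹) * b = y := by group
          rw [e] at h2
          rw [e'] at h3
          exact ⟨h2, h3⟩
    rcases hmin _ h1 inf_le_left with h2 | h2
    · exfalso
      apply hAN
      rw [eq_bot_iff, ← h2]
      exact le_inf inf_le_right (inf_le_left.trans le_sup_left)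
    · exact inf_eq_left.1 h2
  -- conclusion
  have hSN : S ⊓ N = ⊥ := (IsPGroup.disjoint_of_ne t p htp S N hS.isPGroup hNp).eq_bot
  intro v hv
  rw [hC, mem_centralizer_iff]
  intro n hn
  obtain ⟨b, hb, a, ha, rfl⟩ := hx.mem_sup'.1 (hNle hn)
  have h1 : ⁅b * a, v⁆ ∈ S ⊓ N := by
    constructor
    · have h2 : ⁅a, v⁆ ∈ S := by
        rw [commutatorElement_def]
        exact hTS (T.mul_mem (mem_normalizer_conj (hTn ha) hv) (T.inv_mem hv))
      have h3 : ⁅b, v⁆ ∈ S := by
        rw [commutatorElement_def]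
        exact S.mul_mem (mem_normalizer_conj hb (hTS hv)) (S.inv_mem (hTS hv))
      have h4 : ⁅b * a, v⁆ = b * ⁅a, v⁆ * b⁻¹ * ⁅b, v⁆ := by
        simp only [commutatorElement_def]
        group
      rw [h4]
      exact S.mul_mem (mem_normalizer_conj hb h2) h3
    · have h4 : ⁅b * a, v⁆ = (b * a) * (v * (b * a)⁻¹ * v⁻¹) := by
        simp only [commutatorElement_def]
        group
      rw [h4]
      exact N.mul_mem hn (hN.conj_mem _ (N.inv_mem hn) v)
  rw [hSN, mem_bot] at h1
  exact commutatorElement_eq_one_iff_mul_comm.1 h1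

/-- `[T, L]` centralises the minimal normal `p`-subgroups of `L`. -/
theorem comm_le_centralizer [Group.IsSolvable L] {A N T : Subgroup L} {t p k : ℕ} [Fact t.Prime]
    [Fact p.Prime] (htp : t ≠ p) (hA : HerPermutable A) (hi : A.index ∣ p ^ k) (hN : N.Normal)
    (hNp : IsPGroup p N) (hmin : ∀ M : Subgroup L, M.Normal → M ≤ N → M = ⊥ ∨ M = N)
    (hTA : T ≤ A) (hTn : A ≤ normalizer (T : Set L)) (hTt : IsPGroup t T) :
    ⁅T, (⊤ : Subgroup L)⁆ ≤ centralizer (N : Set L) := by
  rw [commutator_le]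
  intro τ hτ g _
  by_cases hAN : A ⊓ N = ⊥
  · obtain ⟨hab, hexp⟩ := minimal_elementary hN hNp hmin
    have h1 : ∀ x ∈ N, ⁅⁅τ, g⁆, x⁆ ∈ (⊥ : Subgroup L) := by
      refine scal_comm (r := p) (M := ⊥) (N := N) bot_le ?_ ?_ ?_ ?_ ?_
      · intro x hx y hy
        rw [commutatorElement_eq_one_iff_mul_comm.2 (hab x hx y hy)]
        exact one_mem _
      · intro x hx
        rw [hexp x hx]
        exact one_mem _
      · intro Y h1 h2
        exact ls_normalizes hA hN hNp (hAN.le.trans bot_le) h2 (hTA hτ)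
      · rw [normalizer_eq_top_iff.2 hN]
        exact mem_top _
      · rw [normalizer_eq_top_iff.2 (inferInstance : (⊥ : Subgroup L).Normal)]
        exact mem_top _
    rw [mem_centralizer_iff]
    intro x hx
    exact (commutatorElement_eq_one_iff_mul_comm.1 (mem_bot.1 (h1 x hx))).symm
  · have h1 := capS htp hA hi hN hNp hmin hTA hTn hTt hAN
    have hCn : (centralizer (N : Set L)).Normal := inferInstance
    have h2 := hCn.conj_mem _ (inv_mem (h1 hτ)) g
    have h3 : ⁅τ, g⁆ = τ * (g * τ⁻¹ * g⁻¹) := by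
      simp only [commutatorElement_def]
      group
    rw [h3]
    exact mul_mem (h1 hτ) h2

end

/-- The `p'`-subgroups of `[T, L]` centralise the normal `p`-subgroups of `L`. -/
theorem comm_pprime_bot {t p k : ℕ} [Fact t.Prime] [Fact p.Prime] (htp : t ≠ p) (n : ℕ) :
    ∀ (L : Type u) [Group L] [Finite L] [Group.IsSolvable L] (A R T Y : Subgroup L),
      Nat.card L ≤ n → HerPermutable A → A.index ∣ p ^ k → R.Normal → IsPGroup p R → T ≤ A →
      A ≤ normalizer (T : Set L) → IsPGroup t T → ∀ r : ℕ, r.Prime → r ≠ p → IsPGroup r Y →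
      Y ≤ ⁅T, (⊤ : Subgroup L)⁆ → ⁅R, Y⁆ = ⊥ := by
  induction n with
  | zero =>
    intro L _ _ _ A R T Y hn
    have : 0 < Nat.card L := Nat.card_pos
    omega
  | succ n ih =>
    intro L _ _ _ A R T Y hn hA hi hR hRp hTA hTn hTt r hr hrp hY hYT
    by_cases hR1 : R = ⊥
    · rw [hR1]
      exact commutator_bot_left Y
    obtain ⟨N, hNmin⟩ : ∃ N : Subgroup L, Minimal (fun N : Subgroup L =>
        N.Normal ∧ N ≤ R ∧ N ≠ ⊥) N :=
      Set.Finite.exists_minimal (s := {N : Subgroup L | N.Normal ∧ N ≤ R ∧ N ≠ ⊥})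
        (Set.toFinite _) ⟨R, hR, le_rfl, hR1⟩
    obtain ⟨hN, hNR, hN1⟩ := hNmin.prop
    have hmin : ∀ M : Subgroup L, M.Normal → M ≤ N → M = ⊥ ∨ M = N := by
      intro M hM hMN
      by_cases hM1 : M = ⊥
      · exact Or.inl hM1
      · exact Or.inr (le_antisymm hMN (hNmin.2 ⟨hM, hMN.trans hNR, hM1⟩ hMN))
    have hNp : IsPGroup p N := hRp.to_le hNR
    have : Fact r.Prime := ⟨hr⟩
    have hf : Function.Surjective (QuotientGroup.mk' N) := QuotientGroup.mk'_surjective N
    have hcard : Nat.card (L ⧸ N) ≤ n := by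
      have h1 := card_eq_card_quotient_mul_card_subgroup N
      have h2 : 1 < Nat.card N := by
        rw [one_lt_card_iff_ne_bot]
        exact hN1
      have h3 : 0 < Nat.card (L ⧸ N) := Nat.card_pos
      nlinarith
    have h1 := ih (L ⧸ N) (A.map (QuotientGroup.mk' N)) (R.map (QuotientGroup.mk' N))
      (T.map (QuotientGroup.mk' N)) (Y.map (QuotientGroup.mk' N)) hcard (hA.map hf)
      ((index_map_dvd A hf).trans hi) (hR.map _ hf) (hRp.map _) (map_mono hTA)
      ((map_mono hTn).trans (le_normalizer_map _)) (hTt.map _) r hr hrp (hY.map _) (by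
        have := map_mono (f := QuotientGroup.mk' N) hYT
        rwa [map_commutator, map_mk'_top] at this)
    have h2 : ⁅R, Y⁆ ≤ N := by
      rw [← map_commutator, Subgroup.map_eq_bot_iff, QuotientGroup.ker_mk'] at h1
      exact h1
    have h3 : ⁅N, Y⁆ = ⊥ := by
      rw [commutator_comm, commutator_eq_bot_iff_le_centralizer]
      exact hYT.trans (comm_le_centralizer htp hA hi hN hNp hmin hTA hTn hTt)
    exact commutator_eq_bot_of_series hY
      (by rw [normalizer_eq_top_iff.2 hR]; exact le_top)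
      (not_dvd_pgroup Fact.out hr hrp hRp) h2 h3

end LemSAux

end MP_5771ce_al
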