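import Pool.Agent.Lib.MP_5771ce_al.S4.LemS2
import Pool.Agent.Lib.MP_5771ce_al.LibFrat

/-!
# Lemma S, part 3: scalars on `D/Φ(D)`
-/

open Subgroup
open scoped Pointwise commutatorElement

namespace MP_5771ce_al

universe u

namespace LemSAux

variable {L : Type u} [Group L] [Finite L]

/-- A `t`-group `T` acting faithfully on the `p`-group `D` and by scalars on `D/Φ(D)`. -/
theorem scalar_pack {D T : Subgroup L} {t p : ℕ} [Fact t.Prime] [Fact p.Prime] (htp : t ≠ p)
    (hDn : D.Normal) (hDp : IsPGroup p D) (hD1 : D ≠ ⊥) (hTt : IsPGroup t T)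
    (hfaith : ∀ τ ∈ T, (∀ d ∈ D, τ * d = d * τ) → τ = 1) (K : L → ℤ)
    (hK : ∀ b ∈ T, ∀ x ∈ D, b * x * b⁻¹ * (x ^ K b)⁻¹ ∈ frat D) :
    (∃ c ∈ T, ∀ x ∈ T, ∃ n : ℤ, x * c ^ n = 1) ∧ (∀ b ∈ T, b ^ (p - 1) = 1) ∧
      ∀ b ∈ T, b ≠ 1 → D ≤ commEl D b := by
  have hΦn : (frat D).Normal := by
    rw [← normalizer_eq_top_iff, eq_top_iff, ← normalizer_eq_top_iff.2 hDn]
    exact le_normalizer_frat
  obtain ⟨f, hfdef⟩ : ∃ f : L →* L ⧸ frat D, f = QuotientGroup.mk' (frat D) := ⟨_, rfl⟩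
  have hf : Function.Surjective f := by rw [hfdef]; exact QuotientGroup.mk'_surjective _
  have hker : f.ker = frat D := by rw [hfdef]; exact QuotientGroup.ker_mk' _
  have hker' : ∀ x : L, f x = 1 ↔ x ∈ frat D := by
    intro x
    rw [← MonoidHom.mem_ker, hker]
  have hconj : ∀ b ∈ T, ∀ x ∈ D, f b * f x * (f b)⁻¹ = f x ^ K b := by
    intro b hb x hx
    have h1 := (hker' _).2 (hK b hb x hx)
    rw [map_mul, map_mul, map_mul, map_inv, map_inv, map_zpow] at h1
    exact mul_inv_eq_one.1 h1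
  -- faithful on the quotient
  have hfaith' : ∀ b ∈ T, (∀ x ∈ D, f b * f x = f x * f b) → b = 1 := by
    intro b hb h
    have h1 : ⁅D, zpowers b⁆ ≤ frat D := by
      rw [← hker, ← Subgroup.map_eq_bot_iff, map_commutator, commutator_comm,
        commutator_eq_bot_iff_le_centralizer, MonoidHom.map_zpowers, zpowers_le,
        mem_centralizer_iff]
      rintro _ ⟨x, hx, rfl⟩
      exact (h x hx).symm
    have h2 := commutator_eq_bot_of_frat (q := t) (hTt.to_le (zpowers_le.2 hb))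
      (by rw [normalizer_eq_top_iff.2 hDn]; exact le_top)
      (not_dvd_pgroup Fact.out Fact.out htp hDp) h1
    rw [commutator_comm, commutator_eq_bot_iff_le_centralizer] at h2
    exact hfaith b hb fun d hd => ((mem_centralizer_iff.1 (h2 (mem_zpowers b))) d hd).symm
  obtain ⟨x₀, hx₀, hx₀'⟩ : ∃ x ∈ D, x ∉ frat D := SetLike.exists_of_lt (frat_lt hD1)
  have hord : ∀ x ∈ D, (f x) ^ p = 1 := by
    intro x hx
    rw [← map_pow, hker']
    exact pow_mem_frat hDp hx
  have hord₀ : orderOf (f x₀) = p := by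
    have h1 := orderOf_dvd_of_pow_eq_one (hord x₀ hx₀)
    rcases (Nat.dvd_prime (Fact.out : p.Prime)).1 h1 with h | h
    · rw [orderOf_eq_one_iff, hker'] at h
      exact absurd h hx₀'
    · exact h
  have hcong : ∀ i j : ℤ, (f x₀) ^ i = (f x₀) ^ j → (i : ZMod p) = (j : ZMod p) := by
    intro i j hij
    rw [ZMod.intCast_eq_intCast_iff]
    have := zpow_eq_zpow_iff_modEq.1 hij
    rwa [hord₀] at this
  have hcong' : ∀ i j : ℤ, (i : ZMod p) = (j : ZMod p) → ∀ x ∈ D, (f x) ^ i = (f x) ^ j := by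
    intro i j hij x hx
    rw [ZMod.intCast_eq_intCast_iff] at hij
    rw [zpow_eq_zpow_iff_modEq]
    exact hij.of_dvd (Int.natCast_dvd_natCast.2 (orderOf_dvd_of_pow_eq_one (hord x hx)))
  -- the character
  have hmul : ∀ b ∈ T, ∀ c ∈ T, ((K (b * c) : ℤ) : ZMod p) = (K b : ZMod p) * (K c : ZMod p) := by
    intro b hb c hc
    rw [← Int.cast_mul]
    apply hcong
    rw [← hconj (b * c) (T.mul_mem hb hc) x₀ hx₀, map_mul]
    have h1 := hconj c hc x₀ hx₀
    have h2 := hconj b hb x₀ hx₀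
    calc f b * f c * f x₀ * (f b * f c)⁻¹ = f b * (f c * f x₀ * (f c)⁻¹) * (f b)⁻¹ := by group
      _ = f b * (f x₀ ^ K c) * (f b)⁻¹ := by rw [h1]
      _ = (f b * f x₀ * (f b)⁻¹) ^ K c := by rw [conj_zpow]
      _ = (f x₀ ^ K b) ^ K c := by rw [h2]
      _ = f x₀ ^ (K b * K c) := by rw [zpow_mul]
  have hone : ((K 1 : ℤ) : ZMod p) = 1 := by
    have h1 := hconj 1 T.one_mem x₀ hx₀
    rw [map_one, one_mul, inv_one, mul_one] at h1
    have h2 := hcong (K 1) 1 (by rw [← h1, zpow_one])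
    rw [h2, Int.cast_one]
  have hinj : ∀ b ∈ T, ((K b : ℤ) : ZMod p) = 1 → b = 1 := by
    intro b hb h
    apply hfaith' b hb
    intro x hx
    have h1 := hconj b hb x hx
    have h2 := hcong' (K b) 1 (by rw [h, Int.cast_one]) x hx
    rw [h2, zpow_one] at h1
    rw [← mul_inv_eq_iff_eq_mul]
    exact h1
  have hne0 : ∀ b ∈ T, ((K b : ℤ) : ZMod p) ≠ 0 := by
    intro b hb h
    have h1 := hconj b hb x₀ hx₀
    have h2 := hcong' (K b) 0 (by rw [h, Int.cast_zero]) x₀ hx₀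
    rw [h2, zpow_zero, conj_eq_one_iff, hker'] at h1
    exact hx₀' h1
  let χ : T →* ZMod p :=
    { toFun := fun b => (K b : ZMod p)
      map_one' := hone
      map_mul' := fun b c => hmul b b.2 c c.2 }
  have hχ : ∀ b : T, χ b = (K b : ZMod p) := fun b => rfl
  have hχinj : Function.Injective χ := by
    intro b c hbc
    have h1 : χ (b * c⁻¹) = 1 := by
      have h2 : χ (c * c⁻¹) = 1 := by rw [mul_inv_cancel, map_one]
      rw [map_mul] at h2 ⊢
      rw [hbc]
      exact h2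
    have h2 := hinj _ (b * c⁻¹ : T).2 h1
    have h3 : b * c⁻¹ = 1 := Subtype.ext h2
    exact mul_inv_eq_one.1 h3
  refine ⟨?_, ?_, ?_⟩
  · have hcyc : IsCyclic T := isCyclic_of_injective_ringHom χ hχinj
    obtain ⟨c, hc⟩ := hcyc.exists_generator
    refine ⟨c, c.2, fun x hx => ?_⟩
    obtain ⟨n, hn⟩ := mem_zpowers_iff.1 (hc ⟨x, hx⟩)
    refine ⟨-n, ?_⟩
    have h1 : ((c : L)) ^ n = x := congrArg Subtype.val hn
    rw [zpow_neg, h1, mul_inv_cancel]
  · intro b hb
    have h1 : χ ((⟨b, hb⟩ : T) ^ (p - 1)) = χ 1 := by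
      rw [map_pow, map_one]
      exact ZMod.pow_card_sub_one_eq_one (hne0 b hb)
    have h2 := hχinj h1
    exact congrArg Subtype.val h2
  · intro b hb hb1
    have hle : commEl D b ≤ D := by
      unfold commEl
      rw [closure_le]
      rintro _ ⟨d, hd, rfl⟩
      rw [commutatorElement_def]
      have h1 := hDn.conj_mem _ (D.inv_mem hd) b
      have : d * b * d⁻¹ * b⁻¹ = d * (b * d⁻¹ * b⁻¹) := by group
      rw [SetLike.mem_coe, this]
      exact D.mul_mem hd h1
    rw [eq_of_le_frat_sup hle ?_]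
    intro x hx
    -- `1 - K b` is invertible modulo `p`
    have h0 : ((1 - K b : ℤ) : ZMod p) ≠ 0 := by
      intro h
      apply hb1
      apply hinj b hb
      rw [Int.cast_sub, Int.cast_one, sub_eq_zero] at h
      exact h.symm
    obtain ⟨m, hm⟩ := ZMod.intCast_surjective ((((1 - K b : ℤ) : ZMod p))⁻¹)
    have h1 : (f x) ^ ((1 - K b) * m) = f x := by
      have := hcong' ((1 - K b) * m) 1 (by
        rw [Int.cast_mul, hm, Int.cast_one]
        exact mul_inv_cancel₀ h0) x hx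
      rwa [zpow_one] at this
    have h2 : f ⁅x, b⁆ = (f x) ^ (1 - K b) := by
      have h3 := hconj b hb x hx
      rw [commutatorElement_def, map_mul, map_mul, map_mul, map_inv, map_inv]
      calc f x * f b * (f x)⁻¹ * (f b)⁻¹ = f x * (f b * f x * (f b)⁻¹)⁻¹ := by group
        _ = f x * (f x ^ K b)⁻¹ := by rw [h3]
        _ = (f x) ^ (1 - K b) := by rw [zpow_sub, zpow_one]
    have h3 : ⁅x, b⁆ ∈ commEl D b := subset_closure ⟨x, hx, rfl⟩
    have h4 : f x = f (⁅x, b⁆ ^ m) := by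
      rw [map_zpow, h2, ← zpow_mul, h1]
    have h5 : x * (⁅x, b⁆ ^ m)⁻¹ ∈ frat D := by
      rw [← hker', map_mul, map_inv, ← h4, mul_inv_cancel]
    have h6 : x = x * (⁅x, b⁆ ^ m)⁻¹ * ⁅x, b⁆ ^ m := by group
    rw [h6]
    exact mul_mem (mem_sup_left h5) (mem_sup_right (zpow_mem h3 m))

end LemSAux

end MP_5771ce_al
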