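import Pool.Agent.Lib.MP_5771ce_al.S4.LemS3
import Pool.Agent.Lib.MP_5771ce_al.S4.Eig

/-!
# Lemma S, part 4: the case `O_{p'}(L) = 1`
-/

open Subgroup
open scoped Pointwise commutatorElement

namespace MP_5771ce_al

universe u

namespace LemSAux

variable {L : Type u} [Group L]

theorem normal_comm_top (T : Subgroup L) : (⁅T, (⊤ : Subgroup L)⁆ : Subgroup L).Normal := by
  rw [← normalizer_eq_top_iff, eq_top_iff]
  exact normalizer_commutator_ge_right T ⊤

theorem comm_mem_comm_top {T : Subgroup L} {τ g : L} (hτ : τ ∈ T) :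
    ⁅τ, g⁆ ∈ ⁅T, (⊤ : Subgroup L)⁆ := commutator_mem_commutator hτ (mem_top g)

variable [Finite L]

/-- `[T, L]` is a `p`-group if `O_{p'}(L) = 1`. -/
theorem isPGroup_comm_top [Group.IsSolvable L] {A T : Subgroup L} {t p k : ℕ} [Fact t.Prime]
    [Fact p.Prime] (htp : t ≠ p) (hA : HerPermutable A) (hi : A.index ∣ p ^ k)
    (hTA : T ≤ A) (hTn : A ≤ normalizer (T : Set L)) (hTt : IsPGroup t T)
    (hO : opp p (⊤ : Subgroup L) = ⊥) : IsPGroup p (⁅T, (⊤ : Subgroup L)⁆ : Subgroup L) := by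
  have hCR : centralizer (opc p (⊤ : Subgroup L) : Set L) ≤ opc p (⊤ : Subgroup L) := by
    have := inf_centralizer_opc_le (Fact.out : p.Prime) (E := (⊤ : Subgroup L)) inferInstance hO
    rwa [top_inf_eq] at this
  have hR : (opc p (⊤ : Subgroup L)).Normal := normalIn_top.1 (opc_normalIn p ⊤)
  refine IsPGroup.of_card (n := _) (Nat.eq_prime_pow_of_unique_prime_dvd Nat.card_pos.ne' ?_)
  intro r hr hrd
  by_contra hrp
  have : Fact r.Prime := ⟨hr⟩
  obtain ⟨x, hx⟩ := exists_prime_orderOf_dvd_card' r hrd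
  have hxo : orderOf (x : L) = r := by rw [← hx]; exact Subgroup.orderOf_coe x
  have hYr : IsPGroup r (zpowers (x : L)) := by
    refine IsPGroup.of_card (n := 1) ?_
    rw [Nat.card_zpowers, hxo, pow_one]
  have h1 := comm_pprime_bot htp (Nat.card L) L A (opc p ⊤) T (zpowers (x : L)) le_rfl hA hi hR
    (opc_isPGroup p ⊤) hTA hTn hTt r hr hrp hYr (zpowers_le.2 x.2)
  rw [commutator_comm, commutator_eq_bot_iff_le_centralizer] at h1
  have h2 : zpowers (x : L) ≤ opc p (⊤ : Subgroup L) := h1.trans hCR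
  have h3 : IsPGroup p (zpowers (x : L)) := (opc_isPGroup p ⊤).to_le h2
  have h4 := (IsPGroup.disjoint_of_ne r p hrp _ _ hYr h3).eq_bot
  rw [inf_idem, zpowers_eq_bot] at h4
  rw [h4, orderOf_one] at hxo
  exact hr.one_lt.ne hxo

theorem stepI [Group.IsSolvable L] {A P T : Subgroup L} {t p : ℕ} [Fact t.Prime] [Fact p.Prime]
    (htp : t ≠ p) (hA : HerPermutable A) (hAP : Permutes A P) (htop : A ⊔ P = ⊤)
    (hP : IsPGroup p P) (hPi : ¬ p ∣ P.index) (hTA : T ≤ A) (hTn : A ≤ normalizer (T : Set L))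
    (hTt : IsPGroup t T) (hT1 : T ≠ ⊥) (hO : opp p (⊤ : Subgroup L) = ⊥) :
    ∃ D : Subgroup L, D = ⁅T, (⊤ : Subgroup L)⁆ ∧ IsPGroup p D ∧
      (∃ c ∈ T, ∀ x ∈ T, ∃ n : ℤ, x * c ^ n = 1) ∧ (∀ b ∈ T, b ^ (p - 1) = 1) ∧
      (∀ b ∈ T, b ≠ 1 → D ≤ commEl D b) ∧ A ⊔ D = ⊤ ∧ t ∣ p - 1 ∧
      ∀ y ∈ P, (∀ x ∈ T, y * x = x * y) → y ∈ A := by
  obtain ⟨k, hk⟩ := (IsPGroup.iff_card).1 hP
  have hi : A.index ∣ p ^ k := by
    rw [← relIndex_top_right, ← htop, hAP.relIndex_sup, ← hk]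
    exact relIndex_dvd_card A P
  obtain ⟨D, hD⟩ : ∃ D : Subgroup L, D = ⁅T, (⊤ : Subgroup L)⁆ := ⟨_, rfl⟩
  have hDn : D.Normal := by rw [hD]; exact normal_comm_top T
  have hDp : IsPGroup p D := by
    rw [hD]
    exact isPGroup_comm_top htp hA hi hTA hTn hTt hO
  have hnor : ∀ E : Subgroup L, E ≤ normalizer (D : Set L) := fun E => by
    rw [normalizer_eq_top_iff.2 hDn]; exact le_top
  have htD : ¬ t ∣ Nat.card D := not_dvd_pgroup Fact.out Fact.out htp hDp
  have hDP : D ≤ P := by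
    have hPs : IsSylowIn p P ⊤ := ⟨le_top, hP, by rwa [relIndex_top_right]⟩
    exact (le_opc (normalIn_top.2 hDn) hDp).trans hPs.opc_le
  -- every element is an element of `C(T) D`
  have hconj : ∀ z : L, ∃ n ∈ D, z * n ∈ centralizer (T : Set L) := by
    intro z
    refine exists_mul_mem_centralizer hTt (hnor T) htD ?_
    intro x hx
    have h1 : ⁅x, z⁻¹⁆ ∈ D := by rw [hD]; exact comm_mem_comm_top hx
    have h2 := inv_mem h1
    have : z⁻¹ * (x * z * x⁻¹) = (⁅x, z⁻¹⁆)⁻¹ := by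
      rw [commutatorElement_def]
      group
    rw [this]
    exact h2
  -- `T` is faithful on `D`
  have hfaith : ∀ τ ∈ T, (∀ d ∈ D, τ * d = d * τ) → τ = 1 := by
    intro τ hτ h
    have hcen : ∀ g : L, g * τ = τ * g := by
      intro g
      obtain ⟨n, hn, hgn⟩ := hconj g
      have h1 := (mem_centralizer_iff.1 hgn) τ hτ
      have h2 := h n hn
      have h3 : g * τ * n = τ * g * n := by
        calc g * τ * n = g * (τ * n) := by group
          _ = g * (n * τ) := by rw [h2]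
          _ = g * n * τ := by group
          _ = τ * (g * n) := h1.symm
          _ = τ * g * n := by group
      exact mul_right_cancel h3
    have hn : NormalIn (zpowers τ) (⊤ : Subgroup L) := by
      refine ⟨le_top, ?_⟩
      rintro e _ _ ⟨i, rfl⟩
      refine ⟨i, ?_⟩
      change τ ^ i = e * τ ^ i * e⁻¹
      rw [← conj_zpow, hcen e, mul_inv_cancel_right]
    have h1 : zpowers τ ≤ opp p (⊤ : Subgroup L) :=
      le_opp hn (not_dvd_card_of_isPGroup Fact.out Fact.out htp (hTt.to_le (zpowers_le.2 hτ)))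
    rw [hO, le_bot_iff, zpowers_eq_bot] at h1
    exact h1
  obtain ⟨b₀, hb₀, hb₀1⟩ : ∃ b ∈ T, b ≠ 1 := by
    by_contra h
    push Not at h
    exact hT1 ((eq_bot_iff_forall T).2 h)
  have hD1 : D ≠ ⊥ := by
    intro h
    apply hb₀1
    apply hfaith b₀ hb₀
    intro d hd
    rw [h, mem_bot] at hd
    rw [hd, mul_one, one_mul]
  -- `D = [D, T]`
  have hDT : D = ⁅D, T⁆ := by
    apply le_antisymm
    · conv_lhs => rw [hD]
      rw [commutator_le]
      intro τ hτ g _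
      obtain ⟨n, hn, hgn⟩ := hconj g
      have h1 := (mem_centralizer_iff.1 hgn) τ hτ
      have h2 : (g * n)⁻¹ * τ⁻¹ * (g * n) = τ⁻¹ := by
        have h3 : (g * n)⁻¹ * τ * (g * n) = τ := by
          rw [mul_assoc, h1]
          group
        calc (g * n)⁻¹ * τ⁻¹ * (g * n) = ((g * n)⁻¹ * τ * (g * n))⁻¹ := by group
          _ = τ⁻¹ := by rw [h3]
      have h3 : ⁅τ, g⁆ = ⁅τ, (g * n) * n⁻¹ * (g * n)⁻¹⁆ := by
        simp only [commutatorElement_def]
        calc τ * g * τ⁻¹ * g⁻¹ = τ * (g * n) * n⁻¹ * τ⁻¹ * n * (g * n)⁻¹ := by group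
          _ = τ * (g * n) * n⁻¹ * ((g * n)⁻¹ * τ⁻¹ * (g * n)) * n * (g * n)⁻¹ := by rw [h2]
          _ = _ := by group
      rw [h3, ← commutatorElement_inv]
      refine inv_mem (commutator_mem_commutator ?_ hτ)
      exact hDn.conj_mem _ (D.inv_mem hn) _
    · exact le_normalizer_iff_commutator_le_left.1 (hnor T)
  -- `A ∩ D ≤ Φ(D)`
  have hΦn : (frat D).Normal := by
    rw [← normalizer_eq_top_iff, eq_top_iff, ← normalizer_eq_top_iff.2 hDn]
    exact le_normalizer_frat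
  have hTD : T ⊓ D = ⊥ := (IsPGroup.disjoint_of_ne t p htp T D hTt hDp).eq_bot
  have hCD : D ⊓ centralizer (T : Set L) ≤ frat D := by
    obtain ⟨f, hfdef⟩ : ∃ f : L →* L ⧸ frat D, f = QuotientGroup.mk' (frat D) := ⟨_, rfl⟩
    have hker : f.ker = frat D := by rw [hfdef]; exact QuotientGroup.ker_mk' _
    rintro x ⟨hx1, hx2⟩
    have h1 := inf_centralizer_eq_bot (V := D.map f) (X := T.map f) (hTt.map f)
      ((map_mono (hnor T)).trans (le_normalizer_map f))
      (fun h => htD (h.trans (card_map_dvd D f))) (by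
        rintro _ ⟨a, ha, rfl⟩ _ ⟨b, hb, rfl⟩
        rw [← commutatorElement_eq_one_iff_mul_comm, ← map_commutatorElement,
          ← MonoidHom.mem_ker, hker]
        exact commutator_le_frat hDp (commutator_mem_commutator ha hb))
    have h2 : f x ∈ ⁅D.map f, T.map f⁆ ⊓ centralizer (T.map f : Set (L ⧸ frat D)) := by
      refine mem_inf.2 ⟨?_, mem_centralizer_iff.2 ?_⟩
      · rw [← map_commutator, ← hDT]
        exact ⟨x, hx1, rfl⟩
      · rintro _ ⟨τ, hτ, rfl⟩
        rw [← map_mul, ← map_mul, (mem_centralizer_iff.1 hx2) τ hτ]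
    rw [h1, mem_bot, ← MonoidHom.mem_ker, hker] at h2
    exact h2
  have hAD : A ⊓ D ≤ frat D := by
    rintro x ⟨hx1, hx2⟩
    refine hCD (mem_inf.2 ⟨hx2, mem_centralizer_iff.2 ?_⟩)
    intro τ hτ
    have h1 : ⁅τ, x⁆ ∈ T ⊓ D := by
      constructor
      · have h3 := mem_normalizer_conj (hTn hx1) (T.inv_mem hτ)
        have : ⁅τ, x⁆ = τ * (x * τ⁻¹ * x⁻¹) := by
          rw [commutatorElement_def]
          group
        rw [this]
        exact T.mul_mem hτ h3
      · rw [commutatorElement_def]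
        exact D.mul_mem (hDn.conj_mem _ hx2 τ) (D.inv_mem hx2)
    rw [hTD, mem_bot] at h1
    exact commutatorElement_eq_one_iff_mul_comm.1 h1
  -- scalars
  have hscal : ∀ b ∈ T, ∃ k : ℤ, ∀ x ∈ D, b * x * b⁻¹ * (x ^ k)⁻¹ ∈ frat D := by
    intro b hb
    refine scal (r := p) (frat_le D) ?_ ?_ ?_
    · intro x hx y hy
      exact commutator_le_frat hDp (commutator_mem_commutator hx hy)
    · intro x hx
      exact pow_mem_frat hDp hx
    · intro Y h1 h2
      exact ls_normalizes hA hDn hDp (hAD.trans h1) h2 (hTA hb)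
  choose! K hK using hscal
  obtain ⟨hcyc, hexp, hgen⟩ := scalar_pack htp hDn hDp hD1 hTt hfaith K hK
  have hTP : T ⊓ P = ⊥ := (IsPGroup.disjoint_of_ne t p htp T P hTt hP).eq_bot
  -- (S5)
  have hS5 : ∀ y ∈ P, (∀ x ∈ T, y * x = x * y) → y ∈ A := by
    intro y hy hyT
    obtain ⟨d, hd, hd1, k, hk1, hk2⟩ := eig (p := p) hDp (hnor T hb₀) (by
      intro d hd
      rw [hexp b₀ hb₀, mul_one, one_mul]) (fun h => hb₀1 (hfaith b₀ hb₀ h))
    obtain ⟨m, hm⟩ := (IsPGroup.iff_orderOf.1 (hDp.to_le (zpowers_le.2 hd)))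
      ⟨d, mem_zpowers d⟩
    rw [Subgroup.orderOf_mk] at hm
    have hm0 : m ≠ 0 := by
      rintro rfl
      rw [pow_zero, orderOf_eq_one_iff] at hm
      exact hd1 hm
    obtain ⟨l, rfl⟩ := Nat.exists_eq_succ_of_ne_zero hm0
    have hp0 : p ≠ 0 := (Fact.out : p.Prime).ne_zero
    have hord : orderOf (d ^ p ^ l) = p := by
      rw [orderOf_pow_of_dvd (pow_ne_zero _ hp0) (by rw [hm]; exact pow_dvd_pow p (Nat.le_succ l)),
        hm, Nat.succ_eq_add_one, pow_succ, Nat.mul_div_cancel_left _ (pow_pos (Nat.pos_of_ne_zero hp0) _)]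
    have he : b₀ * d ^ p ^ l * b₀⁻¹ = (d ^ p ^ l) ^ k := by
      rw [← conj_pow, hk1, ← zpow_natCast, ← zpow_natCast, ← zpow_mul, ← zpow_mul, mul_comm]
    refine ls_chain hA hP hAP hTA hTn hTP hb₀ (hDP (D.pow_mem hd (p ^ l))) hord
      (by rw [he]; exact zpow_mem (mem_zpowers _) k) ?_ hy hyT
    rw [he]
    intro h
    have h1 : (d ^ p ^ l) ^ (k - 1) = 1 := by
      rw [zpow_sub, h, zpow_one, mul_inv_cancel]
    rw [← orderOf_dvd_iff_zpow_eq_one, hord] at h1
    exact hk2 h1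
  refine ⟨D, hD, hDp, hcyc, hexp, hgen, ?_, ?_, hS5⟩
  · rw [eq_top_iff, ← htop]
    refine sup_le le_sup_left ?_
    intro g hg
    obtain ⟨n, hn, hgn⟩ := hconj g
    have h1 : g * n ∈ A := hS5 _ (P.mul_mem hg (hDP hn)) fun x hx =>
      ((mem_centralizer_iff.1 hgn) x hx).symm
    have h2 : g = g * n * n⁻¹ := by group
    rw [h2]
    exact mul_mem (mem_sup_left h1) (mem_sup_right (inv_mem hn))
  · have h1 : t ∣ Nat.card T := by
      obtain ⟨n, hn⟩ := (IsPGroup.iff_card).1 hTt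
      rw [hn]
      refine dvd_pow_self t ?_
      rintro rfl
      rw [pow_zero] at hn
      exact hT1 (card_eq_one.1 hn)
    obtain ⟨x, hx⟩ := exists_prime_orderOf_dvd_card' t h1
    rw [← hx]
    apply orderOf_dvd_of_pow_eq_one
    exact Subtype.ext (hexp x x.2)

end LemSAux

end MP_5771ce_al
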