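import Pool.Agent.Lib.MP_5771ce_al.S4.Types

/-!
# Section 4.3: an element of `T - T₀` does not centralise a subgroup `C` with `T₀/C` cyclic
-/

open Subgroup
open scoped Pointwise commutatorElement

namespace MP_5771ce_al

universe u

open Brick12Aux Brick3Aux TypesAux

section Bricks

variable {G : Type u} [Group G] [Finite G] {t p : ℕ} [Fact t.Prime] [Fact p.Prime]
  {T T₀ D N : Subgroup G}

/-- (B3) applied to `T₀/Φ(T₀)`: an element of `T - T₀` does not centralise a normal subgroup `C` of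
`T₀` with `T₀/C` cyclic. -/
theorem Brick.not_cyclic (hB : Brick 2 p T T₀ D) (hp : 5 ≤ p) (hni : ¬ Centralises D T₀)
    {y : G} (hy : y ∈ T) (hy0 : y ∉ T₀) {C : Subgroup G} (hC : C ≤ T₀)
    (hCn : T₀ ≤ normalizer (C : Set G)) (hcyc : ∃ c ∈ T₀, ∀ x ∈ T₀, ∃ n : ℤ, x * c ^ n ∈ C)
    (hcen : ∀ z ∈ C, y * z = z * y) : False := by
  have hpT₀ : IsPGroup 2 T₀ := hB.pT.to_le hB.le
  set H : Subgroup G := normalizer (T₀ : Set G) with hH
  have hTH : T ≤ H := hB.nT
  have hDH : D ≤ H := hB.nD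
  have hT₀H : T₀ ≤ H := hB.le.trans hTH
  have hMH : frat T₀ ≤ H := (frat_le T₀).trans hT₀H
  have hnor : ((frat T₀).subgroupOf H).Normal :=
    (normal_subgroupOf_iff_le_normalizer hMH).2 le_normalizer_frat
  let π : H →* H ⧸ (frat T₀).subgroupOf H := QuotientGroup.mk' _
  have hπ : ∀ x : H, π x = 1 ↔ (x : G) ∈ frat T₀ := fun x => by
    rw [QuotientGroup.mk'_apply, QuotientGroup.eq_one_iff, mem_subgroupOf]
  have hB1 := (hB.subgroupOf hTH hDH).map π
  have hel : ElemAb 2 ((T₀.subgroupOf H).map π) := by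
    constructor
    · rintro _ ⟨a, ha, rfl⟩ _ ⟨b, hb, rfl⟩
      rw [← map_mul, ← map_mul]
      have h1 : π ⁅a, b⁆ = 1 := by
        rw [hπ]
        exact commutator_le_frat hpT₀ (commutator_mem_commutator ha hb)
      rw [map_commutatorElement, commutatorElement_eq_one_iff_mul_comm] at h1
      rw [map_mul, map_mul, h1]
    · rintro _ ⟨b, hb, rfl⟩
      rw [← map_pow, hπ]
      exact pow_mem_frat hpT₀ hb
  have hnc : ¬ Centralises ((D.subgroupOf H).map π) ((T₀.subgroupOf H).map π) := by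
    intro h
    apply hni
    rw [centralises_iff_commutator]
    refine commutator_eq_bot_of_frat hB.pD hB.nD (not_dvd_two hp hpT₀) ?_
    rw [commutator_le]
    intro v hv d hd
    have h1 := h (π ⟨d, hDH hd⟩) (mem_map_of_mem π hd) (π ⟨v, hT₀H hv⟩) (mem_map_of_mem π hv)
    have h2 : π ⁅(⟨v, hT₀H hv⟩ : H), ⟨d, hDH hd⟩⁆ = 1 := by
      rw [map_commutatorElement, commutatorElement_eq_one_iff_mul_comm]
      exact h1.symm
    rw [hπ] at h2
    exact h2
  have hy0' : π ⟨y, hTH hy⟩ ∉ (T₀.subgroupOf H).map π := by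
    rintro ⟨x, hx, hxy⟩
    apply hy0
    have h1 : π (x⁻¹ * ⟨y, hTH hy⟩) = 1 := by rw [map_mul, map_inv, hxy, inv_mul_cancel]
    rw [hπ] at h1
    have h2 : (x : G)⁻¹ * y ∈ T₀ := frat_le T₀ h1
    have hx' : (x : G) ∈ T₀ := hx
    have := mul_mem hx' h2
    simpa using this
  have h4 := hB1.four_le hp hel hB1.nT hB1.nD hnc (mem_map_of_mem π hy) hy0'
  have hCH : C ≤ H := hC.trans hT₀H
  have h2 : ((C.subgroupOf H).map π).relIndex ((T₀.subgroupOf H).map π) ≤ 2 := by
    refine relIndex_le_of_cyclic (by norm_num) (map_mono fun x hx => hC hx) ?_ ?_ le_rfl ?_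
    · apply le_normalizer_of_commute
      rintro a ha _ ⟨c, hc, rfl⟩
      exact hel.1 a ha _ (mem_map_of_mem π (hC hc))
    · obtain ⟨c, hc, h⟩ := hcyc
      refine ⟨π ⟨c, hT₀H hc⟩, mem_map_of_mem π hc, ?_⟩
      rintro _ ⟨x, hx, rfl⟩
      obtain ⟨n, hn⟩ := h x hx
      refine ⟨n, ?_⟩
      rw [← map_zpow, ← map_mul]
      exact mem_map_of_mem π hn
    · intro b hb
      rw [hel.2 b hb]
      exact one_mem _
  have h5 : (centralizer {π ⟨y, hTH hy⟩}).relIndex ((T₀.subgroupOf H).map π) ≤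
      ((C.subgroupOf H).map π).relIndex ((T₀.subgroupOf H).map π) := by
    apply relIndex_le_of_le_left _ index_ne_zero_of_finite
    rintro _ ⟨c, hc, rfl⟩
    rw [mem_centralizer_iff]
    intro y' hy'
    rw [Set.mem_singleton_iff.1 hy', ← map_mul, ← map_mul]
    congr 1
    exact Subtype.ext (hcen c hc)
  omega

end Bricks

end MP_5771ce_al
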