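import Pool.Agent.Lib.MP_5771ce_al.S4.Defs
import Pool.Agent.Lib.MP_5771ce_al.LibAxB
import Pool.Agent.Lib.MP_5771ce_al.LibFrat
import Pool.Agent.Lib.MP_5771ce_al.S4.Eig
import Pool.Agent.Lib.MP_5771ce_al.S4.LemF

/-!
# Section 4 of the chain `GROUP` (MP_5771ce_al): module QUAD (B5)

Quadratic action of an element of a brick.
-/

open Subgroup
open scoped Pointwise commutatorElement

namespace MP_5771ce_al

universe u

section Bricks

variable {G : Type u} [Group G] [Finite G] {t p : ℕ} [Fact t.Prime] [Fact p.Prime]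
  {T T₀ D N : Subgroup G}

namespace QuadAux

omit [Finite G] in
theorem centralises_iff {D N : Subgroup G} : Centralises D N ↔ ⁅N, D⁆ = ⊥ := by
  rw [commutator_eq_bot_iff_le_centralizer]
  constructor
  · intro h n hn
    rw [mem_centralizer_iff]
    intro d hd
    exact h d hd n hn
  · intro h d hd n hn
    exact (mem_centralizer_iff.1 (h hn)) d hd

theorem not_dvd_card {t p : ℕ} [Fact t.Prime] [Fact p.Prime] (htp : t ≠ p) {V : Subgroup G}
    (hV : IsPGroup t V) : ¬ p ∣ Nat.card V := by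
  obtain ⟨n, hn⟩ := (IsPGroup.iff_card).1 hV
  intro h
  rw [hn] at h
  exact htp ((Nat.prime_dvd_prime_iff_eq (Fact.out) (Fact.out)).1
    ((Fact.out : p.Prime).dvd_of_dvd_pow h)).symm

end QuadAux

open QuadAux

/-- (B5) -/
theorem Brick.quad (hB : Brick t p T T₀ D) (htp : t ≠ p) (ht : t ≠ 2) (hN : IsPGroup t N)
    (hTN : T ≤ normalizer (N : Set G)) (hDN : D ≤ normalizer (N : Set G)) {b : G} (hb : b ∈ T)
    (hb0 : b ∉ T₀) (hq : ∀ n ∈ N, ⁅⁅n, b⁆, b⁆ = 1) : Centralises D N := by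
  classical
  by_contra hcon
  -- a minimal invariant subgroup not centralised by `D`
  obtain ⟨N₁, ⟨hN₁N, hT₁, hD₁, hc₁⟩, hmin⟩ := Set.Finite.exists_minimal
    (Set.toFinite {M : Subgroup G | M ≤ N ∧ T ≤ normalizer (M : Set G) ∧ D ≤ normalizer (M : Set G) ∧
      ¬ Centralises D M}) ⟨N, le_rfl, hTN, hDN, hcon⟩
  have hN₁ : IsPGroup t N₁ := hN.to_le hN₁N
  have hN₁p : ¬ p ∣ Nat.card N₁ := not_dvd_card htp hN₁
  have hne : N₁ ≠ ⊥ := by
    rintro rfl
    apply hc₁
    intro d _ n hn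
    rw [mem_bot.1 hn]
    simp
  have hT₀₁ : T₀ ≤ normalizer (N₁ : Set G) := hB.le.trans hT₁
  have hT₀t : IsPGroup t T₀ := hB.pT.to_le hB.le
  set N₂ : Subgroup G := ⁅N₁, T₀⁆ ⊔ frat N₁ with hN₂
  have hcomle : ⁅N₁, T₀⁆ ≤ N₁ := le_normalizer_iff_commutator_le_left.1 hT₀₁
  have hN₂le : N₂ ≤ N₁ := sup_le hcomle (frat_le N₁)
  have hN₂ne : N₂ ≠ N₁ := by
    intro h
    have h1 : ⁅N₁, T₀⁆ = N₁ := eq_of_le_frat_sup hcomle (by rw [sup_comm, ← hN₂, h])
    exact (commutator_lt_of_pgroup hN₁ hT₀t hT₀₁ hne).ne h1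
  have hinv : ∀ B : Subgroup G, B ≤ normalizer (N₁ : Set G) → B ≤ normalizer (T₀ : Set G) →
      B ≤ normalizer (N₂ : Set G) := by
    intro B hB1 hB2
    have h1 : B ≤ normalizer ((⁅N₁, T₀⁆ : Subgroup G) : Set G) := le_normalizer_commutator hB1 hB2
    have h2 : B ≤ normalizer (frat N₁ : Set G) := hB1.trans le_normalizer_frat
    exact (le_inf h1 h2).trans (normalizer_inf_normalizer_le_normalizer_sup _ _)
  have hT₂ : T ≤ normalizer (N₂ : Set G) := hinv T hT₁ hB.nT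
  have hD₂ : D ≤ normalizer (N₂ : Set G) := hinv D hD₁ hB.nD
  have hc₂ : ⁅N₂, D⁆ = ⊥ := by
    rw [← centralises_iff]
    by_contra h
    exact hN₂ne (le_antisymm hN₂le (hmin ⟨hN₂le.trans hN₁N, hT₂, hD₂, h⟩ hN₂le))
  have hnot : ¬ ⁅N₁, D⁆ ≤ N₂ := by
    intro h
    exact hc₁ (centralises_iff.2 (commutator_eq_bot_of_series hB.pD hD₁ hN₁p h hc₂))
  -- the ambient group
  set H : Subgroup G := normalizer (N₁ : Set G) ⊓ normalizer (N₂ : Set G) with hH
  have hTH : T ≤ H := le_inf hT₁ hT₂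
  have hDH : D ≤ H := le_inf hD₁ hD₂
  have hN₁H : N₁ ≤ H := by
    refine le_inf le_normalizer ?_
    have h1 : N₁ ≤ normalizer (N₁ : Set G) := le_normalizer
    have h2 : N₁ ≤ normalizer (frat N₁ : Set G) := h1.trans le_normalizer_frat
    have h3 : ⁅N₁, N₁⁆ ≤ N₂ := (commutator_le_frat hN₁).trans le_sup_right
    rw [le_normalizer_iff_commutator_le_left]
    exact (commutator_mono hN₂le le_rfl).trans h3
  have hNn : (N₂.subgroupOf H).Normal := by
    rw [normal_subgroupOf_iff_le_normalizer (hN₂le.trans hN₁H)]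
    exact inf_le_right
  set q : H →* H ⧸ N₂.subgroupOf H := QuotientGroup.mk' (N₂.subgroupOf H) with hqdef
  have hqker : ∀ x : H, q x = 1 ↔ (x : G) ∈ N₂ := by
    intro x
    rw [hqdef, QuotientGroup.mk'_apply, QuotientGroup.eq_one_iff, mem_subgroupOf]
  set U : Subgroup (H ⧸ N₂.subgroupOf H) := (N₁.subgroupOf H).map q with hU
  have hN₁n : (N₁.subgroupOf H).Normal := by
    rw [normal_subgroupOf_iff_le_normalizer hN₁H]
    exact inf_le_left
  have hUn : U.Normal := hN₁n.map q (QuotientGroup.mk'_surjective _)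
  have hUe : ElemAb t U := by
    constructor
    · rintro _ ⟨x, hx, rfl⟩ _ ⟨y, hy, rfl⟩
      have h1 : q (⁅x, y⁆) = 1 := by
        rw [hqker]
        have h2 : ((⁅x, y⁆ : H) : G) = ⁅(x : G), (y : G)⁆ := rfl
        rw [h2]
        exact le_sup_right (a := ⁅N₁, T₀⁆) (commutator_le_frat hN₁ (commutator_mem_commutator hx hy))
      rw [map_commutatorElement, commutatorElement_eq_one_iff_mul_comm] at h1
      exact h1
    · rintro _ ⟨x, hx, rfl⟩
      rw [← map_pow, hqker]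
      exact le_sup_right (a := ⁅N₁, T₀⁆) (pow_mem_frat hN₁ hx)
  set C : Subgroup (H ⧸ N₂.subgroupOf H) := centralizer (U : Set (H ⧸ N₂.subgroupOf H)) with hC
  have hCn : C.Normal := normal_centralizer
  set w : (H ⧸ N₂.subgroupOf H) →* (H ⧸ N₂.subgroupOf H) ⧸ C := QuotientGroup.mk' C with hw
  have hwker : ∀ x, w x = 1 ↔ x ∈ C := by
    intro x
    rw [hw, QuotientGroup.mk'_apply, QuotientGroup.eq_one_iff]
  -- elements acting trivially
  have hCmem : ∀ x : H, q x ∈ C ↔ ∀ n ∈ N₁, ⁅(x : G), n⁆ ∈ N₂ := by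
    intro x
    rw [hC, mem_centralizer_iff]
    constructor
    · intro h n hn
      have h1 := h (q ⟨n, hN₁H hn⟩) ⟨⟨n, hN₁H hn⟩, hn, rfl⟩
      have h2 : q ⁅x, ⟨n, hN₁H hn⟩⁆ = 1 := by
        rw [map_commutatorElement, commutatorElement_eq_one_iff_mul_comm]
        exact h1.symm
      exact (hqker _).1 h2
    · rintro h _ ⟨y, hy, rfl⟩
      have h2 : q ⁅x, y⁆ = 1 := (hqker _).2 (h y hy)
      rw [map_commutatorElement, commutatorElement_eq_one_iff_mul_comm] at h2
      exact h2.symm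
  set f : H →* (H ⧸ N₂.subgroupOf H) ⧸ C := w.comp q with hf
  have hfker : ∀ x : H, f x = 1 ↔ ∀ n ∈ N₁, ⁅(x : G), n⁆ ∈ N₂ := by
    intro x
    rw [hf, MonoidHom.comp_apply, hwker, hCmem]
  have hfT₀ : ∀ x : H, (x : G) ∈ T₀ → f x = 1 := by
    intro x hx
    rw [hfker]
    intro n hn
    have h1 : ⁅n, (x : G)⁆ ∈ N₂ := le_sup_left (b := frat N₁) (commutator_mem_commutator hn hx)
    rw [← commutatorElement_inv]
    exact inv_mem h1
  set Db : Subgroup ((H ⧸ N₂.subgroupOf H) ⧸ C) := (D.subgroupOf H).map f with hDb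
  have hDbp : IsPGroup p Db := by
    refine IsPGroup.map ?_ f
    exact hB.pD.comap_of_injective H.subtype H.subtype_injective
  set bH : H := ⟨b, hTH hb⟩ with hbH
  have hT₀H : T₀ ≤ H := hB.le.trans hTH
  -- the image of `T₀ D` is the image of `D`
  have hT₀D : ∀ x : H, (x : G) ∈ T₀ ⊔ D → f x ∈ Db := by
    intro x hx
    have h1 : (T₀ ⊔ D).subgroupOf H = T₀.subgroupOf H ⊔ D.subgroupOf H :=
      subgroupOf_sup hT₀H hDH
    have h2 : x ∈ T₀.subgroupOf H ⊔ D.subgroupOf H := by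
      rw [← h1]
      exact hx
    have h3 : T₀.subgroupOf H ⊔ D.subgroupOf H ≤ Db.comap f := by
      refine sup_le ?_ ?_
      · intro y hy
        rw [mem_comap, hfT₀ y hy]
        exact one_mem _
      · intro y hy
        exact ⟨y, hy, rfl⟩
    exact h3 h2
  have hbn : f bH ∈ normalizer (Db : Set ((H ⧸ N₂.subgroupOf H) ⧸ C)) := by
    have hgen : ∀ c : H, (c : G) ∈ T → ∀ y ∈ Db, f c * y * (f c)⁻¹ ∈ Db := by
      rintro c hc _ ⟨d, hd, rfl⟩
      rw [← map_inv, ← map_mul, ← map_mul]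
      apply hT₀D
      exact mem_normalizer_conj (hB.nTD hc) (mem_sup_right hd)
    rw [mem_normalizer_iff]
    intro y
    refine ⟨hgen bH hb y, fun h => ?_⟩
    have h1 := hgen bH⁻¹ (inv_mem hb) _ h
    simpa [mul_assoc] using h1
  have hb1 : ∀ d ∈ Db, f bH ^ (p - 1) * d = d * f bH ^ (p - 1) := by
    intro d _
    have h1 : f bH ^ (p - 1) = 1 := by
      rw [← map_pow]
      exact hfT₀ _ (hB.exp b hb)
    rw [h1, one_mul, mul_one]
  have hb2 : ¬ ∀ d ∈ Db, f bH * d = d * f bH := by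
    intro h
    apply hnot
    have h1 : commEl D b ≤ (f.ker).map H.subtype := by
      rw [commEl, closure_le]
      rintro _ ⟨d, hd, rfl⟩
      refine ⟨⁅(⟨d, hDH hd⟩ : H), bH⁆, ?_, rfl⟩
      rw [SetLike.mem_coe, MonoidHom.mem_ker, map_commutatorElement, commutatorElement_eq_one_iff_mul_comm]
      exact (h _ ⟨⟨d, hDH hd⟩, hd, rfl⟩).symm
    have h2 : T₀ ≤ (f.ker).map H.subtype := by
      intro x hx
      exact ⟨⟨x, hT₀H hx⟩, hfT₀ _ hx, rfl⟩
    have h3 : D ≤ (f.ker).map H.subtype := (hB.gen b hb hb0).trans (sup_le h2 h1)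
    rw [commutator_le]
    intro n hn d hd
    obtain ⟨x, hx, hxd⟩ := h3 hd
    have h4 := (hfker x).1 hx n hn
    have h5 : (x : G) = d := hxd
    rw [h5] at h4
    rw [← commutatorElement_inv]
    exact inv_mem h4
  obtain ⟨_, ⟨d, hd, rfl⟩, hd1, k, hk, hk1⟩ := eig hDbp hbn hb1 hb2
  apply hd1
  -- apply lemma F in the quotient
  have hdD : (d : G) ∈ D := hd
  obtain ⟨m, hm⟩ := hB.pD (⟨(d : G), hdD⟩ : D)
  have hdm : d ^ (p ^ m) = 1 := by
    have h1 := congrArg (fun z : D => (z : G)) hm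
    exact Subtype.ext h1
  have hall := lemmaF (b := q bH) (d := q d) ht htp hUe
    (by rw [normalizer_eq_top]; exact mem_top _) (by rw [normalizer_eq_top]; exact mem_top _)
    (by
      rintro _ ⟨n, hn, rfl⟩
      rw [← map_commutatorElement, ← map_commutatorElement]
      have h1 : (⁅⁅n, bH⁆, bH⁆ : H) = 1 := Subtype.ext (hq n (hN₁N hn))
      rw [h1, map_one])
    (m := m) (by rw [← map_pow, hdm, map_one]; exact one_mem _) (k := k)
    (by
      rw [← hC, ← hwker]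
      rw [map_mul, map_mul, map_mul, map_inv, map_inv, map_zpow]
      have h1 : w (q bH) * w (q d) * (w (q bH))⁻¹ = w (q d) ^ k := hk
      rw [h1, mul_inv_cancel]) hk1
  have h1 : q d ∈ C := by
    rw [hC, mem_centralizer_iff]
    intro n hn
    exact (hall n hn).symm
  exact (hwker _).2 h1

end Bricks

end MP_5771ce_al
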