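import Pool.Agent.Lib.MP_5771ce_al.S4.Ctx
import Pool.Agent.Lib.MP_5771ce_al.S4.LemSRel

/-!
# Section 4 of `GROUP` (MP_5771ce_al): (4.6.0), bricks in a minimal counterexample
-/

open Subgroup
open scoped Pointwise commutatorElement

namespace MP_5771ce_al

universe u

variable {G : Type u} [Group G] [Finite G] {A P : Subgroup G} {p : ℕ} [Fact p.Prime]

namespace S460Aux

omit [Finite G] in
/-- A `p`-element of `T₀ D` lies in the `p`-group `D`, if `D` centralises the `t`-group `T₀`. -/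
theorem mem_of_pow {T₀ D : Subgroup G} {t : ℕ} [Fact t.Prime] (htp : t ≠ p)
    (hT : IsPGroup t T₀) (hD : IsPGroup p D) (hc : Centralises D T₀) (hn : D ≤ normalizer (T₀ : Set G))
    {g : G} (hg : g ∈ T₀ ⊔ D) {k : ℕ} (hk : g ^ p ^ k = 1) : g ∈ D := by
  obtain ⟨s, hs, d, hd, rfl⟩ := (mem_sup_of_le_normalizer' hn).1 hg
  have hcom : Commute s d := (hc d hd s hs).symm
  have hdis : Disjoint T₀ D := IsPGroup.disjoint_of_ne t p htp T₀ D hT hD
  rw [hcom.mul_pow] at hk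
  have h1 : s ^ p ^ k ∈ D := by
    have h2 : s ^ p ^ k = (d ^ p ^ k)⁻¹ := mul_eq_one_iff_eq_inv.1 hk
    rw [h2]
    exact D.inv_mem (D.pow_mem hd _)
  have h3 : s ^ p ^ k = 1 := by
    have h4 : s ^ p ^ k ∈ T₀ ⊓ D := ⟨T₀.pow_mem hs _, h1⟩
    rwa [disjoint_iff.1 hdis, mem_bot] at h4
  obtain ⟨j, hj⟩ := hT ⟨s, hs⟩
  have hj' : s ^ t ^ j = 1 := congrArg Subtype.val hj
  have h5 : s = 1 := by
    have h6 : orderOf s ∣ Nat.gcd (p ^ k) (t ^ j) :=
      Nat.dvd_gcd (orderOf_dvd_of_pow_eq_one h3) (orderOf_dvd_of_pow_eq_one hj')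
    have h7 : Nat.gcd (p ^ k) (t ^ j) = 1 :=
      Nat.Coprime.pow _ _ ((Nat.coprime_primes Fact.out Fact.out).2 (Ne.symm htp))
    rw [h7] at h6
    exact orderOf_eq_one_iff.1 (Nat.dvd_one.1 h6)
  rw [h5, one_mul]
  exact hd

end S460Aux

open S460Aux in
/-- (4.6.0) -/
theorem MC.exists_sbrick (h : MC A) (hno : ∀ q : ℕ, q.Prime → ∀ D : Subgroup G, ¬ IsoPair A q D) {t : ℕ}
    [Fact t.Prime] (hmax : ∀ s : ℕ, s.Prime → t < s → opc s A = ⊥) (htp : t ≠ p)
    (hP : SylPerm p A P) (hn : ¬ P ≤ normalizer (opc t A : Set G)) :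
    ∃ T₀ D : Subgroup G, SBrick t p A P (opc t A) T₀ D ∧ ¬ Centralises D T₀ := by
  have hp : p.Prime := Fact.out
  have hPs : ¬ p ∣ P.relIndex (A ⊔ P) := fun hd =>
    hP.not_dvd (hd.trans (Dvd.intro _ (relIndex_mul_index le_sup_right)))
  obtain ⟨T₀, D, hB, -⟩ := lemmaSrel (T := opc t A) htp h.her hP.isPGroup hP.permutes hPs
    (h.isSolvable_sup_of_isPGroup hP.isPGroup hP.permutes) (opc_le t A)
    (opc_normalIn t A).le_normalizer (opc_isPGroup t A)
    (fun N h1 h2 h3 => le_opc (normalIn_of_le_normalizer h1 h2) h3) hn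
  refine ⟨T₀, D, hB, fun hc => ?_⟩
  have htp' : t < p := by
    have h1 : 0 < p - 1 := by have := hp.two_le; omega
    have h2 := Nat.le_of_dvd h1 hB.dvd
    omega
  have hT₀ : IsPGroup t T₀ := hB.pT.to_le hB.le
  have hdis : Disjoint T₀ D := IsPGroup.disjoint_of_ne t p htp T₀ D hT₀ hB.pD
  -- `A` normalises `D`
  have hAD : ∀ a ∈ A, ∀ d ∈ D, a * d * a⁻¹ ∈ D := by
    intro a ha d hd
    have h1 : a * d * a⁻¹ ∈ T₀ ⊔ D :=
      (mem_normalizer_iff.1 (hB.n₀D (mem_sup_left ha)) d).1 (mem_sup_right hd)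
    obtain ⟨k, hk⟩ := hB.pD ⟨d, hd⟩
    have hk' : d ^ p ^ k = 1 := congrArg Subtype.val hk
    refine mem_of_pow htp hT₀ hB.pD hc hB.nD h1 (k := k) ?_
    rw [conj_pow, hk', mul_one, mul_inv_cancel]
  have hTD : ⁅D, opc t A⁆ ≤ D := by
    rw [commutator_le]
    intro d hd x hx
    have h1 := hAD x (opc_le t A hx) _ (D.inv_mem hd)
    have h2 : ⁅d, x⁆ = d * (x * d⁻¹ * x⁻¹) := by rw [commutatorElement_def]; group
    rw [h2]
    exact D.mul_mem hd h1
  refine hno p hp D ⟨hmax p hp htp', hB.pD, ?_, hAD,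
    fun Y hY => SylPerm.permutes_of_le h.her hP (hY.trans hB.D_le), ?_⟩
  · intro hb
    apply hn
    have h1 : P ≤ A := by
      have h2 := hB.sup_eq
      rw [hb, sup_bot_eq] at h2
      exact le_sup_right.trans h2.ge
    exact h1.trans (opc_normalIn t A).le_normalizer
  · intro d hd
    have h1 := hB.le_comm hd
    rw [mem_sup_of_le_normalizer' (hTD.trans hB.nD)] at h1
    obtain ⟨s, hs, c, hc', rfl⟩ := h1
    have h2 : s = 1 := by
      have h3 : s ∈ T₀ ⊓ D := by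
        refine ⟨hs, ?_⟩
        have h4 := D.mul_mem hd (D.inv_mem (hTD hc'))
        rwa [mul_inv_cancel_right] at h4
      rwa [disjoint_iff.1 hdis, mem_bot] at h3
    rw [h2, one_mul]
    exact commutator_mono le_rfl (opc_le t A) hc'

end MP_5771ce_al
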