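import Pool.Agent.Lib.MP_5771ce_al.S4.Ctx
import Pool.Agent.Lib.MP_5771ce_al.S4.DStar
import Pool.Agent.Lib.MP_5771ce_al.S4.S460

/-!
# Section 4 of `GROUP` (MP_5771ce_al), (4.6.1): `t = 2`
-/

open Subgroup
open scoped Pointwise commutatorElement

namespace MP_5771ce_al

universe u

variable {G : Type u} [Group G] [Finite G] {A P : Subgroup G} {p : ℕ} [Fact p.Prime]

theorem S461Aux.dvd_card {t : ℕ} (ht : t.Prime) (h : opc t A ≠ ⊥) : t ∣ Nat.card A := by
  have _ : Fact t.Prime := ⟨ht⟩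
  obtain ⟨n, hn⟩ := IsPGroup.iff_card.1 (opc_isPGroup t A)
  have hn0 : n ≠ 0 := by
    rintro rfl
    rw [pow_zero] at hn
    exact h (Subgroup.card_eq_one.1 hn)
  have h1 : t ∣ Nat.card (opc t A) := by
    rw [hn]
    exact dvd_pow_self t hn0
  exact h1.trans (Subgroup.card_dvd_of_le (opc_le t A))

theorem S461Aux.exists_max (h : MC A) : ∃ t : ℕ, t.Prime ∧ opc t A ≠ ⊥ ∧
    ∀ s : ℕ, s.Prime → t < s → opc s A = ⊥ := by
  classical
  have h1 : rad A ≠ ⊥ := by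
    rw [rad_eq_self_iff.2 h.sol]
    exact h.ne_bot
  obtain ⟨t0, ht0, h0⟩ := exists_opc_ne_bot h1
  have hpos : Nat.card A ≠ 0 := Nat.card_pos.ne'
  have hle : ∀ t : ℕ, t.Prime → opc t A ≠ ⊥ → t ≤ Nat.card A := fun t ht h2 =>
    Nat.le_of_dvd (Nat.pos_of_ne_zero hpos) (S461Aux.dvd_card ht h2)
  let S : Finset ℕ := (Finset.range (Nat.card A + 1)).filter fun t => t.Prime ∧ opc t A ≠ ⊥
  have hS : S.Nonempty := ⟨t0, Finset.mem_filter.2
    ⟨Finset.mem_range.2 (Nat.lt_succ_of_le (hle t0 ht0 h0)), ht0, h0⟩⟩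
  have hmem := Finset.mem_filter.1 (S.max'_mem hS)
  refine ⟨S.max' hS, hmem.2.1, hmem.2.2, fun s hs hlt => ?_⟩
  by_contra hne
  have h3 : s ∈ S := Finset.mem_filter.2
    ⟨Finset.mem_range.2 (Nat.lt_succ_of_le (hle s hs hne)), hs, hne⟩
  exact absurd (S.le_max' s h3) (not_le.2 hlt)

theorem S461Aux.main (h : MC A)
    (hno : ∀ q : ℕ, q.Prime → ∀ D : Subgroup G, ¬ IsoPair A q D)
    (hS : ∀ (t p : ℕ) (P : Subgroup G), t.Prime → p.Prime →
      (∀ s : ℕ, s.Prime → t < s → opc s A = ⊥) → t ≠ p → SylPerm p A P →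
      ¬ P ≤ normalizer (opc t A : Set G) →
      ∃ T₀ D : Subgroup G, SBrick t p A P (opc t A) T₀ D ∧ ¬ Centralises D T₀) : NoIso2 A := by
  obtain ⟨t, ht, hne, hmax⟩ := S461Aux.exists_max h
  have _ : Fact t.Prime := ⟨ht⟩
  have ht2 : t = 2 := by
    by_contra ht2
    obtain ⟨W, hWT, hW, hTW, hbr⟩ := dstar ht2 (opc_isPGroup t A) hne
    have hAT : A ≤ normalizer (opc t A : Set G) := (opc_normalIn t A).le_normalizer
    have hAW : A ≤ normalizer (W : Set G) := hAT.trans hTW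
    have claim : ∀ s : ℕ, s.Prime → s ≠ t → ∀ Q : Subgroup G, SylPerm s A Q →
        Q ≤ normalizer (W : Set G) := by
      intro s hs hst Q hQ
      by_cases hQT : Q ≤ normalizer (opc t A : Set G)
      · exact hQT.trans hTW
      · obtain ⟨T₀, D, hB, hC⟩ := hS t s Q ht hs hmax (Ne.symm hst) hQ hQT
        have hD : D ≤ normalizer (W : Set G) := hbr s T₀ D hs (Ne.symm hst) hB.toBrick hC
        calc Q ≤ A ⊔ Q := le_sup_right
          _ = A ⊔ D := hB.sup_eq.symm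
          _ ≤ normalizer (W : Set G) := sup_le hAW hD
    obtain ⟨Qt, hQt⟩ := h.her.exists_sylPerm t
    have hWA : W ≤ rad (A ⊔ Qt) := (hWT.trans (opc_le t A)).trans
      (h.le_rad le_sup_left (h.sup_ne_top_of_isPGroup hQt.isPGroup hQt.permutes))
    obtain ⟨q, hq, hK⟩ := h.K hW (normalIn_of_le_normalizer le_normalizer le_rfl) hWA
    by_cases hqt : q = t
    · subst hqt
      exact (hK Qt hQt).2 le_sup_right
    · have _ : Fact q.Prime := ⟨hq⟩
      obtain ⟨Q, hQ⟩ := h.her.exists_sylPerm q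
      exact (hK Q hQ).1 (claim q hq hqt Q hQ)
  subst ht2
  exact ⟨h, hno, hne, fun s hs hs2 => hmax s hs (lt_of_le_of_ne hs.two_le (Ne.symm hs2))⟩

/-- (4.6.1) -/
theorem MC.exists_noIso2 (h : MC A) (hno : ∀ q : ℕ, q.Prime → ∀ D : Subgroup G, ¬ IsoPair A q D) :
    NoIso2 A := by
  refine S461Aux.main h hno fun t q Q ht hq hmax htq hQ hn => ?_
  have _ : Fact t.Prime := ⟨ht⟩
  have _ : Fact q.Prime := ⟨hq⟩
  exact MC.exists_sbrick h hno hmax htq hQ hn

end MP_5771ce_al
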