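import Pool.Agent.Lib.MP_5771ce_al.LibSylow
import Pool.Agent.Lib.MP_5771ce_al.MC

/-!
# `A` permuting with a `2`-group `P`: steps of index two (chain `GROUP`, (4.6.3))
-/

open Subgroup
open scoped Pointwise commutatorElement

namespace MP_5771ce_al

universe u

variable {G : Type u} [Group G] [Finite G]

/-- In a `p`-group a proper subgroup `R` is normalised by an element `x ∉ R` with `x ^ p ∈ R`. -/
theorem exists_pow_mem_of_lt {p : ℕ} [Fact p.Prime] {P R : Subgroup G} (hP : IsPGroup p P)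
    (h : R < P) : ∃ x ∈ P, x ∉ R ∧ x ^ p ∈ R ∧ x ∈ normalizer (R : Set G) := by
  obtain ⟨y, hy, hyR⟩ := SetLike.exists_of_lt (lt_inf_normalizer_of_lt hP h)
  obtain ⟨k, hk⟩ := hP ⟨y, hy.1⟩
  have hk' : y ^ p ^ k = 1 := congrArg Subtype.val hk
  have hex : ∃ i, y ^ p ^ i ∈ R := ⟨k, by rw [hk']; exact one_mem _⟩
  classical
  have hne : Nat.find hex ≠ 0 := by
    intro h0
    have := Nat.find_spec hex
    rw [h0, pow_zero, pow_one] at this
    exact hyR this
  obtain ⟨i, hi⟩ := Nat.exists_eq_succ_of_ne_zero hne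
  refine ⟨y ^ p ^ i, pow_mem hy.1 _, Nat.find_min hex (by omega), ?_, pow_mem hy.2 _⟩
  have := Nat.find_spec hex
  rw [hi, Nat.succ_eq_add_one, pow_succ, pow_mul] at this
  exact this

/-- Let the hereditarily permutable subgroup `A` permute with the `2`-group `P`. If `M ≥ A`
contains every `g` with `A^g ≤ M`, then `P ≤ M` (because `A` is subnormal in `AP`). -/
theorem HerPermutable.le_of_two {A P M : Subgroup G} (hA : HerPermutable A)
    (hP : IsPGroup 2 P) (hAP : Permutes A P) (hAM : A ≤ M)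
    (hI : ∀ g : G, (∀ a ∈ A, g * a * g⁻¹ ∈ M) → g ∈ M) : P ≤ M := by
  have hF : Fact (Nat.Prime 2) := ⟨Nat.prime_two⟩
  -- upward induction
  suffices h : ∀ n : ℕ, ∀ R : Subgroup G, R ≤ P → R ≤ M → Nat.card P - Nat.card R = n →
      P ≤ M from h _ ⊥ bot_le bot_le rfl
  intro n
  induction n using Nat.strong_induction_on with
  | _ n ih =>
  intro R hRP hRM hn
  by_cases hR : R = P
  · rw [← hR]; exact hRM
  obtain ⟨x, hxP, hxR, hx2, hxn⟩ := exists_pow_mem_of_lt hP (lt_of_le_of_ne hRP hR)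
  -- `R₁ = R ∪ R x`
  set R₁ := R ⊔ zpowers x with hR₁
  have hR₁P : R₁ ≤ P := sup_le hRP (by rw [zpowers_le]; exact hxP)
  have hmem : ∀ y ∈ R₁, y ∈ R ∨ ∃ r ∈ R, y = r * x := by
    intro y hy
    obtain ⟨r, hr, z, ⟨m, rfl⟩, rfl⟩ := (mem_sup_of_le_normalizer'
      (by rw [zpowers_le]; exact hxn)).1 hy
    rcases Int.even_or_odd' m with ⟨j, hj | hj⟩
    · left
      have : x ^ m ∈ R := by
        rw [hj, zpow_mul]
        exact zpow_mem (by exact_mod_cast hx2) j
      exact mul_mem hr this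
    · right
      refine ⟨r * (x ^ (2 : ℤ)) ^ j, mul_mem hr (zpow_mem (by exact_mod_cast hx2) j), ?_⟩
      show r * x ^ m = _
      rw [hj, zpow_add, zpow_mul, zpow_one, mul_assoc]
  have hAR : Permutes A R := hA.permutes_of_isPGroup hP hAP hRP
  have hAR₁ : Permutes A R₁ := hA.permutes_of_isPGroup hP hAP hR₁P
  have hB : A ⊔ R ≤ M := sup_le hAM hRM
  have hxM : x ∈ M := by
    by_contra hxM
    apply hxM
    apply hI
    intro a ha
    have h1 : x * a * x⁻¹ ∈ A ⊔ R₁ := by
      have hx1 : x ∈ A ⊔ R₁ := (le_sup_right.trans le_sup_right : zpowers x ≤ A ⊔ R₁)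
        (mem_zpowers x)
      exact mul_mem (mul_mem hx1 (mem_sup_left ha)) (inv_mem hx1)
    obtain ⟨a', ha', r, hr, h2⟩ := hAR₁.mem_sup.1 h1
    rcases hmem r hr with hr1 | ⟨r', hr', rfl⟩
    · apply hB
      rw [← h2]
      exact mul_mem (mem_sup_left ha') (mem_sup_right hr1)
    · exfalso
      apply hxM
      have h3 : x = a' * (r' * x ^ 2) * a⁻¹ := by
        have : x * a = a' * (r' * x) * x := by rw [h2]; group
        calc x = x * a * a⁻¹ := by group
          _ = a' * (r' * x) * x * a⁻¹ := by rw [this]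
          _ = a' * (r' * x ^ 2) * a⁻¹ := by rw [pow_two]; simp only [mul_assoc]
      rw [h3]
      exact mul_mem (mul_mem (hAM ha') (hRM (mul_mem hr' hx2))) (inv_mem (hAM ha))
  have hR₁M : R₁ ≤ M := sup_le hRM (by rw [zpowers_le]; exact hxM)
  have hlt : R < R₁ := lt_of_le_of_ne le_sup_left (fun e => hxR (by
    rw [e]; exact (le_sup_right : zpowers x ≤ R₁) (mem_zpowers x)))
  have hc1 : Nat.card R < Nat.card R₁ := by
    apply lt_of_le_of_ne (Nat.card_le_card_of_injective _ (Subgroup.inclusion_injective hlt.le))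
    intro h
    exact hlt.ne (Subgroup.eq_of_le_of_card_ge hlt.le h.ge)
  have hc2 : Nat.card R₁ ≤ Nat.card P :=
    Nat.card_le_card_of_injective _ (Subgroup.inclusion_injective hR₁P)
  exact ih _ (by omega) R₁ hR₁P hR₁M rfl

end MP_5771ce_al
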