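import Pool.Agent.Lib.MP_5771ce_al.LibSylow
import Pool.Agent.Lib.MP_5771ce_al.LibFrat
import Pool.Agent.Lib.MP_5771ce_al.S4.Small

/-!
# Section 4.5 of `GROUP` (MP_5771ce_al): trivial actions, the key step (B1)
-/

open Subgroup
open scoped Pointwise commutatorElement

namespace MP_5771ce_al

universe u

variable {G : Type u} [Group G]

/-! ### The elements acting trivially on a section -/

/-- The elements normalising `C` and `N` and acting trivially on `N/C`. -/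
def actKer (C N : Subgroup G) : Subgroup G where
  carrier := {t | t ∈ normalizer (C : Set G) ∧ t ∈ normalizer (N : Set G) ∧ ∀ x ∈ N, ⁅t, x⁆ ∈ C}
  mul_mem' := by
    rintro s t ⟨h1, h2, h3⟩ ⟨k1, k2, k3⟩
    refine ⟨mul_mem h1 k1, mul_mem h2 k2, fun x hx => ?_⟩
    have h4 : t * x * t⁻¹ ∈ N := mem_normalizer_conj k2 hx
    have h6 : ⁅s * t, x⁆ = ⁅s, t * x * t⁻¹⁆ * ⁅t, x⁆ := by
      simp only [commutatorElement_def]; group
    rw [h6]
    exact mul_mem (h3 _ h4) (k3 x hx)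
  one_mem' := ⟨one_mem _, one_mem _, fun x _ => by
    simp only [commutatorElement_def]
    simp⟩
  inv_mem' := by
    rintro t ⟨h1, h2, h3⟩
    refine ⟨inv_mem h1, inv_mem h2, fun x hx => ?_⟩
    have h4 : t⁻¹ * x * t ∈ N := mem_normalizer_conj' h2 hx
    have h6 : ⁅t⁻¹, x⁆ = (⁅t, t⁻¹ * x * t⁆)⁻¹ := by
      simp only [commutatorElement_def]; group
    rw [h6]
    exact inv_mem (h3 _ h4)

theorem mem_actKer {C N : Subgroup G} {t : G} : t ∈ actKer C N ↔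
    t ∈ normalizer (C : Set G) ∧ t ∈ normalizer (N : Set G) ∧ ∀ x ∈ N, ⁅t, x⁆ ∈ C := Iff.rfl

theorem mem_normalizer_of_forall {C : Subgroup G} {H : Subgroup G}
    (h : ∀ t ∈ H, ∀ c ∈ C, t * c * t⁻¹ ∈ C) : H ≤ normalizer (C : Set G) := by
  intro t ht
  rw [mem_normalizer_iff]
  intro c
  refine ⟨h t ht c, fun h' => ?_⟩
  have := h t⁻¹ (H.inv_mem ht) _ h'
  simpa [mul_assoc] using this

theorem le_normalizer_actKer {C N : Subgroup G} :
    normalizer (C : Set G) ⊓ normalizer (N : Set G) ≤ normalizer (actKer C N : Set G) := by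
  refine mem_normalizer_of_forall ?_
  rintro g ⟨hg1, hg2⟩ t ⟨h1, h2, h3⟩
  refine ⟨mul_mem (mul_mem hg1 h1) (inv_mem hg1), mul_mem (mul_mem hg2 h2) (inv_mem hg2), ?_⟩
  intro x hx
  have h4 : g⁻¹ * x * g ∈ N := mem_normalizer_conj' hg2 hx
  have h5 : ⁅g * t * g⁻¹, x⁆ = g * ⁅t, g⁻¹ * x * g⁆ * g⁻¹ := by
    simp only [commutatorElement_def]; group
  rw [h5]
  exact mem_normalizer_conj hg1 (h3 _ h4)

/-- If `P ≤ actKer C N` then `[N, P] ≤ C`. -/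
theorem commutator_le_of_le_actKer {C N P : Subgroup G} (h : P ≤ actKer C N) : ⁅N, P⁆ ≤ C := by
  rw [commutator_le]
  intro x hx g hg
  have h1 := (h hg).2.2 x hx
  rw [← commutatorElement_inv]
  exact inv_mem h1

theorem mem_of_coprime_pow_mem {T : Subgroup G} {g : G} {m n : ℕ} (h : Nat.Coprime m n)
    (hm : g ^ m ∈ T) (hn : g ^ n ∈ T) : g ∈ T := by
  have h1 : g = (g ^ m) ^ (Nat.gcdA m n) * (g ^ n) ^ (Nat.gcdB m n) := by
    rw [← zpow_natCast, ← zpow_natCast, ← zpow_mul, ← zpow_mul, ← zpow_add,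
      ← Nat.gcd_eq_gcd_ab, h.gcd_eq_one, Nat.cast_one, zpow_one]
  rw [h1]
  exact mul_mem (zpow_mem hm _) (zpow_mem hn _)

/-- A `p`-subgroup of `T K`, `T` normal in `TK`, `K` a `p'`-group, lies in `T`. -/
theorem le_of_le_sup_of_pprime {p : ℕ} [hp : Fact p.Prime] {T K P : Subgroup G}
    (hK : K ≤ normalizer (T : Set G)) (hP : IsPGroup p P) (hPT : P ≤ T ⊔ K)
    (hpK : ¬ p ∣ Nat.card K) : P ≤ T := by
  intro g hg
  obtain ⟨k, hk⟩ := hP ⟨g, hg⟩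
  have hk' : g ^ p ^ k = 1 := congrArg Subtype.val hk
  obtain ⟨t, ht, b, hb, e⟩ := (mem_sup_of_le_normalizer' hK).1 (hPT hg)
  have h1 : ∀ n : ℕ, ∃ u ∈ T, u * b ^ n = g ^ n := by
    intro n
    induction n with
    | zero => exact ⟨1, one_mem _, by simp⟩
    | succ n ih =>
      obtain ⟨u, hu, hue⟩ := ih
      have h2 : b ^ n * t * (b ^ n)⁻¹ ∈ T :=
        mem_normalizer_conj (hK (pow_mem hb n)) ht
      refine ⟨u * (b ^ n * t * (b ^ n)⁻¹), mul_mem hu h2, ?_⟩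
      rw [pow_succ g, ← hue, ← e, pow_succ b]
      group
  obtain ⟨u, hu, hue⟩ := h1 (Nat.card K)
  have h2 : b ^ Nat.card K = 1 := by
    have := pow_card_eq_one' (x := (⟨b, hb⟩ : K))
    exact congrArg Subtype.val this
  rw [h2, mul_one] at hue
  have h3 : Nat.Coprime (Nat.card K) (p ^ k) :=
    Nat.Coprime.pow_right k ((Nat.Prime.coprime_iff_not_dvd hp.out).2 hpK).symm
  exact mem_of_coprime_pow_mem h3 (hue ▸ hu) (hk' ▸ one_mem _)

/-- Scalars commute: `P ≤ [P, A] K` acts trivially on `N/C` when `A` acts by scalars on `N/C`. -/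
theorem le_actKer_of_scalars [Finite G] {A P K C N : Subgroup G} {p r : ℕ} [hp : Fact p.Prime]
    [hr : Fact r.Prime] (hCN : C ≤ N) (hab : ∀ x ∈ N, ∀ y ∈ N, ⁅x, y⁆ ∈ C)
    (hexp : ∀ x ∈ N, x ^ r ∈ C)
    (hA : ∀ Y : Subgroup G, C ≤ Y → Y ≤ N → A ≤ normalizer (Y : Set G))
    (hPC : P ≤ normalizer (C : Set G)) (hPN : P ≤ normalizer (N : Set G)) (hP : IsPGroup p P)
    (hK : K ≤ A) (hpK : ¬ p ∣ Nat.card K) (hPAK : P ≤ ⁅P, A⁆ ⊔ K) : P ≤ actKer C N := by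
  have hAC : A ≤ normalizer (C : Set G) := hA C le_rfl hCN
  have hAN : A ≤ normalizer (N : Set G) := hA N hCN le_rfl
  have h1 : ⁅P, A⁆ ≤ actKer C N := by
    rw [commutator_le]
    intro g hg a ha
    have h2 : ⁅a, g⁆ ∈ actKer C N := by
      refine ⟨?_, ?_, ?_⟩
      · exact mul_mem (mul_mem (mul_mem (hAC ha) (hPC hg)) (inv_mem (hAC ha))) (inv_mem (hPC hg))
      · exact mul_mem (mul_mem (mul_mem (hAN ha) (hPN hg)) (inv_mem (hAN ha))) (inv_mem (hPN hg))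
      · exact scal_comm hCN hab hexp (fun Y h1 h2 => hA Y h1 h2 ha) (hPN hg) (hPC hg)
    rw [← commutatorElement_inv]
    exact inv_mem h2
  refine le_of_le_sup_of_pprime (K := K) ?_ hP (hPAK.trans (sup_le_sup_right h1 K)) hpK
  exact (le_inf (hK.trans hAC) (hK.trans hAN)).trans le_normalizer_actKer

/-! ### The next term above `C` in an `r`-group `N` -/

theorem exists_step [Finite G] {N C : Subgroup G} {r : ℕ} [hr : Fact r.Prime] (hN : IsPGroup r N)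
    (hCN : C ≤ N) (hne : ¬ N ≤ C) :
    ∃ C₁ : Subgroup G, C ≤ C₁ ∧ ¬ C₁ ≤ C ∧ C₁ ≤ N ∧
      normalizer (N : Set G) ⊓ normalizer (C : Set G) ≤ normalizer (C₁ : Set G) ∧
      (∀ x ∈ C₁, ∀ y ∈ C₁, ⁅x, y⁆ ∈ C) ∧ ∀ x ∈ C₁, x ^ r ∈ C := by
  classical
  set H := Subgroup.normalizer (C : Set G) with hH
  have hCH : C ≤ H := Subgroup.le_normalizer
  let Q := H ⧸ C.subgroupOf H
  let π : H →* Q := QuotientGroup.mk' (C.subgroupOf H)
  have hπ : ∀ x : H, π x = 1 ↔ (x : G) ∈ C := by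
    intro x
    show (QuotientGroup.mk x : Q) = 1 ↔ _
    rw [QuotientGroup.eq_one_iff, Subgroup.mem_subgroupOf]
  have hπs : Function.Surjective π := QuotientGroup.mk'_surjective _
  set Nb : Subgroup Q := ((N ⊓ H).subgroupOf H).map π with hNb
  have hNbP : IsPGroup r Nb := by
    apply IsPGroup.map
    exact (hN.to_le inf_le_left).comap_subtype
  have hNbne : Nontrivial Nb := by
    have h1 := lt_inf_normalizer_of_lt hN (lt_of_le_of_ne hCN fun h => hne h.ge)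
    obtain ⟨n, ⟨hn, hnn⟩, hnC⟩ := SetLike.exists_of_lt h1
    refine ⟨⟨⟨π ⟨n, hnn⟩, ⟨⟨n, hnn⟩, ?_, rfl⟩⟩, 1, fun h => hnC ?_⟩⟩
    · rw [SetLike.mem_coe, Subgroup.mem_subgroupOf]
      exact ⟨hn, hnn⟩
    · exact (hπ ⟨n, hnn⟩).1 (congrArg Subtype.val h)
  -- `Z = Ω₁(Z(Nb))`
  let Z : Subgroup Q :=
    { carrier := {q | q ∈ Nb ∧ q ^ r = 1 ∧ ∀ m ∈ Nb, m * q = q * m}
      mul_mem' := by
        rintro x y ⟨hx1, hx2, hx3⟩ ⟨hy1, hy2, hy3⟩
        refine ⟨Nb.mul_mem hx1 hy1, ?_, ?_⟩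
        · have : Commute x y := hy3 x hx1
          rw [this.mul_pow, hx2, hy2, one_mul]
        · intro m hm
          rw [← mul_assoc, hx3 m hm, mul_assoc, hy3 m hm, mul_assoc]
      one_mem' := ⟨Nb.one_mem, one_pow _, fun m _ => by simp⟩
      inv_mem' := by
        rintro x ⟨hx1, hx2, hx3⟩
        refine ⟨Nb.inv_mem hx1, by rw [inv_pow, hx2, inv_one], fun m hm => ?_⟩
        have : Commute m x := hx3 m hm
        exact this.inv_right }
  have hZmem : ∀ q : Q, q ∈ Z ↔ q ∈ Nb ∧ q ^ r = 1 ∧ ∀ m ∈ Nb, m * q = q * m := fun q => Iff.rfl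
  have hmem : ∀ x : G, x ∈ (Z.comap π).map H.subtype ↔ ∃ h : x ∈ H, π ⟨x, h⟩ ∈ Z := by
    intro x
    constructor
    · rintro ⟨y, hy, rfl⟩
      exact ⟨y.2, hy⟩
    · rintro ⟨h, hx⟩
      exact ⟨⟨x, h⟩, hx, rfl⟩
  have hNbmem : ∀ x : H, π x ∈ Nb ↔ (x : G) ∈ N := by
    intro x
    constructor
    · rintro ⟨y, hy, e⟩
      rw [SetLike.mem_coe, Subgroup.mem_subgroupOf] at hy
      have h1 : π (x * y⁻¹) = 1 := by rw [map_mul, map_inv, e, mul_inv_cancel]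
      have h2 := hCN ((hπ _).1 h1)
      have h3 : (x : G) = ((x * y⁻¹ : H) : G) * y := by simp
      rw [h3]
      exact mul_mem h2 hy.1
    · intro hx
      exact ⟨x, by rw [SetLike.mem_coe, Subgroup.mem_subgroupOf]; exact ⟨hx, x.2⟩, rfl⟩
  refine ⟨(Z.comap π).map H.subtype, ?_, ?_, ?_, ?_, ?_, ?_⟩
  · intro c hc
    refine (hmem c).2 ⟨hCH hc, ?_⟩
    rw [(hπ ⟨c, hCH hc⟩).2 hc]
    exact one_mem _
  · intro hle
    have hcen : Nontrivial (Subgroup.center Nb) := hNbP.center_nontrivial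
    obtain ⟨z, hz⟩ : ∃ z : Subgroup.center Nb, orderOf z = r := by
      apply exists_prime_orderOf_dvd_card'
      rcases (hNbP.to_subgroup (Subgroup.center Nb)).card_eq_or_dvd with h | h
      · exact absurd h Finite.one_lt_card.ne'
      · exact h
    have hzZ : (z.1.1 : Q) ∈ Z := by
      refine ⟨z.1.2, ?_, ?_⟩
      · have h1 : z ^ r = 1 := by rw [← hz]; exact pow_orderOf_eq_one z
        exact congrArg (fun t : Subgroup.center Nb => (t.1.1 : Q)) h1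
      · intro m hm
        exact congrArg Subtype.val (Subgroup.mem_center_iff.1 z.2 ⟨m, hm⟩)
    obtain ⟨y, hy⟩ := hπs z.1.1
    have h1 : (y : G) ∈ C := hle ((hmem y).2 ⟨y.2, by rw [← hy] at hzZ; exact hzZ⟩)
    have h2 : (z.1.1 : Q) = 1 := by rw [← hy, (hπ y).2 h1]
    have h3 : z = 1 := Subtype.ext (Subtype.ext h2)
    rw [h3, orderOf_one] at hz
    exact hr.out.one_lt.ne hz
  · intro x hx
    obtain ⟨h, hx⟩ := (hmem x).1 hx
    exact (hNbmem ⟨x, h⟩).1 hx.1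
  · refine mem_normalizer_of_forall ?_
    rintro g ⟨hgN, hgC⟩ x hx
    obtain ⟨h, h1, h2, h3⟩ := (hmem x).1 hx
    have hgH : g ∈ H := hgC
    refine (hmem _).2 ⟨mul_mem (mul_mem hgH h) (inv_mem hgH), ?_⟩
    have e : π ⟨g * x * g⁻¹, mul_mem (mul_mem hgH h) (inv_mem hgH)⟩ =
        π ⟨g, hgH⟩ * π ⟨x, h⟩ * (π ⟨g, hgH⟩)⁻¹ := by
      rw [← map_inv, ← map_mul, ← map_mul]; rfl
    rw [e]
    refine ⟨?_, ?_, ?_⟩
    · rw [← e, hNbmem]
      exact mem_normalizer_conj hgN ((hNbmem ⟨x, h⟩).1 h1)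
    · rw [conj_pow, h2, mul_one, mul_inv_cancel]
    · intro m hm
      obtain ⟨m', rfl⟩ := hπs m
      have h4 : (π ⟨g, hgH⟩)⁻¹ * π m' * π ⟨g, hgH⟩ ∈ Nb := by
        have e2 : (π ⟨g, hgH⟩)⁻¹ * π m' * π ⟨g, hgH⟩ = π (⟨g, hgH⟩⁻¹ * m' * ⟨g, hgH⟩) := by
          rw [map_mul, map_mul, map_inv]
        rw [e2, hNbmem]
        exact mem_normalizer_conj' hgN ((hNbmem m').1 hm)
      have h5 := h3 _ h4
      calc π m' * (π ⟨g, hgH⟩ * π ⟨x, h⟩ * (π ⟨g, hgH⟩)⁻¹) =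
          π ⟨g, hgH⟩ * (((π ⟨g, hgH⟩)⁻¹ * π m' * π ⟨g, hgH⟩) * π ⟨x, h⟩) * (π ⟨g, hgH⟩)⁻¹ := by
            group
        _ = π ⟨g, hgH⟩ * π ⟨x, h⟩ * (π ⟨g, hgH⟩)⁻¹ * π m' := by rw [h5]; group
  · intro x hx y hy
    obtain ⟨h, hx⟩ := (hmem x).1 hx
    obtain ⟨h', hy⟩ := (hmem y).1 hy
    have h1 := hy.2.2 _ hx.1
    have h2 : π ⁅(⟨x, h⟩ : H), ⟨y, h'⟩⁆ = 1 := by
      rw [map_commutatorElement, commutatorElement_eq_one_iff_mul_comm]
      exact h1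
    exact (hπ _).1 h2
  · intro x hx
    obtain ⟨h, hx⟩ := (hmem x).1 hx
    have h2 : π ((⟨x, h⟩ : H) ^ r) = 1 := by rw [map_pow]; exact hx.2.1
    exact (hπ _).1 h2

/-! ### (B1) -/

/-- `L ∩ N ≤ A` for a normal `p'`-subgroup `N` and `L = AP`. -/
theorem sup_inf_le_of_coprime [Finite G] {A P N : Subgroup G} {p : ℕ} [hp : Fact p.Prime]
    (hP : IsPGroup p P) (hAP : Permutes A P) (hN : N.Normal) (hpN : ¬ p ∣ Nat.card N) :
    (A ⊔ P) ⊓ N ≤ A := by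
  obtain ⟨k, hk⟩ := IsPGroup.iff_card.1 hP
  refine le_of_coprime_index (E := A ⊔ P) (k := k) hp.out le_sup_left ?_ inf_le_left ?_ ?_
  · rw [hAP.relIndex_sup, ← hk]
    exact relIndex_dvd_card A P
  · refine mem_normalizer_of_forall ?_
    rintro t ht c ⟨hc1, hc2⟩
    have h1 : t * c * t⁻¹ ∈ A ⊔ P := mul_mem (mul_mem ht hc1) (inv_mem ht)
    exact ⟨h1, hN.conj_mem c hc2 t⟩
  · exact fun h => hpN (h.trans (Subgroup.card_dvd_of_le inf_le_right))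

/-- `P` normalises `A ∩ N`. -/
theorem conj_mem_inf_of_coprime [Finite G] {A P N : Subgroup G} {p : ℕ} [hp : Fact p.Prime]
    (hP : IsPGroup p P) (hAP : Permutes A P) (hN : N.Normal) (hpN : ¬ p ∣ Nat.card N) :
    ∀ g ∈ P, ∀ n ∈ A ⊓ N, g * n * g⁻¹ ∈ A ⊓ N := by
  rintro g hg n ⟨hn1, hn2⟩
  have h1 : g * n * g⁻¹ ∈ N := hN.conj_mem n hn2 g
  have hg' : g ∈ A ⊔ P := mem_sup_right hg
  have h2 : g * n * g⁻¹ ∈ A ⊔ P := mul_mem (mul_mem hg' (mem_sup_left hn1)) (inv_mem hg')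
  exact ⟨sup_inf_le_of_coprime hP hAP hN hpN ⟨h2, h1⟩, h1⟩

theorem uB1 [Finite G] {A P K N : Subgroup G} {p r : ℕ} [hp : Fact p.Prime] [hr : Fact r.Prime]
    (hA : HerPermutable A) (hP : IsPGroup p P) (hAP : Permutes A P) (hpA : ¬ p ∣ Nat.card A)
    (hKA : K ≤ A) (hPAK : P ≤ ⁅P, A⁆ ⊔ K) (hN : N.Normal) (hNr : IsPGroup r N) (hrp : r ≠ p) :
    ⁅N, P⁆ ≤ A := by
  classical
  have hpN : ¬ p ∣ Nat.card N := not_dvd_card_of_isPGroup hp.out hr.out hrp hNr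
  have hNA := conj_mem_inf_of_coprime hP hAP hN hpN
  have hPN : P ≤ normalizer (N : Set G) := by
    rw [normalizer_eq_top_iff.2 hN]; exact le_top
  have hbot : (A ⊓ N) ∈ {C : Subgroup G | A ⊓ N ≤ C ∧ C ≤ N ∧ P ≤ normalizer (C : Set G) ∧
      ⁅C, P⁆ ≤ A ⊓ N} := by
    refine ⟨le_rfl, inf_le_right, mem_normalizer_of_forall hNA, ?_⟩
    rw [commutator_le]
    intro x hx g hg
    have h1 := hNA g hg _ ((A ⊓ N).inv_mem hx)
    have h2 : ⁅x, g⁆ = x * (g * x⁻¹ * g⁻¹) := by rw [commutatorElement_def]; group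
    rw [h2]
    exact mul_mem hx h1
  obtain ⟨C, hC, hmax⟩ := Set.Finite.exists_maximal (Set.toFinite _) ⟨_, hbot⟩
  obtain ⟨hC1, hC2, hC3, hC4⟩ := hC
  by_cases hNC : N ≤ C
  · exact ((commutator_mono hNC le_rfl).trans hC4).trans inf_le_left
  exfalso
  obtain ⟨C₁, h1, h2, h3, h4, h5, h6⟩ := exists_step hNr hC2 hNC
  have hPC₁ : P ≤ normalizer (C₁ : Set G) := (le_inf hPN hC3).trans h4
  have hact : P ≤ actKer C C₁ := by
    refine le_actKer_of_scalars (A := A) (K := K) h1 h5 h6 ?_ hC3 hPC₁ hP hKA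
      (fun h => hpA (h.trans (Subgroup.card_dvd_of_le hKA))) hPAK
    intro Y hY1 hY2
    refine normalizes_of_between (E := ⊤) (r := r) hA le_top hNr le_top ?_ (hC1.trans hY1)
      (hY2.trans h3)
    rw [normalizer_eq_top_iff.2 hN]
  have h7 : ⁅C₁, P⁆ ≤ A ⊓ N := by
    have hpC : ¬ p ∣ Nat.card C₁ := fun h => hpN (h.trans (Subgroup.card_dvd_of_le h3))
    rw [← commutator_commutator_eq hP hPC₁ hpC]
    exact (commutator_mono (commutator_le_of_le_actKer hact) le_rfl).trans hC4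
  exact h2 (hmax ⟨hC1.trans h1, h3, hPC₁, h7⟩ h1)

end MP_5771ce_al
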