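import Pool.Agent.Lib.MP_5771ce_al.S4.UA1

/-!
# Section 4.5 of `GROUP` (MP_5771ce_al): the normal subgroups `[Q, P]` and `[Q, P] P`
-/

open Subgroup
open scoped Pointwise commutatorElement

namespace MP_5771ce_al

universe u

theorem eq_bot_of_isPGroup_of_not_dvd {G : Type u} [Group G] [Finite G] {p : ℕ}
    [hp : Fact p.Prime] {N : Subgroup G} (hN : IsPGroup p N) (h : ¬ p ∣ Nat.card N) : N = ⊥ := by
  obtain ⟨k, hk⟩ := IsPGroup.iff_card.1 hN
  rcases Nat.eq_zero_or_pos k with rfl | hk0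
  · rw [pow_zero] at hk
    exact Subgroup.card_eq_one.1 hk
  · exfalso
    apply h
    rw [hk]
    exact dvd_pow_self p hk0.ne'

/-! ### (B2) -/

theorem uB2_aux {p : ℕ} [hp : Fact p.Prime] : ∀ n : ℕ, ∀ (G : Type u) [Group G] [Finite G]
    (A P K Q : Subgroup G), Nat.card G = n → HerPermutable A → IsPGroup p P → Permutes A P →
    ¬ p ∣ Nat.card A → K ≤ A → P ≤ ⁅P, A⁆ ⊔ K → Q.Normal → Group.IsSolvable Q →
    ¬ p ∣ Nat.card Q → ⁅Q, P⁆ ≤ A := by
  intro n
  induction n using Nat.strong_induction_on with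
  | _ n ih =>
    intro G _ _ A P K Q hn hA hP hAP hpA hKA hPAK hQ hQs hpQ
    by_cases hQb : Q = ⊥
    · rw [hQb, commutator_bot_left]
      exact bot_le
    obtain ⟨r, hr, V, hVQ, hVn, hVne, hVr, -, -⟩ :=
      exists_elementary_abelian (normalIn_top.2 hQ) hQs hQb
    have hrf : Fact r.Prime := ⟨hr⟩
    have hV : V.Normal := normalIn_top.1 hVn
    have hrp : r ≠ p := by
      rintro rfl
      exact hVne (eq_bot_of_isPGroup_of_not_dvd hVr
        fun h => hpQ (h.trans (Subgroup.card_dvd_of_le hVQ)))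
    have hB1 : ⁅V, P⁆ ≤ A := uB1 hA hP hAP hpA hKA hPAK hV hVr hrp
    set f := QuotientGroup.mk' V with hf
    have hfs : Function.Surjective f := QuotientGroup.mk'_surjective V
    have hcard : Nat.card (G ⧸ V) < n := by
      have h1 := Subgroup.card_mul_index V
      rw [Subgroup.index_eq_card] at h1
      have h2 : 1 < Nat.card V := by
        rw [Finite.one_lt_card_iff_nontrivial, Subgroup.nontrivial_iff_ne_bot]
        exact hVne
      have h3 : 0 < Nat.card (G ⧸ V) := Nat.card_pos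
      rw [← hn]
      nlinarith
    have h1 := ih _ hcard (G ⧸ V) (A.map f) (P.map f) (K.map f) (Q.map f) rfl (hA.map hfs)
      (hP.map f) (permutes_map hAP f) (fun h => hpA (h.trans (Subgroup.card_map_dvd A f)))
      (map_mono hKA) (by rw [← map_commutator, ← Subgroup.map_sup]; exact map_mono hPAK)
      (hQ.map f hfs) (isSolvable_map hQs f) (fun h => hpQ (h.trans (Subgroup.card_map_dvd Q f)))
    rw [← map_commutator, map_le_iff_le_comap, comap_map_eq, hf, QuotientGroup.ker_mk'] at h1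
    have hPQ : P ≤ normalizer (Q : Set G) := by
      rw [normalizer_eq_top_iff.2 hQ]; exact le_top
    have hQP : ⁅Q, P⁆ ≤ Q := le_normalizer_iff_commutator_le_left.1 hPQ
    have hinf := conj_mem_inf_of_coprime hP hAP hQ hpQ
    rw [← commutator_commutator_eq hP hPQ hpQ, commutator_le]
    intro x hx g hg
    have hVA : A ≤ normalizer (V : Set G) := by
      rw [normalizer_eq_top_iff.2 hV]; exact le_top
    obtain ⟨a, ha, v, hv, e⟩ := (mem_sup_of_le_normalizer hVA).1 (sup_comm A V ▸ h1 hx)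
    have haQ : a ∈ Q := by
      have : a = x * v⁻¹ := by rw [← e]; group
      rw [this]
      exact Q.mul_mem (hQP hx) (Q.inv_mem (hVQ hv))
    have h2 : ⁅x, g⁆ = a * ⁅v, g⁆ * a⁻¹ * (a * (g * a⁻¹ * g⁻¹)) := by
      rw [← e]
      simp only [commutatorElement_def]
      group
    rw [h2]
    have h3 : ⁅v, g⁆ ∈ A := hB1 (commutator_mem_commutator hv hg)
    have h4 : g * a⁻¹ * g⁻¹ ∈ A := (hinf g hg _ ⟨A.inv_mem ha, Q.inv_mem haQ⟩).1
    exact A.mul_mem (A.mul_mem (A.mul_mem ha h3) (A.inv_mem ha)) (A.mul_mem ha h4)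

variable {G : Type u} [Group G]

theorem uB2 [Finite G] {A P K Q : Subgroup G} {p : ℕ} [hp : Fact p.Prime]
    (hA : HerPermutable A) (hP : IsPGroup p P) (hAP : Permutes A P) (hpA : ¬ p ∣ Nat.card A)
    (hKA : K ≤ A) (hPAK : P ≤ ⁅P, A⁆ ⊔ K) (hQ : Q.Normal) (hQs : Group.IsSolvable Q)
    (hpQ : ¬ p ∣ Nat.card Q) : ⁅Q, P⁆ ≤ A :=
  uB2_aux _ G A P K Q rfl hA hP hAP hpA hKA hPAK hQ hQs hpQ

/-! ### (B3) -/

/-- If `O_{p'}(Rad G) = 1` then the elements of `Rad(G)` acting trivially on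
`O_p(G)/Φ(O_p(G))` lie in `O_p(G)`. -/
theorem inf_actKer_le_opc [Finite G] {p : ℕ} [hp : Fact p.Prime]
    (hopp : opp p (rad (⊤ : Subgroup G)) = ⊥) :
    rad ⊤ ⊓ actKer (frat (opc p (⊤ : Subgroup G))) (opc p ⊤) ≤ opc p ⊤ := by
  set R := opc p (⊤ : Subgroup G) with hR
  have hRn : R.Normal := opc_top_normal p
  have hRp : IsPGroup p R := opc_isPGroup p ⊤
  have hNR : normalizer (R : Set G) = ⊤ := normalizer_eq_top_iff.2 hRn
  have hNF : normalizer (frat R : Set G) = ⊤ := by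
    rw [eq_top_iff, ← hNR]; exact le_normalizer_frat
  set T := rad ⊤ ⊓ actKer (frat R) R with hT
  have hTn : NormalIn T ⊤ := by
    refine (rad_normalIn ⊤).inf (normalIn_of_le_normalizer le_top ?_)
    refine le_trans ?_ le_normalizer_actKer
    rw [hNF, hNR]
    exact le_inf le_rfl le_rfl
  apply le_opc hTn
  -- `T` is a `p`-group
  have hC : rad ⊤ ⊓ centralizer (R : Set G) ≤ R := by
    have := inf_centralizer_opc_le hp.out (rad_isSolvable (⊤ : Subgroup G)) hopp
    rwa [opc_rad] at this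
  have key : ∀ {d : ℕ}, d.Prime → d ∣ Nat.card T → d = p := by
    intro r hr hd
    by_contra hne
    have hrf : Fact r.Prime := ⟨hr⟩
    obtain ⟨t, ht⟩ := exists_prime_orderOf_dvd_card' r hd
    have ht' : orderOf (t : G) = r := by rw [Subgroup.orderOf_coe, ht]
    have hXr : IsPGroup r (zpowers (t : G)) := by
      apply IsPGroup.of_card (n := 1)
      rw [Nat.card_zpowers, ht', pow_one]
    have hXT : zpowers (t : G) ≤ T := by rw [zpowers_le]; exact t.2
    have hXN : zpowers (t : G) ≤ normalizer (R : Set G) := by rw [hNR]; exact le_top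
    have h1 : ⁅R, zpowers (t : G)⁆ = ⊥ := by
      refine commutator_eq_bot_of_frat hXr hXN ?_ ?_
      · exact not_dvd_card_of_isPGroup hr hp.out (Ne.symm hne) hRp
      · exact commutator_le_of_le_actKer (hXT.trans inf_le_right)
    have h2 : (t : G) ∈ R := by
      apply hC
      refine ⟨t.2.1, ?_⟩
      rw [commutator_comm, commutator_eq_bot_iff_le_centralizer] at h1
      exact h1 (mem_zpowers _)
    obtain ⟨k, hk⟩ := hRp ⟨t, h2⟩
    have h3 : (t : G) ^ p ^ k = 1 := congrArg Subtype.val hk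
    have h4 := orderOf_dvd_of_pow_eq_one h3
    rw [ht'] at h4
    exact hne ((Nat.prime_dvd_prime_iff_eq hr hp.out).1 (hr.dvd_of_dvd_pow h4))
  exact IsPGroup.of_card (Nat.eq_prime_pow_of_unique_prime_dvd Nat.card_pos.ne' key)

theorem commutator_le_rad [Finite G] {A P : Subgroup G} (hAr : A ≤ rad ⊤) :
    ⁅P, A⁆ ≤ rad (⊤ : Subgroup G) := by
  rw [commutator_le]
  intro g _ a ha
  rw [commutatorElement_def]
  exact mul_mem (rad_top_normal.conj_mem a (hAr ha) g) (inv_mem (hAr ha))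

theorem uB3_aux [Finite G] {A P K : Subgroup G} {p : ℕ} [hp : Fact p.Prime]
    (hA : HerPermutable A) (hAr : A ≤ rad ⊤) (hP : IsPGroup p P) (hpA : ¬ p ∣ Nat.card A)
    (hKA : K ≤ A) (hPAK : P ≤ ⁅P, A⁆ ⊔ K) (hopp : opp p (rad (⊤ : Subgroup G)) = ⊥) :
    P ≤ opc p ⊤ := by
  refine le_trans (le_inf ?_ ?_) (inf_actKer_le_opc hopp)
  · exact hPAK.trans (sup_le (commutator_le_rad hAr) (hKA.trans hAr))
  set R := opc p (⊤ : Subgroup G) with hR
  have hRn : R.Normal := opc_top_normal p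
  have hRp : IsPGroup p R := opc_isPGroup p ⊤
  have hNR : normalizer (R : Set G) = ⊤ := normalizer_eq_top_iff.2 hRn
  have hNF : normalizer (frat R : Set G) = ⊤ := by
    rw [eq_top_iff, ← hNR]; exact le_normalizer_frat
  have hAR : A ⊓ R = ⊥ := by
    exact eq_bot_of_isPGroup_of_not_dvd (hRp.to_le (inf_le_right : A ⊓ R ≤ R))
      fun h => hpA (h.trans (Subgroup.card_dvd_of_le inf_le_left))
  refine le_actKer_of_scalars (A := A) (K := K) (r := p) (frat_le R) ?_
    (fun x hx => pow_mem_frat hRp hx) ?_ ?_ ?_ hP hKA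
    (fun h => hpA (h.trans (Subgroup.card_dvd_of_le hKA))) hPAK
  · intro x hx y hy
    exact commutator_le_frat hRp (commutator_mem_commutator hx hy)
  · intro Y _ hY
    refine normalizes_of_between (E := ⊤) (r := p) hA le_top hRp le_top ?_ ?_ hY
    · rw [hNR]
    · rw [hAR]; exact bot_le
  · rw [hNF]; exact le_top
  · rw [hNR]; exact le_top

/-- `O_{p'}(G/O_{p'}(Rad G)) ∩ Rad = 1`, and the quotient form of `(B3)`. -/
theorem uB3 [Finite G] {A P K : Subgroup G} {p : ℕ} [hp : Fact p.Prime]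
    (hA : HerPermutable A) (hAr : A ≤ rad ⊤) (hP : IsPGroup p P) (hPi : ¬ p ∣ P.index)
    (hpA : ¬ p ∣ Nat.card A) (hKA : K ≤ A) (hPAK : P ≤ ⁅P, A⁆ ⊔ K) :
    (opp p (rad (⊤ : Subgroup G)) ⊔ P).Normal := by
  set Q := opp p (rad (⊤ : Subgroup G)) with hQ
  have hQn : Q.Normal := normalIn_top.1 ((rad_normalIn ⊤).opp hp.out)
  have hQs : Group.IsSolvable Q := isSolvable_of_le (rad_isSolvable ⊤) (opp_le p _)
  set f := QuotientGroup.mk' Q with hf
  have hfs : Function.Surjective f := QuotientGroup.mk'_surjective Q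
  have hrad : rad (⊤ : Subgroup (G ⧸ Q)) = (rad (⊤ : Subgroup G)).map f := by
    rw [← map_mk'_top, rad_map_mk' le_top hQs]
  have hopp : opp p (rad (⊤ : Subgroup (G ⧸ Q))) = ⊥ := by
    rw [hrad, hf, opp_map_mk' hp.out (opp_le p _) (not_dvd_card_opp hp.out _), map_mk'_self]
  have h1 : P.map f ≤ opc p ⊤ := by
    refine uB3_aux (A := A.map f) (K := K.map f) (hA.map hfs) ?_ (hP.map f)
      (fun h => hpA (h.trans (Subgroup.card_map_dvd A f))) (map_mono hKA) ?_ hopp
    · rw [hrad]; exact map_mono hAr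
    · rw [← map_commutator, ← Subgroup.map_sup]; exact map_mono hPAK
  have hS : IsSylowIn p P ⊤ := ⟨le_top, hP, by rwa [relIndex_top_right]⟩
  have h2 : opc p ⊤ ≤ P.map f := by
    have := (hS.map f).opc_le
    rwa [map_top_of_surjective f hfs] at this
  have h3 : P.map f = opc p ⊤ := le_antisymm h1 h2
  have h4 : (P.map f).Normal := h3 ▸ opc_top_normal p
  have h5 : (P.map f).comap f = Q ⊔ P := by
    rw [comap_map_eq, hf, QuotientGroup.ker_mk', sup_comm]
  rw [← h5]
  exact h4.comap f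

/-! ### (B4), (B5) -/

theorem le_normalizer_commutator_left (H K : Subgroup G) : H ≤ normalizer ((⁅H, K⁆ : Subgroup G) : Set G) := by
  refine mem_normalizer_of_forall ?_
  intro h hh c hc
  have hmap : (⁅H, K⁆).map (MulAut.conj h).toMonoidHom ≤ ⁅H, K⁆ := by
    rw [map_le_iff_le_comap, commutator_le]
    intro h' hh' k hk
    rw [mem_comap]
    show h * ⁅h', k⁆ * h⁻¹ ∈ ⁅H, K⁆
    have e : h * ⁅h', k⁆ * h⁻¹ = ⁅h * h', k⁆ * (⁅h, k⁆)⁻¹ := by
      simp only [commutatorElement_def]; group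
    rw [e]
    exact mul_mem (commutator_mem_commutator (mul_mem hh hh') hk)
      (inv_mem (commutator_mem_commutator hh hk))
  exact hmap ⟨c, hc, rfl⟩

/-- If `H ≤ T K`, `K` normalises `T` and `(|H|, |K|) = 1` then `H ≤ T`. -/
theorem le_of_le_sup_of_coprime_card [Finite G] {T K H : Subgroup G}
    (hK : K ≤ normalizer (T : Set G)) (hHT : H ≤ T ⊔ K)
    (hco : (Nat.card H).Coprime (Nat.card K)) : H ≤ T := by
  intro g hg
  have hk' : g ^ Nat.card H = 1 := by
    have := pow_card_eq_one' (x := (⟨g, hg⟩ : H))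
    exact congrArg Subtype.val this
  obtain ⟨t, ht, b, hb, e⟩ := (mem_sup_of_le_normalizer' hK).1 (hHT hg)
  have h1 : ∀ n : ℕ, ∃ u ∈ T, u * b ^ n = g ^ n := by
    intro n
    induction n with
    | zero => exact ⟨1, one_mem _, by simp⟩
    | succ n ih =>
      obtain ⟨u, hu, hue⟩ := ih
      have h2 : b ^ n * t * (b ^ n)⁻¹ ∈ T :=
        mem_normalizer_conj (hK (pow_mem hb n)) ht
      refine ⟨u * (b ^ n * t * (b ^ n)⁻¹), mul_mem hu h2, ?_⟩
      rw [pow_succ g, ← hue, ← e, pow_succ b]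
      group
  obtain ⟨u, hu, hue⟩ := h1 (Nat.card K)
  have h2 : b ^ Nat.card K = 1 := by
    have := pow_card_eq_one' (x := (⟨b, hb⟩ : K))
    exact congrArg Subtype.val this
  rw [h2, mul_one] at hue
  exact mem_of_coprime_pow_mem hco.symm (hue ▸ hu) (hk' ▸ one_mem _)

/-- `O_{p'}(AP) ≤ A`. -/
theorem opp_sup_le [Finite G] {A P : Subgroup G} {p : ℕ} [hp : Fact p.Prime]
    (hP : IsPGroup p P) (hAP : Permutes A P) : opp p (A ⊔ P) ≤ A := by
  obtain ⟨k, hk⟩ := IsPGroup.iff_card.1 hP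
  refine le_of_coprime_index (E := A ⊔ P) (k := k) hp.out le_sup_left ?_ (opp_le p _)
    (opp_normalIn hp.out _).le_normalizer (not_dvd_card_opp hp.out _)
  rw [hAP.relIndex_sup, ← hk]
  exact relIndex_dvd_card A P

theorem thmU [Finite G] {A P : Subgroup G} {p : ℕ} [hp : Fact p.Prime]
    (hA : HerPermutable A) (hAr : A ≤ rad ⊤) (hP : IsPGroup p P) (hPi : ¬ p ∣ P.index)
    (hAP : Permutes A P) (hpA : ¬ p ∣ Nat.card A) (hPAK : P ≤ ⁅P, A⁆ ⊔ opp p (A ⊔ P)) :
    (⁅opp p (A ⊔ P), P⁆).Normal ∧ (⁅opp p (A ⊔ P), P⁆ ⊔ P).Normal := by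
  set K := opp p (A ⊔ P) with hK
  have hKA : K ≤ A := opp_sup_le hP hAP
  have hPK : P ≤ normalizer (K : Set G) := le_sup_right.trans (opp_normalIn hp.out _).le_normalizer
  have hpK : ¬ p ∣ Nat.card K := not_dvd_card_opp hp.out _
  have hQP := uB3 hA hAr hP hPi hpA hKA hPAK
  set Q := opp p (rad (⊤ : Subgroup G)) with hQ
  have hQn : Q.Normal := normalIn_top.1 ((rad_normalIn ⊤).opp hp.out)
  have hQs : Group.IsSolvable Q := isSolvable_of_le (rad_isSolvable ⊤) (opp_le p _)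
  have hpQ : ¬ p ∣ Nat.card Q := not_dvd_card_opp hp.out _
  have hPQ : P ≤ normalizer (Q : Set G) := by
    rw [normalizer_eq_top_iff.2 hQn]; exact le_top
  have hQA : ⁅Q, P⁆ ≤ A := uB2 hA hP hAP hpA hKA hPAK hQn hQs hpQ
  have hQPQ : ⁅Q, P⁆ ≤ Q := le_normalizer_iff_commutator_le_left.1 hPQ
  -- the two commutators agree
  have heq : ⁅K, P⁆ = ⁅Q, P⁆ := by
    apply le_antisymm
    · have h1 : ⁅K, P⁆ ≤ K := le_normalizer_iff_commutator_le_left.1 hPK
      have h2 : ⁅K, P⁆ ≤ Q ⊔ P := by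
        rw [commutator_le]
        intro x _ g hg
        rw [commutatorElement_def]
        exact mul_mem (hQP.conj_mem g (mem_sup_right hg) x) (inv_mem (mem_sup_right hg))
      have h3 : ⁅K, P⁆ ≤ Q := by
        refine le_of_le_sup_of_coprime_card hPQ h2 ?_
        obtain ⟨k, hk⟩ := IsPGroup.iff_card.1 hP
        rw [hk]
        apply Nat.Coprime.pow_right
        apply Nat.Coprime.symm
        rw [Nat.Prime.coprime_iff_not_dvd hp.out]
        exact fun h => hpK (h.trans (Subgroup.card_dvd_of_le h1))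
      rw [← commutator_commutator_eq hP hPK hpK]
      exact commutator_mono h3 le_rfl
    · have h1 : ⁅Q, P⁆ ≤ K := by
        have h0 : ⁅Q, P⁆ ≤ (A ⊔ P) ⊓ Q := le_inf (hQA.trans le_sup_left) hQPQ
        refine h0.trans ?_
        refine le_opp (E := A ⊔ P) ⟨inf_le_left, ?_⟩ ?_
        · rintro e he n ⟨hn1, hn2⟩
          have h1 : e * n * e⁻¹ ∈ A ⊔ P := mul_mem (mul_mem he hn1) (inv_mem he)
          exact ⟨h1, hQn.conj_mem n hn2 e⟩
        · exact fun h => hpQ (h.trans (Subgroup.card_dvd_of_le inf_le_right))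
      rw [← commutator_commutator_eq hP hPQ hpQ]
      exact commutator_mono h1 le_rfl
  rw [heq]
  -- `G = Q N_G(P)`
  have hS : IsSylowIn p P ⊤ := ⟨le_top, hP, by rwa [relIndex_top_right]⟩
  have hfac : ∀ g : G, ∃ q ∈ Q, ∃ y ∈ normalizer (P : Set G), q * y = g := by
    intro g
    obtain ⟨n, hn, x, hx, e⟩ := (hS.of_le le_sup_right le_top).frattini (normalIn_top.2 hQP)
      (mem_top g)
    obtain ⟨q, hq, b, hb, e'⟩ := (mem_sup_of_le_normalizer' hPQ).1 hn
    exact ⟨q, hq, b * x, mul_mem (le_normalizer hb) hx.2, by rw [← mul_assoc, e', e]⟩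
  have hV : normalizer ((⁅Q, P⁆ : Subgroup G) : Set G) = ⊤ := by
    rw [eq_top_iff]
    intro g _
    obtain ⟨q, hq, y, hy, rfl⟩ := hfac g
    refine mul_mem (le_normalizer_commutator_left Q P hq) ?_
    refine le_normalizer_commutator (B := normalizer (P : Set G)) ?_ le_rfl hy
    rw [normalizer_eq_top_iff.2 hQn]; exact le_top
  have hVn : (⁅Q, P⁆).Normal := normalizer_eq_top_iff.1 hV
  refine ⟨hVn, ⟨fun n hn g => ?_⟩⟩
  have hPV : P ≤ normalizer ((⁅Q, P⁆ : Subgroup G) : Set G) := by rw [hV]; exact le_top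
  obtain ⟨q, hq, y, hy, rfl⟩ := hfac g
  obtain ⟨v, hv, b, hb, rfl⟩ := (mem_sup_of_le_normalizer' hPV).1 hn
  have hb' : y * b * y⁻¹ ∈ P := mem_normalizer_conj hy hb
  have e : q * y * (v * b) * (q * y)⁻¹ =
      ((q * y) * v * (q * y)⁻¹) * (⁅q, y * b * y⁻¹⁆ * (y * b * y⁻¹)) := by
    simp only [commutatorElement_def]; group
  rw [e]
  exact mul_mem (mem_sup_left (hVn.conj_mem v hv _))
    (mul_mem (mem_sup_left (commutator_mem_commutator hq hb')) (mem_sup_right hb'))

end MP_5771ce_al
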