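import Pool.Agent.Lib.MP_5771ce_al.S4.UA2
import Pool.Agent.Lib.MP_5771ce_al.S4.Ctx

/-!
# Section 4.5 of `GROUP` (MP_5771ce_al): rigid pairs
-/

open Subgroup
open scoped Pointwise commutatorElement

namespace MP_5771ce_al

universe u

variable {G : Type u} [Group G]

/-! ### (U0) -/

theorem exists_prime_not_commute [Finite G] {A R : Subgroup G} (h : ⁅R, A⁆ ≠ ⊥) :
    ∃ q : ℕ, q.Prime ∧ ∃ X ≤ A, IsPGroup q X ∧ ⁅R, X⁆ ≠ ⊥ := by
  by_contra hno
  push Not at hno
  apply h
  set C := A ⊓ centralizer (R : Set G) with hC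
  have h1 : C.relIndex A = 1 := by
    by_contra hne
    obtain ⟨q, hq, hd⟩ := Nat.exists_prime_and_dvd hne
    have hqf : Fact q.Prime := ⟨hq⟩
    obtain ⟨Q, hQ⟩ := exists_isSylowIn (p := q) A
    apply hQ.not_dvd
    have h2 : Q ≤ C := by
      refine le_inf hQ.le ?_
      have h3 := hno q hq Q hQ.le hQ.isPGroup
      rwa [commutator_comm, commutator_eq_bot_iff_le_centralizer] at h3
    exact hd.trans (relIndex_dvd_of_le_left A h2)
  have h2 : A ≤ C := relIndex_eq_one.1 h1
  rw [commutator_comm, commutator_eq_bot_iff_le_centralizer]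
  exact h2.trans inf_le_right

theorem u0_aux [Finite G] {A P : Subgroup G} {p : ℕ} [hp : Fact p.Prime]
    (hrad : rad (⊤ : Subgroup G) = ⊤) (hA : HerPermutable A) (hP : IsPGroup p P)
    (hPi : ¬ p ∣ P.index) (htop : A ⊔ P = ⊤) (hpA : ¬ p ∣ Nat.card A) (hne : A ≠ ⊥)
    (hopp : opp p (⊤ : Subgroup G) = ⊥) :
    P ≤ ⁅P, A⁆ ∧ (∀ x ∈ P, ∀ y ∈ P, x * y = y * x) ∧
      ∀ Y : Subgroup G, Y ≤ P → A ≤ normalizer (Y : Set G) := by
  set R := opc p (⊤ : Subgroup G) with hR
  have hRn : R.Normal := opc_top_normal p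
  have hRp : IsPGroup p R := opc_isPGroup p ⊤
  have hNR : normalizer (R : Set G) = ⊤ := normalizer_eq_top_iff.2 hRn
  have hNF : normalizer (frat R : Set G) = ⊤ := by
    rw [eq_top_iff, ← hNR]; exact le_normalizer_frat
  have hopp' : opp p (rad (⊤ : Subgroup G)) = ⊥ := by rw [hrad, hopp]
  have hAR : A ⊓ R = ⊥ := by
    exact eq_bot_of_isPGroup_of_not_dvd (hRp.to_le (inf_le_right : A ⊓ R ≤ R))
      fun h => hpA (h.trans (Subgroup.card_dvd_of_le inf_le_left))
  have hinv : ∀ Y : Subgroup G, Y ≤ R → A ≤ normalizer (Y : Set G) := by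
    intro Y hY
    refine normalizes_of_between (E := ⊤) (r := p) hA le_top hRp le_top ?_ ?_ hY
    · rw [hNR]
    · rw [hAR]; exact bot_le
  have hS : IsSylowIn p P ⊤ := ⟨le_top, hP, by rwa [relIndex_top_right]⟩
  have hRP : R ≤ P := hS.opc_le
  have hcomm : ∀ a ∈ A, ∀ s : G, ⁅a, s⁆ ∈ R := by
    intro a ha s
    apply inf_actKer_le_opc hopp'
    refine ⟨by rw [hrad]; exact mem_top _, ?_, ?_, ?_⟩
    · rw [hNF]; exact mem_top _
    · rw [hNR]; exact mem_top _
    · refine scal_comm (r := p) (frat_le R) ?_ (fun x hx => pow_mem_frat hRp hx)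
        (fun Y _ hY => hinv Y hY ha) (by rw [hNR]; exact mem_top _) (by rw [hNF]; exact mem_top _)
      intro x hx y hy
      exact commutator_le_frat hRp (commutator_mem_commutator hx hy)
  have hAP : A ≤ normalizer (P : Set G) := by
    refine mem_normalizer_of_forall ?_
    intro a ha g hg
    have h1 := P.mul_mem (hRP (hcomm a ha g)) hg
    rw [commutatorElement_def] at h1
    simpa using h1
  have hPn : NormalIn P ⊤ := by
    refine normalIn_of_le_normalizer le_top ?_
    rw [← htop]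
    exact sup_le hAP le_normalizer
  have hPR : P = R := le_antisymm (le_opc hPn hP) hRP
  rw [← hPR] at hinv hAR hRp hNR
  have hCP : centralizer (P : Set G) ≤ P := by
    have := inf_centralizer_opc_le hp.out (rad_isSolvable (⊤ : Subgroup G)) hopp'
    rwa [opc_rad, ← hR, ← hPR, hrad, top_inf_eq] at this
  have hne' : ⁅P, A⁆ ≠ ⊥ := by
    intro h1
    rw [commutator_comm, commutator_eq_bot_iff_le_centralizer] at h1
    apply hne
    rw [eq_bot_iff, ← hAR]
    exact le_inf le_rfl (h1.trans hCP)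
  obtain ⟨q, hq, X, hXA, hXq, hX⟩ := exists_prime_not_commute hne'
  have hqf : Fact q.Prime := ⟨hq⟩
  have hXP : X ≤ normalizer (P : Set G) := hXA.trans hAP
  have hDP : ⁅P, X⁆ ≤ P := le_normalizer_iff_commutator_le_left.1 hXP
  have hqp : p ≠ q := by
    rintro rfl
    apply hX
    rw [eq_bot_of_isPGroup_of_not_dvd hXq fun h => hpA (h.trans (Subgroup.card_dvd_of_le hXA)),
      commutator_bot_right]
  have hD : ⁅P, X⁆ ≤ ⁅⁅P, X⁆, A⁆ := by
    conv_lhs => rw [← commutator_commutator_eq hXq hXP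
      (not_dvd_card_of_isPGroup hq hp.out hqp hP)]
    exact commutator_mono le_rfl hXA
  have hinv' : ∀ Y ≤ P, ∀ a ∈ A, ∀ y ∈ Y, a * y * a⁻¹ ∈ Y := fun Y hY a ha y hy =>
    mem_normalizer_conj (hinv Y hY ha) hy
  exact ⟨le_commutator_of_power hP hinv' hDP hX hD le_rfl,
    comm_of_power hP hinv' hDP hX hD, hinv⟩

theorem u0_abs [Finite G] {A P : Subgroup G} {p : ℕ} [hp : Fact p.Prime]
    (hrad : rad (⊤ : Subgroup G) = ⊤) (hA : HerPermutable A) (hP : IsPGroup p P)
    (hPi : ¬ p ∣ P.index) (hAP : Permutes A P) (htop : A ⊔ P = ⊤) (hpA : ¬ p ∣ Nat.card A)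
    (hnn : ¬ A.Normal) :
    P ≤ ⁅P, A⁆ ⊔ opp p ⊤ ∧ (∀ x ∈ P, ∀ y ∈ P, x * y = y * x) ∧
      ∀ Y : Subgroup G, opp p ⊤ ≤ Y → Y ≤ opp p ⊤ ⊔ P → A ≤ normalizer (Y : Set G) := by
  set K := opp p (⊤ : Subgroup G) with hK
  have hKn : K.Normal := opp_top_normal hp.out
  have hKs : Group.IsSolvable K := isSolvable_of_le (rad_isSolvable (⊤ : Subgroup G))
    (by rw [hrad]; exact le_top)
  have hpK : ¬ p ∣ Nat.card K := not_dvd_card_opp hp.out _
  have hKA : K ≤ A := by
    have := opp_sup_le hP hAP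
    rwa [htop] at this
  set f := QuotientGroup.mk' K with hf
  have hfs : Function.Surjective f := QuotientGroup.mk'_surjective K
  have hker : f.ker = K := by rw [hf, QuotientGroup.ker_mk']
  have hS : IsSylowIn p P ⊤ := ⟨le_top, hP, by rwa [relIndex_top_right]⟩
  obtain ⟨h1, h2, h3⟩ := u0_aux (A := A.map f) (P := P.map f) (p := p) (by
      rw [← map_mk'_top, rad_map_mk' le_top hKs, hrad]) (hA.map hfs) (hP.map f) (by
      have := (hS.map f).not_dvd
      rwa [map_top_of_surjective f hfs, relIndex_top_right] at this) (by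
      rw [← Subgroup.map_sup, htop, map_top_of_surjective f hfs])
      (fun h => hpA (h.trans (Subgroup.card_map_dvd A f))) (by
      intro h
      apply hnn
      rw [Subgroup.map_eq_bot_iff, hker] at h
      rw [le_antisymm h hKA]
      exact hKn) (by
      rw [← map_mk'_top, opp_map_mk' hp.out le_top hpK, map_mk'_self])
  have hcm : ∀ W : Subgroup G, K ≤ W → (W.map f).comap f = W := fun W hW =>
    comap_map_eq_of_ker_le (by rw [hker]; exact hW)
  refine ⟨?_, ?_, ?_⟩
  · rw [← map_commutator, map_le_iff_le_comap, comap_map_eq, hker] at h1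
    exact h1
  · intro x hx y hy
    have h4 := h2 (f x) ⟨x, hx, rfl⟩ (f y) ⟨y, hy, rfl⟩
    have h5 : ⁅x, y⁆ ∈ K := by
      rw [← hker, MonoidHom.mem_ker, map_commutatorElement, commutatorElement_eq_one_iff_mul_comm]
      exact h4
    have h6 : ⁅x, y⁆ ∈ P := by
      rw [commutatorElement_def]
      exact P.mul_mem (P.mul_mem (P.mul_mem hx hy) (P.inv_mem hx)) (P.inv_mem hy)
    have h7 : K ⊓ P = ⊥ := eq_bot_of_isPGroup_of_not_dvd (hP.to_le inf_le_right)
      fun h => hpK (h.trans (Subgroup.card_dvd_of_le inf_le_left))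
    have h8 : ⁅x, y⁆ ∈ K ⊓ P := ⟨h5, h6⟩
    rw [h7, mem_bot, commutatorElement_eq_one_iff_mul_comm] at h8
    exact h8
  · intro Y hKY hY
    refine mem_normalizer_of_forall fun a ha y hy => ?_
    have h4 : Y.map f ≤ P.map f := by
      refine (map_mono hY).trans ?_
      rw [Subgroup.map_sup, sup_le_iff]
      refine ⟨?_, le_rfl⟩
      rw [hf, map_mk'_self]; exact bot_le
    have h5 : f (a * y * a⁻¹) ∈ Y.map f := by
      rw [map_mul, map_mul, map_inv]
      exact mem_normalizer_conj (h3 _ h4 ⟨a, ha, rfl⟩) ⟨y, hy, rfl⟩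
    rw [← hcm Y hKY]
    exact h5

end MP_5771ce_al
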